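import Pool.Agent.H80R2.BC.Defs

set_option autoImplicit false

/-!
C1: operators of matrices over the complex group algebra, closedness, invariance, induction.
-/

namespace Pool.Agent.H80R2.BC

open scoped ENNReal
open Module

/-! ### pullback and extension by zero -/

theorem C1_two : (0 : ℝ) < (2 : ℝ≥0∞).toReal := by norm_num

theorem C1_summable {X : Type} (x : L2 X) : Summable fun a => ‖x a‖ ^ (2 : ℝ≥0∞).toReal :=
  (memℓp_gen_iff C1_two).1 (lp.memℓp x)

theorem C1_pull_mem {X Y : Type} (f : Y → X) (hf : Function.Injective f) (x : L2 X) :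
    Memℓp (fun y => x (f y)) 2 := by
  rw [memℓp_gen_iff C1_two]
  exact (C1_summable x).comp_injective hf

/-- pullback along an injective map -/
noncomputable def C1_pullL {X Y : Type} (f : Y → X) (hf : Function.Injective f) : L2 X →ₗ[ℂ] L2 Y where
  toFun x := ⟨fun y => x (f y), C1_pull_mem f hf x⟩
  map_add' x y := by
    apply lp.ext; funext a; rfl
  map_smul' c x := by
    apply lp.ext; funext a; rfl

theorem C1_pullL_norm {X Y : Type} (f : Y → X) (hf : Function.Injective f) (x : L2 X) :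
    ‖C1_pullL f hf x‖ ≤ ‖x‖ := by
  have h1 : ‖C1_pullL f hf x‖ ^ (2 : ℝ≥0∞).toReal ≤ ‖x‖ ^ (2 : ℝ≥0∞).toReal := by
    rw [lp.norm_rpow_eq_tsum C1_two, lp.norm_rpow_eq_tsum C1_two]
    exact (tsum_comp_le_tsum_of_inj (C1_summable x) (fun a => by positivity) hf)
  exact (Real.rpow_le_rpow_iff (norm_nonneg _) (norm_nonneg _) C1_two).1 h1

/-- pullback as a bounded operator -/
noncomputable def C1_pull {X Y : Type} (f : Y → X) (hf : Function.Injective f) : L2 X →L[ℂ] L2 Y :=
  (C1_pullL f hf).mkContinuous 1 fun x => by rw [one_mul]; exact C1_pullL_norm f hf x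

@[simp] theorem C1_pull_apply {X Y : Type} (f : Y → X) (hf : Function.Injective f) (x : L2 X) (y : Y) :
    C1_pull f hf x y = x (f y) := rfl

theorem C1_pull_norm {X Y : Type} (f : Y → X) (hf : Function.Injective f) (x : L2 X) :
    ‖C1_pull f hf x‖ ≤ ‖x‖ := C1_pullL_norm f hf x

theorem C1_ext_norm_fun {X Y : Type} (f : X → Y) (hf : Function.Injective f) (x : X → ℂ) :
    (fun y => ‖Function.extend f x 0 y‖ ^ (2 : ℝ≥0∞).toReal) =
      Function.extend f (fun a => ‖x a‖ ^ (2 : ℝ≥0∞).toReal) 0 := by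
  funext y
  by_cases h : ∃ a, f a = y
  · obtain ⟨a, rfl⟩ := h
    rw [hf.extend_apply, hf.extend_apply]
  · rw [Function.extend_apply' _ _ _ h, Function.extend_apply' _ _ _ h]
    simp

theorem C1_ext_mem {X Y : Type} (f : X → Y) (hf : Function.Injective f) (x : L2 X) :
    Memℓp (Function.extend f (x : X → ℂ) 0) 2 := by
  rw [memℓp_gen_iff C1_two, C1_ext_norm_fun f hf]
  rw [← hf.summable_iff]
  · have : (Function.extend f (fun a => ‖x a‖ ^ (2 : ℝ≥0∞).toReal) 0) ∘ f =
        fun a => ‖x a‖ ^ (2 : ℝ≥0∞).toReal := by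
      funext a; exact hf.extend_apply _ _ _
    rw [this]
    exact C1_summable x
  · intro y hy
    rw [Function.extend_apply' _ _ _ (fun ⟨a, ha⟩ => hy ⟨a, ha⟩)]
    rfl

/-- extension by zero along an injective map -/
noncomputable def C1_extL {X Y : Type} (f : X → Y) (hf : Function.Injective f) : L2 X →ₗ[ℂ] L2 Y where
  toFun x := ⟨Function.extend f (x : X → ℂ) 0, C1_ext_mem f hf x⟩
  map_add' x y := by
    apply lp.ext; funext b
    show Function.extend f ((x + y : L2 X) : X → ℂ) 0 b =
      Function.extend f (x : X → ℂ) 0 b + Function.extend f (y : X → ℂ) 0 b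
    by_cases h : ∃ a, f a = b
    · obtain ⟨a, rfl⟩ := h
      simp only [hf.extend_apply]
      rfl
    · simp only [Function.extend_apply' _ _ _ h, Pi.zero_apply, add_zero]
  map_smul' c x := by
    apply lp.ext; funext b
    show Function.extend f ((c • x : L2 X) : X → ℂ) 0 b = c • Function.extend f (x : X → ℂ) 0 b
    by_cases h : ∃ a, f a = b
    · obtain ⟨a, rfl⟩ := h
      simp only [hf.extend_apply]
      rfl
    · simp only [Function.extend_apply' _ _ _ h, Pi.zero_apply, smul_zero]

theorem C1_extL_norm {X Y : Type} (f : X → Y) (hf : Function.Injective f) (x : L2 X) :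
    ‖C1_extL f hf x‖ = ‖x‖ := by
  have h1 : ‖C1_extL f hf x‖ ^ (2 : ℝ≥0∞).toReal = ‖x‖ ^ (2 : ℝ≥0∞).toReal := by
    rw [lp.norm_rpow_eq_tsum C1_two, lp.norm_rpow_eq_tsum C1_two]
    have h2 : (fun y => ‖(C1_extL f hf x) y‖ ^ (2 : ℝ≥0∞).toReal) =
        Function.extend f (fun a => ‖x a‖ ^ (2 : ℝ≥0∞).toReal) 0 := C1_ext_norm_fun f hf x
    rw [h2]
    have h3 := hf.tsum_eq (f := Function.extend f (fun a => ‖x a‖ ^ (2 : ℝ≥0∞).toReal) 0) (by
      intro y hy
      by_contra hcon
      apply hy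
      exact Function.extend_apply' _ _ _ (fun ⟨a, ha⟩ => hcon ⟨a, ha⟩))
    rw [← h3]
    simp only [hf.extend_apply]
  exact (Real.rpow_left_inj (norm_nonneg _) (norm_nonneg _) C1_two.ne').1 h1

/-- extension by zero as a bounded operator -/
noncomputable def C1_ext {X Y : Type} (f : X → Y) (hf : Function.Injective f) : L2 X →L[ℂ] L2 Y :=
  (C1_extL f hf).mkContinuous 1 fun x => by rw [one_mul, C1_extL_norm]

theorem C1_ext_coe {X Y : Type} (f : X → Y) (hf : Function.Injective f) (x : L2 X) (b : Y) :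
    C1_ext f hf x b = Function.extend f (x : X → ℂ) 0 b := rfl

theorem C1_ext_apply {X Y : Type} (f : X → Y) (hf : Function.Injective f) (x : L2 X) (a : X) :
    C1_ext f hf x (f a) = x a := hf.extend_apply _ _ _

theorem C1_ext_apply' {X Y : Type} (f : X → Y) (hf : Function.Injective f) (x : L2 X) (b : Y)
    (h : ¬ ∃ a, f a = b) : C1_ext f hf x b = 0 := Function.extend_apply' _ _ _ h

theorem C1_ext_norm {X Y : Type} (f : X → Y) (hf : Function.Injective f) (x : L2 X) :
    ‖C1_ext f hf x‖ = ‖x‖ := C1_extL_norm f hf x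

/-! ### operators of matrices -/
section C
variable {ι κ μ ι' κ' G G' : Type} [Group G] [Group G'] [Fintype ι] [Fintype κ] [Fintype μ]
  [Fintype ι'] [Fintype κ']

theorem C1_inj1 (i : ι) (h : G) : Function.Injective (fun g : G => ((i, g * h) : ι × G)) := by
  intro a b hab
  simpa using hab

theorem C1_inj2 (k : κ) : Function.Injective (fun g : G => ((k, g) : κ × G)) := by
  intro a b hab
  simpa using hab

theorem exists_rho (A : GMat κ ι G) : ∃ T : L2 (ι × G) →L[ℂ] L2 (κ × G), Equi T ∧
    ∀ x k g, T x (k, g) = act A x k g := by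
  classical
  set T : L2 (ι × G) →L[ℂ] L2 (κ × G) := ∑ k : κ, ∑ i : ι, ∑ h ∈ (A k i).support,
    (A k i h) • ((C1_ext (fun g : G => ((k, g) : κ × G)) (C1_inj2 k)).comp
      (C1_pull (fun g : G => ((i, g * h) : ι × G)) (C1_inj1 i h))) with hT
  have hTx : ∀ x k g, T x (k, g) = act A x k g := by
    intro x k g
    rw [hT]
    simp only [ContinuousLinearMap.sum_apply, lp.coeFn_sum, Finset.sum_apply,
      ContinuousLinearMap.smul_apply, lp.coeFn_smul, Pi.smul_apply,
      ContinuousLinearMap.comp_apply, smul_eq_mul]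
    rw [Finset.sum_eq_single k]
    · unfold act
      apply Finset.sum_congr rfl
      intro i _
      rw [Finsupp.sum]
      apply Finset.sum_congr rfl
      intro h _
      have := C1_ext_apply (fun g : G => ((k, g) : κ × G)) (C1_inj2 k)
        (C1_pull (fun g : G => ((i, g * h) : ι × G)) (C1_inj1 i h) x) g
      rw [this]
      rfl
    · intro k' _ hk'
      apply Finset.sum_eq_zero
      intro i _
      apply Finset.sum_eq_zero
      intro h _
      rw [C1_ext_apply', mul_zero]
      rintro ⟨a, ha⟩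
      apply hk'
      simpa using congrArg Prod.fst ha
    · intro h; exact absurd (Finset.mem_univ _) h
  refine ⟨T, ?_, hTx⟩
  intro g x y hxy k h
  rw [hTx, hTx]
  unfold act
  apply Finset.sum_congr rfl
  intro i _
  rw [Finsupp.sum, Finsupp.sum]
  apply Finset.sum_congr rfl
  intro h' _
  simp only
  rw [hxy i (h * h'), mul_assoc]

theorem kerA_closed (A : GMat κ ι G) : IsClosed (kerA A : Set (L2 (ι × G))) := by
  obtain ⟨T, _, hT⟩ := exists_rho A
  have h1 : (kerA A : Set (L2 (ι × G))) = T ⁻¹' {0} := by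
    ext x
    constructor
    · intro hx
      rw [Set.mem_preimage, Set.mem_singleton_iff]
      apply lp.ext
      funext ⟨k, g⟩
      rw [hT]
      exact hx k g
    · intro hx k g
      rw [Set.mem_preimage, Set.mem_singleton_iff] at hx
      rw [← hT, hx]
      rfl
  rw [h1]
  exact isClosed_singleton.preimage T.continuous

theorem kerA_linv (A : GMat κ ι G) : LInv (kerA A) := by
  intro g x y hx hxy k h
  have h1 : act A y k h = act A x k (g * h) := by
    unfold act
    apply Finset.sum_congr rfl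
    intro i _
    rw [Finsupp.sum, Finsupp.sum]
    apply Finset.sum_congr rfl
    intro h' _
    simp only
    rw [hxy i (h * h'), mul_assoc]
  rw [h1]
  exact hx k (g * h)

theorem C1_eval_continuous {X : Type} (a : X) : Continuous (fun x : L2 X => x a) := by
  have h1 : (fun x : L2 X => x a) = fun x : L2 X =>
      C1_pull (fun _ : Unit => a) (fun _ _ _ => rfl) x () := rfl
  have h2 : LipschitzWith 1 (fun x : L2 X => x a) := by
    apply LipschitzWith.of_dist_le_mul
    intro x y
    rw [dist_eq_norm, dist_eq_norm, NNReal.coe_one, one_mul]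
    exact lp.norm_apply_le_norm (by norm_num) (x - y) a
  exact h2.continuous

theorem pt_closed (Φ : Submodule ℂ (μ → ℂ)) :
    IsClosed ((pt Φ : Submodule ℂ (L2 ((ι × μ) × G))) : Set (L2 ((ι × μ) × G))) := by
  have h1 : ((pt Φ : Submodule ℂ (L2 ((ι × μ) × G))) : Set (L2 ((ι × μ) × G))) =
      ⋂ (p : ι) (g : G), (fun x : L2 ((ι × μ) × G) => (fun i : μ => x ((p, i), g))) ⁻¹' (Φ : Set (μ → ℂ)) := by
    ext x
    simp only [Set.mem_iInter, Set.mem_preimage]
    rfl
  rw [h1]
  apply isClosed_iInter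
  intro p
  apply isClosed_iInter
  intro g
  apply (Submodule.closed_of_finiteDimensional Φ).preimage
  apply continuous_pi
  intro i
  exact C1_eval_continuous _

theorem pt_linv (Φ : Submodule ℂ (μ → ℂ)) : LInv (pt Φ : Submodule ℂ (L2 ((ι × μ) × G))) := by
  intro g x y hx hxy p h
  have h1 : (fun i => y ((p, i), h)) = fun i => x ((p, i), g * h) := by
    funext i
    exact hxy (p, i) h
  rw [h1]
  exact hx p (g * h)

/-! ### induction -/

theorem C1_infDist {X Y : Type} (f : X → Y) (hf : Function.Injective f)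
    (K0 : Submodule ℂ (L2 X)) (K1 : Submodule ℂ (L2 Y)) (d0 : L2 X) (d1 : L2 Y)
    (hE : ∀ z ∈ K0, C1_ext f hf z ∈ K1) (hR : ∀ y ∈ K1, C1_pull f hf y ∈ K0)
    (hd0 : C1_ext f hf d0 = d1) :
    Metric.infDist d1 (K1 : Set (L2 Y)) = Metric.infDist d0 (K0 : Set (L2 X)) := by
  have hd1 : C1_pull f hf d1 = d0 := by
    rw [← hd0]
    apply lp.ext
    funext a
    rw [C1_pull_apply, C1_ext_apply]
  apply le_antisymm
  · rw [Metric.le_infDist ⟨0, K0.zero_mem⟩]
    intro z hz
    refine (Metric.infDist_le_dist_of_mem (hE z hz)).trans ?_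
    rw [dist_eq_norm, dist_eq_norm, ← hd0, ← map_sub, C1_ext_norm]
  · rw [Metric.le_infDist ⟨0, K1.zero_mem⟩]
    intro y hy
    refine (Metric.infDist_le_dist_of_mem (hR y hy)).trans ?_
    rw [dist_eq_norm, dist_eq_norm, ← hd1, ← map_sub]
    exact C1_pull_norm f hf _

theorem C1_indf_inj (inc : G →* G') (hinc : Function.Injective inc) :
    Function.Injective (fun a : ι × G => ((a.1, inc a.2) : ι × G')) := by
  rintro ⟨a, g⟩ ⟨b, h⟩ hab
  simp only [Prod.mk.injEq] at hab
  rw [Prod.mk.injEq]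
  exact ⟨hab.1, hinc hab.2⟩

theorem C1_ext_dl (inc : G →* G') (hinc : Function.Injective inc) (i : ι) :
    C1_ext (fun a : ι × G => ((a.1, inc a.2) : ι × G')) (C1_indf_inj inc hinc) (dl G i) = dl G' i := by
  classical
  apply lp.ext
  funext ⟨b, r⟩
  by_cases h : ∃ a : ι × G, (a.1, inc a.2) = (b, r)
  · obtain ⟨⟨a, g⟩, ha⟩ := h
    simp only [Prod.mk.injEq] at ha
    obtain ⟨rfl, rfl⟩ := ha
    have h1 := C1_ext_apply (fun a : ι × G => ((a.1, inc a.2) : ι × G')) (C1_indf_inj inc hinc)
      (dl G i) (a, g)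
    simp only at h1
    rw [h1]
    unfold dl
    rw [lp.coeFn_single, lp.coeFn_single, Pi.single_apply, Pi.single_apply]
    have h2 : ((a, g) = (i, (1 : G))) ↔ ((a, inc g) = (i, (1 : G'))) := by
      simp only [Prod.mk.injEq]
      constructor
      · rintro ⟨h3, h4⟩; exact ⟨h3, by rw [h4, map_one]⟩
      · rintro ⟨h3, h4⟩; exact ⟨h3, hinc (by rw [h4, map_one])⟩
    by_cases h3 : (a, g) = (i, (1 : G))
    · rw [if_pos h3, if_pos (h2.1 h3)]
    · rw [if_neg h3, if_neg (fun h => h3 (h2.2 h))]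
  · rw [C1_ext_apply' _ _ _ _ h]
    unfold dl
    rw [lp.coeFn_single, Pi.single_apply, if_neg]
    rintro h1
    apply h
    refine ⟨(i, 1), ?_⟩
    rw [map_one]
    exact h1.symm

theorem C1_act_push (inc : G →* G') (A : GMat κ ι G) (x : ι × G' → ℂ) (k : κ) (r : G') :
    act (push inc A) x k r = ∑ i, (A k i).sum (fun h c => c * x (i, r * inc h)) := by
  unfold act push
  apply Finset.sum_congr rfl
  intro i _
  rw [Finsupp.sum_mapDomain_index]
  · intro b; rw [zero_mul]
  · intro b c1 c2; rw [add_mul]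

theorem C1_res_ker (inc : G →* G') (hinc : Function.Injective inc) (A : GMat κ ι G)
    (y : L2 (ι × G')) (hy : y ∈ kerA (push inc A)) :
    C1_pull (fun a : ι × G => ((a.1, inc a.2) : ι × G')) (C1_indf_inj inc hinc) y ∈ kerA A := by
  intro k g
  have h1 := hy k (inc g)
  rw [C1_act_push] at h1
  rw [← h1]
  unfold act
  apply Finset.sum_congr rfl
  intro i _
  rw [Finsupp.sum, Finsupp.sum]
  apply Finset.sum_congr rfl
  intro h _
  rw [C1_pull_apply, map_mul]

theorem C1_ext_ker (inc : G →* G') (hinc : Function.Injective inc) (A : GMat κ ι G)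
    (z : L2 (ι × G)) (hz : z ∈ kerA A) :
    C1_ext (fun a : ι × G => ((a.1, inc a.2) : ι × G')) (C1_indf_inj inc hinc) z ∈
      kerA (push inc A) := by
  intro k r
  rw [C1_act_push]
  by_cases hr : ∃ g, inc g = r
  · obtain ⟨g, rfl⟩ := hr
    have h1 := hz k g
    rw [← h1]
    unfold act
    apply Finset.sum_congr rfl
    intro i _
    rw [Finsupp.sum, Finsupp.sum]
    apply Finset.sum_congr rfl
    intro h _
    have h2 := C1_ext_apply (fun a : ι × G => ((a.1, inc a.2) : ι × G')) (C1_indf_inj inc hinc)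
      z (i, g * h)
    simp only [map_mul] at h2
    rw [h2]
  · apply Finset.sum_eq_zero
    intro i _
    rw [Finsupp.sum]
    apply Finset.sum_eq_zero
    intro h _
    rw [C1_ext_apply', mul_zero]
    rintro ⟨⟨a, g⟩, ha⟩
    simp only [Prod.mk.injEq] at ha
    apply hr
    refine ⟨g * h⁻¹, ?_⟩
    rw [map_mul, ha.2, map_inv, mul_inv_cancel_right]

/-- induction from a subgroup does not change dimensions -/
theorem vdim_ind (inc : G →* G') (hinc : Function.Injective inc) (A : GMat κ (ι × μ) G)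
    (Φ : Submodule ℂ (μ → ℂ)) :
    vdim (kerA (push inc A) ⊓ pt Φ) = vdim (kerA A ⊓ pt Φ) := by
  unfold vdim
  apply Finset.sum_congr rfl
  intro i _
  rw [C1_infDist (fun a : (ι × μ) × G => ((a.1, inc a.2) : (ι × μ) × G')) (C1_indf_inj inc hinc)
    (kerA A ⊓ pt Φ) (kerA (push inc A) ⊓ pt Φ) (dl G i) (dl G' i) ?_ ?_ (C1_ext_dl inc hinc i)]
  · rintro z ⟨hz1, hz2⟩
    refine ⟨C1_ext_ker inc hinc A z hz1, ?_⟩
    intro p r
    by_cases hr : ∃ g, inc g = r
    · obtain ⟨g, rfl⟩ := hr
      have h1 : (fun i => (C1_ext (fun a : (ι × μ) × G => ((a.1, inc a.2) : (ι × μ) × G'))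
          (C1_indf_inj inc hinc) z) ((p, i), inc g)) = fun i => z ((p, i), g) := by
        funext i
        exact C1_ext_apply (fun a : (ι × μ) × G => ((a.1, inc a.2) : (ι × μ) × G'))
          (C1_indf_inj inc hinc) z ((p, i), g)
      rw [h1]
      exact hz2 p g
    · have h1 : (fun i => (C1_ext (fun a : (ι × μ) × G => ((a.1, inc a.2) : (ι × μ) × G'))
          (C1_indf_inj inc hinc) z) ((p, i), r)) = (0 : μ → ℂ) := by
        funext i
        apply C1_ext_apply'
        rintro ⟨⟨a, g⟩, ha⟩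
        simp only [Prod.mk.injEq] at ha
        exact hr ⟨g, ha.2⟩
      rw [h1]
      exact Φ.zero_mem
  · rintro y ⟨hy1, hy2⟩
    refine ⟨C1_res_ker inc hinc A y hy1, ?_⟩
    intro p g
    exact hy2 p (inc g)

theorem dk_push (inc : G →* G') (hinc : Function.Injective inc) (A : GMat κ ι G) :
    dk (push inc A) = dk A := by
  unfold dk vdim
  apply Finset.sum_congr rfl
  intro i _
  rw [C1_infDist (fun a : ι × G => ((a.1, inc a.2) : ι × G')) (C1_indf_inj inc hinc)
    (kerA A) (kerA (push inc A)) (dl G i) (dl G' i) (C1_ext_ker inc hinc A)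
    (C1_res_ker inc hinc A) (C1_ext_dl inc hinc i)]

theorem C1_ref_inj (e : ι' ≃ ι) : Function.Injective (fun a : ι' × G => ((e a.1, a.2) : ι × G)) := by
  rintro ⟨a, g⟩ ⟨b, h⟩ hab
  simp only [Prod.mk.injEq, e.injective.eq_iff] at hab
  rw [Prod.mk.injEq]
  exact hab

theorem dk_reindex (e : ι' ≃ ι) (e' : κ' ≃ κ) (A : GMat κ ι G) :
    dk (fun k i => A (e' k) (e i) : GMat κ' ι' G) = dk A := by
  classical
  unfold dk vdim
  apply Fintype.sum_equiv e
  intro i
  rw [C1_infDist (fun a : ι' × G => ((e a.1, a.2) : ι × G)) (C1_ref_inj e)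
    (kerA (fun k i => A (e' k) (e i) : GMat κ' ι' G)) (kerA A) (dl G i) (dl G (e i))]
  · intro z hz k g
    have h1 := hz (e'.symm k) g
    rw [← h1]
    unfold act
    symm
    apply Fintype.sum_equiv e
    intro i
    rw [Finsupp.sum, Finsupp.sum]
    simp only [Equiv.apply_symm_apply]
    apply Finset.sum_congr rfl
    intro h _
    have h2 := C1_ext_apply (fun a : ι' × G => ((e a.1, a.2) : ι × G)) (C1_ref_inj e) z (i, g * h)
    simp only at h2
    rw [h2]
  · intro y hy k g
    have h1 := hy (e' k) g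
    rw [← h1]
    unfold act
    apply Fintype.sum_equiv e
    intro i
    rfl
  · apply lp.ext
    funext ⟨b, r⟩
    obtain ⟨a, rfl⟩ := e.surjective b
    have h1 := C1_ext_apply (fun a : ι' × G => ((e a.1, a.2) : ι × G)) (C1_ref_inj e)
      (dl G i) (a, r)
    simp only at h1
    rw [h1]
    unfold dl
    rw [lp.coeFn_single, lp.coeFn_single, Pi.single_apply, Pi.single_apply]
    have h2 : ((a, r) = (i, (1 : G))) ↔ ((e a, r) = (e i, (1 : G))) := by
      simp only [Prod.mk.injEq, e.injective.eq_iff]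
    by_cases h3 : (a, r) = (i, (1 : G))
    · rw [if_pos h3, if_pos (h2.1 h3)]
    · rw [if_neg h3, if_neg (fun h => h3 (h2.2 h))]

end C

end Pool.Agent.H80R2.BC
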