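import Pool.Agent.H80R2.BC.L2Pull

/-!
Amplification: dimensions of `K^N`.
-/

set_option autoImplicit false
set_option linter.unusedSectionVars false

namespace Pool.Agent.H80R2.BC

open scoped ENNReal
open Module

section C2
variable {ι ι' κ G : Type} [Group G] [Fintype ι] [Fintype ι'] [Fintype κ]

theorem C2_inj {N : ℕ} (e : ι × Fin N ≃ ι') (n : Fin N) :
    Function.Injective (fun q : ι × G => ((e (q.1, n), q.2) : ι' × G)) := by
  rintro ⟨i, g⟩ ⟨i', g'⟩ h
  simp only [Prod.mk.injEq, EmbeddingLike.apply_eq_iff_eq, and_true] at h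
  rw [h.1, h.2]

open Classical in
theorem C2_dl_apply (i : ι) (q : ι × G) : (dl G i : L2 (ι × G)) q = if q = (i, 1) then 1 else 0 := by
  unfold dl
  rw [lp.single_apply]
  by_cases h : q = (i, 1)
  · subst h; simp
  · simp [h]

theorem C2_pull_dl {N : ℕ} (e : ι × Fin N ≃ ι') (n : Fin N) (i : ι) :
    LPpull (fun q : ι × G => ((e (q.1, n), q.2) : ι' × G)) (C2_inj e n) (dl G (e (i, n)))
      = dl G i := by
  classical
  ext q
  obtain ⟨i', g⟩ := q
  rw [LPpull_apply, C2_dl_apply, C2_dl_apply]
  simp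

theorem C2_push_dl {N : ℕ} (e : ι × Fin N ≃ ι') (n : Fin N) (i : ι) :
    LPpush (fun q : ι × G => ((e (q.1, n), q.2) : ι' × G)) (C2_inj e n) (dl G i)
      = dl G (e (i, n)) := by
  classical
  ext b
  by_cases hb : ∃ a : ι × G, ((e (a.1, n), a.2) : ι' × G) = b
  · obtain ⟨a, rfl⟩ := hb
    rw [LPpush_apply (fun q : ι × G => ((e (q.1, n), q.2) : ι' × G)) (C2_inj e n) _ a,
      C2_dl_apply, C2_dl_apply]
    obtain ⟨i', g⟩ := a
    simp
  · rw [LPpush_apply' _ _ _ b hb, C2_dl_apply, if_neg]
    rintro rfl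
    exact hb ⟨(i, 1), rfl⟩

/-- dimension of an amplified subspace -/
theorem C2_amp {N : ℕ} (e : ι × Fin N ≃ ι') (K : Submodule ℂ (L2 (ι × G)))
    (K' : Submodule ℂ (L2 (ι' × G)))
    (h : ∀ x : L2 (ι' × G), x ∈ K' ↔
      ∀ n, LPpull (fun q : ι × G => ((e (q.1, n), q.2) : ι' × G)) (C2_inj e n) x ∈ K) :
    vdim K' = N * vdim K := by
  have key : ∀ i n, Metric.infDist (dl G (e (i, n))) (K' : Set (L2 (ι' × G)))
      = Metric.infDist (dl G i) (K : Set (L2 (ι × G))) := by
    intro i n
    apply le_antisymm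
    · refine (Metric.le_infDist ⟨0, K.zero_mem⟩).2 ?_
      intro y hy
      have hmem : LPpush (fun q : ι × G => ((e (q.1, n), q.2) : ι' × G)) (C2_inj e n) y ∈ K' := by
        rw [h]
        intro n'
        by_cases hn : n' = n
        · subst hn
          have : LPpull (fun q : ι × G => ((e (q.1, n'), q.2) : ι' × G)) (C2_inj e n')
              (LPpush (fun q : ι × G => ((e (q.1, n'), q.2) : ι' × G)) (C2_inj e n') y) = y := by
            ext q
            rw [LPpull_apply]
            exact LPpush_apply (fun q : ι × G => ((e (q.1, n'), q.2) : ι' × G)) (C2_inj e n') y q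
          rw [this]; exact hy
        · have : LPpull (fun q : ι × G => ((e (q.1, n'), q.2) : ι' × G)) (C2_inj e n')
              (LPpush (fun q : ι × G => ((e (q.1, n), q.2) : ι' × G)) (C2_inj e n) y) = 0 := by
            ext q
            rw [LPpull_apply, LPpush_apply']
            · rfl
            · rintro ⟨a, ha⟩
              simp only [Prod.mk.injEq, EmbeddingLike.apply_eq_iff_eq] at ha
              exact hn ha.1.2.symm
          rw [this]; exact K.zero_mem
      calc Metric.infDist (dl G (e (i, n))) (K' : Set (L2 (ι' × G)))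
          ≤ dist (dl G (e (i, n)))
            (LPpush (fun q : ι × G => ((e (q.1, n), q.2) : ι' × G)) (C2_inj e n) y) :=
            Metric.infDist_le_dist_of_mem hmem
        _ = dist (dl G i) y := by
            rw [← C2_push_dl e n i, dist_eq_norm, dist_eq_norm, ← LPpush_sub, LPpush_norm]
    · refine (Metric.le_infDist ⟨0, K'.zero_mem⟩).2 ?_
      intro x hx
      calc Metric.infDist (dl G i) (K : Set (L2 (ι × G)))
          ≤ dist (dl G i) (LPpull (fun q : ι × G => ((e (q.1, n), q.2) : ι' × G))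
              (C2_inj e n) x) :=
            Metric.infDist_le_dist_of_mem ((h x).1 hx n)
        _ ≤ dist (dl G (e (i, n))) x := by
            rw [← C2_pull_dl e n i, dist_eq_norm, dist_eq_norm, ← LPpull_sub]
            exact LPpull_norm_le _ _ _
  unfold vdim
  rw [← e.sum_comp, Fintype.sum_prod_type, Finset.mul_sum]
  refine Finset.sum_congr rfl fun i _ => ?_
  rw [Finset.sum_congr rfl fun n _ => by rw [key i n]]
  simp
  ring

theorem C2_act_amp {N : ℕ} (A : GMat κ ι G) (x : (ι × Fin N) × G → ℂ) (k : κ) (n : Fin N)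
    (g : G) : act (amp (N := N) A) x (k, n) g = act A (fun q => x ((q.1, n), q.2)) k g := by
  unfold act amp
  rw [Fintype.sum_prod_type]
  refine Finset.sum_congr rfl fun p _ => ?_
  rw [Finset.sum_eq_single n]
  · simp
  · intro b _ hb
    simp [hb]
  · simp

theorem dk_amp (N : ℕ) (A : GMat κ ι G) : dk (amp (N := N) A) = N * dk A := by
  unfold dk
  apply C2_amp (Equiv.refl _)
  intro x
  constructor
  · intro hx n k g
    have := hx (k, n) g
    rw [C2_act_amp] at this
    exact this
  · rintro hx ⟨k, n⟩ g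
    have := hx n k g
    rw [C2_act_amp]
    exact this

/-- the regrouping of indices -/
def C2_e (ι μ : Type) (N : ℕ) : (ι × μ) × Fin N ≃ (ι × Fin N) × μ where
  toFun q := ((q.1.1, q.2), q.1.2)
  invFun q := ((q.1.1, q.2), q.1.2)
  left_inv _ := rfl
  right_inv _ := rfl

theorem del_amp (N : ℕ) (P0 P1 : GMat κ ι G) (Ψ : Psi) :
    del (amp (N := N) P0) (amp (N := N) P1) Ψ = N * del P0 P1 Ψ := by
  unfold del XW
  apply C2_amp (C2_e ι (Fin (Ψ.c + 1)) N)
  intro x
  constructor
  · intro hx n
    refine ⟨?_, ?_⟩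
    · rintro ⟨k, i⟩ g
      have := hx.1 ((k, n), i) g
      rw [LP_act_Tm, C2_act_amp, C2_act_amp] at this
      rw [LP_act_Tm]
      exact this
    · intro p g
      exact hx.2 (p, n) g
  · intro hx
    refine ⟨?_, ?_⟩
    · rintro ⟨⟨k, n⟩, i⟩ g
      have := (hx n).1 (k, i) g
      rw [LP_act_Tm] at this
      rw [LP_act_Tm, C2_act_amp, C2_act_amp]
      exact this
    · rintro ⟨p, n⟩ g
      exact (hx n).2 p g

end C2

end Pool.Agent.H80R2.BC
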