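import Mathlib

set_option autoImplicit false
set_option linter.unusedVariables false

/-!
Task I of helper80 (by helper992): the final optimisation and arithmetic.
-/

namespace Pool.Agent.H80R2.BC

section I

theorem I_btw (x y : ℝ) (hx : 0 ≤ x) (hxy : x < y) :
    ∃ N j : ℕ, 1 ≤ N ∧ x < (j : ℝ) / N ∧ (j : ℝ) / N < y := by
  obtain ⟨q, h1, h2⟩ := exists_rat_btwn hxy
  have hq : 0 < q := by
    have : (0 : ℝ) < q := hx.trans_lt h1
    exact_mod_cast this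
  refine ⟨q.den, q.num.toNat, q.den_pos, ?_, ?_⟩
  · have h3 : ((q.num.toNat : ℕ) : ℝ) / q.den = q := by
      have h4 : ((q.num.toNat : ℕ) : ℤ) = q.num := Int.toNat_of_nonneg (Rat.num_nonneg.2 hq.le)
      have h5 : ((q.num.toNat : ℕ) : ℝ) = (q.num : ℝ) := by exact_mod_cast congrArg (Int.cast : ℤ → ℝ) h4
      rw [h5]
      exact_mod_cast (Rat.num_div_den q)
    rw [h3]; exact h1
  · have h3 : ((q.num.toNat : ℕ) : ℝ) / q.den = q := by
      have h4 : ((q.num.toNat : ℕ) : ℤ) = q.num := Int.toNat_of_nonneg (Rat.num_nonneg.2 hq.le)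
      have h5 : ((q.num.toNat : ℕ) : ℝ) = (q.num : ℝ) := by exact_mod_cast congrArg (Int.cast : ℤ → ℝ) h4
      rw [h5]
      exact_mod_cast (Rat.num_div_den q)
    rw [h3]; exact h2

/-- for every large `N` there is a fraction with denominator `N` -/
theorem I_btwN (x y : ℝ) (hx : 0 ≤ x) (hxy : x < y) :
    ∃ N0 : ℕ, 1 ≤ N0 ∧ ∀ N : ℕ, N0 ≤ N → ∃ j : ℕ, x < (j : ℝ) / N ∧ (j : ℝ) / N < y := by
  obtain ⟨N0, hN0⟩ := exists_nat_gt (1 / (y - x))
  refine ⟨max N0 1, le_max_right _ _, fun N hN => ?_⟩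
  have hN1 : 1 ≤ N := (le_max_right _ _).trans hN
  have hN' : (0 : ℝ) < N := by exact_mod_cast hN1
  have hyx : 0 < y - x := sub_pos.2 hxy
  have h1 : 1 < N * (y - x) := by
    have h2 : (N0 : ℝ) ≤ N := by exact_mod_cast (le_max_left _ _).trans hN
    have h3 : 1 / (y - x) < N := hN0.trans_le h2
    rwa [div_lt_iff₀ hyx] at h3
  refine ⟨⌊(N : ℝ) * x⌋₊ + 1, ?_, ?_⟩
  · rw [lt_div_iff₀ hN', mul_comm]
    push_cast
    exact Nat.lt_floor_add_one _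
  · rw [div_lt_iff₀ hN']
    push_cast
    have : (⌊(N : ℝ) * x⌋₊ : ℝ) ≤ N * x := Nat.floor_le (by positivity)
    nlinarith

theorem I_int (L : ℝ) (f : ℝ) (c : ℕ) (x y : ℝ) (hx : 0 ≤ x) (hxy : x < y) (hL : ∃ z : ℤ, L = z)
    (h : ∀ N j : ℕ, 1 ≤ N → x < (j : ℝ) / N → (j : ℝ) / N < y →
      ∃ z : ℤ, L * (N * f - j * c) = z) : ∃ z : ℤ, L * f = z := by
  obtain ⟨N0, hN0, h0⟩ := I_btwN x y hx hxy
  have h1 : ∀ N, N0 ≤ N → ∃ z : ℤ, L * (N * f) = z := by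
    intro N hN
    obtain ⟨j, h1, h2⟩ := h0 N hN
    obtain ⟨z, hz⟩ := h N j (hN0.trans hN) h1 h2
    obtain ⟨l, hl⟩ := hL
    refine ⟨z + l * j * c, ?_⟩
    push_cast
    rw [← hz, ← hl]
    ring
  obtain ⟨z1, hz1⟩ := h1 N0 le_rfl
  obtain ⟨z2, hz2⟩ := h1 (N0 + 1) (Nat.le_succ _)
  refine ⟨z2 - z1, ?_⟩
  push_cast
  rw [← hz1, ← hz2]
  push_cast
  ring

theorem I_lim_left (A B x y : ℝ) (hx : 0 ≤ x) (hxy : x < y)
    (h : ∀ N j : ℕ, 1 ≤ N → x < (j : ℝ) / N → (j : ℝ) / N < y → A + B * ((j : ℝ) / N) ≤ 0) :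
    A + B * y ≤ 0 := by
  by_contra hcon
  push Not at hcon
  set ε := A + B * y with hε
  have hd : 0 < |B| + 1 := by positivity
  set x' := max x (y - ε / (|B| + 1)) with hx'
  have hx'y : x' < y := by
    rw [hx']
    apply max_lt hxy
    have : 0 < ε / (|B| + 1) := by positivity
    linarith
  obtain ⟨N, j, hN, h1, h2⟩ := I_btw x' y (hx.trans (le_max_left _ _)) hx'y
  have h3 := h N j hN ((le_max_left _ _).trans_lt h1) h2
  have h4 : y - ε / (|B| + 1) < (j : ℝ) / N := (le_max_right _ _).trans_lt h1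
  have h5 : B * (y - (j : ℝ) / N) ≤ |B| * (y - (j : ℝ) / N) :=
    mul_le_mul_of_nonneg_right (le_abs_self B) (by linarith)
  have h6 : (|B| + 1) * (y - (j : ℝ) / N) < ε := by
    have : y - (j : ℝ) / N < ε / (|B| + 1) := by linarith
    rw [lt_div_iff₀ hd] at this
    linarith
  nlinarith

theorem I_lim_right (A B x y : ℝ) (hx : 0 ≤ x) (hxy : x < y)
    (h : ∀ N j : ℕ, 1 ≤ N → x < (j : ℝ) / N → (j : ℝ) / N < y → A + B * ((j : ℝ) / N) ≤ 0) :
    A + B * x ≤ 0 := by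
  by_contra hcon
  push Not at hcon
  set ε := A + B * x with hε
  have hd : 0 < |B| + 1 := by positivity
  set y' := min y (x + ε / (|B| + 1)) with hy'
  have hxy' : x < y' := by
    rw [hy']
    apply lt_min hxy
    have : 0 < ε / (|B| + 1) := by positivity
    linarith
  obtain ⟨N, j, hN, h1, h2⟩ := I_btw x y' hx hxy'
  have h3 := h N j hN h1 (h2.trans_le (min_le_left _ _))
  have h4 : (j : ℝ) / N < x + ε / (|B| + 1) := h2.trans_le (min_le_right _ _)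
  have h5 : -B * ((j : ℝ) / N - x) ≤ |B| * ((j : ℝ) / N - x) :=
    mul_le_mul_of_nonneg_right (neg_le_abs B) (by linarith)
  have h6 : (|B| + 1) * ((j : ℝ) / N - x) < ε := by
    have : (j : ℝ) / N - x < ε / (|B| + 1) := by linarith
    rw [lt_div_iff₀ hd] at this
    linarith
  nlinarith

/-- the integrality argument -/
theorem I_final (q : ℝ) (m : ℕ) (hm : 1 ≤ m) (h : ∀ k : ℕ, 1 ≤ k → ∃ z : ℤ, (m : ℝ) * q ^ k = z) :
    ∃ z : ℤ, q = z := by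
  have hm0 : (m : ℝ) ≠ 0 := by
    have : (0 : ℝ) < m := by exact_mod_cast hm
    exact this.ne'
  obtain ⟨z, hz⟩ := h 1 le_rfl
  rw [pow_one] at hz
  set r : ℚ := (z : ℚ) / (m : ℚ) with hr
  have hq : q = (r : ℝ) := by
    rw [hr]
    push_cast
    rw [← hz]
    field_simp
  have hm0' : (m : ℚ) ≠ 0 := by exact_mod_cast hm0
  have hden : ∀ k : ℕ, 1 ≤ k → r.den ^ k ∣ m := by
    intro k hk
    obtain ⟨y, hy⟩ := h k hk
    rw [hq] at hy
    have hy' : (m : ℚ) * r ^ k = y := by exact_mod_cast hy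
    have h1 : r ^ k = (y : ℚ) / ((m : ℤ) : ℚ) := by
      rw [← hy']
      push_cast
      field_simp
    have h2 : ((r ^ k).den : ℤ) ∣ (m : ℤ) := by
      rw [h1, ← Rat.divInt_eq_div]
      exact Rat.den_dvd y m
    rw [Rat.den_pow] at h2
    exact_mod_cast h2
  have h1 : r.den = 1 := by
    by_contra hne
    have h2 : 2 ≤ r.den := by
      have := r.den_pos
      omega
    have h3 := Nat.le_of_dvd (by omega) (hden (m + 1) (by omega))
    have h4 : 2 ^ (m + 1) ≤ r.den ^ (m + 1) := Nat.pow_le_pow_left h2 _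
    have h5 : m + 1 < 2 ^ (m + 1) := Nat.lt_two_pow_self
    omega
  refine ⟨r.num, ?_⟩
  rw [hq]
  have h6 : (r.num : ℚ) = r := Rat.den_eq_one_iff r |>.1 h1
  exact_mod_cast h6.symm

theorem arith {α : Type} (c : α → ℕ) (δ : ℕ → α → ℝ) (L : ℕ) (hL : 0 < L) (κ w : ℝ)
    (hκ : 0 ≤ κ) (hw : κ < w) (hδ : ∀ k a, 0 ≤ δ k a)
    (M : ∀ k N j : ℕ, 1 ≤ k → 1 ≤ N → (N : ℝ) * κ ^ k < j → ∃ a : α,
      (∃ z : ℤ, (L : ℝ) ^ k * (N * δ k a - j * c a) = z) ∧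
      ∀ b : α, N * δ k b - j * c b ≤ N * δ k a - j * c a)
    (F1 : ∀ k a, 1 ≤ k → (∃ b, c b = c a + 1 ∧ δ k a + w ^ k ≤ δ k b) ∨
      (∃ b, c b + 1 = c a ∧ δ k a - w ^ k ≤ δ k b))
    (F3 : ∀ k a (s : ℝ), 1 ≤ k → 0 ≤ s → (∀ b, c b + 1 = c a → δ k b ≤ δ k a - s ^ k) →
      s * c a ≤ δ 1 a) :
    ∃ z : ℤ, (L : ℝ) * w = z := by
  -- step (0)
  obtain ⟨N1, j1, hN1, hj1, hj2⟩ := I_btw κ w hκ hw
  have hN1' : (0 : ℝ) < N1 := by exact_mod_cast hN1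
  set v : ℝ := (j1 : ℝ) / N1 with hv
  have hv0 : 0 ≤ v := hκ.trans hj1.le
  obtain ⟨a0, -, ha0⟩ := M 1 N1 j1 le_rfl hN1 (by
    rw [pow_one, mul_comm]
    exact (lt_div_iff₀ hN1').1 hj1)
  set B : ℝ := δ 1 a0 - v * c a0 with hB
  have hBb : ∀ b, δ 1 b - v * c b ≤ B := by
    intro b
    have h1 := ha0 b
    have h2 : (j1 : ℝ) = N1 * v := by rw [hv]; field_simp
    rw [h2] at h1
    have h3 : (N1 : ℝ) * (δ 1 b - v * c b) ≤ N1 * (δ 1 a0 - v * c a0) := by linarith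
    exact le_of_mul_le_mul_left h3 hN1'
  set w' : ℝ := (w + v) / 2 with hw'
  have hw'1 : v < w' := by rw [hw']; linarith
  have hw'2 : w' < w := by rw [hw']; linarith
  have hw'0 : 0 ≤ w' := hv0.trans hw'1.le
  set C0 : ℕ := ⌊B / (w' - v)⌋₊ with hC0
  -- (2) bound
  have bound : ∀ (k : ℕ) (s : ℝ) (a : α), 1 ≤ k → w' ^ k ≤ s →
      (∀ b, δ k b - s * c b ≤ δ k a - s * c a) → c a ≤ C0 := by
    intro k s a hk hs hP
    have h1 : w' * c a ≤ δ 1 a := by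
      apply F3 k a w' hk hw'0
      intro b hb
      have h2 := hP b
      have h3 : (c a : ℝ) = c b + 1 := by exact_mod_cast hb.symm
      rw [h3] at h2
      linarith
    have h2 := hBb a
    rw [hC0]
    apply Nat.le_floor
    rw [le_div_iff₀ (by linarith)]
    nlinarith
  -- existence of maximisers
  have ex : ∀ (k N j : ℕ), 1 ≤ k → 1 ≤ N → κ ^ k < (j : ℝ) / N → ∃ a : α,
      (∃ z : ℤ, (L : ℝ) ^ k * (N * δ k a - j * c a) = z) ∧
      ∀ b, δ k b - (j : ℝ) / N * c b ≤ δ k a - (j : ℝ) / N * c a := by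
    intro k N j hk hN hj
    have hN' : (0 : ℝ) < N := by exact_mod_cast hN
    obtain ⟨a, h1, h2⟩ := M k N j hk hN (by rw [mul_comm]; exact (lt_div_iff₀ hN').1 hj)
    refine ⟨a, h1, fun b => ?_⟩
    have h3 := h2 b
    have h4 : (j : ℝ) = N * ((j : ℝ) / N) := by field_simp
    set s := (j : ℝ) / N with hs
    rw [h4] at h3
    have h5 : (N : ℝ) * (δ k b - s * c b) ≤ N * (δ k a - s * c a) := by linarith
    exact le_of_mul_le_mul_left h5 hN'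
  have exch : ∀ (k : ℕ) (s t : ℝ) (a b : α), s < t →
      (∀ x, δ k x - s * c x ≤ δ k a - s * c a) → (∀ x, δ k x - t * c x ≤ δ k b - t * c b) →
      c b ≤ c a := by
    intro k s t a b hst h1 h2
    have h3 := h1 b
    have h4 := h2 a
    have h5 : (t - s) * (c b : ℝ) ≤ (t - s) * c a := by linarith
    have h6 := le_of_mul_le_mul_left h5 (sub_pos.2 hst)
    exact_mod_cast h6
  -- main step
  have main : ∀ k : ℕ, 1 ≤ k → ∃ n : ℕ, 1 ≤ n ∧ n ≤ C0 ∧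
      ∃ z : ℤ, (n : ℝ) * ((L : ℝ) * w) ^ k = z := by
    intro k hk
    have hk0 : k ≠ 0 := by omega
    set s0 : ℝ := w ^ k with hs0
    have hs1 : w' ^ k < s0 := pow_lt_pow_left₀ hw'2 hw'0 hk0
    have hs1' : 0 ≤ w' ^ k := pow_nonneg hw'0 k
    have hκk : κ ^ k < w' ^ k := pow_lt_pow_left₀ (hj1.trans hw'1) hκ hk0
    have hs00 : 0 ≤ s0 := hs1'.trans hs1.le
    -- left
    classical
    have hleft : ∃ n : ℕ, ∃ N j : ℕ, ∃ a : α, 1 ≤ N ∧ w' ^ k < (j : ℝ) / N ∧ (j : ℝ) / N < s0 ∧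
        (∀ b, δ k b - (j : ℝ) / N * c b ≤ δ k a - (j : ℝ) / N * c a) ∧ c a = n := by
      obtain ⟨N, j, hN, h1, h2⟩ := I_btw _ _ hs1' hs1
      obtain ⟨a, -, ha⟩ := ex k N j hk hN (hκk.trans h1)
      exact ⟨c a, N, j, a, hN, h1, h2, ha, rfl⟩
    obtain ⟨N2, j2, a2, hN2, h2a, h2b, h2P, h2c⟩ := Nat.find_spec hleft
    have hmin : ∀ (N j : ℕ) (a : α), 1 ≤ N → w' ^ k < (j : ℝ) / N → (j : ℝ) / N < s0 →
        (∀ b, δ k b - (j : ℝ) / N * c b ≤ δ k a - (j : ℝ) / N * c a) → c a2 ≤ c a := by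
      intro N j a hN h1 h2 h3
      rw [h2c]
      exact Nat.find_min' hleft ⟨N, j, a, hN, h1, h2, h3, rfl⟩
    set s2 : ℝ := (j2 : ℝ) / N2 with hs2
    have hs20 : 0 ≤ s2 := hs1'.trans h2a.le
    have hL2 : ∀ (N j : ℕ) (a : α), 1 ≤ N → s2 < (j : ℝ) / N → (j : ℝ) / N < s0 →
        (∀ b, δ k b - (j : ℝ) / N * c b ≤ δ k a - (j : ℝ) / N * c a) →
        c a = c a2 ∧ δ k a = δ k a2 := by
      intro N j a hN h1 h2 h3
      have e1 : c a = c a2 := le_antisymm (exch k _ _ a2 a h1 h2P h3)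
        (hmin N j a hN (h2a.trans h1) h2 h3)
      refine ⟨e1, ?_⟩
      have h4 := h2P a
      have h5 := h3 a2
      rw [e1] at h4 h5
      linarith
    -- right
    have hrne : ∃ N j : ℕ, 1 ≤ N ∧ s0 < (j : ℝ) / N := by
      obtain ⟨N, j, hN, h1, h2⟩ := I_btw s0 (s0 + 1) hs00 (by linarith)
      exact ⟨N, j, hN, h1⟩
    set SR : Set ℕ := {n | ∃ N j : ℕ, ∃ a : α, 1 ≤ N ∧ s0 < (j : ℝ) / N ∧
        (∀ b, δ k b - (j : ℝ) / N * c b ≤ δ k a - (j : ℝ) / N * c a) ∧ c a = n} with hSR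
    have hSRne : SR.Nonempty := by
      obtain ⟨N, j, hN, h1⟩ := hrne
      obtain ⟨a, -, ha⟩ := ex k N j hk hN ((hκk.trans hs1).trans h1)
      exact ⟨c a, N, j, a, hN, h1, ha, rfl⟩
    have hSRb : BddAbove SR := by
      refine ⟨C0, ?_⟩
      rintro n ⟨N, j, a, hN, h1, h2, rfl⟩
      exact bound k _ a hk (hs1.trans h1).le h2
    obtain ⟨N3, j3, a3, hN3, h3a, h3P, h3c⟩ := Nat.sSup_mem hSRne hSRb
    have hmax : ∀ (N j : ℕ) (a : α), 1 ≤ N → s0 < (j : ℝ) / N →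
        (∀ b, δ k b - (j : ℝ) / N * c b ≤ δ k a - (j : ℝ) / N * c a) → c a ≤ c a3 := by
      intro N j a hN h1 h2
      rw [h3c]
      exact le_csSup hSRb ⟨N, j, a, hN, h1, h2, rfl⟩
    set s3 : ℝ := (j3 : ℝ) / N3 with hs3
    have hR3 : ∀ (N j : ℕ) (a : α), 1 ≤ N → s0 < (j : ℝ) / N → (j : ℝ) / N < s3 →
        (∀ b, δ k b - (j : ℝ) / N * c b ≤ δ k a - (j : ℝ) / N * c a) →
        c a = c a3 ∧ δ k a = δ k a3 := by
      intro N j a hN h1 h2 h3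
      have e1 : c a = c a3 := le_antisymm (hmax N j a hN h1 h3)
        (exch k _ _ a a3 h2 h3 h3P)
      refine ⟨e1, ?_⟩
      have h4 := h3P a
      have h5 := h3 a3
      rw [e1] at h4 h5
      linarith
    -- values
    have hVL : ∀ N j : ℕ, 1 ≤ N → s2 < (j : ℝ) / N → (j : ℝ) / N < s0 →
        (∃ z : ℤ, (L : ℝ) ^ k * (N * δ k a2 - j * c a2) = z) ∧
        ∀ b, δ k b - (j : ℝ) / N * c b ≤ δ k a2 - (j : ℝ) / N * c a2 := by
      intro N j hN h1 h2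
      obtain ⟨a, hz, ha⟩ := ex k N j hk hN ((hκk.trans h2a).trans h1)
      obtain ⟨e1, e2⟩ := hL2 N j a hN h1 h2 ha
      rw [e1, e2] at hz ha
      exact ⟨hz, ha⟩
    have hVR : ∀ N j : ℕ, 1 ≤ N → s0 < (j : ℝ) / N → (j : ℝ) / N < s3 →
        (∃ z : ℤ, (L : ℝ) ^ k * (N * δ k a3 - j * c a3) = z) ∧
        ∀ b, δ k b - (j : ℝ) / N * c b ≤ δ k a3 - (j : ℝ) / N * c a3 := by
      intro N j hN h1 h2
      obtain ⟨a, hz, ha⟩ := ex k N j hk hN ((hκk.trans hs1).trans h1)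
      obtain ⟨e1, e2⟩ := hR3 N j a hN h1 h2 ha
      rw [e1, e2] at hz ha
      exact ⟨hz, ha⟩
    -- relation at s0
    have hrel1 : δ k a3 - δ k a2 + ((c a2 : ℝ) - c a3) * s0 ≤ 0 := by
      apply I_lim_left _ _ s2 s0 hs20 h2b
      intro N j hN h1 h2
      have := (hVL N j hN h1 h2).2 a3
      linarith
    have hrel2 : δ k a2 - δ k a3 + ((c a3 : ℝ) - c a2) * s0 ≤ 0 := by
      apply I_lim_right _ _ s0 s3 hs00 h3a
      intro N j hN h1 h2
      have := (hVR N j hN h1 h2).2 a2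
      linarith
    have hrel : δ k a2 - δ k a3 = ((c a2 : ℝ) - c a3) * s0 := by linarith
    have hle : c a3 ≤ c a2 := exch k s2 s3 a2 a3 (h2b.trans h3a) h2P h3P
    have hlt : c a3 < c a2 := by
      rcases hle.lt_or_eq with h | h
      · exact h
      exfalso
      rw [h, sub_self, zero_mul, sub_eq_zero] at hrel
      rcases F1 k a2 hk with ⟨b, hb1, hb2⟩ | ⟨b, hb1, hb2⟩
      · obtain ⟨N, j, hN, h1, h2⟩ := I_btw s2 s0 hs20 h2b
        have h3 := (hVL N j hN h1 h2).2 b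
        have h4 : (c b : ℝ) = c a2 + 1 := by exact_mod_cast hb1
        rw [h4] at h3
        linarith
      · obtain ⟨N, j, hN, h1, h2⟩ := I_btw s0 s3 hs00 h3a
        have h3 := (hVR N j hN h1 h2).2 b
        have h4 : (c a2 : ℝ) = c b + 1 := by exact_mod_cast hb1.symm
        rw [h, h4, ← hrel] at h3
        linarith
    -- integrality
    have hLk : ∃ z : ℤ, (L : ℝ) ^ k = z := ⟨(L : ℤ) ^ k, by push_cast; rfl⟩
    obtain ⟨z2, hz2⟩ := I_int ((L : ℝ) ^ k) (δ k a2) (c a2) s2 s0 hs20 h2b hLk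
      (fun N j hN h1 h2 => (hVL N j hN h1 h2).1)
    obtain ⟨z3, hz3⟩ := I_int ((L : ℝ) ^ k) (δ k a3) (c a3) s0 s3 hs00 h3a hLk
      (fun N j hN h1 h2 => (hVR N j hN h1 h2).1)
    refine ⟨c a2 - c a3, by omega, (Nat.sub_le _ _).trans (bound k s2 a2 hk h2a.le h2P),
      z2 - z3, ?_⟩
    rw [Nat.cast_sub hle, mul_pow, ← hs0]
    push_cast
    rw [← hz2, ← hz3]
    linear_combination -(L : ℝ) ^ k * hrel
  -- conclusion
  apply I_final ((L : ℝ) * w) (C0.factorial) (Nat.factorial_pos _)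
  intro k hk
  obtain ⟨n, hn1, hn2, z, hz⟩ := main k hk
  obtain ⟨d, hd⟩ := Nat.dvd_factorial hn1 hn2
  refine ⟨d * z, ?_⟩
  rw [hd]
  push_cast
  rw [← hz]
  ring

end I

end Pool.Agent.H80R2.BC
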