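import Pool.Agent.H80R2.BC.Defs

set_option autoImplicit false

/-!
Additivity of the von Neumann dimension: `vdim K = vdim (K ⊓ ker T) + vdim (T K)` for a closed
left invariant `K` and an equivariant bounded operator `T`.
-/

namespace Pool.Agent.H80R2.BC

open scoped ENNReal InnerProductSpace Topology ComplexConjugate
open Module Filter

section trans
variable {ι κ G : Type} [Group G]

/-- translate of a vector -/
noncomputable def A2_tr (g : G) (x : L2 (ι × G)) : L2 (ι × G) :=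
  ⟨fun p => x (p.1, g * p.2), by
    have hx : Memℓp (fun p => x p) 2 := lp.memℓp x
    have h2 : (0 : ℝ) < (2 : ℝ≥0∞).toReal := by norm_num
    have h1 := (memℓp_gen_iff h2).1 hx
    refine (memℓp_gen_iff h2).2 ?_
    exact h1.comp_injective (i := fun p : ι × G => (p.1, g * p.2)) (by
      rintro ⟨a, b⟩ ⟨c, d⟩ h
      simp only [Prod.mk.injEq, mul_right_inj] at h
      exact Prod.ext h.1 h.2)⟩

theorem A2_tr_apply (g : G) (x : L2 (ι × G)) (p : ι × G) : A2_tr g x p = x (p.1, g * p.2) := rfl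

theorem A2_isTr_tr (g : G) (x : L2 (ι × G)) : IsTr g x (A2_tr g x) := fun _ _ => rfl

theorem A2_isTr_eq {g : G} {x y : L2 (ι × G)} (h : IsTr g x y) : y = A2_tr g x := by
  ext p
  exact h p.1 p.2

theorem A2_isTr_symm {g : G} {x y : L2 (ι × G)} (h : IsTr g x y) : IsTr g⁻¹ y x := by
  intro i k
  rw [h i (g⁻¹ * k), mul_inv_cancel_left]

theorem A2_inner_tr {g : G} {a b x y : L2 (ι × G)} (h1 : IsTr g a b) (h2 : IsTr g x y) :
    ⟪b, y⟫_ℂ = ⟪a, x⟫_ℂ := by
  rw [lp.inner_eq_tsum, lp.inner_eq_tsum]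
  have := (Equiv.prodCongr (Equiv.refl ι) (Equiv.mulLeft g)).tsum_eq
    (fun p : ι × G => ⟪a p, x p⟫_ℂ)
  rw [← this]
  refine tsum_congr fun p => ?_
  have e1 : b p = a (p.1, g * p.2) := h1 p.1 p.2
  have e2 : y p = x (p.1, g * p.2) := h2 p.1 p.2
  rw [e1, e2]
  rfl

open Classical in
/-- basis vectors -/
noncomputable def A2_e (i : ι) (g : G) : L2 (ι × G) := lp.single 2 (i, g) (1 : ℂ)

theorem A2_dl (i : ι) : dl G i = A2_e i (1 : G) := rfl

omit [Group G] in
theorem A2_inner_e (i : ι) (g : G) (x : L2 (ι × G)) : ⟪A2_e i g, x⟫_ℂ = x (i, g) := by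
  classical
  unfold A2_e
  rw [lp.inner_single_left]
  simp

theorem A2_isTr_e (g : G) (i : ι) (h : G) : IsTr g (A2_e i (g * h)) (A2_e i h) := by
  classical
  intro j k
  unfold A2_e
  rw [lp.coeFn_single, lp.coeFn_single]
  by_cases hh : (j, k) = (i, h)
  · rw [hh, Pi.single_eq_same]
    simp only [Prod.mk.injEq] at hh
    rw [hh.1, hh.2, Pi.single_eq_same]
  · rw [Pi.single_eq_of_ne hh, Pi.single_eq_of_ne]
    intro h3
    apply hh
    simp only [Prod.mk.injEq, mul_right_inj] at h3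
    exact Prod.ext h3.1 h3.2

theorem A2_norm_dl (i : ι) : ‖dl G i‖ = 1 := by
  classical
  unfold dl
  rw [lp.norm_single (by norm_num)]
  simp

theorem A2_equi_adj {T : L2 (ι × G) →L[ℂ] L2 (κ × G)} (hT : Equi T) :
    Equi (ContinuousLinearMap.adjoint T) := by
  intro g x y hxy i h
  rw [← A2_inner_e, ← A2_inner_e, ContinuousLinearMap.adjoint_inner_right,
    ContinuousLinearMap.adjoint_inner_right]
  exact A2_inner_tr (hT g _ _ (A2_isTr_e g i h)) hxy

theorem A2_equi_comp {μ : Type} {S : L2 (κ × G) →L[ℂ] L2 (μ × G)} {T : L2 (ι × G) →L[ℂ] L2 (κ × G)}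
    (hS : Equi S) (hT : Equi T) : Equi (S ∘L T) :=
  fun g x y h => hS g _ _ (hT g x y h)

theorem A2_equi_id : Equi (ContinuousLinearMap.id ℂ (L2 (ι × G))) := fun _ _ _ h => h

theorem A2_equi_sub {S T : L2 (ι × G) →L[ℂ] L2 (κ × G)} (hS : Equi S) (hT : Equi T) :
    Equi (S - T) := by
  intro g x y h i k
  have h1 := hS g x y h i k
  have h2 := hT g x y h i k
  change (S y - T y) (i, k) = (S x - T x) (i, g * k)
  rw [lp.coeFn_sub, lp.coeFn_sub, Pi.sub_apply, Pi.sub_apply, h1, h2]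

theorem A2_equi_smul {T : L2 (ι × G) →L[ℂ] L2 (κ × G)} (c : ℂ) (hT : Equi T) :
    Equi (c • T) := by
  intro g x y h i k
  have h2 := hT g x y h i k
  change (c • T y) (i, k) = (c • T x) (i, g * k)
  rw [lp.coeFn_smul, lp.coeFn_smul, Pi.smul_apply, Pi.smul_apply, h2]

/-- matrix entries of an equivariant operator -/
theorem A2_entry {T : L2 (ι × G) →L[ℂ] L2 (κ × G)} (hT : Equi T) (i : ι) (k : κ) (g : G) :
    T (A2_e i g) (k, 1) = T (dl G i) (k, g⁻¹) := by
  have h := hT g _ _ (A2_isTr_e g i 1) k g⁻¹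
  rw [mul_one, mul_inv_cancel] at h
  exact h.symm

theorem A2_inner_expand {A : L2 (ι × G) →L[ℂ] L2 (κ × G)} {B : L2 (κ × G) →L[ℂ] L2 (ι × G)}
    (hB : Equi B) (i : ι) :
    HasSum (fun p : κ × G => B (dl G p.1) (i, p.2⁻¹) * A (dl G i) p) ⟪dl G i, B (A (dl G i))⟫_ℂ := by
  rw [← ContinuousLinearMap.adjoint_inner_left]
  have h := lp.hasSum_inner (𝕜 := ℂ) (ContinuousLinearMap.adjoint B (dl G i)) (A (dl G i))
  have h2 : (fun p : κ × G => B (dl G p.1) (i, p.2⁻¹) * A (dl G i) p) = fun p =>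
      ⟪ContinuousLinearMap.adjoint B (dl G i) p, A (dl G i) p⟫_ℂ := by
    funext p
    have h1 : ContinuousLinearMap.adjoint B (dl G i) p = conj (B (dl G p.1) (i, p.2⁻¹)) := by
      rw [← A2_entry hB, ← A2_inner_e i, ← A2_inner_e p.1 p.2,
        ContinuousLinearMap.adjoint_inner_right, inner_conj_symm, A2_dl]
    rw [h1]
    change _ = A (dl G i) p * conj (conj _)
    rw [Complex.conj_conj, mul_comm]
  rw [h2]
  exact h

theorem A2_trace [Fintype ι] [Fintype κ] {A : L2 (ι × G) →L[ℂ] L2 (κ × G)}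
    {B : L2 (κ × G) →L[ℂ] L2 (ι × G)} (hA : Equi A) (hB : Equi B) :
    ∑ i, ⟪dl G i, B (A (dl G i))⟫_ℂ = ∑ k, ⟪dl G k, A (B (dl G k))⟫_ℂ := by
  have h1 : ∀ i : ι, ⟪dl G i, B (A (dl G i))⟫_ℂ =
      ∑ k : κ, ∑' g : G, B (dl G k) (i, g⁻¹) * A (dl G i) (k, g) := by
    intro i
    have h := A2_inner_expand (A := A) hB i
    rw [← h.tsum_eq, h.summable.tsum_prod, tsum_fintype]
  have h2 : ∀ k : κ, ⟪dl G k, A (B (dl G k))⟫_ℂ =
      ∑ i : ι, ∑' g : G, B (dl G k) (i, g⁻¹) * A (dl G i) (k, g) := by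
    intro k
    have h := A2_inner_expand (A := B) hA k
    rw [← h.tsum_eq, h.summable.tsum_prod, tsum_fintype]
    refine Finset.sum_congr rfl fun i _ => ?_
    rw [← (Equiv.inv G).tsum_eq]
    refine tsum_congr fun g => ?_
    simp only [Equiv.inv_apply, inv_inv]
    ring
  simp only [h1, h2]
  exact Finset.sum_comm

end trans

section erg
variable {H H' : Type} [NormedAddCommGroup H] [InnerProductSpace ℂ H] [CompleteSpace H]
  [NormedAddCommGroup H'] [InnerProductSpace ℂ H'] [CompleteSpace H']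

theorem A2_erg (D : H →L[ℂ] H) (hD : ‖D‖ ≤ 1) (K : Submodule ℂ H) [K.HasOrthogonalProjection]
    (hK : ∀ x, x ∈ K ↔ D x = x) (x : H) :
    Tendsto (fun N : ℕ => (N : ℂ)⁻¹ • ∑ n ∈ Finset.range N, (D ^ n) x) atTop
      (𝓝 (K.starProjection x)) := by
  have h1 : K = D.eqLocus (1 : H →L[ℂ] H) := by
    ext y
    exact hK y
  subst h1
  have h := ContinuousLinearMap.tendsto_birkhoffAverage_orthogonalProjection D hD x
  have h2 : (fun N : ℕ => (N : ℂ)⁻¹ • ∑ n ∈ Finset.range N, (D ^ n) x) =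
      fun N : ℕ => birkhoffAverage ℂ (⇑D) _root_.id N x := by
    funext N
    unfold birkhoffAverage birkhoffSum
    congr 1
    have h3 : ∀ n : ℕ, (D ^ n) x = (⇑D)^[n] x := by
      intro n
      induction n with
      | zero => rfl
      | succ n ih =>
        rw [pow_succ', Function.iterate_succ_apply']
        exact congrArg D ih
    exact Finset.sum_congr rfl fun n _ => h3 n
  rw [h2]
  exact h

/-- the contraction `1 - t A* A` -/
noncomputable def A2_D (A : H →L[ℂ] H') (t : ℝ) : H →L[ℂ] H :=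
  ContinuousLinearMap.id ℂ H - (t : ℂ) • (ContinuousLinearMap.adjoint A ∘L A)

theorem A2_D_apply (A : H →L[ℂ] H') (t : ℝ) (x : H) :
    A2_D A t x = x - (t : ℂ) • ContinuousLinearMap.adjoint A (A x) := rfl

theorem A2_D_norm (A : H →L[ℂ] H') {t : ℝ} (ht : 0 ≤ t) (h : t * ‖A‖ ^ 2 ≤ 2) :
    ‖A2_D A t‖ ≤ 1 := by
  refine ContinuousLinearMap.opNorm_le_bound _ zero_le_one fun x => ?_
  rw [one_mul]
  refine (sq_le_sq₀ (norm_nonneg _) (norm_nonneg _)).1 ?_
  rw [A2_D_apply, norm_sub_sq (𝕜 := ℂ)]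
  have h1 : RCLike.re ⟪x, (t : ℂ) • ContinuousLinearMap.adjoint A (A x)⟫_ℂ = t * ‖A x‖ ^ 2 := by
    rw [inner_smul_right, ContinuousLinearMap.adjoint_inner_right, inner_self_eq_norm_sq_to_K]
    have h6 : (t : ℂ) * ((‖A x‖ : ℝ) : ℂ) ^ 2 = ((t * ‖A x‖ ^ 2 : ℝ) : ℂ) := by push_cast; ring
    exact (congrArg Complex.re h6).trans (Complex.ofReal_re _)
  have h2 : ‖(t : ℂ) • ContinuousLinearMap.adjoint A (A x)‖ ^ 2 ≤ t ^ 2 * (‖A‖ ^ 2 * ‖A x‖ ^ 2) := by
    rw [norm_smul, mul_pow, ← mul_pow ‖A‖]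
    have h3 : ‖ContinuousLinearMap.adjoint A (A x)‖ ≤ ‖A‖ * ‖A x‖ := by
      have := (ContinuousLinearMap.adjoint A).le_opNorm (A x)
      rwa [LinearIsometryEquiv.norm_map] at this
    have h4 : ‖(t : ℂ)‖ ^ 2 = t ^ 2 := by
      rw [Complex.norm_real, Real.norm_eq_abs, sq_abs]
    rw [h4]
    gcongr
  rw [h1]
  have h5 : t ^ 2 * (‖A‖ ^ 2 * ‖A x‖ ^ 2) ≤ 2 * (t * ‖A x‖ ^ 2) := by
    have : 0 ≤ t * ‖A x‖ ^ 2 := by positivity
    nlinarith
  linarith

theorem A2_D_fix (A : H →L[ℂ] H') {t : ℝ} (ht : 0 < t) (x : H) :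
    A2_D A t x = x ↔ A x = 0 := by
  rw [A2_D_apply, sub_eq_self, smul_eq_zero]
  constructor
  · rintro (h | h)
    · exact absurd h (by exact_mod_cast ht.ne')
    · have h2 : ⟪x, ContinuousLinearMap.adjoint A (A x)⟫_ℂ = 0 := by rw [h, inner_zero_right]
      rw [ContinuousLinearMap.adjoint_inner_right, inner_self_eq_zero] at h2
      exact h2
  · intro h
    right
    rw [h, map_zero]

theorem A2_D_comm (A : H →L[ℂ] H') (t : ℝ) (n : ℕ) (y : H') :
    (A2_D A t ^ n) (ContinuousLinearMap.adjoint A y) =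
      ContinuousLinearMap.adjoint A ((A2_D (ContinuousLinearMap.adjoint A) t ^ n) y) := by
  induction n with
  | zero => rfl
  | succ n ih =>
    rw [pow_succ', pow_succ', mul_apply_eq_comp, ih, mul_apply_eq_comp,
      A2_D_apply, A2_D_apply, map_sub, map_smul, ContinuousLinearMap.adjoint_adjoint]

omit [CompleteSpace H] in
theorem A2_inner_self (x : H) : ⟪x, x⟫_ℂ = ((‖x‖ ^ 2 : ℝ) : ℂ) := by
  rw [inner_self_eq_norm_sq_to_K, Complex.ofReal_pow]
  rfl

omit [CompleteSpace H] in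
theorem A2_proj_dist (K : Submodule ℂ H) [K.HasOrthogonalProjection] (x : H) (hx : ‖x‖ = 1) :
    ⟪x, K.starProjection x⟫_ℂ = ((1 - Metric.infDist x (K : Set H) ^ 2 : ℝ) : ℂ) := by
  have h1 : Metric.infDist x (K : Set H) = ‖x - K.starProjection x‖ := by
    rw [Submodule.starProjection_minimal, Metric.infDist_eq_iInf]
    simp only [dist_eq_norm]
    rfl
  have h2 : ⟪x - K.starProjection x, K.starProjection x⟫_ℂ = 0 :=
    K.starProjection_inner_eq_zero x _ (K.starProjection_apply_mem x)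
  have h4 : ⟪x, x⟫_ℂ = 1 := by
    rw [A2_inner_self, hx]
    simp
  have h5 := A2_inner_self (x - K.starProjection x)
  rw [inner_sub_right, h2, inner_sub_left, h4, K.inner_starProjection_left_eq_right x x] at h5
  rw [h1, Complex.ofReal_sub, ← h5, Complex.ofReal_one]
  ring

end erg

section main
variable {ι κ G : Type} [Group G]

theorem A2_D_equi {A : L2 (ι × G) →L[ℂ] L2 (κ × G)} (hA : Equi A) (t : ℝ) :
    Equi (A2_D A t) :=
  A2_equi_sub A2_equi_id (A2_equi_smul _ (A2_equi_comp (A2_equi_adj hA) hA))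

theorem A2_pow_equi {D : L2 (ι × G) →L[ℂ] L2 (ι × G)} (hD : Equi D) (n : ℕ) : Equi (D ^ n) := by
  induction n with
  | zero => exact A2_equi_id
  | succ n ih =>
    rw [pow_succ]
    exact A2_equi_comp ih hD

variable [Fintype ι] [Fintype κ]

theorem A2_trpow {A : L2 (ι × G) →L[ℂ] L2 (κ × G)} (hA : Equi A) (t : ℝ) (n : ℕ) :
    ∑ i, ⟪dl G i, (A2_D A t ^ n) (dl G i)⟫_ℂ =
      ∑ k, ⟪dl G k, (A2_D (ContinuousLinearMap.adjoint A) t ^ n) (dl G k)⟫_ℂ +
        ((Fintype.card ι : ℂ) - Fintype.card κ) := by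
  have hone : ∀ {ν : Type} (i : ν), ⟪dl G i, dl G i⟫_ℂ = 1 := by
    intro ν i
    rw [inner_self_eq_norm_sq_to_K, A2_norm_dl]
    simp
  induction n with
  | zero =>
    simp only [pow_zero, one_apply_eq_self, hone, Finset.sum_const, Finset.card_univ,
      nsmul_eq_mul, mul_one]
    ring
  | succ n ih =>
    have h1 : ∀ x : L2 (ι × G), (A2_D A t ^ (n + 1)) x = (A2_D A t ^ n) x -
        (t : ℂ) • ContinuousLinearMap.adjoint A
          (((A2_D (ContinuousLinearMap.adjoint A) t ^ n) ∘L A) x) := by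
      intro x
      rw [pow_succ, mul_apply_eq_comp, A2_D_apply, map_sub, map_smul, A2_D_comm]
      rfl
    have h2 : ∀ y : L2 (κ × G), (A2_D (ContinuousLinearMap.adjoint A) t ^ (n + 1)) y =
        (A2_D (ContinuousLinearMap.adjoint A) t ^ n) y -
        (t : ℂ) • (((A2_D (ContinuousLinearMap.adjoint A) t ^ n) ∘L A)
          (ContinuousLinearMap.adjoint A y)) := by
      intro y
      rw [pow_succ, mul_apply_eq_comp, A2_D_apply, map_sub, map_smul,
        ContinuousLinearMap.adjoint_adjoint]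
      rfl
    simp only [h1, h2, inner_sub_right, inner_smul_right, Finset.sum_sub_distrib, ← Finset.mul_sum]
    rw [ih, A2_trace (A2_equi_comp (A2_pow_equi (A2_D_equi (A2_equi_adj hA) t) n) hA)
      (A2_equi_adj hA)]
    ring

theorem A2_main {A : L2 (ι × G) →L[ℂ] L2 (κ × G)} (hA : Equi A)
    (K : Submodule ℂ (L2 (ι × G))) (L : Submodule ℂ (L2 (κ × G))) [K.HasOrthogonalProjection]
    [L.HasOrthogonalProjection] (hK : ∀ x, x ∈ K ↔ A x = 0)
    (hL : ∀ y, y ∈ L ↔ ContinuousLinearMap.adjoint A y = 0) :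
    ∑ i, ⟪dl G i, K.starProjection (dl G i)⟫_ℂ =
      ∑ k, ⟪dl G k, L.starProjection (dl G k)⟫_ℂ +
        ((Fintype.card ι : ℂ) - Fintype.card κ) := by
  set t : ℝ := 1 / (‖A‖ ^ 2 + 1) with ht
  have hp : 0 < ‖A‖ ^ 2 + 1 := by positivity
  have ht0 : 0 < t := by positivity
  have ht1 : t * ‖A‖ ^ 2 ≤ 2 := by
    rw [ht, div_mul_eq_mul_div, one_mul, div_le_iff₀ hp]
    nlinarith [sq_nonneg ‖A‖]
  have h1 : ∀ i, Tendsto (fun N : ℕ => ⟪dl G i, (N : ℂ)⁻¹ • ∑ n ∈ Finset.range N,
      (A2_D A t ^ n) (dl G i)⟫_ℂ) atTop (𝓝 ⟪dl G i, K.starProjection (dl G i)⟫_ℂ) := by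
    intro i
    refine Tendsto.inner tendsto_const_nhds ?_
    exact A2_erg _ (A2_D_norm A ht0.le ht1) K (fun x => by rw [hK, A2_D_fix A ht0]) _
  have h2 : ∀ k, Tendsto (fun N : ℕ => ⟪dl G k, (N : ℂ)⁻¹ • ∑ n ∈ Finset.range N,
      (A2_D (ContinuousLinearMap.adjoint A) t ^ n) (dl G k)⟫_ℂ) atTop
      (𝓝 ⟪dl G k, L.starProjection (dl G k)⟫_ℂ) := by
    intro k
    refine Tendsto.inner tendsto_const_nhds ?_
    refine A2_erg _ (A2_D_norm _ ht0.le ?_) L (fun x => by rw [hL, A2_D_fix _ ht0]) _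
    rw [LinearIsometryEquiv.norm_map]
    exact ht1
  have h3 := tendsto_finsetSum (s := Finset.univ) (fun i _ => h1 i)
  have h4 := (tendsto_finsetSum (s := Finset.univ) (fun k _ => h2 k)).add_const
    ((Fintype.card ι : ℂ) - Fintype.card κ)
  refine tendsto_nhds_unique h3 (h4.congr' ?_)
  filter_upwards [eventually_gt_atTop 0] with N hN
  have hN' : (N : ℂ) ≠ 0 := by exact_mod_cast hN.ne'
  simp only [inner_smul_right, inner_sum, ← Finset.mul_sum]
  rw [Finset.sum_comm, Finset.sum_comm (s := (Finset.univ : Finset ι))]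
  simp only [A2_trpow hA, Finset.sum_add_distrib, Finset.sum_const, Finset.card_range,
    nsmul_eq_mul, mul_add]
  field_simp

theorem A2_vdim_proj (K : Submodule ℂ (L2 (ι × G))) [K.HasOrthogonalProjection] :
    ∑ i, ⟪dl G i, K.starProjection (dl G i)⟫_ℂ = (vdim K : ℂ) := by
  unfold vdim
  rw [Complex.ofReal_sum]
  exact Finset.sum_congr rfl fun i _ => A2_proj_dist K _ (A2_norm_dl i)

theorem A2_vdim_closure (K : Submodule ℂ (L2 (ι × G))) : vdim K.topologicalClosure = vdim K := by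
  unfold vdim
  simp only [Submodule.topologicalClosure_coe, Metric.infDist_closure]

omit [Fintype ι] in
theorem A2_proj_equi {K : Submodule ℂ (L2 (ι × G))} [K.HasOrthogonalProjection] (hK : LInv K) :
    Equi K.starProjection := by
  intro g x y hxy
  have h1 : A2_tr g (K.starProjection x) = K.starProjection y := by
    refine (Submodule.eq_starProjection_of_mem_of_inner_eq_zero ?_ ?_).symm
    · exact hK g _ _ (K.starProjection_apply_mem x) (A2_isTr_tr g _)
    · intro w hw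
      have h2 : IsTr g (A2_tr g⁻¹ w) w := by
        have := A2_isTr_symm (A2_isTr_tr g⁻¹ w)
        rwa [inv_inv] at this
      have h3 : A2_tr g⁻¹ w ∈ K := hK g⁻¹ _ _ hw (A2_isTr_tr g⁻¹ w)
      have h4 : IsTr g (x - K.starProjection x) (y - A2_tr g (K.starProjection x)) := by
        intro i h
        have e1 := hxy i h
        have e2 := A2_isTr_tr g (K.starProjection x) i h
        rw [lp.coeFn_sub, lp.coeFn_sub, Pi.sub_apply, Pi.sub_apply, e1, e2]
      rw [A2_inner_tr h4 h2]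
      exact K.starProjection_inner_eq_zero x _ h3
  rw [← h1]
  exact A2_isTr_tr g _

theorem vdim_split {K : Submodule ℂ (L2 (ι × G))} (hK : LInv K)
    (hc : IsClosed (K : Set (L2 (ι × G)))) (T : L2 (ι × G) →L[ℂ] L2 (κ × G)) (hT : Equi T) :
    vdim K = vdim (K ⊓ LinearMap.ker (T : L2 (ι × G) →ₗ[ℂ] L2 (κ × G)))
      + vdim (K.map (T : L2 (ι × G) →ₗ[ℂ] L2 (κ × G))) := by
  have hone : ∀ {ν : Type} (i : ν), ⟪dl G i, dl G i⟫_ℂ = 1 := by
    intro ν i
    rw [inner_self_eq_norm_sq_to_K, A2_norm_dl]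
    simp
  have : CompleteSpace K := hc.completeSpace_coe
  set N := K ⊓ LinearMap.ker (T : L2 (ι × G) →ₗ[ℂ] L2 (κ × G)) with hN
  have hNc : IsClosed (N : Set (L2 (ι × G))) := hc.inter (ContinuousLinearMap.isClosed_ker T)
  have : CompleteSpace N := hNc.completeSpace_coe
  set R := K.map (T : L2 (ι × G) →ₗ[ℂ] L2 (κ × G)) with hR
  set A : L2 (ι × G) →L[ℂ] L2 (κ × G) := T ∘L K.starProjection with hA
  have hAe : Equi A := A2_equi_comp hT (A2_proj_equi hK)
  set M := LinearMap.ker (A : L2 (ι × G) →ₗ[ℂ] L2 (κ × G)) with hM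
  have hMc : IsClosed (M : Set (L2 (ι × G))) := ContinuousLinearMap.isClosed_ker A
  have : CompleteSpace M := hMc.completeSpace_coe
  have : CompleteSpace R.topologicalClosure :=
    (Submodule.isClosed_topologicalClosure R).completeSpace_coe
  have hRr : R = LinearMap.range (A : L2 (ι × G) →ₗ[ℂ] L2 (κ × G)) := by
    ext y
    rw [hR, Submodule.mem_map, LinearMap.mem_range]
    constructor
    · rintro ⟨x, hx, rfl⟩
      refine ⟨x, ?_⟩
      change T (K.starProjection x) = T x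
      rw [Submodule.starProjection_eq_self_iff.2 hx]
    · rintro ⟨x, rfl⟩
      exact ⟨K.starProjection x, K.starProjection_apply_mem x, rfl⟩
  have hL : ∀ y, y ∈ (R.topologicalClosure)ᗮ ↔ ContinuousLinearMap.adjoint A y = 0 := by
    intro y
    rw [Submodule.orthogonal_closure, hRr]
    rw [ContinuousLinearMap.orthogonal_range]
    rfl
  have hmain := A2_main hAe M (R.topologicalClosure)ᗮ (fun x => Iff.rfl) hL
  have h1 : ∑ k, ⟪dl G k, ((R.topologicalClosure)ᗮ).starProjection (dl G k)⟫_ℂ =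
      (Fintype.card κ : ℂ) - (vdim R : ℂ) := by
    rw [← A2_vdim_closure R, ← A2_vdim_proj R.topologicalClosure]
    simp only [Submodule.starProjection_orthogonal_val, inner_sub_right, hone,
      Finset.sum_sub_distrib, Finset.sum_const, Finset.card_univ, nsmul_eq_mul, mul_one]
  have h2 : ∀ x, M.starProjection x = x - K.starProjection x + N.starProjection x := by
    intro x
    have hNK : N.starProjection x ∈ K := (N.starProjection_apply_mem x).1
    refine Submodule.eq_starProjection_of_mem_of_inner_eq_zero ?_ ?_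
    · change T (K.starProjection _) = 0
      rw [map_add, map_sub, Submodule.starProjection_eq_self_iff.2 hNK,
        Submodule.starProjection_eq_self_iff.2 (K.starProjection_apply_mem x), sub_self, zero_add]
      exact (N.starProjection_apply_mem x).2
    · intro w hw
      have hw1 : K.starProjection w ∈ N := ⟨K.starProjection_apply_mem w, hw⟩
      have e1 : x - (x - K.starProjection x + N.starProjection x) =
        K.starProjection (K.starProjection x - N.starProjection x) := by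
        rw [map_sub, Submodule.starProjection_eq_self_iff.2 hNK,
        Submodule.starProjection_eq_self_iff.2 (K.starProjection_apply_mem x)]
        abel
      rw [e1, Submodule.inner_starProjection_left_eq_right, inner_sub_left]
      have e2 := K.starProjection_inner_eq_zero x _ hw1.1
      have e3 := N.starProjection_inner_eq_zero x _ hw1
      rw [inner_sub_left, sub_eq_zero] at e2 e3
      rw [← e2, ← e3, sub_self]
  have h3 : ∑ i, ⟪dl G i, M.starProjection (dl G i)⟫_ℂ =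
      (Fintype.card ι : ℂ) - (vdim K : ℂ) + (vdim N : ℂ) := by
    rw [← A2_vdim_proj K, ← A2_vdim_proj N]
    simp only [h2, inner_sub_right, inner_add_right, hone, Finset.sum_add_distrib,
      Finset.sum_sub_distrib, Finset.sum_const, Finset.card_univ, nsmul_eq_mul, mul_one]
  rw [h1, h3] at hmain
  have h4 : (vdim K : ℂ) = (vdim N : ℂ) + (vdim R : ℂ) := by linear_combination -hmain
  exact_mod_cast h4

end main

end Pool.Agent.H80R2.BC
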