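import Pool.Agent.H80R2.BC.Dim1
import Pool.Agent.H80R2.BC.Dim2
import Pool.Agent.H80R2.BC.Act

set_option autoImplicit false
set_option linter.unusedSectionVars false

/-!
Base change for the Atiyah conjecture, task G1: shift invariant spaces of sequences, first part.
-/

namespace Pool.Agent.H80R2.BC

open scoped ENNReal
open Module

section G1
variable {ι κ G : Type} [Group G] [Fintype ι] [Fintype κ]

/-! ### formulas for `act` -/

theorem G1_act_sum (A : GMat κ ι G) {σ : Type} (s : Finset σ) (c : σ → ℂ) (u : σ → ι × G → ℂ)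
    (k : κ) (g : G) :
    act A (fun q => ∑ i ∈ s, c i * u i q) k g = ∑ i ∈ s, c i * act A (u i) k g := by
  classical
  induction s using Finset.induction_on with
  | empty =>
    simp only [Finset.sum_empty]
    exact act_zero A k g
  | insert a s ha ih =>
    simp only [Finset.sum_insert ha]
    rw [← ih, ← act_smul A (c a) (u a), ← act_add]
    rfl

theorem G1_act_pen (P0 P1 : GMat κ ι G) (z : ℂ) (x : ι × G → ℂ) (k : κ) (g : G) :
    act (pen P0 P1 z) x k g = act P0 x k g + z * act P1 x k g := by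
  unfold act pen
  rw [Finset.mul_sum, ← Finset.sum_add_distrib]
  apply Finset.sum_congr rfl
  intro i _
  rw [Finsupp.sum_add_index' (by simp) (by intros; ring)]
  congr 1
  rw [Finsupp.sum_smul_index (by simp), Finsupp.sum, Finsupp.sum, Finset.mul_sum]
  apply Finset.sum_congr rfl
  intros
  ring

theorem G1_act_Tm (P0 P1 : GMat κ ι G) (l : ℕ) (x : (ι × Fin (l + 1)) × G → ℂ) (k : κ)
    (i : Fin l) (g : G) :
    act (Tm P0 P1 l) x (k, i) g = act P0 (fun q => x ((q.1, i.castSucc), q.2)) k g +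
      act P1 (fun q => x ((q.1, i.succ), q.2)) k g := by
  classical
  unfold act
  rw [Fintype.sum_prod_type, ← Finset.sum_add_distrib]
  apply Finset.sum_congr rfl
  intro p _
  have h1 : ∀ j : Fin (l + 1), (Tm P0 P1 l (k, i) (p, j)).sum (fun h c => c * x ((p, j), g * h)) =
      (if j = i.castSucc then (P0 k p).sum (fun h c => c * x ((p, j), g * h)) else 0) +
      (if j = i.succ then (P1 k p).sum (fun h c => c * x ((p, j), g * h)) else 0) := by
    intro j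
    unfold Tm
    rw [Finsupp.sum_add_index' (by simp) (by intros; ring)]
    congr 1
    · by_cases h : j = i.castSucc
      · simp [h]
      · simp [h]
    · by_cases h : j = i.succ
      · simp [h]
      · simp [h]
  simp only [h1]
  rw [Finset.sum_add_distrib]
  simp

/-- scalar matrices -/
noncomputable def G1_sc (G : Type) [Group G] {κ ι : Type} (C : κ → ι → ℂ) : GMat κ ι G :=
  fun k i => Finsupp.single 1 (C k i)

theorem G1_act_sc (C : κ → ι → ℂ) (x : ι × G → ℂ) (k : κ) (g : G) :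
    act (G1_sc G C) x k g = ∑ i, C k i * x (i, g) := by
  unfold act G1_sc
  apply Finset.sum_congr rfl
  intro i _
  rw [Finsupp.sum_single_index (by simp), mul_one]

/-- window operators -/
theorem G1_win {m n : ℕ} (W : (Fin m → ℂ) →ₗ[ℂ] (Fin n → ℂ)) :
    ∃ T : L2 ((ι × Fin m) × G) →L[ℂ] L2 ((ι × Fin n) × G), Equi T ∧
      ∀ x p j g, T x ((p, j), g) = W (fun i => x ((p, i), g)) j := by
  classical
  obtain ⟨T, hT, h⟩ := exists_rho (G1_sc G
    (fun (a : ι × Fin n) (b : ι × Fin m) => if b.1 = a.1 then W (Pi.single b.2 1) a.2 else 0))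
  refine ⟨T, hT, fun x p j g => ?_⟩
  rw [h, G1_act_sc, Fintype.sum_prod_type, Finset.sum_eq_single p]
  · simp only [if_true]
    have : (fun i => x ((p, i), g)) = ∑ i, x ((p, i), g) • (Pi.single i (1 : ℂ) : Fin m → ℂ) := by
      rw [← Fintype.linearCombination_apply ℂ]
      ext j
      simp [Fintype.linearCombination_apply, Finset.sum_apply, Pi.single_apply]
    rw [this, map_sum, Finset.sum_apply]
    apply Finset.sum_congr rfl
    intro i _
    rw [map_smul, Pi.smul_apply, smul_eq_mul, mul_comm]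
  · intro b _ hb
    simp [hb]
  · simp

/-- functionals of windows -/
theorem G1_fun {m : ℕ} (f : (Fin m → ℂ) →ₗ[ℂ] ℂ) :
    ∃ T : L2 ((ι × Fin m) × G) →L[ℂ] L2 (ι × G), Equi T ∧
      ∀ x p g, T x (p, g) = f (fun i => x ((p, i), g)) := by
  classical
  obtain ⟨T, hT, h⟩ := exists_rho (G1_sc G
    (fun (a : ι) (b : ι × Fin m) => if b.1 = a then f (Pi.single b.2 1) else 0))
  refine ⟨T, hT, fun x p g => ?_⟩
  rw [h, G1_act_sc, Fintype.sum_prod_type, Finset.sum_eq_single p]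
  · simp only [if_true]
    have : (fun i => x ((p, i), g)) = ∑ i, x ((p, i), g) • (Pi.single i (1 : ℂ) : Fin m → ℂ) := by
      ext j
      simp [Finset.sum_apply, Pi.single_apply]
    rw [this, map_sum]
    apply Finset.sum_congr rfl
    intro i _
    rw [map_smul, smul_eq_mul, mul_comm]
  · intro b _ hb
    simp [hb]
  · simp

/-! ### the spaces of sequences -/

theorem G1_mem_ker (Ψ : Psi) (m : ℕ) (ψ : ℕ → ℂ) :
    ψ ∈ Ψ.sp ⊓ LinearMap.ker (res m) ↔ ψ ∈ Ψ.sp ∧ ∀ i, i < m → ψ i = 0 := by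
  rw [Submodule.mem_inf, LinearMap.mem_ker]
  refine and_congr_right fun _ => ?_
  constructor
  · intro h i hi
    have := congrFun h ⟨i, hi⟩
    exact this
  · intro h
    funext i
    exact h i i.2

theorem G1_stable (Ψ : Psi) (m : ℕ)
    (h : Ψ.sp ⊓ LinearMap.ker (res (m + 1)) = Ψ.sp ⊓ LinearMap.ker (res m)) :
    Ψ.sp ⊓ LinearMap.ker (res m) = ⊥ := by
  rw [eq_bot_iff]
  intro ψ hψ
  have hk : ∀ j : ℕ, (fun n => ψ (n + j)) ∈ Ψ.sp ⊓ LinearMap.ker (res m) := by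
    intro j
    induction j with
    | zero => exact hψ
    | succ j ih =>
      rw [← h, G1_mem_ker] at ih
      rw [G1_mem_ker]
      have h1 := Ψ.inv _ ih.1
      have h2 : shift (fun n => ψ (n + j)) = fun n => ψ (n + (j + 1)) := by
        funext n
        change ψ (n + 1 + j) = ψ (n + (j + 1))
        congr 1
        omega
      rw [h2] at h1
      refine ⟨h1, fun i hi => ?_⟩
      have h3 : ψ (i + 1 + j) = 0 := ih.2 (i + 1) (by omega)
      have h4 : i + (j + 1) = i + 1 + j := by omega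
      change ψ (i + (j + 1)) = 0
      rw [h4]
      exact h3
  rw [Submodule.mem_bot]
  funext n
  rcases lt_or_ge n m with hn | hn
  · exact ((G1_mem_ker Ψ m ψ).1 hψ).2 n hn
  · have h1 := hk (n - m)
    rw [← h, G1_mem_ker] at h1
    have h2 : ψ (m + (n - m)) = 0 := h1.2 m (by omega)
    have : m + (n - m) = n := by omega
    rw [this] at h2
    exact h2

theorem G1_chain (Ψ : Psi) (m : ℕ) :
    Ψ.sp ⊓ LinearMap.ker (res m) = ⊥ ∨
      finrank ℂ ↥(Ψ.sp ⊓ LinearMap.ker (res m)) + m ≤ Ψ.c := by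
  have := Ψ.fin
  induction m with
  | zero =>
    right
    rw [add_zero]
    exact Submodule.finrank_mono inf_le_left
  | succ m ih =>
    have hle : Ψ.sp ⊓ LinearMap.ker (res (m + 1)) ≤ Ψ.sp ⊓ LinearMap.ker (res m) := by
      intro ψ hψ
      rw [G1_mem_ker] at hψ ⊢
      exact ⟨hψ.1, fun i hi => hψ.2 i (by omega)⟩
    rcases ih with ih | ih
    · left
      rw [ih] at hle
      exact le_bot_iff.1 hle
    · rcases eq_or_lt_of_le hle with h | h
      · left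
        rw [h]
        exact G1_stable Ψ m h
      · right
        have : FiniteDimensional ℂ ↥(Ψ.sp ⊓ LinearMap.ker (res m)) :=
          Submodule.finiteDimensional_of_le (inf_le_left : _ ≤ Ψ.sp)
        have := Submodule.finrank_lt_finrank_of_lt h
        omega

/-- a sequence in `Ψ` vanishing on `0..l`, `l+1 ≥ dim Ψ`, is zero -/
theorem psi_inj (Ψ : Psi) (m : ℕ) (hm : Ψ.c ≤ m) (ψ : ℕ → ℂ) (h : ψ ∈ Ψ.sp)
    (h0 : res m ψ = 0) : ψ = 0 := by
  have hmem : ψ ∈ Ψ.sp ⊓ LinearMap.ker (res m) := ⟨h, h0⟩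
  have := Ψ.fin
  have : FiniteDimensional ℂ ↥(Ψ.sp ⊓ LinearMap.ker (res m)) :=
    Submodule.finiteDimensional_of_le (inf_le_left : _ ≤ Ψ.sp)
  have hb : Ψ.sp ⊓ LinearMap.ker (res m) = ⊥ := by
    rcases G1_chain Ψ m with h1 | h1
    · exact h1
    · apply Submodule.finrank_eq_zero.1
      omega
  rw [hb, Submodule.mem_bot] at hmem
  exact hmem

/-- extension of windows -/
theorem G1_ext (Ψ : Psi) (m : ℕ) (hm : Ψ.c ≤ m) :
    ∃ E : (Fin m → ℂ) →ₗ[ℂ] (ℕ → ℂ), (∀ v, E v ∈ Ψ.sp) ∧ ∀ ψ ∈ Ψ.sp, E (res m ψ) = ψ := by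
  have hinj : LinearMap.ker ((res m).domRestrict Ψ.sp) = ⊥ := by
    rw [eq_bot_iff]
    intro ψ hψ
    rw [Submodule.mem_bot]
    apply Subtype.ext
    exact psi_inj Ψ m hm ψ ψ.2 hψ
  obtain ⟨E, hE⟩ := LinearMap.exists_leftInverse_of_injective _ hinj
  refine ⟨Ψ.sp.subtype.comp E, fun v => (E v).2, fun ψ hψ => ?_⟩
  have := LinearMap.congr_fun hE ⟨ψ, hψ⟩
  have h2 := congrArg Subtype.val this
  exact h2

/-- the key lemma: relations propagate -/
theorem G1_key (P0 P1 : GMat κ ι G) (Ψ : Psi) (l : ℕ) (hl : Ψ.c ≤ l) (X : ι × G → ℕ → ℂ)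
    (hX : ∀ q, X q ∈ Ψ.sp) (k : κ) (g : G)
    (h : ∀ i, i < l → act P0 (fun q => X q i) k g + act P1 (fun q => X q (i + 1)) k g = 0)
    (n : ℕ) : act P0 (fun q => X q n) k g + act P1 (fun q => X q (n + 1)) k g = 0 := by
  have hR : (fun n => act P0 (fun q => X q n) k g + act P1 (fun q => X q (n + 1)) k g) ∈ Ψ.sp := by
    have : (fun n => act P0 (fun q => X q n) k g + act P1 (fun q => X q (n + 1)) k g) =
        (∑ i, (P0 k i).sum (fun h c => c • X (i, g * h))) +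
          ∑ i, (P1 k i).sum (fun h c => c • shift (X (i, g * h))) := by
      funext n
      simp only [act, Finsupp.sum, Pi.add_apply, Finset.sum_apply, Pi.smul_apply, smul_eq_mul]
      rfl
    rw [this]
    apply Ψ.sp.add_mem
    · apply Ψ.sp.sum_mem
      intro i _
      apply Ψ.sp.sum_mem
      intro h _
      exact Ψ.sp.smul_mem _ (hX _)
    · apply Ψ.sp.sum_mem
      intro i _
      apply Ψ.sp.sum_mem
      intro h _
      exact Ψ.sp.smul_mem _ (Ψ.inv _ (hX _))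
  have := psi_inj Ψ l hl _ hR (by
    funext i
    exact h i i.2)
  exact congrFun this n

/-- elements of `XW` as families of sequences -/
theorem G1_seq (P0 P1 : GMat κ ι G) (Ψ : Psi) (l : ℕ) (hl : Ψ.c ≤ l)
    (E : (Fin (l + 1) → ℂ) →ₗ[ℂ] (ℕ → ℂ)) (hE : ∀ v, E v ∈ Ψ.sp)
    (hE' : ∀ ψ ∈ Ψ.sp, E (res (l + 1) ψ) = ψ) (x : L2 ((ι × Fin (l + 1)) × G))
    (hx : x ∈ XW P0 P1 Ψ l) :
    (∀ p g (i : Fin (l + 1)), E (fun i => x ((p, i), g)) i = x ((p, i), g)) ∧
    ∀ k g n, act P0 (fun q => E (fun i => x ((q.1, i), q.2)) n) k g +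
      act P1 (fun q => E (fun i => x ((q.1, i), q.2)) (n + 1)) k g = 0 := by
  have h1 : ∀ p g (i : Fin (l + 1)), E (fun i => x ((p, i), g)) i = x ((p, i), g) := by
    intro p g i
    obtain ⟨ψ, hψ, hψ'⟩ := hx.2 p g
    rw [← hψ', hE' ψ hψ]
    exact congrFun hψ' i
  refine ⟨h1, fun k g n => ?_⟩
  apply G1_key P0 P1 Ψ l hl (fun q => E (fun i => x ((q.1, i), q.2))) (fun q => hE _) k g
  intro i hi
  have h2 := hx.1 (k, ⟨i, hi⟩) g
  rw [G1_act_Tm] at h2
  rw [← h2]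
  congr 2
  · funext q
    exact h1 q.1 q.2 (Fin.castSucc ⟨i, hi⟩)
  · funext q
    exact h1 q.1 q.2 (Fin.succ ⟨i, hi⟩)

theorem xw_extend (P0 P1 : GMat κ ι G) (Ψ : Psi) (l : ℕ) (hl : Ψ.c ≤ l) :
    ∀ x ∈ XW P0 P1 Ψ l, ∃ y ∈ XW P0 P1 Ψ (l + 1), ∀ p (i : Fin (l + 1)) g,
      y ((p, i.castSucc), g) = x ((p, i), g) := by
  intro x hx
  obtain ⟨E, hE, hE'⟩ := G1_ext Ψ (l + 1) (by omega)
  obtain ⟨h1, h2⟩ := G1_seq P0 P1 Ψ l hl E hE hE' x hx
  obtain ⟨T, _, hT⟩ := G1_win (ι := ι) (G := G) ((res (l + 2)).comp E)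
  have hy : ∀ p j g, T x ((p, j), g) = E (fun i => x ((p, i), g)) (j : ℕ) := fun p j g => hT x p j g
  refine ⟨T x, ⟨?_, ?_⟩, ?_⟩
  · intro a g
    obtain ⟨k, i⟩ := a
    rw [G1_act_Tm]
    simp only [hy]
    exact h2 k g i
  · intro p g
    refine ⟨E (fun i => x ((p, i), g)), hE _, ?_⟩
    funext j
    exact (hy p j g).symm
  · intro p i g
    rw [hy]
    exact h1 p g i

theorem G1_xw_linv (P0 P1 : GMat κ ι G) (Ψ : Psi) (l : ℕ) : LInv (XW P0 P1 Ψ l) := by
  intro g x y hx hxy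
  exact ⟨kerA_linv _ g x y hx.1 hxy, pt_linv _ g x y hx.2 hxy⟩

theorem G1_xw_closed (P0 P1 : GMat κ ι G) (Ψ : Psi) (l : ℕ) :
    IsClosed (XW P0 P1 Ψ l : Set (L2 ((ι × Fin (l + 1)) × G))) := by
  unfold XW
  rw [Submodule.coe_inf]
  exact (kerA_closed _).inter (pt_closed _)

theorem G1_vdim_bot : vdim (⊥ : Submodule ℂ (L2 (ι × G))) = 0 := by
  classical
  unfold vdim
  apply Finset.sum_eq_zero
  intro i _
  rw [Submodule.bot_coe, Metric.infDist_singleton, dist_zero_right]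
  unfold dl
  rw [lp.norm_single (by norm_num)]
  simp

theorem G1_step (P0 P1 : GMat κ ι G) (Ψ : Psi) (l : ℕ) (hl : Ψ.c ≤ l) :
    vdim (XW P0 P1 Ψ (l + 1)) = vdim (XW P0 P1 Ψ l) := by
  obtain ⟨T, hTe, hT⟩ := G1_win (ι := ι) (G := G) (m := l + 2) (n := l + 1)
    { toFun := fun v i => v i.castSucc
      map_add' := fun _ _ => rfl
      map_smul' := fun _ _ => rfl }
  have hT' : ∀ x p j g, T x ((p, j), g) = x ((p, Fin.castSucc j), g) := fun x p j g => hT x p j g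
  rw [vdim_split (G1_xw_linv P0 P1 Ψ (l + 1)) (G1_xw_closed P0 P1 Ψ (l + 1)) T hTe]
  have hker : XW P0 P1 Ψ (l + 1) ⊓ LinearMap.ker (T : L2 ((ι × Fin (l + 2)) × G) →ₗ[ℂ]
      L2 ((ι × Fin (l + 1)) × G)) = ⊥ := by
    rw [eq_bot_iff]
    rintro x ⟨hx, hxT⟩
    have hxT' : T x = 0 := hxT
    rw [Submodule.mem_bot]
    apply lp.ext
    funext q
    obtain ⟨⟨p, j⟩, g⟩ := q
    obtain ⟨ψ, hψ, hψ'⟩ := hx.2 p g
    have h0 : ψ = 0 := by
      apply psi_inj Ψ (l + 1) (by omega) ψ hψ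
      funext i
      have h1 := congrFun hψ' i.castSucc
      have h2 := hT' x p i g
      rw [hxT'] at h2
      have h3 : (0 : L2 ((ι × Fin (l + 1)) × G)) ((p, i), g) = 0 := rfl
      rw [h3] at h2
      rw [← h2] at h1
      exact h1
    have h4 := congrFun hψ' j
    rw [h0, map_zero] at h4
    exact h4.symm
  have hmap : (XW P0 P1 Ψ (l + 1)).map (T : L2 ((ι × Fin (l + 2)) × G) →ₗ[ℂ]
      L2 ((ι × Fin (l + 1)) × G)) = XW P0 P1 Ψ l := by
    apply le_antisymm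
    · rintro _ ⟨x, hx, rfl⟩
      refine ⟨?_, ?_⟩
      · intro a g
        obtain ⟨k, i⟩ := a
        have h1 := hx.1 (k, i.castSucc) g
        rw [G1_act_Tm] at h1 ⊢
        rw [← h1]
        congr 2
        · funext q
          exact hT' x q.1 i.castSucc q.2
        · funext q
          exact hT' x q.1 i.succ q.2
      · intro p g
        obtain ⟨ψ, hψ, hψ'⟩ := hx.2 p g
        refine ⟨ψ, hψ, ?_⟩
        funext j
        have h1 := congrFun hψ' j.castSucc
        exact h1.trans (hT' x p j g).symm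
    · intro x hx
      obtain ⟨y, hy, hy'⟩ := xw_extend P0 P1 Ψ l hl x hx
      refine ⟨y, hy, ?_⟩
      apply lp.ext
      funext q
      obtain ⟨⟨p, j⟩, g⟩ := q
      exact (hT' y p j g).trans (hy' p j g)
  rw [hker, hmap, G1_vdim_bot, zero_add]

theorem del_eq (P0 P1 : GMat κ ι G) (Ψ : Psi) (l : ℕ) (hl : Ψ.c ≤ l) :
    vdim (XW P0 P1 Ψ l) = del P0 P1 Ψ := by
  induction l, hl using Nat.le_induction with
  | base => rfl
  | succ l hl ih => rw [G1_step P0 P1 Ψ l hl, ih]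

theorem xw_split (P0 P1 : GMat κ ι G) (Ψ Ψ' : Psi) (l : ℕ) (f : (Fin (l + 1) → ℂ) →ₗ[ℂ] ℂ)
    (hΨ : ∀ ψ, ψ ∈ Ψ'.sp ↔ (ψ ∈ Ψ.sp ∧ f (res (l + 1) ψ) = 0)) :
    vdim (XW P0 P1 Ψ l) = vdim (XW P0 P1 Ψ' l) + vdim (fimg f (XW P0 P1 Ψ l)) := by
  obtain ⟨T, hTe, hT⟩ := G1_fun (ι := ι) (G := G) f
  rw [vdim_split (G1_xw_linv P0 P1 Ψ l) (G1_xw_closed P0 P1 Ψ l) T hTe]
  congr 2
  · ext x
    constructor
    · rintro ⟨hx, hxT⟩
      have hxT' : T x = 0 := hxT
      refine ⟨hx.1, fun p g => ?_⟩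
      obtain ⟨ψ, hψ, hψ'⟩ := hx.2 p g
      refine ⟨ψ, (hΨ ψ).2 ⟨hψ, ?_⟩, hψ'⟩
      rw [hψ', ← hT x p g, hxT']
      rfl
    · rintro ⟨hx1, hx2⟩
      refine ⟨⟨hx1, fun p g => ?_⟩, ?_⟩
      · obtain ⟨ψ, hψ, hψ'⟩ := hx2 p g
        exact ⟨ψ, ((hΨ ψ).1 hψ).1, hψ'⟩
      · change T x = 0
        apply lp.ext
        funext q
        obtain ⟨p, g⟩ := q
        rw [hT]
        obtain ⟨ψ, hψ, hψ'⟩ := hx2 p g
        rw [← hψ', ((hΨ ψ).1 hψ).2]
        rfl
  · ext y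
    constructor
    · rintro ⟨x, hx, rfl⟩
      exact ⟨x, hx, fun p g => hT x p g⟩
    · rintro ⟨x, hx, hy⟩
      refine ⟨x, hx, ?_⟩
      apply lp.ext
      funext q
      obtain ⟨p, g⟩ := q
      exact (hT x p g).trans (hy p g).symm

theorem fimg_le (P0 P1 : GMat κ ι G) (Ψ : Psi) (l : ℕ) (hl : Ψ.c ≤ l)
    (f : (Fin (l + 1) → ℂ) →ₗ[ℂ] ℂ) (z : ℂ) (hf : Eig Ψ l f z) :
    fimg f (XW P0 P1 Ψ l) ≤ kerA (pen P0 P1 z) := by
  rintro y ⟨x, hx, hy⟩
  obtain ⟨E, hE, hE'⟩ := G1_ext Ψ (l + 1) (by omega)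
  obtain ⟨h1, h2⟩ := G1_seq P0 P1 Ψ l hl E hE hE' x hx
  intro k g
  rw [G1_act_pen, ← act_smul]
  have hfl : ∀ v : Fin (l + 1) → ℂ, f v = ∑ i, f (Pi.single i 1) * v i := by
    intro v
    have : v = ∑ i, v i • (Pi.single i (1 : ℂ) : Fin (l + 1) → ℂ) := by
      ext j
      simp [Finset.sum_apply, Pi.single_apply]
    conv_lhs => rw [this]
    rw [map_sum]
    apply Finset.sum_congr rfl
    intro i _
    rw [map_smul, smul_eq_mul, mul_comm]
  have e0 : (y : ι × G → ℂ) = fun q => ∑ i : Fin (l + 1), f (Pi.single i 1) *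
      E (fun i => x ((q.1, i), q.2)) i := by
    funext q
    obtain ⟨p, g⟩ := q
    rw [hy, hfl]
    apply Finset.sum_congr rfl
    intro i _
    simp only [h1]
  have e1 : (z • (y : ι × G → ℂ)) = fun q => ∑ i : Fin (l + 1), f (Pi.single i 1) *
      E (fun i => x ((q.1, i), q.2)) (i + 1) := by
    funext q
    obtain ⟨p, g⟩ := q
    have h3 := hf.2 _ (hE (fun i => x ((p, i), g)))
    have h4 : res (l + 1) (E (fun i => x ((p, i), g))) = fun i => x ((p, i), g) := by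
      funext i
      exact h1 p g i
    rw [h4] at h3
    rw [Pi.smul_apply, hy, smul_eq_mul, ← h3, hfl]
    rfl
  rw [e1, e0, G1_act_sum, G1_act_sum, ← Finset.sum_add_distrib]
  apply Finset.sum_eq_zero
  intro i _
  rw [← mul_add, h2, mul_zero]

end G1

end Pool.Agent.H80R2.BC
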