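import Pool.Agent.H80R2.BC.Defs

/-!
Restriction and extension by zero of `ℓ²` functions along injections.
-/

set_option autoImplicit false

namespace Pool.Agent.H80R2.BC

open scoped ENNReal
open Module

theorem LP_norm_sq {X : Type} (x : L2 X) : ‖x‖ ^ 2 = ∑' a, ‖x a‖ ^ 2 := by
  have h := lp.norm_rpow_eq_tsum (p := 2) (by norm_num) x
  simpa using h

theorem LP_summable {X : Type} (x : L2 X) : Summable fun a => ‖x a‖ ^ 2 := by
  have h := (lp.memℓp x)
  rw [memℓp_gen_iff (by norm_num)] at h
  simpa using h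

theorem LP_mem {X : Type} {f : X → ℂ} (h : Summable fun a => ‖f a‖ ^ 2) :
    Memℓp (fun a => f a) 2 := by
  rw [memℓp_gen_iff (by norm_num)]
  simpa using h

/-- restriction along an injection -/
noncomputable def LPpull {X Y : Type} (j : Y → X) (hj : Function.Injective j) (x : L2 X) : L2 Y :=
  ⟨fun y => x (j y), LP_mem ((LP_summable x).comp_injective hj)⟩

@[simp] theorem LPpull_apply {X Y : Type} (j : Y → X) (hj : Function.Injective j) (x : L2 X)
    (y : Y) : LPpull j hj x y = x (j y) := rfl

theorem LPpull_norm_le {X Y : Type} (j : Y → X) (hj : Function.Injective j) (x : L2 X) :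
    ‖LPpull j hj x‖ ≤ ‖x‖ := by
  have h : ‖LPpull j hj x‖ ^ 2 ≤ ‖x‖ ^ 2 := by
    rw [LP_norm_sq, LP_norm_sq]
    exact Summable.tsum_le_tsum_of_inj j hj (fun c _ => by positivity) (fun a => le_rfl)
      ((LP_summable x).comp_injective hj) (LP_summable x)
  exact (sq_le_sq₀ (norm_nonneg _) (norm_nonneg _)).1 h

theorem LP_extend_support {X Y : Type} (j : Y → X) (y : Y → ℂ) (b : X)
    (hb : ¬ ∃ a, j a = b) : Function.extend j y 0 b = 0 := by
  rw [Function.extend_apply' _ _ _ hb]; rfl

theorem LP_extend_summable {X Y : Type} (j : Y → X) (hj : Function.Injective j) (y : L2 Y) :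
    Summable fun b => ‖Function.extend j (y : Y → ℂ) 0 b‖ ^ 2 := by
  rw [← hj.summable_iff]
  · have : ((fun b => ‖Function.extend j (y : Y → ℂ) 0 b‖ ^ 2) ∘ j) = fun a => ‖y a‖ ^ 2 := by
      funext a
      simp [Function.comp, hj.extend_apply]
    rw [this]; exact LP_summable y
  · intro b hb
    rw [LP_extend_support j y b (by simpa using hb)]; simp

/-- extension by zero along an injection -/
noncomputable def LPpush {X Y : Type} (j : Y → X) (hj : Function.Injective j) (y : L2 Y) : L2 X :=
  ⟨Function.extend j (y : Y → ℂ) 0, LP_mem (LP_extend_summable j hj y)⟩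

theorem LPpush_apply {X Y : Type} (j : Y → X) (hj : Function.Injective j) (y : L2 Y)
    (a : Y) : LPpush j hj y (j a) = y a := hj.extend_apply _ _ _

theorem LPpush_apply' {X Y : Type} (j : Y → X) (hj : Function.Injective j) (y : L2 Y)
    (b : X) (hb : ¬ ∃ a, j a = b) : LPpush j hj y b = 0 := LP_extend_support j y b hb

theorem LPpush_norm {X Y : Type} (j : Y → X) (hj : Function.Injective j) (y : L2 Y) :
    ‖LPpush j hj y‖ = ‖y‖ := by
  have h : ‖LPpush j hj y‖ ^ 2 = ‖y‖ ^ 2 := by
    rw [LP_norm_sq, LP_norm_sq]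
    have h1 : ∑' b, ‖(LPpush j hj y) b‖ ^ 2 = ∑' a, ‖(LPpush j hj y) (j a)‖ ^ 2 := by
      symm
      apply hj.tsum_eq (f := fun b => ‖(LPpush j hj y) b‖ ^ 2)
      intro b hb
      by_contra hcon
      apply hb
      simp only
      rw [LPpush_apply' j hj y b (by simpa using hcon)]
      simp
    rw [h1]
    simp only [LPpush_apply]
  exact (sq_eq_sq₀ (norm_nonneg _) (norm_nonneg _)).1 h

theorem LPpull_sub {X Y : Type} (j : Y → X) (hj : Function.Injective j) (x x' : L2 X) :
    LPpull j hj (x - x') = LPpull j hj x - LPpull j hj x' := by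
  ext y; simp [lp.coeFn_sub]

theorem LPpush_sub {X Y : Type} (j : Y → X) (hj : Function.Injective j) (y y' : L2 Y) :
    LPpush j hj (y - y') = LPpush j hj y - LPpush j hj y' := by
  ext b
  rw [lp.coeFn_sub, Pi.sub_apply]
  by_cases hb : ∃ a, j a = b
  · obtain ⟨a, rfl⟩ := hb
    rw [LPpush_apply, LPpush_apply, LPpush_apply, lp.coeFn_sub, Pi.sub_apply]
  · rw [LPpush_apply' j hj _ b hb, LPpush_apply' j hj _ b hb, LPpush_apply' j hj _ b hb, sub_zero]

/-! ### `act` of a slice and scalar matrices -/

section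
variable {ι κ G : Type} [Group G] [Fintype ι]

theorem LP_act_congr (A : GMat κ ι G) {x y : ι × G → ℂ} (k : κ) (g : G)
    (h : ∀ i h, x (i, g * h) = y (i, g * h)) : act A x k g = act A y k g := by
  unfold act
  refine Finset.sum_congr rfl fun i _ => ?_
  unfold Finsupp.sum
  exact Finset.sum_congr rfl fun a _ => by simp only [h i a]

/-- scalar matrix -/
noncomputable def LPscal (M : κ → ι → ℂ) : GMat κ ι G := fun k i => Finsupp.single 1 (M k i)

theorem LP_act_scal (M : κ → ι → ℂ) (x : ι × G → ℂ) (k : κ) (g : G) :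
    act (LPscal M) x k g = ∑ i, M k i * x (i, g) := by
  unfold act LPscal
  refine Finset.sum_congr rfl fun i _ => ?_
  rw [Finsupp.sum_single_index (by simp)]
  simp

theorem LP_act_pen (P0 P1 : GMat κ ι G) (z : ℂ) (x : ι × G → ℂ) (k : κ) (g : G) :
    act (pen P0 P1 z) x k g = act P0 x k g + z * act P1 x k g := by
  unfold act pen
  rw [Finset.mul_sum, ← Finset.sum_add_distrib]
  refine Finset.sum_congr rfl fun i _ => ?_
  rw [Finsupp.sum_add_index' (by simp) (by intros; ring), Finsupp.sum_smul_index' (by simp)]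
  congr 1
  simp only [Finsupp.sum, smul_eq_mul, Finset.mul_sum]
  exact Finset.sum_congr rfl fun a _ => by ring

theorem LP_act_Tm (P0 P1 : GMat κ ι G) (l : ℕ) (x : (ι × Fin (l + 1)) × G → ℂ) (k : κ)
    (i : Fin l) (g : G) :
    act (Tm P0 P1 l) x (k, i) g = act P0 (fun q => x ((q.1, i.castSucc), q.2)) k g
      + act P1 (fun q => x ((q.1, i.succ), q.2)) k g := by
  classical
  unfold act Tm
  rw [← Finset.sum_add_distrib, Fintype.sum_prod_type]
  refine Finset.sum_congr rfl fun p _ => ?_
  have h1 : ∀ j : Fin (l + 1),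
      ((if j = i.castSucc then P0 k p else 0) + (if j = i.succ then P1 k p else 0)).sum
        (fun h c => c * x ((p, j), g * h))
      = (if j = i.castSucc then (P0 k p).sum (fun h c => c * x ((p, j), g * h)) else 0)
        + (if j = i.succ then (P1 k p).sum (fun h c => c * x ((p, j), g * h)) else 0) := by
    intro j
    rw [Finsupp.sum_add_index' (by simp) (by intros; ring)]
    congr 1 <;> split_ifs <;> simp
  have h2 : ∀ j : Fin (l + 1),
      ((if (p, j).2 = (k, i).2.castSucc then P0 (k, i).1 (p, j).1 else 0) +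
        (if (p, j).2 = (k, i).2.succ then P1 (k, i).1 (p, j).1 else 0)).sum
        (fun h c => c * x ((p, j), g * h))
      = (if j = i.castSucc then (P0 k p).sum (fun h c => c * x ((p, j), g * h)) else 0)
        + (if j = i.succ then (P1 k p).sum (fun h c => c * x ((p, j), g * h)) else 0) := h1
  rw [Finset.sum_congr rfl fun j _ => h2 j, Finset.sum_add_distrib, Finset.sum_ite_eq',
    Finset.sum_ite_eq']
  simp

end

end Pool.Agent.H80R2.BC
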