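import Pool.Agent.H80R2.BC.Dim1
import Pool.Agent.H80R2.BC.Dim2
import Pool.Agent.H80R2.BC.Act
import Pool.Agent.H80R2.BC.L2Pull

/-!
Dimension of the solution spaces of the systems `Tm`.
-/

set_option autoImplicit false
set_option linter.unusedSectionVars false

namespace Pool.Agent.H80R2.BC

open scoped ENNReal
open Module

section S
variable {ι κ μ ν G : Type} [Group G] [Fintype ι] [Fintype κ] [Fintype μ] [Fintype ν]

omit [Fintype ι] [Fintype κ] in
theorem S_equi_sub {T : L2 (ι × G) →L[ℂ] L2 (κ × G)} (hT : Equi T) {g : G} {x y : L2 (ι × G)}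
    (h : IsTr g x y) : IsTr g (T x) (T y) := hT g x y h

omit [Fintype ι] [Fintype κ] in
theorem S_linv_inf_ker {K : Submodule ℂ (L2 (ι × G))} (hK : LInv K)
    {T : L2 (ι × G) →L[ℂ] L2 (κ × G)} (hT : Equi T) :
    LInv (K ⊓ LinearMap.ker (T : L2 (ι × G) →ₗ[ℂ] L2 (κ × G))) := by
  intro g x y hx hxy
  refine ⟨hK g x y hx.1 hxy, ?_⟩
  have h0 : T x = 0 := hx.2
  have h1 := hT g x y hxy
  show T y = 0
  ext q
  obtain ⟨i, h⟩ := q
  rw [h1 i h, h0]
  rfl

omit [Fintype ι] [Fintype κ] in
theorem S_closed_inf_ker {K : Submodule ℂ (L2 (ι × G))} (hc : IsClosed (K : Set (L2 (ι × G))))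
    (T : L2 (ι × G) →L[ℂ] L2 (κ × G)) :
    IsClosed ((K ⊓ LinearMap.ker (T : L2 (ι × G) →ₗ[ℂ] L2 (κ × G)) : Submodule ℂ (L2 (ι × G))) :
      Set (L2 (ι × G))) := by
  rw [Submodule.coe_inf]
  exact hc.inter (ContinuousLinearMap.isClosed_ker T)

theorem S_vdim_bot : vdim (⊥ : Submodule ℂ (L2 (ι × G))) = 0 := by
  have h := vdim_split (K := (⊥ : Submodule ℂ (L2 (ι × G))))
    (by
      intro g x y hx hxy
      rw [Submodule.mem_bot] at hx ⊢
      ext q
      obtain ⟨i, h⟩ := q
      rw [hxy i h, hx]; rfl)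
    (by simp) (ContinuousLinearMap.id ℂ (L2 (ι × G))) (fun g x y h => h)
  rw [bot_inf_eq, Submodule.map_bot] at h
  linarith

/-- two step estimate -/
theorem S_two {ι₁ ι₂ : Type} [Fintype ι₁] [Fintype ι₂] {K : Submodule ℂ (L2 (ι × G))}
    (hK : LInv K)
    (hc : IsClosed (K : Set (L2 (ι × G)))) {T : L2 (ι × G) →L[ℂ] L2 (ι₁ × G)} (hT : Equi T)
    {U : L2 (ι × G) →L[ℂ] L2 (ι₂ × G)} (hU : Equi U) {K1 : Submodule ℂ (L2 (ι₁ × G))}
    {K2 : Submodule ℂ (L2 (ι₂ × G))} (h1 : ∀ x ∈ K, T x ∈ K1)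
    (h2 : ∀ x ∈ K, T x = 0 → U x ∈ K2) (h3 : ∀ x ∈ K, T x = 0 → U x = 0 → x = 0) :
    vdim K ≤ vdim K1 + vdim K2 := by
  have e1 := vdim_split hK hc T hT
  have e2 := vdim_split (S_linv_inf_ker hK hT) (S_closed_inf_ker hc T) U hU
  have e3 : (K ⊓ LinearMap.ker (T : L2 (ι × G) →ₗ[ℂ] L2 (ι₁ × G)))
      ⊓ LinearMap.ker (U : L2 (ι × G) →ₗ[ℂ] L2 (ι₂ × G)) = ⊥ := by
    rw [eq_bot_iff]
    intro x hx
    exact h3 x hx.1.1 hx.1.2 hx.2
  rw [e3, S_vdim_bot] at e2
  have m1 : vdim (K.map (T : L2 (ι × G) →ₗ[ℂ] L2 (ι₁ × G))) ≤ vdim K1 := by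
    apply vdim_mono
    rintro _ ⟨x, hx, rfl⟩
    exact h1 x hx
  have m2 : vdim ((K ⊓ LinearMap.ker (T : L2 (ι × G) →ₗ[ℂ] L2 (ι₁ × G))).map
      (U : L2 (ι × G) →ₗ[ℂ] L2 (ι₂ × G))) ≤ vdim K2 := by
    apply vdim_mono
    rintro _ ⟨x, hx, rfl⟩
    exact h2 x hx.1 hx.2
  linarith

/-- window operators -/
theorem S_win (M : ν → μ → ℂ) : ∃ T : L2 ((ι × μ) × G) →L[ℂ] L2 ((ι × ν) × G), Equi T ∧
    ∀ x p i g, T x ((p, i), g) = ∑ i', M i i' * x ((p, i'), g) := by
  classical
  obtain ⟨T, hT, h⟩ := exists_rho (G := G)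
    (LPscal (fun (a : ι × ν) (b : ι × μ) => if b.1 = a.1 then M a.2 b.2 else 0))
  refine ⟨T, hT, fun x p i g => ?_⟩
  rw [h, LP_act_scal, Fintype.sum_prod_type, Finset.sum_eq_single p]
  · simp
  · intro b _ hb
    simp [hb]
  · simp

/-- functional operators -/
theorem S_fun (M : μ → ℂ) : ∃ T : L2 ((ι × μ) × G) →L[ℂ] L2 (ι × G), Equi T ∧
    ∀ x p g, T x (p, g) = ∑ i', M i' * x ((p, i'), g) := by
  classical
  obtain ⟨T, hT, h⟩ := exists_rho (G := G)
    (LPscal (fun (a : ι) (b : ι × μ) => if b.1 = a then M b.2 else 0))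
  refine ⟨T, hT, fun x p g => ?_⟩
  rw [h, LP_act_scal, Fintype.sum_prod_type, Finset.sum_eq_single p]
  · simp
  · intro b _ hb
    simp [hb]
  · simp

omit [Fintype κ] in
theorem S_act_sub (A : GMat κ ι G) (x y : ι × G → ℂ) (c : ℂ) (k : κ) (g : G) :
    act A (fun q => x q - c * y q) k g = act A x k g - c * act A y k g := by
  have : (fun q => x q - c * y q) = x + (-c) • y := by
    funext q; simp [sub_eq_add_neg]
  rw [this, act_add, act_smul]; ring

theorem vdim_Tm_le_inf (P0 P1 : GMat κ ι G) (l : ℕ) :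
    vdim (kerA (Tm P0 P1 l)) ≤ Fintype.card ι + l * dk P1 := by
  classical
  induction l with
  | zero =>
    have := vdim_le_card (kerA (Tm P0 P1 0))
    simpa using this
  | succ l ih =>
    obtain ⟨T, hT, hT'⟩ := S_win (ι := ι) (G := G)
      (fun (i : Fin (l + 1)) (i' : Fin (l + 1 + 1)) => if i' = i.castSucc then (1 : ℂ) else 0)
    obtain ⟨U, hU, hU'⟩ := S_fun (ι := ι) (G := G)
      (fun (i' : Fin (l + 1 + 1)) => if i' = Fin.last (l + 1) then (1 : ℂ) else 0)
    have hT2 : ∀ x p i g, T x ((p, i), g) = x ((p, i.castSucc), g) := by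
      intro x p i g; rw [hT']; simp
    have hU2 : ∀ x p g, U x (p, g) = x ((p, Fin.last (l + 1)), g) := by
      intro x p g; rw [hU']; simp
    have key := S_two (kerA_linv (Tm P0 P1 (l + 1))) (kerA_closed _) hT hU
      (K1 := kerA (Tm P0 P1 l)) (K2 := kerA P1)
      (by
        intro x hx
        rintro ⟨k, i⟩ g
        have := hx (k, i.castSucc) g
        rw [LP_act_Tm] at this ⊢
        simpa only [hT2, Fin.succ_castSucc] using this)
      (by
        intro x hx h0 k g
        have := hx (k, Fin.last l) g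
        rw [LP_act_Tm] at this
        have hz : ∀ p (i : Fin (l + 1)) g, x ((p, i.castSucc), g) = 0 := by
          intro p i g; rw [← hT2, h0]; rfl
        have e0 : act P0 (fun q => x ((q.1, (Fin.last l).castSucc), q.2)) k g = 0 := by
          rw [← act_zero P0 k g]
          apply LP_act_congr
          intro i h
          exact hz i (Fin.last l) (g * h)
        rw [e0, zero_add] at this
        rw [← this]
        apply LP_act_congr
        intro i h
        rw [hU2]
        rfl)
      (by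
        intro x hx h0 h1
        ext q
        obtain ⟨⟨p, i⟩, g⟩ := q
        induction i using Fin.lastCases with
        | last => rw [← hU2, h1]; rfl
        | cast i => rw [← hT2, h0]; rfl)
    have : dk P1 = vdim (kerA P1) := rfl
    push_cast
    rw [this] at ih ⊢
    linarith

theorem vdim_Tm_le (P0 P1 : GMat κ ι G) (z : ℂ) (l : ℕ) :
    vdim (kerA (Tm P0 P1 l)) ≤ Fintype.card ι + l * dk (pen P0 P1 z) := by
  classical
  induction l with
  | zero =>
    have := vdim_le_card (kerA (Tm P0 P1 0))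
    simpa using this
  | succ l ih =>
    obtain ⟨T, hT, hT'⟩ := S_win (ι := ι) (G := G)
      (fun (i : Fin (l + 1)) (i' : Fin (l + 1 + 1)) =>
        (if i' = i.succ then (1 : ℂ) else 0) - z * (if i' = i.castSucc then (1 : ℂ) else 0))
    obtain ⟨U, hU, hU'⟩ := S_fun (ι := ι) (G := G)
      (fun (i' : Fin (l + 1 + 1)) => if i' = 0 then (1 : ℂ) else 0)
    have hT2 : ∀ x p i g, T x ((p, i), g) = x ((p, i.succ), g) - z * x ((p, i.castSucc), g) := by
      intro x p i g
      rw [hT']
      simp only [sub_mul, Finset.sum_sub_distrib, mul_assoc, ← Finset.mul_sum]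
      simp
    have hU2 : ∀ x p g, U x (p, g) = x ((p, 0), g) := by
      intro x p g; rw [hU']; simp
    have key := S_two (kerA_linv (Tm P0 P1 (l + 1))) (kerA_closed _) hT hU
      (K1 := kerA (Tm P0 P1 l)) (K2 := kerA (pen P0 P1 z))
      (by
        intro x hx
        rintro ⟨k, i⟩ g
        have r1 := hx (k, i.castSucc) g
        have r2 := hx (k, i.succ) g
        rw [LP_act_Tm] at r1 r2 ⊢
        simp only [hT2]
        rw [S_act_sub P0 (fun q => x ((q.1, i.castSucc.succ), q.2)),
          S_act_sub P1 (fun q => x ((q.1, i.succ.succ), q.2))]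
        simp only [Fin.succ_castSucc] at r1 r2 ⊢
        linear_combination r2 - z * r1)
      (by
        intro x hx h0 k g
        have := hx (k, 0) g
        rw [LP_act_Tm] at this
        have hz : ∀ p (i : Fin (l + 1)) g, x ((p, i.succ), g) = z * x ((p, i.castSucc), g) := by
          intro p i g
          have : T x ((p, i), g) = 0 := by rw [h0]; rfl
          rw [hT2] at this
          linear_combination this
        rw [LP_act_pen]
        have e0 : act P0 (U x) k g = act P0 (fun q => x ((q.1, (0 : Fin (l + 1)).castSucc), q.2)) k g := by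
          apply LP_act_congr
          intro i h
          rw [hU2]; rfl
        have e1 : act P1 (fun q => x ((q.1, (0 : Fin (l + 1)).succ), q.2)) k g
            = z * act P1 (U x) k g := by
          rw [← act_smul]
          apply LP_act_congr
          intro i h
          rw [Pi.smul_apply, hU2]
          exact hz i 0 (g * h)
        rw [e0, ← e1]
        exact this)
      (by
        intro x hx h0 h1
        ext q
        obtain ⟨⟨p, i⟩, g⟩ := q
        have hz : ∀ p (i : Fin (l + 1)) g, x ((p, i.succ), g) = z * x ((p, i.castSucc), g) := by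
          intro p i g
          have : T x ((p, i), g) = 0 := by rw [h0]; rfl
          rw [hT2] at this
          linear_combination this
        induction i using Fin.induction with
        | zero => rw [← hU2, h1]; rfl
        | succ i ih =>
          rw [hz, ih]
          simp)
    have : dk (pen P0 P1 z) = vdim (kerA (pen P0 P1 z)) := rfl
    push_cast
    rw [this] at ih ⊢
    linarith

end S

end Pool.Agent.H80R2.BC
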