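import Pool.Agent.H80R2.BC.Defs

set_option autoImplicit false

/-!
# Task A1: basic facts on the von Neumann dimension `vdim`
-/

namespace Pool.Agent.H80R2.BC

open scoped ENNReal InnerProductSpace
open Module

section A1gen

variable {X : Type}

/-- orthogonal projection onto the closure -/
noncomputable def A1_P (K : Submodule ℂ (L2 X)) : L2 X →L[ℂ] L2 X :=
  K.topologicalClosure.starProjection

theorem A1_P_mem (K : Submodule ℂ (L2 X)) (x : L2 X) : A1_P K x ∈ K.topologicalClosure :=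
  Submodule.starProjection_apply_mem _ _

theorem A1_inner_eq_zero (K : Submodule ℂ (L2 X)) (x : L2 X) {y : L2 X} (hy : y ∈ K) :
    ⟪x - A1_P K x, y⟫_ℂ = 0 :=
  Submodule.starProjection_inner_eq_zero _ _ (K.le_topologicalClosure hy)

theorem A1_inner_eq_zero' (K : Submodule ℂ (L2 X)) (x : L2 X) {y : L2 X}
    (hy : y ∈ K.topologicalClosure) : ⟪x - A1_P K x, y⟫_ℂ = 0 :=
  Submodule.starProjection_inner_eq_zero _ _ hy

theorem A1_symm (K : Submodule ℂ (L2 X)) (x y : L2 X) :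
    ⟪A1_P K x, y⟫_ℂ = ⟪x, A1_P K y⟫_ℂ :=
  Submodule.inner_starProjection_left_eq_right _ _ _

theorem A1_eq_self (K : Submodule ℂ (L2 X)) {x : L2 X} (hx : x ∈ K.topologicalClosure) :
    A1_P K x = x := Submodule.starProjection_eq_self_iff.2 hx

theorem A1_mem_iff (K : Submodule ℂ (L2 X)) {x : L2 X} :
    A1_P K x = x ↔ x ∈ K.topologicalClosure := Submodule.starProjection_eq_self_iff

/-- characterisation of the projection -/
theorem A1_eq_of {K : Submodule ℂ (L2 X)} {x v : L2 X} (hv : v ∈ K.topologicalClosure)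
    (h : ∀ w ∈ K, ⟪x - v, w⟫_ℂ = 0) : A1_P K x = v := by
  refine Submodule.eq_starProjection_of_mem_of_inner_eq_zero hv fun w hw => ?_
  have hcl : IsClosed {w : L2 X | ⟪x - v, w⟫_ℂ = 0} :=
    isClosed_eq (continuous_const.inner continuous_id) continuous_const
  have h1 : closure (K : Set (L2 X)) ⊆ {w : L2 X | ⟪x - v, w⟫_ℂ = 0} :=
    closure_minimal h hcl
  exact h1 hw

theorem A1_norm_sq (K : Submodule ℂ (L2 X)) (x : L2 X) :
    ‖x‖ ^ 2 = ‖A1_P K x‖ ^ 2 + ‖x - A1_P K x‖ ^ 2 := by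
  have h := Submodule.norm_sq_eq_add_norm_sq_starProjection x K.topologicalClosure
  rw [Submodule.starProjection_orthogonal_val] at h
  exact h

theorem A1_infDist (K : Submodule ℂ (L2 X)) (x : L2 X) :
    Metric.infDist x (K : Set (L2 X)) = ‖x - A1_P K x‖ := by
  rw [← Metric.infDist_closure]
  change Metric.infDist x (K.topologicalClosure : Set (L2 X)) = _
  rw [A1_P, Submodule.starProjection_minimal, Metric.infDist_eq_iInf]
  congr 1
  ext w
  rw [dist_eq_norm]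

/-- basis vectors -/
noncomputable def A1_e (a : X) : L2 X := by
  classical
  exact lp.single 2 a (1 : ℂ)

theorem A1_inner_e (a : X) (f : L2 X) : ⟪A1_e a, f⟫_ℂ = f a := by
  classical
  have h : (A1_e a : L2 X) = lp.single 2 a (1 : ℂ) := by unfold A1_e; congr
  rw [h, lp.inner_single_left]
  simp

theorem A1_inner_e' (a : X) (f : L2 X) : ⟪f, A1_e a⟫_ℂ = (starRingEnd ℂ) (f a) := by
  rw [← inner_conj_symm, A1_inner_e]

theorem A1_e_apply (a b : X) [Decidable (b = a)] : (A1_e a : L2 X) b = if b = a then 1 else 0 := by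
  classical
  have h : (A1_e a : L2 X) = lp.single 2 a (1 : ℂ) := by unfold A1_e; congr
  rw [h, lp.coeFn_single]
  by_cases hb : b = a
  · subst hb; simp
  · simp [hb]

theorem A1_norm_e (a : X) : ‖(A1_e a : L2 X)‖ = 1 := by
  classical
  have h : (A1_e a : L2 X) = lp.single 2 a (1 : ℂ) := by unfold A1_e; congr
  rw [h, lp.norm_single (by norm_num)]
  simp

theorem A1_ext {f g : L2 X} (h : ∀ a, ⟪A1_e a, f⟫_ℂ = ⟪A1_e a, g⟫_ℂ) : f = g := by
  ext a
  have := h a
  rwa [A1_inner_e, A1_inner_e] at this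

theorem A1_memlp_iff {Y : Type} (f : Y → ℂ) : Memℓp f 2 ↔ Summable (fun x => ‖f x‖ ^ 2) := by
  rw [memℓp_gen_iff (by norm_num)]
  norm_num

theorem A1_norm_sq_tsum {Y : Type} (f : L2 Y) : ‖f‖ ^ 2 = ∑' x, ‖f x‖ ^ 2 := by
  have := lp.norm_rpow_eq_tsum (p := 2) (by norm_num) f
  norm_num at this
  exact this

/-- Composition with a permutation, a linear isometry. -/
noncomputable def A1_tr (σ : Equiv.Perm X) : L2 X →ₗᵢ[ℂ] L2 X where
  toFun f := ⟨fun x => f (σ x), by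
    have h := (A1_memlp_iff _).1 (lp.memℓp f)
    exact (A1_memlp_iff _).2 ((σ.summable_iff (f := fun x => ‖f x‖ ^ 2)).2 h)⟩
  map_add' f g := by ext x; rfl
  map_smul' c f := by ext x; rfl
  norm_map' f := by
    have h : ∀ g : L2 X, ‖g‖ = Real.sqrt (∑' x, ‖g x‖ ^ 2) := fun g => by
      rw [← A1_norm_sq_tsum, Real.sqrt_sq (norm_nonneg _)]
    rw [h, h]
    congr 1
    exact σ.tsum_eq (fun x => ‖f x‖ ^ 2)

theorem A1_tr_apply (σ : Equiv.Perm X) (f : L2 X) (x : X) : A1_tr σ f x = f (σ x) := rfl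

end A1gen

section A1grp
variable {ι κ μ G : Type} [Group G]

theorem A1_dl_eq (i : ι) : dl G i = A1_e (i, (1 : G)) := by
  unfold dl A1_e
  congr
  funext a b
  exact Subsingleton.elim _ _

/-- left translation: `(lam g x)(i,h) = x(i, g⁻¹ h)` -/
noncomputable def A1_lam (g : G) : L2 (ι × G) →ₗᵢ[ℂ] L2 (ι × G) :=
  A1_tr ((Equiv.refl ι).prodCongr (Equiv.mulLeft g⁻¹))

theorem A1_lam_apply (g : G) (x : L2 (ι × G)) (i : ι) (h : G) :
    A1_lam g x (i, h) = x (i, g⁻¹ * h) := rfl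

theorem A1_inner_lam (g : G) (x y : L2 (ι × G)) : ⟪A1_lam g x, A1_lam g y⟫_ℂ = ⟪x, y⟫_ℂ :=
  (A1_lam g).inner_map_map x y

theorem A1_lam_lam (g h : G) (x : L2 (ι × G)) : A1_lam g (A1_lam h x) = A1_lam (g * h) x := by
  ext ⟨i, a⟩
  rw [A1_lam_apply, A1_lam_apply, A1_lam_apply, mul_inv_rev, mul_assoc]

theorem A1_lam_one (x : L2 (ι × G)) : A1_lam 1 x = x := by
  ext ⟨i, a⟩
  rw [A1_lam_apply, inv_one, one_mul]

theorem A1_inner_lam_left (g : G) (x y : L2 (ι × G)) :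
    ⟪A1_lam g x, y⟫_ℂ = ⟪x, A1_lam g⁻¹ y⟫_ℂ := by
  rw [← A1_inner_lam g x (A1_lam g⁻¹ y), A1_lam_lam, mul_inv_cancel, A1_lam_one]

theorem A1_isTr (g : G) (x : L2 (ι × G)) : IsTr g x (A1_lam g⁻¹ x) := by
  intro i h
  rw [A1_lam_apply, inv_inv]

theorem A1_eq_lam {g : G} {x y : L2 (ι × G)} (h : IsTr g x y) : y = A1_lam g⁻¹ x := by
  ext ⟨i, a⟩
  rw [A1_lam_apply, inv_inv]
  exact h i a

theorem A1_linv_mem {K : Submodule ℂ (L2 (ι × G))} (hK : LInv K) (g : G) {x : L2 (ι × G)}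
    (hx : x ∈ K) : A1_lam g x ∈ K := by
  have := hK g⁻¹ x _ hx (A1_isTr g⁻¹ x)
  rwa [inv_inv] at this

theorem A1_linv_of {K : Submodule ℂ (L2 (ι × G))} (h : ∀ g, ∀ x ∈ K, A1_lam g x ∈ K) :
    LInv K := by
  intro g x y hx hxy
  rw [A1_eq_lam hxy]
  exact h _ _ hx

theorem A1_linv_closure {K : Submodule ℂ (L2 (ι × G))} (hK : LInv K) :
    LInv K.topologicalClosure := by
  refine A1_linv_of fun g x hx => ?_
  have h1 : Set.MapsTo (A1_lam g) (K : Set (L2 (ι × G))) (K : Set (L2 (ι × G))) :=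
    fun y hy => A1_linv_mem hK g hy
  exact h1.closure (A1_lam g).continuous hx

theorem A1_equi_lam {T : L2 (ι × G) →L[ℂ] L2 (κ × G)} (hT : Equi T) (g : G) (x : L2 (ι × G)) :
    T (A1_lam g x) = A1_lam g (T x) := by
  have h := A1_isTr g⁻¹ x
  rw [inv_inv] at h
  have h2 := A1_eq_lam (hT _ _ _ h)
  rwa [inv_inv] at h2

theorem A1_equi_of {T : L2 (ι × G) →L[ℂ] L2 (κ × G)}
    (h : ∀ g x, T (A1_lam g x) = A1_lam g (T x)) : Equi T := by
  intro g x y hxy
  rw [A1_eq_lam hxy, h]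
  exact A1_isTr g (T x)

/-- the projection onto a left invariant subspace is equivariant -/
theorem A1_P_lam {K : Submodule ℂ (L2 (ι × G))} (hK : LInv K) (g : G) (x : L2 (ι × G)) :
    A1_P K (A1_lam g x) = A1_lam g (A1_P K x) := by
  refine A1_eq_of (A1_linv_mem (A1_linv_closure hK) g (A1_P_mem K x)) fun w hw => ?_
  rw [← map_sub, A1_inner_lam_left]
  exact A1_inner_eq_zero K x (A1_linv_mem hK _ hw)

theorem A1_P_equi {K : Submodule ℂ (L2 (ι × G))} (hK : LInv K) : Equi (A1_P K) :=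
  A1_equi_of (A1_P_lam hK)

theorem A1_lam_dl (g : G) (i : ι) : A1_lam g (dl G i) = A1_e (i, g) := by
  classical
  ext ⟨j, h⟩
  rw [A1_lam_apply, A1_dl_eq, A1_e_apply, A1_e_apply]
  congr 1
  simp only [Prod.mk.injEq, eq_iff_iff]
  constructor
  · rintro ⟨h1, h2⟩
    exact ⟨h1, by rw [inv_mul_eq_one] at h2; exact h2.symm⟩
  · rintro ⟨h1, h2⟩
    exact ⟨h1, by rw [h2, inv_mul_cancel]⟩

variable [Fintype ι] [Fintype κ] [Fintype μ]

omit [Fintype ι] in
theorem A1_term (K : Submodule ℂ (L2 (ι × G))) (i : ι) :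
    1 - (Metric.infDist (dl G i) (K : Set (L2 (ι × G)))) ^ 2 = ‖A1_P K (dl G i)‖ ^ 2 := by
  rw [A1_infDist]
  have h := A1_norm_sq K (dl G i)
  have h1 : ‖dl G i‖ = 1 := by rw [A1_dl_eq]; exact A1_norm_e _
  rw [h1] at h
  linarith

/-- the key formula for the dimension -/
theorem A1_vdim_eq (K : Submodule ℂ (L2 (ι × G))) :
    vdim K = ∑ i, ‖A1_P K (dl G i)‖ ^ 2 := by
  unfold vdim
  exact Finset.sum_congr rfl fun i _ => A1_term K i

theorem vdim_nonneg (K : Submodule ℂ (L2 (ι × G))) : 0 ≤ vdim K := by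
  rw [A1_vdim_eq]
  exact Finset.sum_nonneg fun i _ => by positivity

theorem vdim_le_card (K : Submodule ℂ (L2 (ι × G))) : vdim K ≤ Fintype.card ι := by
  have h : vdim K ≤ ∑ _i : ι, (1 : ℝ) := by
    unfold vdim
    refine Finset.sum_le_sum fun i _ => ?_
    have := sq_nonneg (Metric.infDist (dl G i) (K : Set (L2 (ι × G))))
    linarith
  simpa using h

theorem A1_le_of_le {X : Type} {K K' : Submodule ℂ (L2 X)} (h : K ≤ K') (x : L2 X) :
    ‖x - A1_P K' x‖ ≤ ‖x - A1_P K x‖ := by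
  rw [← A1_infDist, ← A1_infDist]
  exact Metric.infDist_le_infDist_of_subset h ⟨0, K.zero_mem⟩

theorem A1_norm_le_of_le {X : Type} {K K' : Submodule ℂ (L2 X)} (h : K ≤ K') (x : L2 X) :
    ‖A1_P K x‖ ^ 2 ≤ ‖A1_P K' x‖ ^ 2 := by
  have h1 := A1_norm_sq K x
  have h2 := A1_norm_sq K' x
  have h3 := A1_le_of_le h x
  have h4 := pow_le_pow_left₀ (norm_nonneg _) h3 2
  linarith

theorem vdim_mono {K K' : Submodule ℂ (L2 (ι × G))} (h : K ≤ K') : vdim K ≤ vdim K' := by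
  rw [A1_vdim_eq, A1_vdim_eq]
  exact Finset.sum_le_sum fun i _ => A1_norm_le_of_le h _

theorem vdim_closure (K : Submodule ℂ (L2 (ι × G))) : vdim K.topologicalClosure = vdim K := by
  unfold vdim
  refine Finset.sum_congr rfl fun i _ => ?_
  rw [Submodule.topologicalClosure_coe, Metric.infDist_closure]

theorem vdim_top : vdim (⊤ : Submodule ℂ (L2 (ι × G))) = Fintype.card ι := by
  unfold vdim
  have h : ∀ i : ι, (1 : ℝ) - (Metric.infDist (dl G i)
      ((⊤ : Submodule ℂ (L2 (ι × G))) : Set (L2 (ι × G)))) ^ 2 = 1 := by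
    intro i
    rw [Metric.infDist_zero_of_mem (by exact Submodule.mem_top)]
    norm_num
  rw [Finset.sum_congr rfl fun i _ => h i]
  simp

theorem A1_vdim_bot : vdim (⊥ : Submodule ℂ (L2 (ι × G))) = 0 := by
  rw [A1_vdim_eq]
  refine Finset.sum_eq_zero fun i _ => ?_
  have h : A1_P (⊥ : Submodule ℂ (L2 (ι × G))) (dl G i) = 0 := by
    refine A1_eq_of (Submodule.zero_mem _) fun w hw => ?_
    rw [Submodule.mem_bot] at hw
    rw [hw, inner_zero_right]
  rw [h]
  norm_num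

theorem eq_bot_of_vdim {K : Submodule ℂ (L2 (ι × G))} (hK : LInv K) (h : vdim K ≤ 0) :
    K = ⊥ := by
  rw [A1_vdim_eq] at h
  have h0 : ∑ i, ‖A1_P K (dl G i)‖ ^ 2 = 0 :=
    le_antisymm h (Finset.sum_nonneg fun i _ => by positivity)
  rw [Finset.sum_eq_zero_iff_of_nonneg (fun i _ => by positivity)] at h0
  rw [Submodule.eq_bot_iff]
  intro x hx
  ext ⟨i, g⟩
  have h1 : A1_P K (dl G i) = 0 := by
    have := h0 i (Finset.mem_univ _)
    rwa [sq_eq_zero_iff, norm_eq_zero] at this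
  have h2 : x (i, g) = ⟪A1_e (i, g), x⟫_ℂ := (A1_inner_e _ _).symm
  rw [h2, ← A1_eq_self K (K.le_topologicalClosure hx), ← A1_symm, ← A1_lam_dl, A1_P_lam hK, h1,
    map_zero, inner_zero_left]
  rfl

theorem dense_of_vdim {K K' : Submodule ℂ (L2 (ι × G))} (hK : LInv K) (hK' : LInv K')
    (h : K ≤ K') (hd : vdim K' ≤ vdim K) : K' ≤ K.topologicalClosure := by
  rw [A1_vdim_eq, A1_vdim_eq] at hd
  have h1 : ∀ i : ι, ‖A1_P K (dl G i)‖ ^ 2 = ‖A1_P K' (dl G i)‖ ^ 2 := by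
    have h2 := Finset.sum_eq_sum_iff_of_le (s := Finset.univ)
      (fun i _ => A1_norm_le_of_le h (dl G i))
    have h3 := h2.1 (le_antisymm (Finset.sum_le_sum fun i _ => A1_norm_le_of_le h _) hd)
    exact fun i => h3 i (Finset.mem_univ _)
  have hcl : K.topologicalClosure ≤ K'.topologicalClosure := Submodule.topologicalClosure_mono h
  have h4 : ∀ i : ι, A1_P K' (dl G i) = A1_P K (dl G i) := by
    intro i
    -- orthogonality
    have h5 : ⟪A1_P K' (dl G i) - A1_P K (dl G i), A1_P K (dl G i)⟫_ℂ = 0 := by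
      have e1 := A1_inner_eq_zero' K (dl G i) (A1_P_mem K (dl G i))
      have e2 := A1_inner_eq_zero' K' (dl G i) (hcl (A1_P_mem K (dl G i)))
      have e3 : A1_P K' (dl G i) - A1_P K (dl G i) =
          (dl G i - A1_P K (dl G i)) - (dl G i - A1_P K' (dl G i)) := by abel
      rw [e3, inner_sub_left, e1, e2, sub_zero]
    have h6 : ‖A1_P K' (dl G i)‖ * ‖A1_P K' (dl G i)‖ =
        ‖A1_P K' (dl G i) - A1_P K (dl G i)‖ * ‖A1_P K' (dl G i) - A1_P K (dl G i)‖ +
          ‖A1_P K (dl G i)‖ * ‖A1_P K (dl G i)‖ := by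
      have := norm_add_sq_eq_norm_sq_add_norm_sq_of_inner_eq_zero _ _ h5
      rwa [sub_add_cancel] at this
    have h7 := h1 i
    have h8 : ‖A1_P K' (dl G i) - A1_P K (dl G i)‖ = 0 := by
      have : ‖A1_P K' (dl G i) - A1_P K (dl G i)‖ * ‖A1_P K' (dl G i) - A1_P K (dl G i)‖ = 0 := by
        nlinarith
      exact mul_self_eq_zero.1 this
    rwa [norm_eq_zero, sub_eq_zero] at h8
  intro x hx
  rw [← A1_mem_iff]
  refine A1_ext fun ⟨i, g⟩ => ?_
  have h9 := A1_eq_self K' (K'.le_topologicalClosure hx)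
  conv_rhs => rw [← h9]
  rw [← A1_symm, ← A1_symm, ← A1_lam_dl, A1_P_lam hK, A1_P_lam hK', h4]

end A1grp

section A1pt
variable {ι μ G : Type} [Group G] [Fintype ι] [Fintype μ]

/-- `∑ k, v k • δ_{(p,k),1}` -/
noncomputable def A1_vec (G : Type) [Group G] (p : ι) (v : μ → ℂ) : L2 ((ι × μ) × G) :=
  ∑ k, v k • dl G (p, k)

omit [Fintype ι] in
theorem A1_inner_vec (p : ι) (v : μ → ℂ) (y : L2 ((ι × μ) × G)) :
    ⟪A1_vec G p v, y⟫_ℂ = ∑ k, (starRingEnd ℂ) (v k) * y ((p, k), (1 : G)) := by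
  unfold A1_vec
  rw [sum_inner]
  refine Finset.sum_congr rfl fun k _ => ?_
  rw [inner_smul_left, A1_dl_eq, A1_inner_e]

omit [Fintype ι] in
theorem A1_vec_apply (p : ι) (v : μ → ℂ) (p' : ι) (k : μ) (g : G)
    [Decidable (p' = p ∧ g = 1)] :
    A1_vec G p v ((p', k), g) = if p' = p ∧ g = 1 then v k else 0 := by
  classical
  unfold A1_vec
  rw [lp.coeFn_sum, Finset.sum_apply]
  have h : ∀ c : μ, (v c • dl G (p, c) : L2 ((ι × μ) × G)) ((p', k), g) =
      if c = k then (if p' = p ∧ g = 1 then v k else 0) else 0 := by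
    intro c
    rw [lp.coeFn_smul, Pi.smul_apply, A1_dl_eq, A1_e_apply]
    by_cases hc : c = k
    · subst hc
      by_cases hp : p' = p ∧ g = 1
      · obtain ⟨rfl, rfl⟩ := hp
        simp
      · have : ¬ ((p', c), g) = ((p, c), (1 : G)) := by
          intro h
          simp only [Prod.mk.injEq] at h
          exact hp ⟨h.1.1, h.2⟩
        simp [this, hp]
    · have : ¬ ((p', k), g) = ((p, c), (1 : G)) := by
        intro h
        simp only [Prod.mk.injEq] at h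
        exact hc h.1.2.symm
      simp [this, hc]
  rw [Finset.sum_congr rfl fun c _ => h c]
  simp

theorem A1_trace (Φ : Submodule ℂ (EuclideanSpace ℂ μ)) [DecidableEq μ] :
    ∑ i, ‖Φ.starProjection (EuclideanSpace.single i (1 : ℂ))‖ ^ 2 = finrank ℂ Φ := by
  let b := stdOrthonormalBasis ℂ Φ
  have h1 : ∀ i : μ, ‖Φ.starProjection (EuclideanSpace.single i (1 : ℂ))‖ ^ 2 =
      ∑ k, ‖((b k : Φ) : EuclideanSpace ℂ μ) i‖ ^ 2 := by
    intro i
    have h2 : ‖Φ.starProjection (EuclideanSpace.single i (1 : ℂ))‖ =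
        ‖Φ.orthogonalProjectionOnto (EuclideanSpace.single i (1 : ℂ))‖ := rfl
    rw [h2, ← b.sum_sq_norm_inner_right]
    refine Finset.sum_congr rfl fun k _ => ?_
    rw [Submodule.inner_orthogonalProjectionOnto_eq_of_mem_left]
    rw [← inner_conj_symm, EuclideanSpace.inner_single_left]
    simp
  rw [Finset.sum_congr rfl fun i _ => h1 i, Finset.sum_comm]
  have h3 : ∀ k, ∑ i, ‖((b k : Φ) : EuclideanSpace ℂ μ) i‖ ^ 2 = 1 := by
    intro k
    rw [← EuclideanSpace.norm_sq_eq]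
    have : ‖((b k : Φ) : EuclideanSpace ℂ μ)‖ = 1 := b.orthonormal.1 k
    rw [this]; norm_num
  rw [Finset.sum_congr rfl fun k _ => h3 k]
  simp

theorem vdim_pt (Φ : Submodule ℂ (μ → ℂ)) :
    vdim (pt Φ : Submodule ℂ (L2 ((ι × μ) × G))) = Fintype.card ι * finrank ℂ Φ := by
  classical
  -- `Φ` inside the Euclidean space
  let e : EuclideanSpace ℂ μ ≃ₗ[ℂ] (μ → ℂ) := WithLp.linearEquiv 2 ℂ (μ → ℂ)
  let Φ' : Submodule ℂ (EuclideanSpace ℂ μ) := Φ.comap (e : EuclideanSpace ℂ μ →ₗ[ℂ] (μ → ℂ))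
  have hfin : finrank ℂ Φ' = finrank ℂ Φ := by
    have h1 : Φ' = Φ.map (e.symm : (μ → ℂ) →ₗ[ℂ] EuclideanSpace ℂ μ) := by
      ext v
      simp only [Φ', Submodule.mem_comap, Submodule.mem_map]
      constructor
      · intro hv
        exact ⟨e v, hv, by simp⟩
      · rintro ⟨w, hw, rfl⟩
        simpa using hw
    rw [h1]
    exact LinearEquiv.finrank_map_eq e.symm Φ
  let q : μ → EuclideanSpace ℂ μ := fun i => Φ'.starProjection (EuclideanSpace.single i (1 : ℂ))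
  have hq : ∀ i, (fun k => q i k) ∈ Φ := by
    intro i
    have : q i ∈ Φ' := Submodule.starProjection_apply_mem _ _
    exact this
  have hP : ∀ (p : ι) (i : μ), A1_P (pt Φ : Submodule ℂ (L2 ((ι × μ) × G))) (dl G (p, i)) =
      A1_vec G p (fun k => q i k) := by
    intro p i
    refine A1_eq_of (Submodule.le_topologicalClosure _ ?_) ?_
    · intro p' g
      have h1 : (fun k => (A1_vec G p (fun k => q i k)) ((p', k), g)) =
          if p' = p ∧ g = 1 then (fun k => q i k) else 0 := by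
        funext k
        rw [A1_vec_apply]
        split_ifs <;> rfl
      rw [h1]
      split_ifs
      · exact hq i
      · exact Φ.zero_mem
    · intro w hw
      rw [inner_sub_left, A1_inner_vec, A1_dl_eq, A1_inner_e]
      have h2 : (fun k => w ((p, k), (1 : G))) ∈ Φ := hw p 1
      let y : EuclideanSpace ℂ μ := e.symm (fun k => w ((p, k), (1 : G)))
      have hy : y ∈ Φ' := by
        change e (e.symm (fun k => w ((p, k), (1 : G)))) ∈ Φ
        rw [LinearEquiv.apply_symm_apply]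
        exact h2
      have h3 : ⟪EuclideanSpace.single i (1 : ℂ) - q i, y⟫_ℂ = 0 :=
        Submodule.starProjection_inner_eq_zero _ _ hy
      rw [inner_sub_left, EuclideanSpace.inner_single_left, PiLp.inner_apply] at h3
      have h4 : ∀ k, y k = w ((p, k), (1 : G)) := fun k => rfl
      simp only [h4, RCLike.inner_apply, map_one, one_mul] at h3
      rw [← h3]
      congr 1
      exact Finset.sum_congr rfl fun k _ => mul_comm _ _
  have hnorm : ∀ (p : ι) (i : μ), ‖A1_vec G p (fun k => q i k)‖ ^ 2 = ‖q i‖ ^ 2 := by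
    intro p i
    have h1 : ((‖A1_vec G p (fun k => q i k)‖ ^ 2 : ℝ) : ℂ) = ((‖q i‖ ^ 2 : ℝ) : ℂ) := by
      have h2 : ⟪A1_vec G p (fun k => q i k), A1_vec G p (fun k => q i k)⟫_ℂ =
          ((‖A1_vec G p (fun k => q i k)‖ : ℝ) : ℂ) ^ 2 :=
        inner_self_eq_norm_sq_to_K (𝕜 := ℂ) (A1_vec G p (fun k => q i k))
      rw [A1_inner_vec] at h2
      have h6 : ((‖q i‖ ^ 2 : ℝ) : ℂ) = ∑ k, ((‖q i k‖ ^ 2 : ℝ) : ℂ) := by
        rw [EuclideanSpace.norm_sq_eq]
        push_cast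
        rfl
      rw [h6, Complex.ofReal_pow, ← h2]
      refine Finset.sum_congr rfl fun k _ => ?_
      rw [A1_vec_apply, if_pos ⟨rfl, rfl⟩, mul_comm, Complex.mul_conj, Complex.normSq_eq_norm_sq]
    exact_mod_cast h1
  rw [A1_vdim_eq, Fintype.sum_prod_type]
  have h5 : ∀ p : ι, ∑ i : μ, ‖A1_P (pt Φ : Submodule ℂ (L2 ((ι × μ) × G))) (dl G (p, i))‖ ^ 2 =
      (finrank ℂ Φ : ℝ) := by
    intro p
    rw [← hfin, ← A1_trace Φ']
    refine Finset.sum_congr rfl fun i _ => ?_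
    rw [hP, hnorm]
  rw [Finset.sum_congr rfl fun p _ => h5 p]
  simp

end A1pt

end Pool.Agent.H80R2.BC
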