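import Pool.Agent.H80R2.BC.Defs
import Pool.Agent.H80R2.BC.Dim1
import Pool.Agent.H80R2.BC.Dim2
import Pool.Agent.H80R2.BC.Act

set_option autoImplicit false

/-! Task E: the tree lemma. -/

namespace Pool.Agent.H80R2.BC

open scoped ENNReal
open Module

section E
variable {ι κ μ G G' : Type} [Group G] [Group G'] [Fintype ι] [Fintype κ] [Fintype μ]

omit [Fintype κ] in
theorem E_act_push (inc : G →* G') (A : GMat κ ι G) (x : ι × G' → ℂ) (k : κ) (r : G') :
    act (push inc A) x k r = ∑ i, (A k i).sum (fun h c => c * x (i, r * inc h)) := by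
  unfold act push
  refine Finset.sum_congr rfl fun i _ => ?_
  rw [Finsupp.sum_mapDomain_index]
  · intro b; simp
  · intro b m1 m2; ring

theorem E_act_Th {j : ℕ} (u : ι → Fin j → G') (x : (ι × μ) × G' → ℂ) (q : Fin j) (i : μ) (r : G') :
    act (Th u) x (q, i) r = ∑ p, x ((p, i), r * u p q) := by
  classical
  unfold act Th
  rw [Fintype.sum_prod_type]
  refine Finset.sum_congr rfl fun p _ => ?_
  rw [Finset.sum_eq_single i]
  · simp
  · intro b _ hb
    simp [hb]
  · simp

omit [Fintype κ] in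
theorem E_mem_cut {j : ℕ} (inc : G →* G') (u : ι → Fin j → G') (A : GMat κ (ι × μ) G)
    (x : L2 ((ι × μ) × G')) : x ∈ kerA (Cut inc u A) ↔
      x ∈ kerA (push inc A) ∧ ∀ (q : Fin j) (i : μ) r, ∑ p, x ((p, i), r * u p q) = 0 := by
  constructor
  · intro h
    refine ⟨fun k g => h (Sum.inl k) g, fun q i r => ?_⟩
    rw [← E_act_Th (μ := μ) u (fun a => x a) q i r]
    exact h (Sum.inr (q, i)) r
  · rintro ⟨h1, h2⟩ k g
    rcases k with k | ⟨q, i⟩
    · exact h1 k g
    · have := h2 q i g
      rw [← E_act_Th (μ := μ) u (fun a => x a) q i g] at this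
      exact this

/-- a dominated reindexing -/
theorem E_memlp {X Y : Type} (x : L2 X) (e : Y ≃ X) (c : Y → ℂ) (hc : ∀ y, ‖c y‖ ≤ 1) :
    Memℓp (fun y => c y * x (e y)) 2 := by
  have hx := lp.memℓp x
  have h2 : 0 < (2 : ℝ≥0∞).toReal := by norm_num
  rw [memℓp_gen_iff h2] at hx ⊢
  have h3 := (e.summable_iff (f := fun i => ‖x i‖ ^ (2 : ℝ≥0∞).toReal)).2 hx
  refine Summable.of_nonneg_of_le (fun y => by positivity) (fun y => ?_) h3
  simp only [Function.comp_apply]
  apply Real.rpow_le_rpow (norm_nonneg _) _ h2.le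
  rw [norm_mul]
  exact mul_le_of_le_one_left (norm_nonneg _) (hc y)

omit [Fintype ι] in
/-- left translation -/
theorem E_translate (g : G') (x : L2 (ι × G')) : ∃ y : L2 (ι × G'), IsTr g x y := by
  refine ⟨⟨fun a => (1 : ℂ) * x ((Equiv.prodCongr (Equiv.refl ι) (Equiv.mulLeft g)) a),
    E_memlp x _ (fun _ => 1) (by simp)⟩, ?_⟩
  intro i h
  show (1 : ℂ) * x _ = _
  simp

omit [Fintype ι] [Group G'] in
/-- multiplication by the indicator function of a cut -/
theorem E_cutf (χ : G' → Bool) (x : L2 (ι × G')) : ∃ y : L2 (ι × G'),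
    ∀ a, y a = if χ a.2 then x a else 0 := by
  have hm : Memℓp (fun a : ι × G' => if χ a.2 then x a else 0) 2 := by
    have h := E_memlp x (Equiv.refl _) (fun a => if χ a.2 then (1 : ℂ) else 0)
      (by intro y; split_ifs <;> simp)
    have h' : (fun a : ι × G' => (if χ a.2 then (1 : ℂ) else 0) * x ((Equiv.refl _) a)) =
        fun a : ι × G' => if χ a.2 then x a else 0 := by
      funext a
      rw [Equiv.refl_apply]
      split_ifs
      · rw [one_mul]
      · rw [zero_mul]
    rwa [h'] at h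
  exact ⟨⟨_, hm⟩, fun a => rfl⟩

open Classical in
/-- the vector `v ⊗ δ_{(q,r)}` -/
noncomputable def E_vec {η : Type} (v : μ → ℂ) (q : η) (r : G') : L2 ((η × μ) × G') :=
  ∑ i, lp.single 2 ((q, i), r) (v i)

open Classical in
theorem E_vec_apply {η : Type} (v : μ → ℂ) (q : η) (r : G') (q' : η) (i : μ) (r' : G') :
    E_vec v q r ((q', i), r') = if q' = q ∧ r' = r then v i else 0 := by
  unfold E_vec
  rw [lp.coeFn_sum, Finset.sum_apply, Finset.sum_eq_single i]
  · by_cases h : q' = q ∧ r' = r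
    · rw [if_pos h, h.1, h.2]
      simp
    · rw [if_neg h, lp.single_apply_ne]
      intro h'
      apply h
      simp only [Prod.mk_inj] at h'
      exact ⟨h'.1.1, h'.2⟩
  · intro b _ hb
    rw [lp.single_apply_ne]
    intro h'
    simp only [Prod.mk_inj] at h'
    exact hb h'.1.2.symm
  · simp

theorem E_vec_add {η : Type} (v w : μ → ℂ) (q : η) (r : G') :
    E_vec (v + w) q r = E_vec v q r + E_vec w q r := by
  classical
  ext ⟨⟨q', i⟩, r'⟩
  rw [lp.coeFn_add, Pi.add_apply, E_vec_apply, E_vec_apply, E_vec_apply]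
  split_ifs <;> simp

theorem E_vec_smul {η : Type} (c : ℂ) (v : μ → ℂ) (q : η) (r : G') :
    E_vec (c • v) q r = c • E_vec v q r := by
  classical
  ext ⟨⟨q', i⟩, r'⟩
  rw [lp.coeFn_smul, Pi.smul_apply, E_vec_apply, E_vec_apply]
  split_ifs <;> simp

/-- `pt Φ` is contained in the closure of any subspace containing all `v ⊗ δ` -/
theorem E_pt_le {η : Type} [Fintype η] (Φ : Submodule ℂ (μ → ℂ))
    (W : Submodule ℂ (L2 ((η × μ) × G')))
    (hW : ∀ v ∈ Φ, ∀ (q : η) (r : G'), E_vec v q r ∈ W) : pt Φ ≤ W.topologicalClosure := by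
  classical
  intro y hy
  have h1 : HasSum (fun a : (η × μ) × G' => lp.single 2 a (y a)) y :=
    lp.hasSum_single (by norm_num) y
  let e : (η × G') × μ ≃ (η × μ) × G' :=
    { toFun := fun a => ((a.1.1, a.2), a.1.2)
      invFun := fun a => ((a.1.1, a.2), a.1.2)
      left_inv := fun _ => rfl
      right_inv := fun _ => rfl }
  have h2 := (e.hasSum_iff).2 h1
  have h3 : ∀ b : η × G', HasSum (fun i => ((fun a : (η × μ) × G' => (lp.single 2 a (y a) :
      L2 ((η × μ) × G'))) ∘ e) (b, i))
      (E_vec (fun i => y ((b.1, i), b.2)) b.1 b.2) := by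
    intro b
    unfold E_vec
    exact hasSum_fintype _
  have h4 := HasSum.prod_fiberwise h2 h3
  exact mem_closure_of_tendsto h4 (Filter.Eventually.of_forall fun s =>
    W.sum_mem fun b _ => hW _ (hy b.1 b.2) _ _)

theorem tree_ge (j : ℕ) (inc : G →* G') (hinc : Function.Injective inc) (u : ι → Fin j → G')
    (A : GMat κ (ι × μ) G) (Φ : Submodule ℂ (μ → ℂ)) :
    vdim (kerA A ⊓ pt Φ) - j * finrank ℂ Φ ≤ vdim (kerA (Cut inc u A)) := by
  obtain ⟨T, hT, hTa⟩ := exists_rho (Th (μ := μ) u)
  have hc : IsClosed ((kerA (push inc A) ⊓ pt Φ : Submodule ℂ (L2 ((ι × μ) × G'))) :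
      Set (L2 ((ι × μ) × G'))) :=
    (kerA_closed _).inter (pt_closed _)
  have hl : LInv (kerA (push inc A) ⊓ pt Φ : Submodule ℂ (L2 ((ι × μ) × G'))) := by
    intro g x y hx hxy
    exact ⟨kerA_linv _ g x y hx.1 hxy, pt_linv Φ g x y hx.2 hxy⟩
  have h1 := vdim_split hl hc T hT
  rw [vdim_ind inc hinc] at h1
  have h2 : vdim ((kerA (push inc A) ⊓ pt Φ) ⊓
      LinearMap.ker (T : L2 ((ι × μ) × G') →ₗ[ℂ] L2 ((Fin j × μ) × G'))) ≤
      vdim (kerA (Cut inc u A)) := by
    apply vdim_mono
    rintro x ⟨hx, hx'⟩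
    rw [E_mem_cut]
    refine ⟨hx.1, fun q i r => ?_⟩
    rw [← E_act_Th (μ := μ) u (fun a => x a) q i r, ← hTa]
    have : T x = 0 := hx'
    rw [this]
    rfl
  have h3 : vdim ((kerA (push inc A) ⊓ pt Φ).map
      (T : L2 ((ι × μ) × G') →ₗ[ℂ] L2 ((Fin j × μ) × G'))) ≤ j * finrank ℂ Φ := by
    have h4 := vdim_pt (ι := Fin j) (G := G') Φ
    rw [Fintype.card_fin] at h4
    rw [← h4]
    apply vdim_mono
    rintro _ ⟨x, hx, rfl⟩ q r
    have : (fun i => (T x) ((q, i), r)) = ∑ p, fun i => x ((p, i), r * u p q) := by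
      ext i
      rw [hTa, E_act_Th, Finset.sum_apply]
    show (fun i => (T x) ((q, i), r)) ∈ Φ
    rw [this]
    exact Φ.sum_mem fun p _ => hx.2 p _
  linarith

theorem tree (j : ℕ) (inc : G →* G') (hinc : Function.Injective inc) (u : ι → Fin j → G')
    (hu : Generic inc u) (A : GMat κ (ι × μ) G) :
    vdim (kerA (Cut inc u A)) =
      vdim (kerA A ⊓ pt (vals (kerA (Cut inc u A)))) -
        j * finrank ℂ (vals (kerA (Cut inc u A))) := by
  apply le_antisymm _ (tree_ge j inc hinc u A _)
  set Z := kerA (Cut inc u A) with hZ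
  set Φ := vals Z with hΦ
  obtain ⟨T, hT, hTa⟩ := exists_rho (Th (μ := μ) u)
  set W := (kerA (push inc A) ⊓ pt Φ).map
      (T : L2 ((ι × μ) × G') →ₗ[ℂ] L2 ((Fin j × μ) × G')) with hWd
  have hc : IsClosed ((kerA (push inc A) ⊓ pt Φ : Submodule ℂ (L2 ((ι × μ) × G'))) :
      Set (L2 ((ι × μ) × G'))) :=
    (kerA_closed _).inter (pt_closed _)
  have hl : LInv (kerA (push inc A) ⊓ pt Φ : Submodule ℂ (L2 ((ι × μ) × G'))) := by
    intro g x y hx hxy
    exact ⟨kerA_linv _ g x y hx.1 hxy, pt_linv Φ g x y hx.2 hxy⟩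
  have h1 := vdim_split hl hc T hT
  rw [vdim_ind inc hinc] at h1
  have h2 : vdim Z ≤ vdim ((kerA (push inc A) ⊓ pt Φ) ⊓
      LinearMap.ker (T : L2 ((ι × μ) × G') →ₗ[ℂ] L2 ((Fin j × μ) × G'))) := by
    apply vdim_mono
    intro x hx
    have hx1 := (E_mem_cut inc u A x).1 hx
    refine ⟨⟨hx1.1, fun p g => Submodule.subset_span ⟨x, hx, p, g, rfl⟩⟩, ?_⟩
    show T x = 0
    ext ⟨⟨q, i⟩, r⟩
    rw [hTa, E_act_Th, hx1.2 q i r]
    rfl
  -- the image contains all `v ⊗ δ`
  have hW : ∀ v ∈ Φ, ∀ (q : Fin j) (r : G'), E_vec v q r ∈ W := by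
    classical
    intro v hv q0 r0
    induction hv using Submodule.span_induction with
    | zero =>
      have : E_vec (0 : μ → ℂ) q0 r0 = 0 := by
        ext ⟨⟨q', i⟩, r'⟩
        rw [E_vec_apply]
        simp
      rw [this]
      exact W.zero_mem
    | add v w _ _ hv hw =>
      rw [E_vec_add]
      exact W.add_mem hv hw
    | smul c v _ hv =>
      rw [E_vec_smul]
      exact W.smul_mem c hv
    | mem v hv =>
      obtain ⟨x, hx, p0, g, rfl⟩ := hv
      obtain ⟨χ, hχ1, hχ2⟩ := hu p0 q0 (r0 * u p0 q0)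
      obtain ⟨x', hx'⟩ := E_translate (g * (r0 * u p0 q0)⁻¹) x
      have hx'Z : x' ∈ Z := kerA_linv _ _ x x' hx hx'
      have hx'1 := (E_mem_cut inc u A x').1 hx'Z
      obtain ⟨y, hy⟩ := E_cutf χ x'
      have hyK : y ∈ kerA (push inc A) ⊓ pt Φ := by
        constructor
        · intro k r
          rw [E_act_push]
          have h5 := hx'1.1 k r
          rw [E_act_push] at h5
          have h6 : ∑ i, (A k i).sum (fun h c => c * y (i, r * inc h)) =
              (if χ r then (1 : ℂ) else 0) * ∑ i, (A k i).sum (fun h c => c * x' (i, r * inc h)) := by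
            rw [Finset.mul_sum]
            refine Finset.sum_congr rfl fun i _ => ?_
            rw [Finsupp.sum, Finsupp.sum, Finset.mul_sum]
            refine Finset.sum_congr rfl fun h _ => ?_
            rw [hy]
            simp only [hχ1]
            split_ifs <;> ring
          rw [h6, h5, mul_zero]
        · intro p g'
          have : (fun i => y ((p, i), g')) = (if χ g' then (1 : ℂ) else 0) •
              fun i => x' ((p, i), g') := by
            ext i
            rw [hy, Pi.smul_apply]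
            split_ifs <;> simp
          rw [this]
          exact Φ.smul_mem _ (Submodule.subset_span ⟨x', hx'Z, p, g', rfl⟩)
      -- the number `±1`
      set s : ℂ := (if χ (r0 * u p0 q0) then (1 : ℂ) else 0) - (if χ r0 then (1 : ℂ) else 0) with hs
      have hs0 : s ≠ 0 := by
        have h7 : χ ((r0 * u p0 q0) * (u p0 q0)⁻¹) ≠ χ (r0 * u p0 q0) :=
          (hχ2 p0 q0 _).2 ⟨rfl, rfl, rfl⟩
        rw [mul_inv_cancel_right] at h7
        rw [hs]
        cases hA : χ r0 <;> cases hB : χ (r0 * u p0 q0) <;> simp_all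
      have hTy : T y = s • E_vec (fun i => x ((p0, i), g)) q0 r0 := by
        ext ⟨⟨q, i⟩, r⟩
        rw [hTa, E_act_Th, lp.coeFn_smul, Pi.smul_apply, E_vec_apply]
        have h8 : ∑ p, y ((p, i), r * u p q) =
            ∑ p, ((if χ (r * u p q) then (1 : ℂ) else 0) - (if χ r then (1 : ℂ) else 0)) *
              x' ((p, i), r * u p q) := by
          have h9 : ∑ p, ((if χ (r * u p q) then (1 : ℂ) else 0) - (if χ r then (1 : ℂ) else 0)) *
              x' ((p, i), r * u p q) = ∑ p, (y ((p, i), r * u p q) -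
              (if χ r then (1 : ℂ) else 0) * x' ((p, i), r * u p q)) := by
            refine Finset.sum_congr rfl fun p _ => ?_
            rw [hy]
            simp only
            split_ifs <;> ring
          rw [h9, Finset.sum_sub_distrib, ← Finset.mul_sum, hx'1.2 q i r]
          simp
        have hval : x' ((p0, i), r0 * u p0 q0) = x ((p0, i), g) := by
          rw [hx' (p0, i) (r0 * u p0 q0), inv_mul_cancel_right]
        rw [h8]
        by_cases hqr : q = q0 ∧ r = r0
        · obtain ⟨rfl, rfl⟩ := hqr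
          rw [Finset.sum_eq_single p0]
          · rw [hval, hs]
            simp
          · intro p _ hp
            have h10 := hχ2 p q (r * u p q)
            rw [mul_inv_cancel_right] at h10
            have h11 : χ r = χ (r * u p q) := by
              by_contra hne
              exact hp (h10.1 hne).1
            rw [h11]
            simp
          · simp
        · rw [if_neg hqr, smul_zero]
          apply Finset.sum_eq_zero
          intro p _
          have h10 := hχ2 p q (r * u p q)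
          rw [mul_inv_cancel_right] at h10
          have h11 : χ r = χ (r * u p q) := by
            by_contra hne
            obtain ⟨rfl, rfl, h12⟩ := h10.1 hne
            exact hqr ⟨rfl, mul_right_cancel h12⟩
          rw [h11]
          simp
      have h13 : E_vec (fun i => x ((p0, i), g)) q0 r0 = s⁻¹ • T y := by
        rw [hTy, smul_smul, inv_mul_cancel₀ hs0, one_smul]
      rw [h13]
      exact W.smul_mem _ ⟨y, hyK, rfl⟩
  have h3 : (j : ℝ) * finrank ℂ Φ ≤ vdim W := by
    have h4 := vdim_pt (ι := Fin j) (G := G') Φ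
    rw [Fintype.card_fin] at h4
    rw [← h4, ← vdim_closure W]
    exact vdim_mono (E_pt_le Φ W hW)
  linarith

end E

end Pool.Agent.H80R2.BC
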