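import Pool.Agent.H80R2.BC.Dim1
import Pool.Agent.H80R2.BC.Dim2
import Pool.Agent.H80R2.BC.Act
import Pool.Agent.H80R2.BC.Tree
import Pool.Agent.H80R2.BC.Sol
import Pool.Agent.H80R2.BC.PsiF

set_option autoImplicit false
set_option linter.unusedSectionVars false

namespace Pool.Agent.H80R2.BC

open scoped ENNReal
open Module

section F_basic
variable {ι κ μ μ' G G' : Type} [Group G] [Group G'] [Fintype ι] [Fintype κ] [Fintype μ]
  [Fintype μ']

theorem F_exists_tr (g : G) (x : L2 (ι × G)) : ∃ y : L2 (ι × G), IsTr g x y := by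
  have h2 : (0 : ℝ) < (2 : ℝ≥0∞).toReal := by norm_num
  have hx : Summable fun a : ι × G => ‖x a‖ ^ (2 : ℝ≥0∞).toReal :=
    (memℓp_gen_iff h2).1 (lp.memℓp x)
  have hinj : Function.Injective (fun a : ι × G => (a.1, g * a.2)) := by
    rintro ⟨i, h⟩ ⟨i', h'⟩ hh
    simp only [Prod.mk.injEq, mul_right_inj] at hh
    rw [hh.1, hh.2]
  refine ⟨⟨fun a => x (a.1, g * a.2), (memℓp_gen_iff h2).2 ?_⟩, fun i h => rfl⟩
  exact hx.comp_injective hinj

theorem F_linv_map {K : Submodule ℂ (L2 (ι × G))} (hK : LInv K)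
    (T : L2 (ι × G) →L[ℂ] L2 (κ × G)) (hT : Equi T) :
    LInv (K.map (T : L2 (ι × G) →ₗ[ℂ] L2 (κ × G))) := by
  rintro g _ z ⟨x, hx, rfl⟩ hz
  obtain ⟨x', hx'⟩ := F_exists_tr g x
  refine ⟨x', hK g x x' hx hx', ?_⟩
  have h1 := hT g x x' hx'
  ext ⟨k, h⟩
  exact (h1 k h).trans (hz k h).symm

theorem F_vdim_bot : vdim (⊥ : Submodule ℂ (L2 (ι × G))) = 0 := by
  classical
  unfold vdim
  refine Finset.sum_eq_zero fun i _ => ?_
  have h1 : Metric.infDist (dl G i) ((⊥ : Submodule ℂ (L2 (ι × G))) : Set (L2 (ι × G))) = 1 := by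
    rw [Submodule.bot_coe, Metric.infDist_singleton, dist_zero_right, dl, lp.norm_single]
    · simp
    · norm_num
  rw [h1]; norm_num

/-- the operator of a map between window index sets -/
theorem F_winop (e : μ' → μ) : ∃ T : L2 ((ι × μ) × G) →L[ℂ] L2 ((ι × μ') × G), Equi T ∧
    ∀ x p i g, T x ((p, i), g) = x ((p, e i), g) := by
  classical
  obtain ⟨T, hT, hx⟩ := exists_rho (G := G) (ι := ι × μ) (κ := ι × μ')
    (fun a b => if b = (a.1, e a.2) then Finsupp.single (1 : G) (1 : ℂ) else 0)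
  refine ⟨T, hT, fun x p i g => ?_⟩
  rw [hx]
  unfold act
  rw [Finset.sum_eq_single (p, e i)]
  · simp
  · intro b _ hb
    beta_reduce
    rw [if_neg hb, Finsupp.sum_zero_index]
  · intro h; exact absurd (Finset.mem_univ _) h

theorem F_mem_vals {Z : Submodule ℂ (L2 ((ι × μ) × G))} {x : L2 ((ι × μ) × G)} (hx : x ∈ Z)
    (p : ι) (g : G) : (fun i => x ((p, i), g)) ∈ vals Z :=
  Submodule.subset_span ⟨x, hx, p, g, rfl⟩

theorem F_le_pt_vals (Z : Submodule ℂ (L2 ((ι × μ) × G))) : Z ≤ pt (vals Z) :=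
  fun _ hx p g => F_mem_vals hx p g

theorem F_vals_le {Z : Submodule ℂ (L2 ((ι × μ) × G))} {Φ : Submodule ℂ (μ → ℂ)}
    (h : Z ≤ pt Φ) : vals Z ≤ Φ := by
  rw [vals, Submodule.span_le]
  rintro _ ⟨x, hx, p, g, rfl⟩
  exact h hx p g

end F_basic

section F_act
variable {ι κ μ η G G' : Type} [Group G] [Group G'] [Fintype ι] [Fintype κ] [Fintype μ]

theorem F_act_Tm (inc : G →* G') (P0 P1 : GMat κ ι G) (l : ℕ)
    (x : (ι × Fin (l + 1)) × G' → ℂ) (k : κ) (i : Fin l) (g : G') :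
    act (push inc (Tm P0 P1 l)) x (k, i) g =
      act (push inc P0) (fun a => x ((a.1, i.castSucc), a.2)) k g +
      act (push inc P1) (fun a => x ((a.1, i.succ), a.2)) k g := by
  classical
  unfold act push Tm
  rw [Fintype.sum_prod_type]
  rw [← Finset.sum_add_distrib]
  refine Finset.sum_congr rfl fun p _ => ?_
  have key : ∀ (n : Fin (l + 1)),
      (Finsupp.mapDomain (⇑inc) ((if n = i.castSucc then P0 k p else 0) +
        if n = i.succ then P1 k p else 0)).sum (fun h c => c * x ((p, n), g * h)) =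
      (if n = i.castSucc then
        (Finsupp.mapDomain (⇑inc) (P0 k p)).sum (fun h c => c * x ((p, n), g * h)) else 0) +
      (if n = i.succ then
        (Finsupp.mapDomain (⇑inc) (P1 k p)).sum (fun h c => c * x ((p, n), g * h)) else 0) := by
    intro n
    rw [Finsupp.mapDomain_add, Finsupp.sum_add_index']
    · congr 1
      · split_ifs <;> simp
      · split_ifs <;> simp
    · intro h; simp
    · intro h a b; ring
  simp only [key, Finset.sum_add_distrib, Finset.sum_ite_eq', Finset.mem_univ, if_true]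

theorem F_act_Th (u : ι → η → G') (x : (ι × μ) × G' → ℂ) (q : η) (i : μ) (g : G') :
    act (Th (μ := μ) u) x (q, i) g = ∑ p, x ((p, i), g * u p q) := by
  classical
  unfold act Th
  rw [Fintype.sum_prod_type]
  refine Finset.sum_congr rfl fun p _ => ?_
  rw [Finset.sum_eq_single i]
  · simp
  · intro b _ hb
    rw [if_neg hb]; simp
  · intro h; exact absurd (Finset.mem_univ _) h

theorem F_mem_cut (inc : G →* G') (u : ι → η → G') (A : GMat κ (ι × μ) G)
    (x : L2 ((ι × μ) × G')) :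
    x ∈ kerA (Cut inc u A) ↔ (∀ k g, act (push inc A) x k g = 0) ∧
      ∀ q i g, ∑ p, x ((p, i), g * u p q) = 0 := by
  constructor
  · intro h
    refine ⟨fun k g => h (Sum.inl k) g, fun q i g => ?_⟩
    have := h (Sum.inr (q, i)) g
    rw [← F_act_Th]
    exact this
  · rintro ⟨h1, h2⟩ (k | ⟨q, i⟩) g
    · exact h1 k g
    · have := h2 q i g
      rw [← F_act_Th] at this
      exact this

/-- membership in the cut down Toeplitz system -/
theorem F_mem_Z (inc : G →* G') (u : ι → η → G') (P0 P1 : GMat κ ι G) (l : ℕ)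
    (x : L2 ((ι × Fin (l + 1)) × G')) :
    x ∈ kerA (Cut inc u (Tm P0 P1 l)) ↔
      (∀ k (i : Fin l) g, act (push inc P0) (fun a => x ((a.1, i.castSucc), a.2)) k g +
        act (push inc P1) (fun a => x ((a.1, i.succ), a.2)) k g = 0) ∧
      ∀ q i g, ∑ p, x ((p, i), g * u p q) = 0 := by
  rw [F_mem_cut]
  refine and_congr ⟨fun h k i g => ?_, fun h k g => ?_⟩ Iff.rfl
  · rw [← F_act_Tm]; exact h (k, i) g
  · obtain ⟨k, i⟩ := k
    rw [F_act_Tm]; exact h k i g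

end F_act

section F_trunc
variable {ι κ G G' : Type} [Group G] [Group G'] [Fintype ι] [Fintype κ]

theorem F_cast_mem (inc : G →* G') {j : ℕ} (u : ι → Fin j → G') (P0 P1 : GMat κ ι G) (l : ℕ)
    (x : L2 ((ι × Fin (l + 1 + 1)) × G')) (y : L2 ((ι × Fin (l + 1)) × G'))
    (hy : ∀ p i g, y ((p, i), g) = x ((p, i.castSucc), g))
    (hx : x ∈ kerA (Cut inc u (Tm P0 P1 (l + 1)))) : y ∈ kerA (Cut inc u (Tm P0 P1 l)) := by
  rw [F_mem_Z] at hx ⊢
  refine ⟨fun k i g => ?_, fun q i g => ?_⟩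
  · have h := hx.1 k i.castSucc g
    simp only [hy, Fin.succ_castSucc] at h ⊢
    exact h
  · simp only [hy]
    exact hx.2 q i.castSucc g

theorem F_succ_mem (inc : G →* G') {j : ℕ} (u : ι → Fin j → G') (P0 P1 : GMat κ ι G) (l : ℕ)
    (x : L2 ((ι × Fin (l + 1 + 1)) × G')) (y : L2 ((ι × Fin (l + 1)) × G'))
    (hy : ∀ p i g, y ((p, i), g) = x ((p, i.succ), g))
    (hx : x ∈ kerA (Cut inc u (Tm P0 P1 (l + 1)))) : y ∈ kerA (Cut inc u (Tm P0 P1 l)) := by
  rw [F_mem_Z] at hx ⊢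
  refine ⟨fun k i g => ?_, fun q i g => ?_⟩
  · have h := hx.1 k i.succ g
    simp only [hy, Fin.succ_castSucc] at h ⊢
    exact h
  · simp only [hy]
    exact hx.2 q i.succ g

theorem F_act_unit (inc : G →* G') (P : GMat κ ι G) (x : (ι × Unit) × G' → ℂ) (k : κ) (g : G') :
    act (push inc (fun k (p : ι × Unit) => P k p.1)) x k g =
      act (push inc P) (fun a => x ((a.1, ()), a.2)) k g := by
  unfold act push
  rw [Fintype.sum_prod_type]
  refine Finset.sum_congr rfl fun p _ => ?_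
  simp

/-- E0 is injective on the cut down solution space -/
theorem F_inj (j : ℕ) (inc : G →* G') (hinc : Function.Injective inc) (u : ι → Fin j → G')
    (hu : Generic inc u) (P0 P1 : GMat κ ι G) (hj : dk P1 < j) (l : ℕ)
    (x : L2 ((ι × Fin (l + 1 + 1)) × G')) (hx : x ∈ kerA (Cut inc u (Tm P0 P1 (l + 1))))
    (h0 : ∀ p (i : Fin (l + 1)) g, x ((p, i.castSucc), g) = 0) : x = 0 := by
  obtain ⟨T, -, hT⟩ := F_winop (ι := ι) (G := G') (fun _ : Unit => Fin.last (l + 1))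
  set A : GMat κ (ι × Unit) G := fun k p => P1 k p.1 with hA
  have hmem : T x ∈ kerA (Cut inc u A) := by
    rw [F_mem_cut]
    refine ⟨fun k g => ?_, fun q i g => ?_⟩
    · rw [hA, F_act_unit]
      simp only [hT]
      have h := ((F_mem_Z inc u P0 P1 (l + 1) x).1 hx).1 k (Fin.last l) g
      have e0 : (fun a : ι × G' => x ((a.1, (Fin.last l).castSucc), a.2)) = 0 := by
        funext a; exact h0 _ _ _
      rw [e0, act_zero, zero_add] at h
      exact h
    · simp only [hT]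
      exact ((F_mem_Z inc u P0 P1 (l + 1) x).1 hx).2 q _ g
  have htree := tree j inc hinc u hu A
  set Φ := vals (kerA (Cut inc u A)) with hΦ
  have hdk : dk A = dk P1 := dk_reindex (Equiv.prodPUnit ι) (Equiv.refl κ) P1
  have hle : vdim (kerA A ⊓ pt Φ) ≤ dk P1 := by
    rw [← hdk]; exact vdim_mono inf_le_left
  have hnn : 0 ≤ vdim (kerA (Cut inc u A)) := vdim_nonneg _
  have hΦ0 : Φ = ⊥ := by
    by_contra hne
    have h1 : 0 < finrank ℂ Φ := by
      rw [Nat.pos_iff_ne_zero]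
      intro h
      exact hne (Submodule.finrank_eq_zero.1 h)
    have h2 : (j : ℝ) ≤ j * finrank ℂ Φ := by
      have : (1 : ℝ) ≤ finrank ℂ Φ := by exact_mod_cast h1
      have hj0 : (0 : ℝ) ≤ j := Nat.cast_nonneg j
      nlinarith
    linarith
  ext ⟨⟨p, i⟩, g⟩
  rw [lp.coeFn_zero, Pi.zero_apply]
  refine Fin.lastCases ?_ (fun i => h0 p i g) i
  have h3 : (fun i => (T x) ((p, i), g)) ∈ Φ := F_mem_vals hmem p g
  rw [hΦ0, Submodule.mem_bot] at h3
  have h4 := congrFun h3 ()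
  rw [hT] at h4
  exact h4

end F_trunc

section F_seq

theorem F_down (Φ : ∀ l : ℕ, Submodule ℂ (Fin (l + 1) → ℂ))
    (h0 : ∀ l, ∀ v ∈ Φ (l + 1), (fun i : Fin (l + 1) => v i.castSucc) ∈ Φ l) (ψ : ℕ → ℂ)
    (l d : ℕ) (h : res (l + d + 1) ψ ∈ Φ (l + d)) : res (l + 1) ψ ∈ Φ l := by
  induction d with
  | zero => exact h
  | succ d ih => exact ih (h0 (l + d) _ h)

theorem F_extend (Φ : ∀ l : ℕ, Submodule ℂ (Fin (l + 1) → ℂ)) (l : ℕ)
    (hs : ∀ m, l ≤ m → ∀ w ∈ Φ m, ∃ v ∈ Φ (m + 1), ∀ i : Fin (m + 1), v i.castSucc = w i)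
    (w : Fin (l + 1) → ℂ) (hw : w ∈ Φ l) :
    ∃ ψ : ℕ → ℂ, res (l + 1) ψ = w ∧ ∀ m, res (l + m + 1) ψ ∈ Φ (l + m) := by
  have hs' : ∀ m, ∀ w : {v : Fin (l + m + 1) → ℂ // v ∈ Φ (l + m)},
      ∃ v : {v : Fin (l + (m + 1) + 1) → ℂ // v ∈ Φ (l + (m + 1))},
        ∀ i : Fin (l + m + 1), v.1 i.castSucc = w.1 i := by
    intro m w
    obtain ⟨v, hv, hv'⟩ := hs (l + m) (by omega) w.1 w.2
    exact ⟨⟨v, hv⟩, hv'⟩
  choose nx hnx using hs'
  let V : ∀ m, {v : Fin (l + m + 1) → ℂ // v ∈ Φ (l + m)} := fun m =>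
    Nat.rec (motive := fun m => {v : Fin (l + m + 1) → ℂ // v ∈ Φ (l + m)}) ⟨w, hw⟩
      (fun m v => nx m v) m
  have hV : ∀ m (i : Fin (l + m + 1)), (V (m + 1)).1 i.castSucc = (V m).1 i :=
    fun m i => hnx m (V m) i
  have hV' : ∀ m n k (hk : k < l + m + 1) (hk' : k < l + (m + n) + 1),
      (V (m + n)).1 ⟨k, hk'⟩ = (V m).1 ⟨k, hk⟩ := by
    intro m n
    induction n with
    | zero => intro k hk hk'; rfl
    | succ n ih =>
      intro k hk hk'
      have h1 : k < l + (m + n) + 1 := by omega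
      rw [← ih k hk h1]
      exact hV (m + n) ⟨k, h1⟩
  let ψ : ℕ → ℂ := fun n => (V n).1 ⟨n, by omega⟩
  have hψ : ∀ m, res (l + m + 1) ψ = (V m).1 := by
    intro m
    funext i
    change (V i).1 ⟨i, _⟩ = (V m).1 i
    rcases le_total m i with h | h
    · obtain ⟨n, hn⟩ := Nat.exists_eq_add_of_le h
      have h1 : ∀ (a : ℕ) (ha : (a : ℕ) = m + n) (hb : (i : ℕ) < l + a + 1),
          (V a).1 ⟨i, hb⟩ = (V m).1 i := by
        rintro a rfl hb
        exact hV' m n i i.2 hb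
      exact h1 i hn _
    · obtain ⟨n, hn⟩ := Nat.exists_eq_add_of_le h
      have h1 : ∀ (a : ℕ) (ha : a = (i : ℕ) + n) (hb : (i : ℕ) < l + a + 1),
          (V i).1 ⟨i, by omega⟩ = (V a).1 ⟨i, hb⟩ := by
        rintro a rfl hb
        exact (hV' i n i (by omega) hb).symm
      exact h1 m hn i.2
  refine ⟨ψ, hψ 0, fun m => ?_⟩
  rw [hψ m]
  exact (V m).2

theorem F_psi (Φ : ∀ l : ℕ, Submodule ℂ (Fin (l + 1) → ℂ)) (l1 : ℕ)
    (h0 : ∀ l, ∀ v ∈ Φ (l + 1), (fun i : Fin (l + 1) => v i.castSucc) ∈ Φ l)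
    (h1 : ∀ l, ∀ v ∈ Φ (l + 1), (fun i : Fin (l + 1) => v i.succ) ∈ Φ l)
    (hs : ∀ m, l1 ≤ m → ∀ w ∈ Φ m, ∃ v ∈ Φ (m + 1), ∀ i : Fin (m + 1), v i.castSucc = w i)
    (hi : ∀ m, l1 ≤ m → ∀ v ∈ Φ (m + 1), (∀ i : Fin (m + 1), v i.castSucc = 0) → v = 0) :
    ∃ Ψ : Psi, ∀ l, l1 ≤ l → Φ l = Ψ.sp.map (res (l + 1)) ∧ finrank ℂ (Φ l) = Ψ.c := by
  let sp : Submodule ℂ (ℕ → ℂ) :=
    { carrier := {ψ | ∀ l, l1 ≤ l → res (l + 1) ψ ∈ Φ l}
      zero_mem' := fun l _ => by rw [map_zero]; exact (Φ l).zero_mem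
      add_mem' := fun ha hb l hl => by
        rw [map_add]; exact (Φ l).add_mem (ha l hl) (hb l hl)
      smul_mem' := fun c _ ha l hl => by
        rw [map_smul]; exact (Φ l).smul_mem c (ha l hl) }
  have hsp : ∀ ψ, ψ ∈ sp ↔ ∀ l, l1 ≤ l → res (l + 1) ψ ∈ Φ l := fun ψ => Iff.rfl
  have hinj : ∀ l, l1 ≤ l → ∀ ψ ∈ sp, res (l + 1) ψ = 0 → ψ = 0 := by
    intro l hl ψ hψ hz
    have hall : ∀ m, res (l + m + 1) ψ = 0 := by
      intro m
      induction m with
      | zero => exact hz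
      | succ m ih =>
        refine hi (l + m) (by omega) _ (hψ (l + m + 1) (by omega)) fun i => ?_
        exact congrFun ih i
    funext n
    exact congrFun (hall n) ⟨n, by omega⟩
  have hmap : ∀ l, l1 ≤ l → Φ l = sp.map (res (l + 1)) := by
    intro l hl
    apply le_antisymm
    · intro w hw
      obtain ⟨ψ, hψ, hψ'⟩ := F_extend Φ l (fun m hm => hs m (by omega)) w hw
      refine ⟨ψ, ?_, hψ⟩
      intro l' hl'
      rcases le_total l l' with h | h
      · obtain ⟨m, rfl⟩ := Nat.exists_eq_add_of_le h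
        exact hψ' m
      · obtain ⟨d, hd⟩ := Nat.exists_eq_add_of_le h
        refine F_down Φ h0 ψ l' d ?_
        have h2 : ∀ a, a = l' + d → res (a + 1) ψ ∈ Φ a → res (l' + d + 1) ψ ∈ Φ (l' + d) := by
          rintro a rfl h; exact h
        exact h2 l hd (hψ' 0)
    · rintro _ ⟨ψ, hψ, rfl⟩
      exact hψ l hl
  have hdom : ∀ l, l1 ≤ l → Function.Injective ((res (l + 1)).domRestrict sp) := by
    intro l hl
    rw [← LinearMap.ker_eq_bot, LinearMap.ker_eq_bot']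
    rintro ⟨ψ, hψ⟩ h
    exact Subtype.ext (hinj l hl ψ hψ h)
  have hfin : FiniteDimensional ℂ sp := Module.Finite.of_injective _ (hdom l1 le_rfl)
  refine ⟨⟨sp, hfin, ?_⟩, fun l hl => ⟨hmap l hl, ?_⟩⟩
  · intro ψ hψ l hl
    exact h1 l _ (hψ (l + 1) (by omega))
  · change finrank ℂ (Φ l) = finrank ℂ sp
    rw [hmap l hl, ← LinearMap.range_domRestrict, LinearMap.finrank_range_of_inj (hdom l hl)]

end F_seq

section F_main
variable {ι κ G G' : Type} [Group G] [Group G'] [Fintype ι] [Fintype κ]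

theorem krylov (j : ℕ) (inc : G →* G') (hinc : Function.Injective inc) (u : ι → Fin j → G')
    (hu : Generic inc u) (P0 P1 : GMat κ ι G) (hj : dk P1 < j) (L : ℕ) (hL : 0 < L)
    (hint : ∀ l, ∃ z : ℤ, (L : ℝ) * dk (Cut inc u (Tm P0 P1 l)) = z) :
    ∃ Ψ : Psi, (∃ z : ℤ, (L : ℝ) * (del P0 P1 Ψ - j * Ψ.c) = z) ∧
      ∀ Ψ' : Psi, del P0 P1 Ψ' - j * Ψ'.c ≤ del P0 P1 Ψ - j * Ψ.c := by
  set Z : ∀ l : ℕ, Submodule ℂ (L2 ((ι × Fin (l + 1)) × G')) :=
    fun l => kerA (Cut inc u (Tm P0 P1 l)) with hZ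
  set Φ : ∀ l : ℕ, Submodule ℂ (Fin (l + 1) → ℂ) := fun l => vals (Z l) with hΦ
  set D : ℕ → ℝ := fun l => vdim (Z l) with hD
  have hDnn : ∀ l, 0 ≤ D l := fun l => vdim_nonneg _
  have hL' : (0 : ℝ) < L := by exact_mod_cast hL
  have hdk1 : 0 ≤ dk P1 := vdim_nonneg _
  have hlinv : ∀ l, LInv (Z l) := fun l => kerA_linv _
  have hclosed : ∀ l, IsClosed (Z l : Set (L2 ((ι × Fin (l + 1)) × G'))) := fun l => kerA_closed _
  -- the truncation operators
  have hE0 : ∀ l : ℕ, ∃ T : L2 ((ι × Fin (l + 1 + 1)) × G') →L[ℂ] L2 ((ι × Fin (l + 1)) × G'),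
      Equi T ∧ ∀ x p (i : Fin (l + 1)) g, T x ((p, i), g) = x ((p, i.castSucc), g) :=
    fun l => F_winop (ι := ι) (G := G') (Fin.castSucc)
  choose E0 hE0e hE0 using hE0
  have hE1 : ∀ l : ℕ, ∃ T : L2 ((ι × Fin (l + 1 + 1)) × G') →L[ℂ] L2 ((ι × Fin (l + 1)) × G'),
      Equi T ∧ ∀ x p (i : Fin (l + 1)) g, T x ((p, i), g) = x ((p, i.succ), g) :=
    fun l => F_winop (ι := ι) (G := G') (Fin.succ)
  choose E1 hE1e hE1 using hE1
  have hE0Z : ∀ l, (Z (l + 1)).map (E0 l : L2 ((ι × Fin (l + 1 + 1)) × G') →ₗ[ℂ] L2 ((ι × Fin (l + 1)) × G')) ≤ Z l := by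
    rintro l _ ⟨x, hx, rfl⟩
    exact F_cast_mem inc u P0 P1 l x _ (fun p i g => hE0 l x p i g) hx
  have hE1Z : ∀ l x, x ∈ Z (l + 1) → E1 l x ∈ Z l := by
    intro l x hx
    exact F_succ_mem inc u P0 P1 l x _ (fun p i g => hE1 l x p i g) hx
  have h0 : ∀ l, ∀ v ∈ Φ (l + 1), (fun i : Fin (l + 1) => v i.castSucc) ∈ Φ l := by
    intro l
    have hle : Φ (l + 1) ≤ (Φ l).comap (LinearMap.funLeft ℂ ℂ Fin.castSucc) := by
      refine F_vals_le fun x hx p g => ?_
      have h := F_mem_vals (hE0Z l ⟨x, hx, rfl⟩) p g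
      simp only [ContinuousLinearMap.coe_coe, hE0] at h
      exact h
    exact fun v hv => hle hv
  have h1 : ∀ l, ∀ v ∈ Φ (l + 1), (fun i : Fin (l + 1) => v i.succ) ∈ Φ l := by
    intro l
    have hle : Φ (l + 1) ≤ (Φ l).comap (LinearMap.funLeft ℂ ℂ Fin.succ) := by
      refine F_vals_le fun x hx p g => ?_
      have h := F_mem_vals (hE1Z l x hx) p g
      simp only [hE1] at h
      exact h
    exact fun v hv => hle hv
  -- (1) the dimensions decrease
  have hstep : ∀ l, D (l + 1) =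
      vdim ((Z (l + 1)).map (E0 l : L2 ((ι × Fin (l + 1 + 1)) × G') →ₗ[ℂ] L2 ((ι × Fin (l + 1)) × G'))) := by
    intro l
    have h := vdim_split (hlinv (l + 1)) (hclosed (l + 1)) (E0 l) (hE0e l)
    have hk : Z (l + 1) ⊓ LinearMap.ker
        (E0 l : L2 ((ι × Fin (l + 1 + 1)) × G') →ₗ[ℂ] L2 ((ι × Fin (l + 1)) × G')) = ⊥ := by
      rw [eq_bot_iff]
      rintro x ⟨hx, hx0⟩
      rw [Submodule.mem_bot]
      refine F_inj j inc hinc u hu P0 P1 hj l x hx fun p i g => ?_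
      rw [← hE0 l x p i g]
      have hx1 : E0 l x = 0 := hx0
      rw [hx1, lp.coeFn_zero, Pi.zero_apply]
    rw [hk, F_vdim_bot, zero_add] at h
    exact h
  have hanti : Antitone D := by
    refine antitone_nat_of_succ_le fun l => ?_
    rw [hstep l]
    exact vdim_mono (hE0Z l)
  -- (2) stabilisation
  have hn : ∀ l, ∃ n : ℕ, (n : ℝ) = L * D l := by
    intro l
    obtain ⟨z, hz⟩ := hint l
    have hz0 : 0 ≤ z := by
      have : (0 : ℝ) ≤ z := by rw [← hz]; exact mul_nonneg hL'.le (hDnn l)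
      exact_mod_cast this
    obtain ⟨n, rfl⟩ := Int.eq_ofNat_of_zero_le hz0
    exact ⟨n, by rw [← Int.cast_natCast]; exact hz.symm⟩
  choose n hn using hn
  obtain ⟨_, ⟨l0, rfl⟩, hmin⟩ := WellFounded.has_min (wellFounded_lt : WellFounded
    ((· < ·) : ℕ → ℕ → Prop)) (Set.range n) ⟨n 0, 0, rfl⟩
  have hstab : ∀ l, l0 ≤ l → D l = D l0 := by
    intro l hl
    apply le_antisymm (hanti hl)
    have h := hmin (n l) ⟨l, rfl⟩
    have h2 : (n l0 : ℝ) ≤ n l := by exact_mod_cast not_lt.1 h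
    rw [hn, hn] at h2
    exact le_of_mul_le_mul_left h2 hL'
  have hs : ∀ m, l0 ≤ m → ∀ w ∈ Φ m, ∃ v ∈ Φ (m + 1), ∀ i : Fin (m + 1), v i.castSucc = w i := by
    intro m hm
    have hd : Z m ≤ ((Z (m + 1)).map
        (E0 m : L2 ((ι × Fin (m + 1 + 1)) × G') →ₗ[ℂ] L2 ((ι × Fin (m + 1)) × G'))).topologicalClosure := by
      refine dense_of_vdim (F_linv_map (hlinv _) _ (hE0e m)) (hlinv m) (hE0Z m) ?_
      rw [← hstep m]
      change D m ≤ D (m + 1)
      rw [hstab m hm, hstab (m + 1) (by omega)]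
    have hle : Φ m ≤ (Φ (m + 1)).map (LinearMap.funLeft ℂ ℂ Fin.castSucc) := by
      refine F_vals_le (hd.trans ?_)
      refine Submodule.topologicalClosure_minimal _ ?_ (pt_closed _)
      rintro _ ⟨x, hx, rfl⟩ p g
      refine ⟨fun i => x ((p, i), g), F_mem_vals hx p g, ?_⟩
      funext i
      exact (hE0 m x p i g).symm
    intro w hw
    obtain ⟨v, hv, hvw⟩ := hle hw
    exact ⟨v, hv, fun i => congrFun hvw i⟩
  -- (3) injectivity
  have hprop : ∀ m, (∀ v ∈ Φ (m + 1), (∀ i : Fin (m + 1), v i.castSucc = 0) → v = 0) →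
      ∀ v ∈ Φ (m + 1 + 1), (∀ i : Fin (m + 1 + 1), v i.castSucc = 0) → v = 0 := by
    intro m hm v hv hv0
    have h2 := hm _ (h1 (m + 1) v hv) (fun i => by
      rw [Fin.succ_castSucc]
      exact hv0 i.succ)
    funext i
    refine Fin.cases ?_ (fun i => ?_) i
    · exact hv0 0
    · exact congrFun h2 i
  have htree : ∀ l, D l = vdim (kerA (Tm P0 P1 l) ⊓ pt (Φ l)) - j * finrank ℂ (Φ l) := by
    intro l
    exact tree j inc hinc u hu (Tm P0 P1 l)
  have hex : ∃ l1, l0 ≤ l1 ∧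
      ∀ v ∈ Φ (l1 + 1), (∀ i : Fin (l1 + 1), v i.castSucc = 0) → v = 0 := by
    by_contra hcon
    push Not at hcon
    have hgrow : ∀ m, l0 ≤ m → finrank ℂ (Φ m) + 1 ≤ finrank ℂ (Φ (m + 1)) := by
      intro m hm
      obtain ⟨v, hv, hv0, hvne⟩ := hcon m hm
      set f := (LinearMap.funLeft ℂ ℂ (Fin.castSucc : Fin (m + 1) → Fin (m + 1 + 1))).domRestrict
        (Φ (m + 1)) with hf
      have h2 := LinearMap.finrank_range_add_finrank_ker f
      have h3 : finrank ℂ (Φ m) ≤ finrank ℂ (LinearMap.range f) := by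
        apply Submodule.finrank_mono
        intro w hw
        obtain ⟨v, hv, hvw⟩ := hs m hm w hw
        exact ⟨⟨v, hv⟩, funext hvw⟩
      have h4 : 0 < finrank ℂ (LinearMap.ker f) := by
        rw [Nat.pos_iff_ne_zero]
        intro h
        have h5 := Submodule.finrank_eq_zero.1 h
        have h6 : (⟨v, hv⟩ : Φ (m + 1)) ∈ LinearMap.ker f := by
          rw [LinearMap.mem_ker]
          funext i
          exact hv0 i
        rw [h5, Submodule.mem_bot] at h6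
        exact hvne (congrArg Subtype.val h6)
      omega
    have hgrow' : ∀ m, m ≤ finrank ℂ (Φ (l0 + m)) := by
      intro m
      induction m with
      | zero => exact Nat.zero_le _
      | succ m ih =>
        have := hgrow (l0 + m) (by omega)
        have e : l0 + (m + 1) = l0 + m + 1 := by omega
        rw [e]
        omega
    have hbound : ∀ m : ℕ, (m : ℝ) * (j - dk P1) ≤ Fintype.card ι + l0 * dk P1 := by
      intro m
      have h2 := htree (l0 + m)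
      have h3 : vdim (kerA (Tm P0 P1 (l0 + m)) ⊓ pt (Φ (l0 + m))) ≤
          Fintype.card ι + (l0 + m : ℕ) * dk P1 :=
        (vdim_mono inf_le_left).trans (vdim_Tm_le_inf P0 P1 (l0 + m))
      have h4 := hDnn (l0 + m)
      have h5 : (m : ℝ) ≤ finrank ℂ (Φ (l0 + m)) := by exact_mod_cast hgrow' m
      have h6 : (0 : ℝ) ≤ j := Nat.cast_nonneg j
      have h7 : (j : ℝ) * m ≤ j * finrank ℂ (Φ (l0 + m)) := mul_le_mul_of_nonneg_left h5 h6
      push_cast at h3
      linarith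
    obtain ⟨m, hm⟩ := exists_nat_gt ((Fintype.card ι + l0 * dk P1) / (j - dk P1))
    rw [div_lt_iff₀ (by linarith)] at hm
    exact absurd (hbound m) (not_le.2 hm)
  obtain ⟨l1, hl01, hl1⟩ := hex
  have hi : ∀ m, l1 ≤ m → ∀ v ∈ Φ (m + 1), (∀ i : Fin (m + 1), v i.castSucc = 0) → v = 0 := by
    intro m hm
    induction m, hm using Nat.le_induction with
    | base => exact hl1
    | succ m _ ih => exact hprop m ih
  -- (4) the space of sequences
  obtain ⟨Ψ, hΨ⟩ := F_psi Φ l1 h0 h1 (fun m hm => hs m (by omega)) hi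
  have hval : ∀ l, l1 ≤ l → Ψ.c ≤ l → D l = del P0 P1 Ψ - j * Ψ.c := by
    intro l hl hc
    rw [htree l, (hΨ l hl).2, (hΨ l hl).1, ← del_eq P0 P1 Ψ l hc]
    rfl
  refine ⟨Ψ, ?_, fun Ψ' => ?_⟩
  · rw [← hval (max l1 Ψ.c) (le_max_left _ _) (le_max_right _ _)]
    exact hint _
  · set l := max l1 (max Ψ.c Ψ'.c) with hl
    have hla : l1 ≤ l := le_max_left _ _
    have hlb : Ψ.c ≤ l := (le_max_left _ _).trans (le_max_right _ _)
    have hlc : Ψ'.c ≤ l := (le_max_right _ _).trans (le_max_right _ _)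
    rw [← hval l hla hlb, ← del_eq P0 P1 Ψ' l hlc]
    have h2 := tree_ge j inc hinc u (Tm P0 P1 l) (Ψ'.sp.map (res (l + 1)))
    have h3 : (finrank ℂ (Ψ'.sp.map (res (l + 1))) : ℝ) ≤ Ψ'.c := by
      have := Ψ'.fin
      exact_mod_cast Submodule.finrank_map_le (res (l + 1)) Ψ'.sp
    have h4 : (0 : ℝ) ≤ j := Nat.cast_nonneg j
    have h5 : (j : ℝ) * finrank ℂ (Ψ'.sp.map (res (l + 1))) ≤ j * Ψ'.c :=
      mul_le_mul_of_nonneg_left h3 h4
    have h6 : XW P0 P1 Ψ' l = kerA (Tm P0 P1 l) ⊓ pt (Ψ'.sp.map (res (l + 1))) := rfl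
    rw [h6]
    change _ ≤ vdim (kerA (Cut inc u (Tm P0 P1 l)))
    linarith

end F_main

end Pool.Agent.H80R2.BC
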