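import Pool.Agent.H80R2.BC.Defs

set_option autoImplicit false

/-! Task B1: dimension of an external product. -/

namespace Pool.Agent.H80R2.BC

open scoped ENNReal InnerProductSpace
open Module

/-- if `w` is the projection of the unit vector `δ` to `W`, then `1 - dist² = ‖w‖²` -/
theorem B1_infDist {H : Type*} [NormedAddCommGroup H] [InnerProductSpace ℂ H]
    (W : Submodule ℂ H) (δ w : H) (hδ : ‖δ‖ = 1) (hw : w ∈ W)
    (ho : ∀ y ∈ W, ⟪y, δ - w⟫_ℂ = 0) :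
    1 - (Metric.infDist δ (W : Set H)) ^ 2 = ‖w‖ ^ 2 := by
  have h1 : Metric.infDist δ (W : Set H) = ‖δ - w‖ := by
    apply le_antisymm
    · have := Metric.infDist_le_dist_of_mem (x := δ) (show w ∈ (W : Set H) from hw)
      rwa [dist_eq_norm] at this
    · rw [Metric.le_infDist ⟨w, hw⟩]
      intro y hy
      rw [dist_eq_norm]
      have h2 : ⟪w - y, δ - w⟫_ℂ = 0 := ho _ (W.sub_mem hw hy)
      have h3 : ‖(δ - w) + (w - y)‖ * ‖(δ - w) + (w - y)‖ =
          ‖δ - w‖ * ‖δ - w‖ + ‖w - y‖ * ‖w - y‖ := by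
        apply norm_add_sq_eq_norm_sq_add_norm_sq_of_inner_eq_zero (𝕜 := ℂ)
        rw [← inner_conj_symm, h2, map_zero]
      rw [sub_add_sub_cancel] at h3
      nlinarith [norm_nonneg (δ - y), norm_nonneg (δ - w), norm_nonneg (w - y)]
  have h4 : ‖(δ - w) + w‖ * ‖(δ - w) + w‖ = ‖δ - w‖ * ‖δ - w‖ + ‖w‖ * ‖w‖ := by
    apply norm_add_sq_eq_norm_sq_add_norm_sq_of_inner_eq_zero (𝕜 := ℂ)
    rw [← inner_conj_symm, ho w hw, map_zero]
  rw [sub_add_cancel, hδ] at h4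
  rw [h1]
  nlinarith

section
variable {ι G : Type} [Group G]

theorem B1_norm_dl (i : ι) : ‖dl G i‖ = 1 := by
  classical
  unfold dl
  rw [lp.norm_single (by norm_num)]
  simp

theorem B1_inner_dl (i : ι) (x : L2 (ι × G)) : ⟪x, dl G i⟫_ℂ = (starRingEnd ℂ) (x (i, 1)) := by
  classical
  unfold dl
  rw [lp.inner_single_right]
  simp

/-- the projection of `δ_i` to a closed subspace -/
theorem B1_exists_proj (V : Submodule ℂ (L2 (ι × G))) (hV : IsClosed (V : Set (L2 (ι × G)))) (i : ι) :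
    ∃ p ∈ V, ∀ y ∈ V, ⟪y, dl G i - p⟫_ℂ = 0 := by
  have : CompleteSpace V := hV.completeSpace_coe
  refine ⟨V.starProjection (dl G i), V.starProjection_apply_mem _, ?_⟩
  intro y hy
  have h := V.sub_starProjection_mem_orthogonal (dl G i)
  exact (Submodule.mem_orthogonal _ _).mp h y hy

end

section prod
variable {ι G ι' G' : Type} [Group G] [Group G']

/-- regrouping of the coordinates -/
def B1_e (ι G ι' G' : Type) : (ι × ι') × (G × G') ≃ (ι × G) × (ι' × G') :=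
  Equiv.prodProdProdComm ι ι' G G'

theorem B1_sumsq {X : Type} (x : L2 X) : Summable (fun a => ‖x a‖ ^ 2) := by
  have h := lp.memℓp x
  rw [memℓp_gen_iff (by norm_num)] at h
  simpa using h

theorem B1_normsq {X : Type} (x : L2 X) : ‖x‖ ^ 2 = ∑' a, ‖x a‖ ^ 2 := by
  have h := lp.norm_rpow_eq_tsum (p := 2) (by norm_num) x
  simpa using h

/-- the product vector -/
noncomputable def B1_tens (p : L2 (ι × G)) (p' : L2 (ι' × G')) : L2 ((ι × ι') × (G × G')) :=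
  ⟨fun a => p (a.1.1, a.2.1) * p' (a.1.2, a.2.2), by
    change Memℓp _ 2
    rw [memℓp_gen_iff (by norm_num)]
    have h1 : Summable (fun b : (ι × G) × (ι' × G') => ‖p b.1‖ ^ 2 * ‖p' b.2‖ ^ 2) :=
      (B1_sumsq p).mul_of_nonneg (B1_sumsq p') (fun _ => by positivity) (fun _ => by positivity)
    have h2 := (B1_e ι G ι' G').summable_iff.mpr h1
    refine h2.congr fun a => ?_
    simp only [Function.comp, B1_e, Equiv.prodProdProdComm_apply, ENNReal.toReal_ofNat,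
      Real.rpow_ofNat, norm_mul, mul_pow]⟩

theorem B1_tens_apply (p : L2 (ι × G)) (p' : L2 (ι' × G')) (a : (ι × ι') × (G × G')) :
    B1_tens p p' a = p (a.1.1, a.2.1) * p' (a.1.2, a.2.2) := rfl

theorem B1_tens_norm (p : L2 (ι × G)) (p' : L2 (ι' × G')) :
    ‖B1_tens p p'‖ ^ 2 = ‖p‖ ^ 2 * ‖p'‖ ^ 2 := by
  rw [B1_normsq, B1_normsq p, B1_normsq p',
    (B1_sumsq p).tsum_mul_tsum (B1_sumsq p')
      ((B1_sumsq p).mul_of_nonneg (B1_sumsq p') (fun _ => by positivity) (fun _ => by positivity)),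
    ← (B1_e ι G ι' G').tsum_eq]
  refine tsum_congr fun a => ?_
  simp only [B1_tens_apply, B1_e, Equiv.prodProdProdComm_apply, norm_mul, mul_pow]

theorem B1_tens_mem {V : Submodule ℂ (L2 (ι × G))} {V' : Submodule ℂ (L2 (ι' × G'))}
    {p : L2 (ι × G)} {p' : L2 (ι' × G')} (hp : p ∈ V) (hp' : p' ∈ V') :
    B1_tens p p' ∈ extK V V' := by
  refine ⟨fun i' g' => ⟨p' (i', g') • p, V.smul_mem _ hp, fun i g => ?_⟩,
    fun i g => ⟨p (i, g) • p', V'.smul_mem _ hp', fun i' g' => ?_⟩⟩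
  · rw [lp.coeFn_smul, Pi.smul_apply, B1_tens_apply, smul_eq_mul, mul_comm]
  · rw [lp.coeFn_smul, Pi.smul_apply, B1_tens_apply, smul_eq_mul]

theorem B1_inner {V : Submodule ℂ (L2 (ι × G))} {V' : Submodule ℂ (L2 (ι' × G'))} (i : ι) (i' : ι')
    (p : L2 (ι × G)) (p' : L2 (ι' × G')) (ho : ∀ y ∈ V, ⟪y, dl G i - p⟫_ℂ = 0)
    (ho' : ∀ y ∈ V', ⟪y, dl G' i' - p'⟫_ℂ = 0) (y : L2 ((ι × ι') × (G × G')))
    (hy : y ∈ extK V V') : ⟪y, dl (G × G') (i, i') - B1_tens p p'⟫_ℂ = 0 := by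
  obtain ⟨hy1, hy2⟩ := hy
  have hVV : ∀ x ∈ V, ⟪x, p⟫_ℂ = (starRingEnd ℂ) (x (i, 1)) := by
    intro x hx
    have := ho x hx
    rw [inner_sub_right, sub_eq_zero, B1_inner_dl] at this
    exact this.symm
  have hVV' : ∀ x ∈ V', ⟪x, p'⟫_ℂ = (starRingEnd ℂ) (x (i', 1)) := by
    intro x hx
    have := ho' x hx
    rw [inner_sub_right, sub_eq_zero, B1_inner_dl] at this
    exact this.symm
  rw [inner_sub_right, sub_eq_zero, B1_inner_dl]
  have hs := lp.summable_inner (𝕜 := ℂ) y (B1_tens p p')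
  have h1 : ⟪y, B1_tens p p'⟫_ℂ = ∑' b : (ι × G) × (ι' × G'),
      ⟪y ((b.1.1, b.2.1), (b.1.2, b.2.2)), p b.1 * p' b.2⟫_ℂ := by
    rw [lp.inner_eq_tsum, ← (B1_e ι G ι' G').tsum_eq]
    rfl
  have hs2 : Summable (fun b : (ι × G) × (ι' × G') =>
      ⟪y ((b.1.1, b.2.1), (b.1.2, b.2.2)), p b.1 * p' b.2⟫_ℂ) := by
    rw [← (B1_e ι G ι' G').summable_iff]
    exact hs
  rw [h1, hs2.tsum_prod]
  have h2 : ∀ a : ι × G, ∑' c : ι' × G', ⟪y ((a.1, c.1), (a.2, c.2)), p a * p' c⟫_ℂ =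
      ⟪y ((a.1, i'), (a.2, 1)), p a⟫_ℂ := by
    intro a
    obtain ⟨x, hx, hx'⟩ := hy2 a.1 a.2
    have h3 : ∑' c : ι' × G', ⟪y ((a.1, c.1), (a.2, c.2)), p a * p' c⟫_ℂ =
        p a * ⟪x, p'⟫_ℂ := by
      rw [lp.inner_eq_tsum, ← tsum_mul_left]
      refine tsum_congr fun c => ?_
      rw [← hx' c.1 c.2]
      simp only [RCLike.inner_apply, Prod.mk.eta]
      ring
    rw [h3, hVV' x hx, hx']
    simp only [RCLike.inner_apply]
  simp only [h2]
  obtain ⟨x, hx, hx'⟩ := hy1 i' 1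
  have h4 : ∑' a : ι × G, ⟪y ((a.1, i'), (a.2, 1)), p a⟫_ℂ = ⟪x, p⟫_ℂ := by
    rw [lp.inner_eq_tsum]
    refine tsum_congr fun a => ?_
    rw [← hx' a.1 a.2]
  rw [h4, hVV x hx, hx']
  rfl

variable [Fintype ι] [Fintype ι']

/-- the von Neumann dimension of an external product -/
theorem vdim_extK (V : Submodule ℂ (L2 (ι × G))) (V' : Submodule ℂ (L2 (ι' × G')))
    (hV : IsClosed (V : Set (L2 (ι × G)))) (hV' : IsClosed (V' : Set (L2 (ι' × G')))) :
    vdim (extK V V') = vdim V * vdim V' := by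
  choose p hp hpo using B1_exists_proj V hV
  choose p' hp' hpo' using B1_exists_proj V' hV'
  unfold vdim
  rw [Fintype.sum_prod_type, Finset.sum_mul_sum]
  refine Finset.sum_congr rfl fun i _ => Finset.sum_congr rfl fun i' _ => ?_
  rw [B1_infDist _ _ (p i) (B1_norm_dl i) (hp i) (hpo i),
    B1_infDist _ _ (p' i') (B1_norm_dl i') (hp' i') (hpo' i'),
    B1_infDist _ _ (B1_tens (p i) (p' i')) (B1_norm_dl (i, i')) (B1_tens_mem (hp i) (hp' i'))
      (fun y hy => B1_inner i i' _ _ (hpo i) (hpo' i') y hy), B1_tens_norm]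

end prod

end Pool.Agent.H80R2.BC
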