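import Pool.Agent.H80R2.BC.Dim1
import Pool.Agent.H80R2.BC.Dim2
import Pool.Agent.H80R2.BC.Act
import Pool.Agent.H80R2.BC.ProdK
import Pool.Agent.H80R2.BC.L2Pull

/-!
Kernels of external products.
-/

set_option autoImplicit false
set_option linter.unusedSectionVars false

namespace Pool.Agent.H80R2.BC

open scoped ENNReal
open Module

section B
variable {ι κ ι' κ' G G' : Type} [Group G] [Group G'] [Fintype ι] [Fintype κ]
  [Fintype ι'] [Fintype κ']

theorem B2_act_inl (A : GMat κ ι G) (A' : GMat κ' ι' G') (y : (ι × ι') × (G × G') → ℂ) (k : κ)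
    (i' : ι') (g : G) (g' : G') :
    act (ext A A') y (Sum.inl (k, i')) (g, g')
      = act A (fun q => y ((q.1, i'), (q.2, g'))) k g := by
  classical
  unfold act ext
  rw [Fintype.sum_prod_type]
  refine Finset.sum_congr rfl fun p _ => ?_
  rw [Finset.sum_eq_single i']
  · simp only [Sum.elim_inl, if_true]
    rw [Finsupp.sum_mapDomain_index_inj (f := fun g : G => (g, (1 : G')))
      (fun a b h => (Prod.mk.inj h).1)]
    simp only [Prod.mk_mul_mk, mul_one]
  · intro b _ hb
    simp only [Sum.elim_inl]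
    rw [if_neg (fun h => hb h.symm)]
    simp
  · simp

theorem B2_act_inr (A : GMat κ ι G) (A' : GMat κ' ι' G') (y : (ι × ι') × (G × G') → ℂ) (i : ι)
    (k' : κ') (g : G) (g' : G') :
    act (ext A A') y (Sum.inr (i, k')) (g, g')
      = act A' (fun q => y ((i, q.1), (g, q.2))) k' g' := by
  classical
  unfold act ext
  rw [Fintype.sum_prod_type, Finset.sum_eq_single i]
  · refine Finset.sum_congr rfl fun p _ => ?_
    simp only [Sum.elim_inr, if_true]
    rw [Finsupp.sum_mapDomain_index_inj (f := fun g : G' => ((1 : G), g))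
      (fun a b h => (Prod.mk.inj h).2)]
    simp only [Prod.mk_mul_mk, mul_one]
  · intro b _ hb
    refine Finset.sum_eq_zero fun p _ => ?_
    simp only [Sum.elim_inr]
    rw [if_neg (fun h => hb h.symm)]
    simp
  · simp

theorem B2_inj1 (i' : ι') (g' : G') :
    Function.Injective (fun q : ι × G => (((q.1, i'), (q.2, g')) : (ι × ι') × (G × G'))) := by
  rintro ⟨i, g⟩ ⟨j, h⟩ e
  simp only [Prod.mk.injEq, and_true] at e
  rw [e.1, e.2]

theorem B2_inj2 (i : ι) (g : G) :
    Function.Injective (fun q : ι' × G' => (((i, q.1), (g, q.2)) : (ι × ι') × (G × G'))) := by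
  rintro ⟨i, g⟩ ⟨j, h⟩ e
  simp only [Prod.mk.injEq, true_and] at e
  rw [e.1, e.2]

theorem kerA_ext (A : GMat κ ι G) (A' : GMat κ' ι' G') :
    kerA (ext A A') = extK (kerA A) (kerA A') := by
  ext y
  constructor
  · intro hy
    refine ⟨fun i' g' => ⟨LPpull _ (B2_inj1 i' g') y, ?_, fun i g => rfl⟩,
      fun i g => ⟨LPpull _ (B2_inj2 i g) y, ?_, fun i' g' => rfl⟩⟩
    · intro k g
      have := hy (Sum.inl (k, i')) (g, g')
      rw [B2_act_inl] at this
      exact this
    · intro k' g'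
      have := hy (Sum.inr (i, k')) (g, g')
      rw [B2_act_inr] at this
      exact this
  · rintro ⟨h1, h2⟩ (⟨k, i'⟩ | ⟨i, k'⟩) ⟨g, g'⟩
    · obtain ⟨x, hx, hxy⟩ := h1 i' g'
      rw [B2_act_inl, ← hx k g]
      apply LP_act_congr
      intro i h
      exact (hxy i (g * h)).symm
    · obtain ⟨x, hx, hxy⟩ := h2 i g
      rw [B2_act_inr, ← hx k' g']
      apply LP_act_congr
      intro i h
      exact (hxy i (g' * h)).symm

theorem dk_ext (A : GMat κ ι G) (A' : GMat κ' ι' G') : dk (ext A A') = dk A * dk A' := by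
  unfold dk
  rw [kerA_ext, vdim_extK _ _ (kerA_closed A) (kerA_closed A')]

theorem B2_pen_ext (P0 P1 : GMat κ ι G) (P0' P1' : GMat κ' ι' G') (z : ℂ) :
    pen (ext P0 P0') (ext P1 P1') z = ext (pen P0 P1 z) (pen P0' P1' z) := by
  classical
  funext a p
  rcases a with a | a
  · unfold pen ext
    simp only [Sum.elim_inl]
    split_ifs
    · rw [Finsupp.mapDomain_add, Finsupp.mapDomain_smul]
    · simp
  · unfold pen ext
    simp only [Sum.elim_inr]
    split_ifs
    · rw [Finsupp.mapDomain_add, Finsupp.mapDomain_smul]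
    · simp

theorem dk_pen_ext (P0 P1 : GMat κ ι G) (P0' P1' : GMat κ' ι' G') (z : ℂ) :
    dk (pen (ext P0 P0') (ext P1 P1') z) = dk (pen P0 P1 z) * dk (pen P0' P1' z) := by
  rw [B2_pen_ext, dk_ext]

theorem fimg_ext_le (P0 P1 : GMat κ ι G) (P0' P1' : GMat κ' ι' G') (Ψ : Psi) (l : ℕ)
    (f : (Fin (l + 1) → ℂ) →ₗ[ℂ] ℂ) :
    vdim (fimg f (XW (ext P0 P0') (ext P1 P1') Ψ l)) ≤
      vdim (fimg f (XW P0 P1 Ψ l)) * vdim (fimg f (XW P0' P1' Ψ l)) := by
  have hle : fimg f (XW (ext P0 P0') (ext P1 P1') Ψ l) ≤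
      extK (fimg f (XW P0 P1 Ψ l)).topologicalClosure
        (fimg f (XW P0' P1' Ψ l)).topologicalClosure := by
    rintro y ⟨x, hx, hy⟩
    refine ⟨fun i' g' => ?_, fun i g => ?_⟩
    · refine ⟨LPpull _ (B2_inj1 i' g') y, Submodule.le_topologicalClosure _ ?_, fun i g => rfl⟩
      have hinj : Function.Injective (fun q : (ι × Fin (l + 1)) × G =>
          ((((q.1.1, i'), q.1.2), (q.2, g')) : ((ι × ι') × Fin (l + 1)) × (G × G'))) := by
        rintro ⟨⟨i, n⟩, g⟩ ⟨⟨j, m⟩, h⟩ e
        simp only [Prod.mk.injEq, and_true] at e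
        rw [e.1.1, e.1.2, e.2]
      refine ⟨LPpull _ hinj x, ⟨?_, ?_⟩, fun p g => hy (p, i') (g, g')⟩
      · rintro ⟨k, n⟩ g
        have := hx.1 (Sum.inl (k, i'), n) (g, g')
        rw [LP_act_Tm, B2_act_inl, B2_act_inl] at this
        rw [LP_act_Tm]
        exact this
      · intro p g
        exact hx.2 (p, i') (g, g')
    · refine ⟨LPpull _ (B2_inj2 i g) y, Submodule.le_topologicalClosure _ ?_, fun i g => rfl⟩
      have hinj : Function.Injective (fun q : (ι' × Fin (l + 1)) × G' =>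
          ((((i, q.1.1), q.1.2), (g, q.2)) : ((ι × ι') × Fin (l + 1)) × (G × G'))) := by
        rintro ⟨⟨i, n⟩, g⟩ ⟨⟨j, m⟩, h⟩ e
        simp only [Prod.mk.injEq, true_and] at e
        rw [e.1.1, e.1.2, e.2]
      refine ⟨LPpull _ hinj x, ⟨?_, ?_⟩, fun p g' => hy (i, p) (g, g')⟩
      · rintro ⟨k', n⟩ g'
        have := hx.1 (Sum.inr (i, k'), n) (g, g')
        rw [LP_act_Tm, B2_act_inr, B2_act_inr] at this
        rw [LP_act_Tm]
        exact this
      · intro p g'
        exact hx.2 (i, p) (g, g')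
  calc vdim (fimg f (XW (ext P0 P0') (ext P1 P1') Ψ l))
      ≤ vdim (extK (fimg f (XW P0 P1 Ψ l)).topologicalClosure
        (fimg f (XW P0' P1' Ψ l)).topologicalClosure) := vdim_mono hle
    _ = vdim (fimg f (XW P0 P1 Ψ l)) * vdim (fimg f (XW P0' P1' Ψ l)) := by
        rw [vdim_extK _ _ (Submodule.isClosed_topologicalClosure _)
          (Submodule.isClosed_topologicalClosure _), vdim_closure, vdim_closure]

end B

end Pool.Agent.H80R2.BC
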