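import Pool.Agent.H80R2.BC.PsiF

set_option autoImplicit false

/-!
Task G2 of helper80 (by helper992): spaces of sequences, second part.
-/

namespace Pool.Agent.H80R2.BC

open scoped ENNReal
open Module

/-! ### linear algebra of sequences -/

theorem G2_shift_geo (z : ℂ) : shift (geo z) = z • geo z := by
  funext n
  simp [shift, geo, pow_succ, mul_comm]

theorem G2_geo_ne (z : ℂ) : geo z ≠ 0 := by
  intro h
  have := congrFun h 0
  simp [geo] at this

/-- an eigenvector of the shift is geometric -/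
theorem G2_eig_geo (z : ℂ) (ψ : ℕ → ℂ) (h : shift ψ = z • ψ) : ψ = ψ 0 • geo z := by
  funext n
  induction n with
  | zero => simp [geo]
  | succ n ih =>
    have h1 := congrFun h n
    simp only [shift, LinearMap.coe_mk, AddHom.coe_mk, Pi.smul_apply, smul_eq_mul] at h1
    rw [h1, ih]
    simp only [Pi.smul_apply, geo, smul_eq_mul]
    ring

theorem G2_finrank_ker (Ψ : Psi) (g : (ℕ → ℂ) →ₗ[ℂ] ℂ) (hg : ∃ ψ ∈ Ψ.sp, g ψ ≠ 0) :
    finrank ℂ (Ψ.sp ⊓ LinearMap.ker g : Submodule ℂ (ℕ → ℂ)) + 1 = finrank ℂ Ψ.sp := by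
  have := Ψ.fin
  set g' : Ψ.sp →ₗ[ℂ] ℂ := g.domRestrict Ψ.sp with hg'
  have h1 := LinearMap.finrank_range_add_finrank_ker g'
  have h2 : LinearMap.range g' = ⊤ := by
    obtain ⟨ψ, hψ, hne⟩ := hg
    rw [LinearMap.range_eq_top]
    apply LinearMap.surjective
    intro h0
    apply hne
    have := LinearMap.congr_fun h0 ⟨ψ, hψ⟩
    exact this
  have h3 : finrank ℂ (LinearMap.range g') = 1 := by
    rw [h2, finrank_top, finrank_self]
  have h4 : (LinearMap.ker g').map Ψ.sp.subtype = Ψ.sp ⊓ LinearMap.ker g := by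
    ext ψ
    simp only [Submodule.mem_map, LinearMap.mem_ker, Submodule.mem_inf]
    constructor
    · rintro ⟨⟨φ, hφ⟩, h5, rfl⟩
      exact ⟨hφ, h5⟩
    · rintro ⟨h5, h6⟩
      exact ⟨⟨ψ, h5⟩, h6, rfl⟩
  have h5 : finrank ℂ ((LinearMap.ker g').map Ψ.sp.subtype) = finrank ℂ (LinearMap.ker g') :=
    Submodule.finrank_map_subtype_eq _ _
  rw [← h4, h5]
  omega

/-- the kernel of an eigenfunctional -/
theorem psi_ker (Ψ : Psi) (l : ℕ) (f : (Fin (l + 1) → ℂ) →ₗ[ℂ] ℂ) (z : ℂ) (hf : Eig Ψ l f z) :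
    ∃ Ψ' : Psi, (∀ ψ, ψ ∈ Ψ'.sp ↔ (ψ ∈ Ψ.sp ∧ f (res (l + 1) ψ) = 0)) ∧ Ψ'.c + 1 = Ψ.c := by
  have hfin := Ψ.fin
  refine ⟨⟨Ψ.sp ⊓ LinearMap.ker (f ∘ₗ res (l + 1)), ?_, ?_⟩, ?_, ?_⟩
  · exact Submodule.finiteDimensional_inf_left _ _
  · intro ψ hψ
    rw [Submodule.mem_inf, LinearMap.mem_ker, LinearMap.comp_apply] at hψ ⊢
    refine ⟨Ψ.inv ψ hψ.1, ?_⟩
    rw [hf.2 ψ hψ.1, hψ.2, mul_zero]
  · intro ψ
    rw [Submodule.mem_inf, LinearMap.mem_ker, LinearMap.comp_apply]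
  · exact G2_finrank_ker Ψ (f ∘ₗ res (l + 1)) hf.1

theorem psi_finite_geo (Ψ : Psi) : {z : ℂ | geo z ∈ Ψ.sp}.Finite := by
  have hfin := Ψ.fin
  have h1 : LinearIndependent ℂ (fun z : {z : ℂ | geo z ∈ Ψ.sp} => geo (z : ℂ)) := by
    refine Module.End.eigenvectors_linearIndependent' (shift : Module.End ℂ (ℕ → ℂ))
      (fun z : {z : ℂ | geo z ∈ Ψ.sp} => (z : ℂ)) Subtype.val_injective _ ?_
    intro z
    exact Module.End.hasEigenvector_iff.2 ⟨Module.End.mem_eigenspace_iff.2 (G2_shift_geo z),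
      G2_geo_ne z⟩
  have h2 : LinearIndependent ℂ (fun z : {z : ℂ | geo z ∈ Ψ.sp} => (⟨geo (z : ℂ), z.2⟩ : Ψ.sp)) :=
    LinearIndependent.of_comp Ψ.sp.subtype h1
  have h3 := h2.finite_of_isNoetherian
  exact Set.toFinite _

/-- functionals on `Ψ` factor through windows -/
theorem G2_factor (Ψ : Psi) (l : ℕ) (hl : Ψ.c ≤ l + 1) (g : Ψ.sp →ₗ[ℂ] ℂ) :
    ∃ f : (Fin (l + 1) → ℂ) →ₗ[ℂ] ℂ, ∀ ψ (h : ψ ∈ Ψ.sp), f (res (l + 1) ψ) = g ⟨ψ, h⟩ := by
  have hinj : Function.Injective ((res (l + 1)).domRestrict Ψ.sp) := by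
    rw [← LinearMap.ker_eq_bot, LinearMap.ker_eq_bot']
    rintro ⟨ψ, hψ⟩ h
    have := psi_inj Ψ (l + 1) hl ψ hψ h
    exact Subtype.ext this
  obtain ⟨r, hr⟩ := LinearMap.exists_leftInverse_of_injective _ (LinearMap.ker_eq_bot.2 hinj)
  refine ⟨g ∘ₗ r, fun ψ h => ?_⟩
  have h1 := LinearMap.congr_fun hr ⟨ψ, h⟩
  rw [LinearMap.comp_apply]
  congr 1

/-- if `geo z ∈ Ψ`, there is a functional vanishing on `(shift - z) Ψ` -/
theorem G2_eig (Ψ : Psi) (z : ℂ) (hz : geo z ∈ Ψ.sp) :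
    ∃ f : (Fin (Ψ.c + 1) → ℂ) →ₗ[ℂ] ℂ, Eig Ψ Ψ.c f z := by
  have hfin := Ψ.fin
  set T : Ψ.sp →ₗ[ℂ] Ψ.sp := (shift - z • LinearMap.id).restrict (p := Ψ.sp) (q := Ψ.sp)
    (by
      intro ψ hψ
      simp only [LinearMap.sub_apply, LinearMap.smul_apply, LinearMap.id_apply]
      exact Ψ.sp.sub_mem (Ψ.inv ψ hψ) (Ψ.sp.smul_mem z hψ)) with hT
  have hker : ¬ Function.Injective T := by
    intro h
    have h1 : T ⟨geo z, hz⟩ = 0 := by
      apply Subtype.ext
      simp [hT, LinearMap.restrict_apply, G2_shift_geo]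
    have h2 := h (h1.trans (map_zero T).symm)
    exact G2_geo_ne z (congrArg Subtype.val h2)
  have hrange : LinearMap.range T < ⊤ := by
    rw [lt_top_iff_ne_top]
    intro h
    exact hker (LinearMap.injective_iff_surjective.2 (LinearMap.range_eq_top.1 h))
  obtain ⟨g, hg0, hg⟩ := Submodule.exists_le_ker_of_lt_top _ hrange
  obtain ⟨f, hf⟩ := G2_factor Ψ Ψ.c (Nat.le_succ _) g
  refine ⟨f, ?_, ?_⟩
  · by_contra hcon
    push Not at hcon
    apply hg0
    ext ⟨ψ, hψ⟩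
    rw [← hf ψ hψ, hcon ψ hψ]
    rfl
  · intro ψ hψ
    rw [hf _ (Ψ.inv ψ hψ), hf _ hψ]
    have h1 : T ⟨ψ, hψ⟩ ∈ LinearMap.ker g := hg (LinearMap.mem_range_self T _)
    rw [LinearMap.mem_ker] at h1
    have h2 : (⟨shift ψ, Ψ.inv ψ hψ⟩ : Ψ.sp) = T ⟨ψ, hψ⟩ + z • ⟨ψ, hψ⟩ := by
      apply Subtype.ext
      simp [hT, LinearMap.restrict_apply]
    rw [h2, map_add, h1, zero_add, map_smul, smul_eq_mul]

/-! ### action of the special matrices -/
section acts
variable {ι κ G : Type} [Group G] [Fintype ι]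

theorem G2_act_add (A B : GMat κ ι G) (x : ι × G → ℂ) (k : κ) (g : G) :
    act (fun k i => A k i + B k i) x k g = act A x k g + act B x k g := by
  simp only [act, ← Finset.sum_add_distrib]
  refine Finset.sum_congr rfl fun i _ => ?_
  rw [Finsupp.sum_add_index']
  · intro a; simp
  · intro a b₁ b₂; ring

theorem G2_act_pen (P0 P1 : GMat κ ι G) (z : ℂ) (x : ι × G → ℂ) (k : κ) (g : G) :
    act (pen P0 P1 z) x k g = act P0 x k g + z * act P1 x k g := by
  have h : pen P0 P1 z = fun k i => P0 k i + (fun k i => z • P1 k i : GMat κ ι G) k i := rfl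
  rw [h, G2_act_add]
  congr 1
  simp only [act, Finset.mul_sum]
  refine Finset.sum_congr rfl fun i _ => ?_
  rw [Finsupp.sum_smul_index' (by intro a; simp), Finsupp.mul_sum]
  refine Finset.sum_congr rfl fun h _ => ?_
  simp only [smul_eq_mul]
  ring

theorem G2_act_slice (A : GMat κ ι G) {l m : ℕ} (s : Fin l → Fin m) (x : (ι × Fin m) × G → ℂ)
    (k : κ) (i : Fin l) (g : G) :
    act (fun (a : κ × Fin l) (p : ι × Fin m) => if p.2 = s a.2 then A a.1 p.1 else 0) x (k, i) g =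
      act A (fun q => x ((q.1, s i), q.2)) k g := by
  simp only [act, Fintype.sum_prod_type]
  refine Finset.sum_congr rfl fun p _ => ?_
  rw [Finset.sum_eq_single (s i)]
  · simp
  · intro j _ hj
    simp [hj]
  · intro h
    exact absurd (Finset.mem_univ _) h

theorem G2_act_Tm (P0 P1 : GMat κ ι G) (l : ℕ) (x : (ι × Fin (l + 1)) × G → ℂ) (k : κ)
    (i : Fin l) (g : G) :
    act (Tm P0 P1 l) x (k, i) g = act P0 (fun q => x ((q.1, i.castSucc), q.2)) k g +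
      act P1 (fun q => x ((q.1, i.succ), q.2)) k g := by
  have h : Tm P0 P1 l = fun (a : κ × Fin l) (p : ι × Fin (l + 1)) =>
      (fun (a : κ × Fin l) (p : ι × Fin (l + 1)) =>
        if p.2 = Fin.castSucc a.2 then P0 a.1 p.1 else 0 : GMat _ _ G) a p +
      (fun (a : κ × Fin l) (p : ι × Fin (l + 1)) =>
        if p.2 = Fin.succ a.2 then P1 a.1 p.1 else 0 : GMat _ _ G) a p := by
    funext a p
    simp only [Tm]
  rw [h, G2_act_add, G2_act_slice, G2_act_slice]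

/-- scalar matrices -/
theorem G2_scal {a b : ℕ} (M : Fin a → Fin b → ℂ) (x : L2 ((ι × Fin b) × G)) :
    ∃ y : L2 ((ι × Fin a) × G), ∀ p i g, y ((p, i), g) = ∑ j, M i j * x ((p, j), g) := by
  classical
  obtain ⟨T, -, hT⟩ := exists_rho (G := G) (fun (k : ι × Fin a) (q : ι × Fin b) =>
    if q.1 = k.1 then Finsupp.single (1 : G) (M k.2 q.2) else 0)
  refine ⟨T x, fun p i g => ?_⟩
  rw [hT]
  simp only [act, Fintype.sum_prod_type]
  rw [Finset.sum_eq_single p]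
  · refine Finset.sum_congr rfl fun j _ => ?_
    simp
  · intro q _ hq
    simp [hq]
  · intro h
    exact absurd (Finset.mem_univ _) h

theorem G2_scal1 {a : ℕ} (M : Fin a → ℂ) (x : L2 (ι × G)) :
    ∃ y : L2 ((ι × Fin a) × G), ∀ p i g, y ((p, i), g) = M i * x (p, g) := by
  classical
  obtain ⟨T, -, hT⟩ := exists_rho (G := G) (fun (k : ι × Fin a) (q : ι) =>
    if q = k.1 then Finsupp.single (1 : G) (M k.2) else 0)
  refine ⟨T x, fun p i g => ?_⟩
  rw [hT]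
  simp only [act]
  rw [Finset.sum_eq_single p]
  · simp
  · intro q _ hq
    simp [hq]
  · intro h
    exact absurd (Finset.mem_univ _) h

end acts

section G
variable {ι κ G : Type} [Group G] [Fintype ι] [Fintype κ]

theorem psi_add (P0 P1 : GMat κ ι G) (Ψ : Psi) (z : ℂ) (hz : geo z ∉ Ψ.sp) :
    ∃ Ψ' : Psi, Ψ'.c = Ψ.c + 1 ∧ Ψ.sp ≤ Ψ'.sp ∧ geo z ∈ Ψ'.sp ∧
      del P0 P1 Ψ + dk (pen P0 P1 z) ≤ del P0 P1 Ψ' := by
  have hfin := Ψ.fin
  set Ψ' : Psi := ⟨Ψ.sp ⊔ Submodule.span ℂ {geo z}, Submodule.finiteDimensional_sup _ _, by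
    intro ψ hψ
    rw [Submodule.mem_sup] at hψ ⊢
    obtain ⟨φ, hφ, θ, hθ, rfl⟩ := hψ
    rw [Submodule.mem_span_singleton] at hθ
    obtain ⟨a, rfl⟩ := hθ
    refine ⟨shift φ, Ψ.inv φ hφ, shift (a • geo z), ?_, by rw [map_add]⟩
    rw [map_smul, G2_shift_geo, Submodule.mem_span_singleton]
    exact ⟨a * z, by rw [mul_smul]⟩⟩ with hΨ'
  have hle : Ψ.sp ≤ Ψ'.sp := le_sup_left
  have hgz : geo z ∈ Ψ'.sp := Submodule.mem_sup_right (Submodule.mem_span_singleton_self _)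
  have hc : Ψ'.c = Ψ.c + 1 := by
    have h1 : Disjoint Ψ.sp (Submodule.span ℂ {geo z}) := by
      rw [Submodule.disjoint_span_singleton' (G2_geo_ne z)]
      exact hz
    have h2 := Submodule.finrank_sup_add_finrank_inf_eq Ψ.sp (Submodule.span ℂ {geo z})
    rw [h1.eq_bot, finrank_bot, finrank_span_singleton (G2_geo_ne z)] at h2
    exact h2
  -- the functional
  have hnot : res (Ψ'.c + 1) (geo z) ∉ Ψ.sp.map (res (Ψ'.c + 1)) := by
    rintro ⟨ψ, hψ, h⟩
    apply hz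
    have h1 := psi_inj Ψ' (Ψ'.c + 1) (Nat.le_succ _) (ψ - geo z)
      (Ψ'.sp.sub_mem (hle hψ) hgz) (by rw [map_sub, h, sub_self])
    rw [sub_eq_zero] at h1
    rw [← h1]
    exact hψ
  obtain ⟨f, hf1, hf2⟩ := Submodule.exists_le_ker_of_notMem hnot
  have hΨf : ∀ ψ ∈ Ψ.sp, f (res (Ψ'.c + 1) ψ) = 0 := fun ψ hψ =>
    LinearMap.mem_ker.1 (hf2 (Submodule.mem_map_of_mem hψ))
  have hiff : ∀ ψ, ψ ∈ Ψ.sp ↔ (ψ ∈ Ψ'.sp ∧ f (res (Ψ'.c + 1) ψ) = 0) := by
    intro ψ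
    constructor
    · intro h
      exact ⟨hle h, hΨf ψ h⟩
    · rintro ⟨h, h0⟩
      obtain ⟨φ, hφ, θ, hθ, rfl⟩ := Submodule.mem_sup.1 h
      obtain ⟨a, rfl⟩ := Submodule.mem_span_singleton.1 hθ
      rw [map_add, map_add, hΨf φ hφ, zero_add, map_smul, map_smul, smul_eq_mul] at h0
      have ha : a = 0 := (mul_eq_zero.1 h0).resolve_right hf1
      rw [ha, zero_smul, add_zero]
      exact hφ
  refine ⟨Ψ', hc, hle, hgz, ?_⟩
  have hsp := xw_split P0 P1 Ψ' Ψ Ψ'.c f hiff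
  rw [del_eq P0 P1 Ψ Ψ'.c (by omega)] at hsp
  have hd : del P0 P1 Ψ' = vdim (XW P0 P1 Ψ' Ψ'.c) := rfl
  rw [hd, hsp]
  have hk : kerA (pen P0 P1 z) ≤ fimg f (XW P0 P1 Ψ' Ψ'.c) := by
    intro v hv
    set a : ℂ := f (res (Ψ'.c + 1) (geo z)) with ha
    obtain ⟨x, hx⟩ := G2_scal1 (fun i : Fin (Ψ'.c + 1) => a⁻¹ * z ^ (i : ℕ)) v
    refine ⟨x, ⟨?_, ?_⟩, ?_⟩
    · rintro ⟨k, i⟩ g
      rw [G2_act_Tm]
      simp only [hx]
      have e1 : (fun q : ι × G => a⁻¹ * z ^ ((i.castSucc : Fin (Ψ'.c + 1)) : ℕ) * v (q.1, q.2)) =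
          (a⁻¹ * z ^ (i : ℕ)) • (v : ι × G → ℂ) := by
        funext q
        simp
      have e2 : (fun q : ι × G => a⁻¹ * z ^ ((i.succ : Fin (Ψ'.c + 1)) : ℕ) * v (q.1, q.2)) =
          (a⁻¹ * z ^ (i : ℕ) * z) • (v : ι × G → ℂ) := by
        funext q
        simp only [Pi.smul_apply, smul_eq_mul, Fin.val_succ, pow_succ]
        ring
      rw [e1, e2, act_smul, act_smul]
      have h1 := hv k g
      rw [G2_act_pen] at h1
      linear_combination (a⁻¹ * z ^ (i : ℕ)) * h1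
    · intro p g
      refine ⟨(a⁻¹ * v (p, g)) • geo z, Ψ'.sp.smul_mem _ hgz, ?_⟩
      funext i
      rw [hx]
      simp only [res, LinearMap.coe_mk, AddHom.coe_mk, Pi.smul_apply, geo, smul_eq_mul]
      ring
    · intro p g
      have h1 : (fun i => x ((p, i), g)) = (a⁻¹ * v (p, g)) • res (Ψ'.c + 1) (geo z) := by
        funext i
        rw [hx]
        simp only [res, LinearMap.coe_mk, AddHom.coe_mk, Pi.smul_apply, geo, smul_eq_mul]
        ring
      rw [h1, map_smul, ← ha, smul_eq_mul]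
      field_simp
  have := vdim_mono hk
  simp only [dk]
  linarith

theorem psi_remove (P0 P1 : GMat κ ι G) (Ψ : Psi) (z : ℂ) (hz : geo z ∈ Ψ.sp) :
    ∃ Ψ' : Psi, Ψ'.c + 1 = Ψ.c ∧ del P0 P1 Ψ - dk (pen P0 P1 z) ≤ del P0 P1 Ψ' := by
  obtain ⟨f, hf⟩ := G2_eig Ψ z hz
  obtain ⟨Ψ', h1, h2⟩ := psi_ker Ψ Ψ.c f z hf
  refine ⟨Ψ', h2, ?_⟩
  have hsp := xw_split P0 P1 Ψ Ψ' Ψ.c f h1
  rw [del_eq P0 P1 Ψ' Ψ.c (by omega)] at hsp
  have hle := vdim_mono (fimg_le P0 P1 Ψ Ψ.c le_rfl f z hf)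
  have hd : del P0 P1 Ψ = vdim (XW P0 P1 Ψ Ψ.c) := rfl
  rw [hd, hsp, dk]
  linarith

theorem psi_chain (P0 P1 : GMat κ ι G) (Ψ : Psi) (s : ℝ)
    (h : ∀ l, Ψ.c ≤ l → ∀ f z, Eig Ψ l f z → s ≤ vdim (fimg f (XW P0 P1 Ψ l))) :
    s * Ψ.c ≤ del P0 P1 Ψ := by
  obtain ⟨n, hn⟩ : ∃ n, Ψ.c = n := ⟨_, rfl⟩
  induction n generalizing Ψ with
  | zero =>
    rw [hn]
    simp only [Nat.cast_zero, mul_zero]
    exact vdim_nonneg _
  | succ n ih =>
    have hfin := Ψ.fin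
    -- an eigenvalue
    have hnt : Nontrivial Ψ.sp := by
      apply Module.nontrivial_of_finrank_pos (R := ℂ)
      have : finrank ℂ Ψ.sp = n + 1 := hn
      omega
    set S : Ψ.sp →ₗ[ℂ] Ψ.sp := shift.restrict (p := Ψ.sp) (q := Ψ.sp) Ψ.inv with hS
    obtain ⟨z, hz⟩ := Module.End.exists_eigenvalue (K := ℂ) (V := Ψ.sp) S
    obtain ⟨⟨φ, hφ⟩, hev⟩ := hz.exists_hasEigenvector
    have hφ1 : shift φ = z • φ := by
      have := hev.apply_eq_smul
      exact congrArg Subtype.val this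
    have hφ0 : φ ≠ 0 := by
      intro h0
      apply hev.2
      exact Subtype.ext h0
    have hφg := G2_eig_geo z φ hφ1
    have hgz : geo z ∈ Ψ.sp := by
      have h0 : φ 0 ≠ 0 := by
        intro h0
        rw [h0, zero_smul] at hφg
        exact hφ0 hφg
      have : geo z = (φ 0)⁻¹ • φ := by
        rw [hφg]
        simp only [Pi.smul_apply, geo, pow_zero, smul_eq_mul, mul_one]
        rw [smul_smul, inv_mul_cancel₀ h0, one_smul]
      rw [this]
      exact Ψ.sp.smul_mem _ hφ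
    obtain ⟨f, hf⟩ := G2_eig Ψ z hgz
    obtain ⟨Ψ1, h1, h2⟩ := psi_ker Ψ Ψ.c f z hf
    have hsp := xw_split P0 P1 Ψ Ψ1 Ψ.c f h1
    rw [del_eq P0 P1 Ψ1 Ψ.c (by omega)] at hsp
    have hfs := h Ψ.c le_rfl f z hf
    have hc1 : Ψ1.c = n := by omega
    -- `Ψ1 = (shift - z) Ψ`
    have hfin1 := Ψ1.fin
    have hD : ∀ ψ ∈ Ψ.sp, shift ψ - z • ψ ∈ Ψ1.sp := by
      intro ψ hψ
      rw [h1]
      refine ⟨Ψ.sp.sub_mem (Ψ.inv ψ hψ) (Ψ.sp.smul_mem z hψ), ?_⟩
      rw [map_sub, map_sub, hf.2 ψ hψ, map_smul, map_smul, smul_eq_mul, sub_self]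
    have hsurj : ∀ φ ∈ Ψ1.sp, ∃ ψ ∈ Ψ.sp, shift ψ - z • ψ = φ := by
      set T : Ψ.sp →ₗ[ℂ] Ψ1.sp := LinearMap.codRestrict Ψ1.sp
        ((shift - z • LinearMap.id) ∘ₗ Ψ.sp.subtype) (fun ψ => hD ψ.1 ψ.2) with hT
      have hk : LinearMap.ker T ≤ Submodule.span ℂ {(⟨geo z, hgz⟩ : Ψ.sp)} := by
        rintro ⟨ψ, hψ⟩ h0
        rw [LinearMap.mem_ker] at h0
        have h3 : shift ψ - z • ψ = 0 := congrArg Subtype.val h0
        have h4 := G2_eig_geo z ψ (sub_eq_zero.1 h3)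
        rw [Submodule.mem_span_singleton]
        exact ⟨ψ 0, Subtype.ext h4.symm⟩
      have hk1 : finrank ℂ (LinearMap.ker T) ≤ 1 := by
        refine (Submodule.finrank_mono hk).trans ?_
        exact (finrank_span_singleton (fun h0 => G2_geo_ne z (congrArg Subtype.val h0))).le
      have hr := LinearMap.finrank_range_add_finrank_ker T
      have hr1 : finrank ℂ (LinearMap.range T) ≤ finrank ℂ Ψ1.sp := Submodule.finrank_le _
      have hcc : finrank ℂ Ψ1.sp + 1 = finrank ℂ Ψ.sp := h2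
      have hr2 : finrank ℂ (LinearMap.range T) = finrank ℂ Ψ1.sp := by omega
      have hr3 : LinearMap.range T = ⊤ := Submodule.eq_top_of_finrank_eq hr2
      intro φ hφ
      obtain ⟨⟨ψ, hψ⟩, h3⟩ := LinearMap.range_eq_top.1 hr3 ⟨φ, hφ⟩
      exact ⟨ψ, hψ, congrArg Subtype.val h3⟩
    have hih := ih Ψ1 (by
      intro l hl f' z' hf'
      -- lift the functional
      set W : (Fin (l + 2) → ℂ) →ₗ[ℂ] (Fin (l + 1) → ℂ) :=
        { toFun := fun v i => v i.succ - z * v i.castSucc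
          map_add' := by intro v w; funext i; simp only [Pi.add_apply]; ring
          map_smul' := by
            intro a v; funext i
            simp only [Pi.smul_apply, smul_eq_mul, RingHom.id_apply]; ring } with hW
      have hWres : ∀ ψ : ℕ → ℂ, W (res (l + 2) ψ) = res (l + 1) (shift ψ - z • ψ) := by
        intro ψ
        funext i
        simp [hW, res, shift]
      have hE : Eig Ψ (l + 1) (f' ∘ₗ W) z' := by
        refine ⟨?_, ?_⟩
        · obtain ⟨φ, hφ, hne⟩ := hf'.1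
          obtain ⟨ψ, hψ, rfl⟩ := hsurj φ hφ
          refine ⟨ψ, hψ, ?_⟩
          rw [LinearMap.comp_apply, hWres]
          exact hne
        · intro ψ hψ
          rw [LinearMap.comp_apply, LinearMap.comp_apply, hWres, hWres]
          have h3 := hf'.2 _ (hD ψ hψ)
          rw [map_sub, map_smul] at h3
          exact h3
      have h4 := h (l + 1) (by omega) _ z' hE
      refine h4.trans (vdim_mono ?_)
      rintro y ⟨x, ⟨hx1, hx2⟩, hy⟩
      obtain ⟨x', hx'⟩ := G2_scal (ι := ι) (G := G)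
        (fun (i : Fin (l + 1)) (j : Fin (l + 2)) =>
          (if j = i.succ then 1 else 0) - (if j = i.castSucc then z else 0)) x
      have hx'' : ∀ p (i : Fin (l + 1)) g,
          x' ((p, i), g) = x ((p, i.succ), g) - z * x ((p, i.castSucc), g) := by
        intro p i g
        rw [hx']
        simp only [sub_mul, ite_mul, one_mul, zero_mul, Finset.sum_sub_distrib,
          Finset.sum_ite_eq', Finset.mem_univ, if_true]
      refine ⟨x', ⟨?_, ?_⟩, ?_⟩
      · rintro ⟨k, i⟩ g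
        rw [G2_act_Tm]
        have e1 : (fun q : ι × G => x' ((q.1, i.castSucc), q.2)) =
            (fun q : ι × G => x ((q.1, i.castSucc.succ), q.2)) +
              (-z) • (fun q : ι × G => x ((q.1, i.castSucc.castSucc), q.2)) := by
          funext q
          rw [hx'']
          simp only [Pi.add_apply, Pi.smul_apply, smul_eq_mul]
          ring
        have e2 : (fun q : ι × G => x' ((q.1, i.succ), q.2)) =
            (fun q : ι × G => x ((q.1, i.succ.succ), q.2)) +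
              (-z) • (fun q : ι × G => x ((q.1, i.succ.castSucc), q.2)) := by
          funext q
          rw [hx'']
          simp only [Pi.add_apply, Pi.smul_apply, smul_eq_mul]
          ring
        rw [e1, e2, act_add, act_add, act_smul, act_smul]
        have h5 := hx1 (k, i.castSucc) g
        have h6 := hx1 (k, i.succ) g
        rw [G2_act_Tm] at h5 h6
        rw [Fin.succ_castSucc] at h5 ⊢
        linear_combination h6 - z * h5
      · intro p g
        obtain ⟨ψ, hψ, h5⟩ := hx2 p g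
        refine ⟨shift ψ - z • ψ, hD ψ hψ, ?_⟩
        rw [← hWres]
        change W (res (l + 1 + 1) ψ) = _
        rw [h5]
        funext i
        rw [hx'']
        rfl
      · intro p g
        rw [hy p g, LinearMap.comp_apply]
        congr 1
        funext i
        rw [hx'']
        rfl) hc1
    have hd : del P0 P1 Ψ = vdim (XW P0 P1 Ψ Ψ.c) := rfl
    have hcast : (Ψ.c : ℝ) = Ψ1.c + 1 := by exact_mod_cast h2.symm
    rw [hd, hsp, hcast]
    linarith

end G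

end Pool.Agent.H80R2.BC
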