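import Pool.Agent.H80R2.BC.Dim1
import Pool.Agent.H80R2.BC.Dim2
import Pool.Agent.H80R2.BC.Act
import Pool.Agent.H80R2.BC.Amp
import Pool.Agent.H80R2.BC.ProdA
import Pool.Agent.H80R2.BC.Grp
import Pool.Agent.H80R2.BC.Tree
import Pool.Agent.H80R2.BC.PsiF
import Pool.Agent.H80R2.BC.PsiG
import Pool.Agent.H80R2.BC.Sol
import Pool.Agent.H80R2.BC.Krylov
import Pool.Agent.H80R2.BC.Arith

set_option autoImplicit false

/-! Assembly of the base change theorem (one step `R → R[z]`). -/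

namespace Pool.Agent.H80R2.BC

open scoped ENNReal
open Module

/-- a pencil over some group -/
structure Sys where
  κ : Type
  ι : Type
  G : Type
  [grp : Group G]
  [fκ : Fintype κ]
  [fι : Fintype ι]
  P0 : GMat κ ι G
  P1 : GMat κ ι G

attribute [instance] Sys.grp Sys.fκ Sys.fι

/-- external product of pencils -/
noncomputable def Sys.mul (S T : Sys) : Sys where
  κ := (S.κ × T.ι) ⊕ (S.ι × T.κ)
  ι := S.ι × T.ι
  G := S.G × T.G
  P0 := ext S.P0 T.P0
  P1 := ext S.P1 T.P1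

/-- `pw S k` is the `(k+1)`-st power -/
noncomputable def Sys.pw (S : Sys) : ℕ → Sys
  | 0 => S
  | (k + 1) => (S.pw k).mul S

/-- properties of a system relative to a base system -/
structure Rel (C : (G : Type) → [Group G] → Prop) (R : Subring ℂ) (L : ℕ) (S T : Sys) (k : ℕ) :
    Prop where
  cls : C T.G
  tor : TorDiv T.G (L ^ k)
  c0 : Coef R T.P0
  c1 : Coef R T.P1
  dz : ∀ z, dk (pen T.P0 T.P1 z) = dk (pen S.P0 S.P1 z) ^ k
  dinf : dk T.P1 = dk S.P1 ^ k
  fim : ∀ (Ψ : Psi) (l : ℕ) (f : (Fin (l + 1) → ℂ) →ₗ[ℂ] ℂ),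
    vdim (fimg f (XW T.P0 T.P1 Ψ l)) ≤ vdim (fimg f (XW S.P0 S.P1 Ψ l)) ^ k

theorem coef_mapDomain {G G' : Type} (R : Subring ℂ) (f : G → G') (hf : Function.Injective f)
    (a : G →₀ ℂ) (ha : ∀ g, a g ∈ R) (g' : G') : (a.mapDomain f) g' ∈ R := by
  by_cases h : g' ∈ Set.range f
  · obtain ⟨g, rfl⟩ := h
    rw [Finsupp.mapDomain_apply hf]
    exact ha g
  · rw [Finsupp.mapDomain_of_notMem_range _ _ h]
    exact R.zero_mem

theorem coef_ext {ι κ G ι' κ' G' : Type} [Group G] [Group G'] (R : Subring ℂ)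
    (A : GMat κ ι G) (A' : GMat κ' ι' G') (hA : Coef R A) (hA' : Coef R A') :
    Coef R (ext A A') := by
  classical
  rintro (⟨k, i'⟩ | ⟨i, k'⟩) ⟨p, p'⟩ ⟨g, g'⟩
  · simp only [ext, Sum.elim_inl]
    split_ifs with h
    · refine coef_mapDomain R _ (fun a b hab => (Prod.mk.inj hab).1) _ (hA k p) _
    · exact R.zero_mem
  · simp only [ext, Sum.elim_inr]
    split_ifs with h
    · refine coef_mapDomain R _ (fun a b hab => (Prod.mk.inj hab).2) _ (hA' k' p') _
    · exact R.zero_mem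

theorem rel_one (C : (G : Type) → [Group G] → Prop) (R : Subring ℂ) (L : ℕ) (S : Sys)
    (hC : C S.G) (ht : TorDiv S.G L) (h0 : Coef R S.P0) (h1 : Coef R S.P1) :
    Rel C R L S (S.pw 0) 1 where
  cls := hC
  tor := by rw [pow_one]; exact ht
  c0 := h0
  c1 := h1
  dz := fun z => (pow_one _).symm
  dinf := (pow_one _).symm
  fim := fun Ψ l f => (pow_one _).symm.le

theorem rel_succ (C : (G : Type) → [Group G] → Prop)
    (hprod : ∀ (G H : Type) [Group G] [Group H], C G → C H → C (G × H))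
    (R : Subring ℂ) (L : ℕ) (S T : Sys) (k : ℕ)
    (hC : C S.G) (ht : TorDiv S.G L) (h0 : Coef R S.P0) (h1 : Coef R S.P1)
    (h : Rel C R L S T k) : Rel C R L S (T.mul S) (k + 1) where
  cls := hprod _ _ h.cls hC
  tor := by
    rw [pow_succ]
    exact torDiv_prod _ _ _ _ h.tor ht
  c0 := coef_ext R _ _ h.c0 h0
  c1 := coef_ext R _ _ h.c1 h1
  dz := fun z => by
    show dk (pen (ext T.P0 S.P0) (ext T.P1 S.P1) z) = _
    rw [dk_pen_ext, h.dz, pow_succ]
  dinf := by
    show dk (ext T.P1 S.P1) = _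
    rw [dk_ext, h.dinf, pow_succ]
  fim := fun Ψ l f => by
    show vdim (fimg f (XW (ext T.P0 S.P0) (ext T.P1 S.P1) Ψ l)) ≤ _
    refine (fimg_ext_le T.P0 T.P1 S.P0 S.P1 Ψ l f).trans ?_
    rw [pow_succ]
    exact mul_le_mul_of_nonneg_right (h.fim Ψ l f) (vdim_nonneg _)

theorem rel_pw (C : (G : Type) → [Group G] → Prop)
    (hprod : ∀ (G H : Type) [Group G] [Group H], C G → C H → C (G × H))
    (R : Subring ℂ) (L : ℕ) (S : Sys)
    (hC : C S.G) (ht : TorDiv S.G L) (h0 : Coef R S.P0) (h1 : Coef R S.P1) (k : ℕ) :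
    Rel C R L S (S.pw k) (k + 1) := by
  induction k with
  | zero => exact rel_one C R L S hC ht h0 h1
  | succ k ih => exact rel_succ C hprod R L S _ _ hC ht h0 h1 ih

theorem pen_smul_kernel {ι κ G : Type} [Group G] [Fintype ι] (A : GMat κ ι G) (y : ℂ) (hy : y ≠ 0) :
    kerA (fun k i => y • A k i : GMat κ ι G) = kerA A := by
  ext x
  have : ∀ k g, act (fun k i => y • A k i : GMat κ ι G) x k g = y * act A x k g := by
    intro k g
    simp only [act, Finset.mul_sum]
    refine Finset.sum_congr rfl fun i _ => ?_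
    rw [Finsupp.sum_smul_index (by intro i; simp), Finsupp.sum, Finsupp.sum, Finset.mul_sum]
    exact Finset.sum_congr rfl fun h _ => by ring
  constructor
  · intro h k g
    have h1 := h k g
    rw [this] at h1
    exact (mul_eq_zero.mp h1).resolve_left hy
  · intro h k g
    rw [this, h k g, mul_zero]

end Pool.Agent.H80R2.BC
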