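import Pool.Agent.H80R2.BC.DefsX

set_option autoImplicit false

/-!
Dimension of a character space of a finite group (task X2).
-/

namespace Pool.Agent.H80R2.BC

open scoped ENNReal
open Module

theorem X2_normsq {X : Type} [Fintype X] (x : L2 X) : ‖x‖ ^ 2 = ∑ i, ‖x i‖ ^ 2 := by
  have h := lp.norm_rpow_eq_tsum (p := 2) (by norm_num) x
  rw [tsum_fintype] at h
  have e : (2 : ℝ≥0∞).toReal = ((2 : ℕ) : ℝ) := by norm_num
  rw [e] at h
  simpa only [Real.rpow_natCast] using h

theorem X2_dl_self {G ι : Type} [Group G] (i : ι) : (dl G i : L2 (ι × G)) (i, 1) = 1 := by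
  classical
  unfold dl
  exact lp.single_apply_self _ _ _

theorem X2_dl_ne {G ι : Type} [Group G] (i : ι) (p : ι × G) (hp : p ≠ (i, 1)) :
    (dl G i : L2 (ι × G)) p = 0 := by
  classical
  unfold dl
  exact lp.single_apply_ne _ _ _ hp

theorem X2_act {H : Type} [Group H] (χ : H → ℂ) (x : Unit × H → ℂ) (h g : H) :
    act (chi χ) x h g = x ((), g * h) - χ h * x ((), g) := by
  have e : act (chi χ) x h g = Finsupp.linearCombination ℂ (fun h' => x ((), g * h')) (chi χ h ()) := by
    unfold act
    rw [Fintype.sum_unique]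
    rw [Finsupp.linearCombination_apply]
    rfl
  rw [e]
  unfold chi
  rw [map_sub, Finsupp.linearCombination_single, Finsupp.linearCombination_single, mul_one, one_smul,
    smul_eq_mul]

open Classical in
theorem dk_chi {H : Type} [Group H] [Fintype H] (χ : H → ℂ) (h1 : ∀ a b, χ (a * b) = χ a * χ b)
    (h2 : ∀ a, ‖χ a‖ = 1) : dk (chi χ) = 1 / Fintype.card H := by
  have hn : (0 : ℝ) < Fintype.card H := by exact_mod_cast Fintype.card_pos
  set n : ℝ := (Fintype.card H : ℝ) with hndef
  have hχ1 : χ 1 = 1 := by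
    have h := h1 1 1
    rw [mul_one] at h
    have h0 : χ 1 ≠ 0 := by
      intro hc
      have := h2 1
      rw [hc, norm_zero] at this
      exact zero_ne_one this
    exact (mul_left_cancel₀ h0 (h.symm.trans (mul_one _).symm))
  -- the distance to a member of the kernel
  have key : ∀ x ∈ kerA (chi χ), dist (dl H ()) x ^ 2 =
      (1 - 1 / n) + n * ‖x ((), 1) - ((1 / n : ℝ) : ℂ)‖ ^ 2 := by
    intro x hx
    have hx' : ∀ g, x ((), g) = χ g * x ((), 1) := by
      intro g
      have h := hx g 1
      rw [X2_act, one_mul] at h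
      exact sub_eq_zero.mp h
    rw [dist_eq_norm, X2_normsq, Fintype.sum_prod_type, Fintype.sum_unique]
    have e : ∀ g : H, ‖(dl H () - x : L2 (Unit × H)) (default, g)‖ ^ 2 =
        ‖x ((), 1)‖ ^ 2 + if g = 1 then (1 - 2 * (x ((), 1)).re) else 0 := by
      intro g
      rw [lp.coeFn_sub, Pi.sub_apply]
      have e1 : (dl H () : L2 (Unit × H)) (default, g) = if g = 1 then 1 else 0 := by
        by_cases hg : g = 1
        · subst hg
          rw [if_pos rfl]
          exact X2_dl_self ()
        · rw [if_neg hg]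
          exact X2_dl_ne () _ (fun hc => hg (congrArg Prod.snd hc))
      rw [e1, show x (default, g) = χ g * x ((), 1) from hx' g]
      by_cases hg : g = 1
      · subst hg
        rw [if_pos rfl, if_pos rfl, hχ1, one_mul, ← Complex.normSq_eq_norm_sq,
          ← Complex.normSq_eq_norm_sq, Complex.normSq_apply, Complex.normSq_apply]
        simp only [Complex.sub_re, Complex.one_re, Complex.sub_im, Complex.one_im]
        ring
      · rw [if_neg hg, if_neg hg, zero_sub, norm_neg, norm_mul, h2, one_mul, add_zero]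
    simp only [e]
    rw [Finset.sum_add_distrib, Finset.sum_const, Finset.card_univ, nsmul_eq_mul,
      Finset.sum_ite_eq' Finset.univ (1 : H), if_pos (Finset.mem_univ _), ← hndef,
      ← Complex.normSq_eq_norm_sq, ← Complex.normSq_eq_norm_sq, Complex.normSq_apply,
      Complex.normSq_apply]
    simp only [Complex.sub_re, Complex.ofReal_re, Complex.sub_im, Complex.ofReal_im]
    field_simp
    ring
  -- the optimal vector
  obtain ⟨w, hw⟩ : ∃ w : L2 (Unit × H), ∀ p, w p = ((1 / n : ℝ) : ℂ) * χ p.2 :=
    ⟨⟨fun p => ((1 / n : ℝ) : ℂ) * χ p.2, Memℓp.all _⟩, fun p => rfl⟩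
  have hwK : w ∈ kerA (chi χ) := by
    intro h g
    rw [X2_act, hw, hw]
    simp only
    rw [h1]
    ring
  have hdw : dist (dl H ()) w ^ 2 = 1 - 1 / n := by
    rw [key w hwK, hw]
    simp only
    rw [hχ1, mul_one, sub_self, norm_zero]
    ring
  have hinf : Metric.infDist (dl H ()) (kerA (chi χ) : Set (L2 (Unit × H))) = dist (dl H ()) w := by
    apply le_antisymm
    · exact Metric.infDist_le_dist_of_mem hwK
    · rw [Metric.le_infDist ⟨w, hwK⟩]
      intro x hx
      have h3 := key x hx
      have h4 : dist (dl H ()) w ^ 2 ≤ dist (dl H ()) x ^ 2 := by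
        rw [hdw, h3]
        have : 0 ≤ n * ‖x ((), 1) - ((1 / n : ℝ) : ℂ)‖ ^ 2 := by positivity
        linarith
      exact (sq_le_sq₀ dist_nonneg dist_nonneg).mp h4
  unfold dk vdim
  rw [Fintype.sum_unique]
  have e : (default : Unit) = () := rfl
  rw [e, hinf, hdw]
  ring

end Pool.Agent.H80R2.BC
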