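import Pool.Agent.H80R2.BC.DefsX
import Pool.Agent.H80R2.BC.Dim1
import Pool.Agent.H80R2.BC.Dim2
import Pool.Agent.H80R2.BC.Act

set_option autoImplicit false

/-! The kernel of a direct sum of matrices. -/

namespace Pool.Agent.H80R2.BC

open scoped ENNReal
open Module

section
variable {κ ι κ' ι' G : Type} [Group G] [Fintype κ] [Fintype ι] [Fintype κ'] [Fintype ι']

omit [Group G] [Fintype ι] [Fintype ι'] in
theorem X1_inl_inj : Function.Injective (fun p : ι × G => ((Sum.inl p.1 : ι ⊕ ι'), p.2)) := by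
  rintro ⟨a, b⟩ ⟨c, d⟩ h
  simpa using h

omit [Group G] [Fintype ι] [Fintype ι'] in
theorem X1_inr_inj : Function.Injective (fun p : ι' × G => ((Sum.inr p.1 : ι ⊕ ι'), p.2)) := by
  rintro ⟨a, b⟩ ⟨c, d⟩ h
  simpa using h

omit [Fintype κ] [Fintype κ'] in
theorem X1_act_inl (A : GMat κ ι G) (B : GMat κ' ι' G) (x : (ι ⊕ ι') × G → ℂ) (k : κ) (g : G) :
    act (dsum A B) x (Sum.inl k) g = act A (fun p => x (Sum.inl p.1, p.2)) k g := by
  unfold act
  rw [Fintype.sum_sum_type]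
  simp [dsum]

omit [Fintype κ] [Fintype κ'] in
theorem X1_act_inr (A : GMat κ ι G) (B : GMat κ' ι' G) (x : (ι ⊕ ι') × G → ℂ) (k : κ') (g : G) :
    act (dsum A B) x (Sum.inr k) g = act B (fun p => x (Sum.inr p.1, p.2)) k g := by
  unfold act
  rw [Fintype.sum_sum_type]
  simp [dsum]

theorem dk_dsum (A : GMat κ ι G) (B : GMat κ' ι' G) : dk (dsum A B) = dk A + dk B := by
  set L : L2 ((ι ⊕ ι') × G) →L[ℂ] L2 (ι × G) := C1_pull _ X1_inl_inj with hL
  set R : L2 ((ι ⊕ ι') × G) →L[ℂ] L2 (ι' × G) := C1_pull _ X1_inr_inj with hR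
  have hLx : ∀ (x : L2 ((ι ⊕ ι') × G)) (p : ι × G), L x p = x (Sum.inl p.1, p.2) := fun _ _ => rfl
  have hRx : ∀ (x : L2 ((ι ⊕ ι') × G)) (p : ι' × G), R x p = x (Sum.inr p.1, p.2) := fun _ _ => rfl
  have hLe : Equi L := fun g x y h i k => h _ _
  have hRe : Equi R := fun g x y h i k => h _ _
  set K := kerA (dsum A B) with hK
  have hKm : ∀ x : L2 ((ι ⊕ ι') × G), x ∈ K ↔ L x ∈ kerA A ∧ R x ∈ kerA B := by
    intro x
    constructor
    · intro hx
      refine ⟨fun k g => ?_, fun k g => ?_⟩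
      · exact (X1_act_inl A B x k g).symm.trans (hx (Sum.inl k) g)
      · exact (X1_act_inr A B x k g).symm.trans (hx (Sum.inr k) g)
    · rintro ⟨h1, h2⟩ (k | k) g
      · exact (X1_act_inl A B x k g).trans (h1 k g)
      · exact (X1_act_inr A B x k g).trans (h2 k g)
  -- extension by zero
  set P : L2 (ι × G) →L[ℂ] L2 ((ι ⊕ ι') × G) := C1_ext _ X1_inl_inj with hP
  set Q : L2 (ι' × G) →L[ℂ] L2 ((ι ⊕ ι') × G) := C1_ext _ X1_inr_inj with hQ
  have hLP : ∀ y, L (P y) = y := by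
    intro y
    refine lp.ext (funext fun p => ?_)
    rw [hLx]
    exact C1_ext_apply _ X1_inl_inj y p
  have hRP : ∀ y, R (P y) = 0 := by
    intro y
    refine lp.ext (funext fun p => ?_)
    rw [hRx]
    exact C1_ext_apply' _ X1_inl_inj y _ (by rintro ⟨a, ha⟩; simp at ha)
  have hRQ : ∀ y, R (Q y) = y := by
    intro y
    refine lp.ext (funext fun p => ?_)
    rw [hRx]
    exact C1_ext_apply _ X1_inr_inj y p
  have hLQ : ∀ y, L (Q y) = 0 := by
    intro y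
    refine lp.ext (funext fun p => ?_)
    rw [hLx]
    exact C1_ext_apply' _ X1_inr_inj y _ (by rintro ⟨a, ha⟩; simp at ha)
  have h1 : K.map (L : L2 ((ι ⊕ ι') × G) →ₗ[ℂ] L2 (ι × G)) = kerA A := by
    ext y
    constructor
    · rintro ⟨x, hx, rfl⟩
      exact ((hKm x).1 hx).1
    · intro hy
      refine ⟨P y, (hKm _).2 ⟨?_, ?_⟩, hLP y⟩
      · rw [hLP]; exact hy
      · rw [hRP]; exact Submodule.zero_mem _
  set K0 := K ⊓ LinearMap.ker (L : L2 ((ι ⊕ ι') × G) →ₗ[ℂ] L2 (ι × G)) with hK0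
  have h2 : K0.map (R : L2 ((ι ⊕ ι') × G) →ₗ[ℂ] L2 (ι' × G)) = kerA B := by
    ext y
    constructor
    · rintro ⟨x, hx, rfl⟩
      exact ((hKm x).1 hx.1).2
    · intro hy
      refine ⟨Q y, ⟨(hKm _).2 ⟨?_, ?_⟩, hLQ y⟩, hRQ y⟩
      · rw [hLQ]; exact Submodule.zero_mem _
      · rw [hRQ]; exact hy
  have h3 : K0 ⊓ LinearMap.ker (R : L2 ((ι ⊕ ι') × G) →ₗ[ℂ] L2 (ι' × G)) = ⊥ := by
    rw [eq_bot_iff]
    rintro x ⟨⟨_, hx1⟩, hx2⟩
    rw [Submodule.mem_bot]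
    have e1 : L x = 0 := hx1
    have e2 : R x = 0 := hx2
    refine lp.ext (funext fun p => ?_)
    obtain ⟨i | i, g⟩ := p
    · rw [← hLx x (i, g), e1]
      rfl
    · rw [← hRx x (i, g), e2]
      rfl
  have hK0c : IsClosed (K0 : Set (L2 ((ι ⊕ ι') × G))) :=
    (kerA_closed _).inter (ContinuousLinearMap.isClosed_ker L)
  have hK0l : LInv K0 := by
    rintro g x y ⟨hx, hx1⟩ hxy
    refine ⟨kerA_linv _ g x y hx hxy, ?_⟩
    have e1 : L x = 0 := hx1
    have e2 := hLe g x y hxy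
    change L y = 0
    refine lp.ext (funext fun p => ?_)
    rw [e1] at e2
    exact (e2 p.1 p.2).trans rfl
  unfold dk
  rw [vdim_split (kerA_linv (dsum A B)) (kerA_closed (dsum A B)) L hLe]
  rw [← hK, ← hK0, h1, vdim_split hK0l hK0c R hRe, h2, h3, A1_vdim_bot]
  ring

end

end Pool.Agent.H80R2.BC
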