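import Pool.Agent.H80R2.BC.Defs

set_option autoImplicit false

/-! Further definitions: direct sums, the groups `Hn n`, single elements. -/

namespace Pool.Agent.H80R2.BC

open scoped ENNReal
open Module

/-- block diagonal sum -/
noncomputable def dsum {κ ι κ' ι' G : Type} (A : GMat κ ι G) (B : GMat κ' ι' G) :
    GMat (κ ⊕ κ') (ι ⊕ ι') G :=
  Sum.elim (fun k => Sum.elim (A k) 0) (fun k => Sum.elim 0 (B k))

/-- the system `x(gh) = χ(h) x(g)`, `h ∈ H` -/
noncomputable def chi {H : Type} [Group H] (χ : H → ℂ) : GMat H Unit H :=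
  fun h _ => Finsupp.single h 1 - Finsupp.single 1 (χ h)

/-- the cyclic shift of order `n` on `{±1}^(ZMod n)`, iterated `k` times -/
def shiftV (n : ℕ) (k : ℤ) : MulAut (ZMod n → ℤˣ) where
  toFun v := fun i => v (i + (k : ZMod n))
  invFun v := fun i => v (i - (k : ZMod n))
  left_inv v := by funext i; simp
  right_inv v := by funext i; simp
  map_mul' _ _ := rfl

/-- the action of `ℤ` on `{±1}^(ZMod n)` by cyclic shifts -/
def shiftHom (n : ℕ) : Multiplicative ℤ →* MulAut (ZMod n → ℤˣ) where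
  toFun k := shiftV n k.toAdd
  map_one' := by
    ext v i
    simp [shiftV]
  map_mul' a b := by
    ext v i
    simp only [shiftV, toAdd_mul, Int.cast_add, MulEquiv.coe_mk, Equiv.coe_fn_mk,
      MulAut.mul_apply, add_assoc]

/-- the group `(ℤ/2)^n ⋊ ℤ`, with `ℤ` acting by cyclic shifts -/
abbrev Hn (n : ℕ) : Type := (ZMod n → ℤˣ) ⋊[shiftHom n] Multiplicative ℤ

end Pool.Agent.H80R2.BC
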