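import Pool.Agent.H80R2.BC.Step2

set_option autoImplicit false
set_option linter.unusedSectionVars false

/-! Linearisation and induction: from `R` to `ℂ`. -/

namespace Pool.Agent.H80R2.BC

open scoped ENNReal
open Module

section
variable {ι κ G : Type} [Group G] [Fintype ι] [Fintype κ]

theorem act_eq (A : GMat κ ι G) (x : ι × G → ℂ) (k : κ) (g : G) :
    act A x k g = ∑ i, Finsupp.linearCombination ℂ (fun h => x (i, g * h)) (A k i) := by
  simp only [act, Finsupp.linearCombination_apply, smul_eq_mul]

theorem mem_kerA (A : GMat κ ι G) (x : L2 (ι × G)) : x ∈ kerA A ↔ ∀ k g, act A x k g = 0 := Iff.rfl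

theorem vdim_bot : vdim (⊥ : Submodule ℂ (L2 (ι × G))) = 0 := by
  classical
  unfold vdim
  refine Finset.sum_eq_zero fun i _ => ?_
  rw [Submodule.bot_coe, Metric.infDist_singleton, dist_zero_right]
  have : ‖dl G i‖ = 1 := by
    unfold dl
    rw [lp.norm_single (by norm_num)]
    exact norm_one
  rw [this]
  norm_num

theorem exists_poly (R : Subring ℂ) (z c : ℂ)
    (hc : c ∈ Subring.closure ((R : Set ℂ) ∪ {z})) :
    ∃ p : Polynomial R, p.eval₂ R.subtype z = c := by
  have : Subring.closure ((R : Set ℂ) ∪ {z}) ≤ (Polynomial.eval₂RingHom R.subtype z).range := by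
    rw [Subring.closure_le]
    rintro x (hx | hx)
    · exact ⟨Polynomial.C ⟨x, hx⟩, by simp⟩
    · rw [Set.mem_singleton_iff] at hx
      subst hx
      exact ⟨Polynomial.X, by simp⟩
  obtain ⟨p, hp⟩ := this hc
  exact ⟨p, hp⟩

theorem coef_poly (R : Subring ℂ) (z : ℂ) (A : GMat κ ι G)
    (hA : Coef (Subring.closure ((R : Set ℂ) ∪ {z})) A) :
    ∃ (D : ℕ) (B : Fin (D + 1) → GMat κ ι G), (∀ s, Coef R (B s)) ∧
      ∀ k i, A k i = ∑ s : Fin (D + 1), z ^ (s : ℕ) • B s k i := by
  classical
  choose p hp using fun k i h => exists_poly R z (A k i h) (hA k i h)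
  obtain ⟨D, hD⟩ : ∃ D : ℕ, ∀ k i, ∀ h ∈ (A k i).support, (p k i h).natDegree ≤ D := by
    refine ⟨Finset.univ.sup fun k => Finset.univ.sup fun i =>
      (A k i).support.sup fun h => (p k i h).natDegree, fun k i h hh => ?_⟩
    refine le_trans (Finset.le_sup (f := fun h => (p k i h).natDegree) hh) ?_
    refine le_trans (Finset.le_sup (f := fun i => (A k i).support.sup fun h =>
      (p k i h).natDegree) (Finset.mem_univ i)) ?_
    exact Finset.le_sup (f := fun k => Finset.univ.sup fun i => (A k i).support.sup fun h =>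
      (p k i h).natDegree) (Finset.mem_univ k)
  refine ⟨D, fun s k i => Finsupp.onFinset (A k i).support
    (fun h => if h ∈ (A k i).support then ((p k i h).coeff s : ℂ) else 0) ?_, ?_, ?_⟩
  · intro h hh
    by_contra hcon
    exact hh (if_neg hcon)
  · intro s k i h
    rw [Finsupp.onFinset_apply]
    split_ifs
    · exact ((p k i h).coeff s).2
    · exact R.zero_mem
  · intro k i
    ext h
    rw [Finsupp.finsetSum_apply]
    simp only [Finsupp.smul_apply, Finsupp.onFinset_apply, smul_eq_mul]
    by_cases hh : h ∈ (A k i).support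
    · simp only [if_pos hh]
      rw [← hp k i h, Polynomial.eval₂_eq_sum_range' R.subtype
        (Nat.lt_succ_of_le (hD k i h hh)) z, Finset.sum_range]
      exact Finset.sum_congr rfl fun s _ => mul_comm _ _
    · simp only [if_neg hh, mul_zero, Finset.sum_const_zero]
      exact Finsupp.notMem_support_iff.mp hh

open Classical in
/-- constant part of the linearisation -/
noncomputable def lin0 {D : ℕ} (B : Fin (D + 1) → GMat κ ι G) :
    GMat ((ι × Fin D) ⊕ κ) (ι × Fin (D + 1)) G :=
  Sum.elim (fun a p => if p = (a.1, a.2.succ) then Finsupp.single 1 1 else 0)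
    (fun k p => B p.2 k p.1)

open Classical in
/-- linear part of the linearisation -/
noncomputable def lin1 (κ ι G : Type) [Group G] (D : ℕ) :
    GMat ((ι × Fin D) ⊕ κ) (ι × Fin (D + 1)) G :=
  Sum.elim (fun a p => if p = (a.1, a.2.castSucc) then Finsupp.single 1 (-1) else 0)
    (fun _ _ => 0)

theorem coef_lin0 (R : Subring ℂ) {D : ℕ} (B : Fin (D + 1) → GMat κ ι G)
    (hB : ∀ s, Coef R (B s)) : Coef R (lin0 B) := by
  rintro (a | k) p h
  · simp only [lin0, Sum.elim_inl]
    split_ifs
    · exact coef_single R _ _ _ R.one_mem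
    · exact R.zero_mem
  · exact hB _ _ _ _

theorem coef_lin1 (R : Subring ℂ) (D : ℕ) : Coef R (lin1 κ ι G D) := by
  rintro (a | k) p h
  · simp only [lin1, Sum.elim_inl]
    split_ifs
    · exact coef_single R _ _ _ (R.neg_mem R.one_mem)
    · exact R.zero_mem
  · exact R.zero_mem

theorem act_lin_inl {D : ℕ} (B : Fin (D + 1) → GMat κ ι G) (z : ℂ) (x : (ι × Fin (D + 1)) × G → ℂ)
    (a : ι × Fin D) (g : G) :
    act (pen (lin0 B) (lin1 κ ι G D) z) x (Sum.inl a) g =
      x ((a.1, a.2.succ), g) - z * x ((a.1, a.2.castSucc), g) := by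
  classical
  rw [act_eq]
  simp only [pen, lin0, lin1, Sum.elim_inl, map_add, map_smul]
  rw [Finset.sum_add_distrib, sub_eq_add_neg]
  congr 1
  · rw [Finset.sum_eq_single (a.1, a.2.succ)]
    · rw [if_pos rfl, Finsupp.linearCombination_single, one_smul, mul_one]
    · intro b _ hb
      rw [if_neg hb, map_zero]
    · intro h
      exact absurd (Finset.mem_univ _) h
  · rw [Finset.sum_eq_single (a.1, a.2.castSucc)]
    · rw [if_pos rfl, Finsupp.linearCombination_single, mul_one]
      simp
    · intro b _ hb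
      rw [if_neg hb, map_zero, smul_zero]
    · intro h
      exact absurd (Finset.mem_univ _) h

theorem act_lin_inr {D : ℕ} (B : Fin (D + 1) → GMat κ ι G) (z : ℂ) (A : GMat κ ι G)
    (hB : ∀ k i, A k i = ∑ s : Fin (D + 1), z ^ (s : ℕ) • B s k i) (x : (ι × Fin (D + 1)) × G → ℂ)
    (y : ι × G → ℂ) (hx : ∀ i s g, x ((i, s), g) = z ^ (s : ℕ) * y (i, g)) (k : κ) (g : G) :
    act (pen (lin0 B) (lin1 κ ι G D) z) x (Sum.inr k) g = act A y k g := by
  classical
  rw [act_eq, act_eq]
  simp only [pen, lin0, lin1, Sum.elim_inr, smul_zero, add_zero]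
  rw [Fintype.sum_prod_type]
  refine Finset.sum_congr rfl fun i _ => ?_
  rw [hB, map_sum]
  refine Finset.sum_congr rfl fun s _ => ?_
  rw [map_smul, Finsupp.linearCombination_apply, Finsupp.linearCombination_apply, Finsupp.sum,
    Finsupp.sum, Finset.smul_sum]
  refine Finset.sum_congr rfl fun h _ => ?_
  rw [hx]
  simp only [smul_eq_mul]
  ring

theorem dk_lin {D : ℕ} (B : Fin (D + 1) → GMat κ ι G) (z : ℂ) (A : GMat κ ι G)
    (hB : ∀ k i, A k i = ∑ s : Fin (D + 1), z ^ (s : ℕ) • B s k i) :
    dk (pen (lin0 B) (lin1 κ ι G D) z) = dk A := by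
  classical
  obtain ⟨T, hT, hT'⟩ := exists_rho (G := G)
    (fun (i : ι) (p : ι × Fin (D + 1)) => if p = (i, 0) then Finsupp.single (1 : G) (1 : ℂ) else 0)
  have hTx : ∀ x i g, T x (i, g) = x ((i, 0), g) := by
    intro x i g
    rw [hT', act_eq, Finset.sum_eq_single (i, 0)]
    · rw [if_pos rfl, Finsupp.linearCombination_single, one_smul, mul_one]
    · intro b _ hb
      rw [if_neg hb, map_zero]
    · intro h
      exact absurd (Finset.mem_univ _) h
  obtain ⟨V, hV, hV'⟩ := exists_rho (G := G)
    (fun (p : ι × Fin (D + 1)) (i : ι) => if i = p.1 then Finsupp.single (1 : G) (z ^ (p.2 : ℕ))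
      else 0)
  have hVx : ∀ x i s g, V x ((i, s), g) = z ^ (s : ℕ) * x (i, g) := by
    intro x i s g
    rw [hV', act_eq, Finset.sum_eq_single i]
    · rw [if_pos rfl, Finsupp.linearCombination_single, mul_one, smul_eq_mul]
    · intro b _ hb
      rw [if_neg hb, map_zero]
    · intro h
      exact absurd (Finset.mem_univ _) h
  -- elements of the kernel are geometric
  have hgeo : ∀ x ∈ kerA (pen (lin0 B) (lin1 κ ι G D) z), ∀ i (s : Fin (D + 1)) g,
      x ((i, s), g) = z ^ (s : ℕ) * x ((i, 0), g) := by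
    intro x hx i s g
    induction s using Fin.induction with
    | zero => simp
    | succ s ih =>
      have := hx (Sum.inl (i, s)) g
      rw [act_lin_inl] at this
      rw [sub_eq_zero.mp this, ih, Fin.val_succ, Fin.val_castSucc, pow_succ']
      ring
  unfold dk
  rw [vdim_split (kerA_linv _) (kerA_closed _) T hT]
  have hbot : kerA (pen (lin0 B) (lin1 κ ι G D) z) ⊓
      LinearMap.ker (T : L2 ((ι × Fin (D + 1)) × G) →ₗ[ℂ] L2 (ι × G)) = ⊥ := by
    rw [eq_bot_iff]
    rintro x ⟨hx, hx0⟩
    rw [Submodule.mem_bot]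
    have hx0' : T x = 0 := hx0
    refine lp.ext ?_
    funext p
    obtain ⟨⟨i, s⟩, g⟩ := p
    rw [hgeo x hx, ← hTx, hx0']
    simp
  have hmap : (kerA (pen (lin0 B) (lin1 κ ι G D) z)).map
      (T : L2 ((ι × Fin (D + 1)) × G) →ₗ[ℂ] L2 (ι × G)) = kerA A := by
    ext y
    constructor
    · rintro ⟨x, hx, rfl⟩
      intro k g
      rw [← act_lin_inr B z A hB x _ (fun i s g => ?_) k g]
      · exact hx _ _
      · show x ((i, s), g) = z ^ (s : ℕ) * T x (i, g)
        rw [hTx]
        exact hgeo x hx i s g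
    · intro hy
      refine ⟨V y, ?_, ?_⟩
      · rintro (a | k) g
        · rw [act_lin_inl, hVx, hVx, Fin.val_succ, Fin.val_castSucc, pow_succ']
          ring
        · rw [act_lin_inr B z A hB (V y) y (fun i s g => hVx y i s g) k g]
          exact hy k g
      · show T (V y) = y
        refine lp.ext ?_
        funext p
        obtain ⟨i, g⟩ := p
        rw [hTx, hVx]
        simp
  rw [hbot, hmap, vdim_bot, zero_add]

end

section
variable (C : (G : Type) → [Group G] → Prop)
    (hprod : ∀ (G H : Type) [Group G] [Group H], C G → C H → C (G × H))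
    (hfree : ∀ (G : Type) [Group G] (m : ℕ), C G → C (Monoid.Coprod G (FreeGroup (Fin m))))

include hprod hfree

theorem at_adjoin (R : Subring ℂ) (hAt : ∀ (G : Type) [Group G], C G → AtR R G) (z : ℂ)
    (G : Type) [Group G] (hC : C G) : AtR (Subring.closure ((R : Set ℂ) ∪ {z})) G := by
  intro d hd ht a n A hA
  obtain ⟨D, B, hB, hAB⟩ := coef_poly R z A hA
  rw [← dk_lin B z A hAB]
  exact pencil_any C hprod hfree R hAt hC d hd ht (lin0 B) (lin1 (Fin a) (Fin n) G D)
    (coef_lin0 R B hB) (coef_lin1 R D) z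

theorem at_finset (R : Subring ℂ) (hAt : ∀ (G : Type) [Group G], C G → AtR R G) (E : Finset ℂ) :
    ∀ (G : Type) [Group G], C G → AtR (Subring.closure ((R : Set ℂ) ∪ E)) G := by
  classical
  induction E using Finset.induction_on with
  | empty =>
    intro G _ hC
    rw [Finset.coe_empty, Set.union_empty, Subring.closure_eq]
    exact hAt G hC
  | insert z E _ ih =>
    intro G _ hC
    have := at_adjoin C hprod hfree _ ih z G hC
    have e : Subring.closure ((Subring.closure ((R : Set ℂ) ∪ E) : Set ℂ) ∪ {z}) =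
        Subring.closure ((R : Set ℂ) ∪ (insert z E : Finset ℂ)) := by
      rw [Subring.closure_union, Subring.closure_eq, ← Subring.closure_union, Finset.coe_insert,
        Set.insert_eq, Set.union_assoc, Set.union_comm {z} (E : Set ℂ)]
    rw [← e]
    exact this

/-- **Base change.** If all groups of a class closed under products and free products with free
groups of finite rank satisfy the strong Atiyah conjecture over a ring `R ⊆ ℂ`, then they satisfy it
over `ℂ`. -/
theorem base_change (R : Subring ℂ) (hAt : ∀ (G : Type) [Group G], C G → AtR R G)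
    (G : Type) [Group G] (hC : C G) : AtR ⊤ G := by
  classical
  intro d hd ht a n A _
  refine at_finset C hprod hfree R hAt (Finset.univ.biUnion fun k => Finset.univ.biUnion fun i =>
    (A k i).support.image (A k i)) G hC d hd ht a n A ?_
  intro k i h
  by_cases hh : h ∈ (A k i).support
  · refine Subring.subset_closure (Or.inr ?_)
    rw [Finset.mem_coe, Finset.mem_biUnion]
    refine ⟨k, Finset.mem_univ _, ?_⟩
    rw [Finset.mem_biUnion]
    exact ⟨i, Finset.mem_univ _, Finset.mem_image_of_mem _ hh⟩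
  · rw [Finsupp.notMem_support_iff.mp hh]
    exact Subring.zero_mem _

end

end Pool.Agent.H80R2.BC
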