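import Pool.Agent.H80R2.BC.DefsX
import Pool.Agent.H80R2.BC.Step3
import Pool.Agent.H80R2.BC.DSum
import Pool.Agent.H80R2.BC.Chi

set_option autoImplicit false
set_option linter.unusedSectionVars false

/-! A square matrix over `G` becomes a single element over `G × Hn n`. -/

namespace Pool.Agent.H80R2.BC

open scoped ENNReal
open Module

/-! ### torsion of `Hn n` -/

theorem X5_right_one (n : ℕ) (x : Hn n) (h : IsOfFinOrder x) : x.right = 1 := by
  obtain ⟨N, hN, hx⟩ := isOfFinOrder_iff_pow_eq_one.1 h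
  have h1 : (SemidirectProduct.rightHom x) ^ N = 1 := by
    rw [← map_pow, hx, map_one]
  have h2 : x.right ^ N = 1 := h1
  have h3 : (N : ℤ) * x.right.toAdd = 0 := by
    have := congrArg Multiplicative.toAdd h2
    simpa using this
  have h4 : x.right.toAdd = 0 := by
    rcases mul_eq_zero.1 h3 with h | h
    · exact absurd (by exact_mod_cast h) hN.ne'
    · exact h
  exact Multiplicative.toAdd.injective h4

theorem torDiv_Hn (n : ℕ) [NeZero n] : TorDiv (Hn n) (2 ^ n) := by
  intro F hF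
  have h1 : ∀ x ∈ F, x.right = 1 := by
    intro x hx
    refine X5_right_one n x ?_
    have : IsOfFinOrder (⟨x, hx⟩ : F) := isOfFinOrder_of_finite _
    exact (Submonoid.isOfFinOrder_coe (H := F.toSubmonoid) (x := ⟨x, hx⟩)).2 this
  have hcard : Nat.card F
      = Nat.card (F.comap (SemidirectProduct.inl : (ZMod n → ℤˣ) →* Hn n)) := by
    symm
    refine Nat.card_congr (Equiv.ofBijective (fun v => ⟨SemidirectProduct.inl v.1, v.2⟩) ⟨?_, ?_⟩)
    · intro v w hvw
      have := congrArg Subtype.val hvw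
      exact Subtype.ext (SemidirectProduct.inl_injective this)
    · intro x
      have hx : SemidirectProduct.inl x.1.left = x.1 := by
        apply SemidirectProduct.ext
        · simp
        · simp [h1 x.1 x.2]
      exact ⟨⟨x.1.left, by rw [Subgroup.mem_comap, hx]; exact x.2⟩, Subtype.ext hx⟩
  rw [hcard]
  have h2 := Subgroup.card_subgroup_dvd_card
    (F.comap (SemidirectProduct.inl : (ZMod n → ℤˣ) →* Hn n))
  have h3 : Nat.card (ZMod n → ℤˣ) = 2 ^ n := by
    rw [Nat.card_eq_fintype_card, Fintype.card_fun, ZMod.card]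
    simp
  rwa [h3] at h2

/-! ### operators on functions -/

section ops
variable {Γ : Type} [Group Γ]

/-- right translation of functions -/
noncomputable def X5r (x : Γ) : Module.End ℂ (Γ → ℂ) := LinearMap.funLeft ℂ ℂ (fun γ => γ * x)

theorem X5r_apply (x : Γ) (f : Γ → ℂ) (γ : Γ) : X5r x f γ = f (γ * x) := rfl

theorem X5r_mul (x y : Γ) : X5r x * X5r y = X5r (x * y) := by
  refine LinearMap.ext fun f => ?_
  funext γ
  simp only [Module.End.mul_apply, X5r_apply, mul_assoc]

theorem X5r_one : X5r (1 : Γ) = 1 := by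
  refine LinearMap.ext fun f => ?_
  funext γ
  simp only [X5r_apply, mul_one, Module.End.one_apply]

/-- the operator of a group algebra element -/
noncomputable def X5P : (Γ →₀ ℂ) →ₗ[ℂ] Module.End ℂ (Γ → ℂ) :=
  Finsupp.linearCombination ℂ (fun h : Γ => X5r h)

theorem X5P_apply (a : Γ →₀ ℂ) (f : Γ → ℂ) (γ : Γ) :
    X5P a f γ = Finsupp.linearCombination ℂ (fun h => f (γ * h)) a := by
  simp only [X5P, Finsupp.linearCombination_apply, Finsupp.sum, LinearMap.sum_apply,
    Finset.sum_apply, LinearMap.smul_apply, Pi.smul_apply, X5r_apply]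

end ops

section main
variable {n : ℕ} [NeZero n] {G : Type} [Group G]

/-- the characters -/
def X5c (i : ZMod n) (v : ZMod n → ℤˣ) : ℂ := ((v i : ℤˣ) : ℤ)

theorem X5c_mul (i : ZMod n) (v w : ZMod n → ℤˣ) : X5c i (v * w) = X5c i v * X5c i w := by
  simp [X5c]

theorem X5c_sq (i : ZMod n) (v : ZMod n → ℤˣ) : X5c i v * X5c i v = 1 := by
  rcases Int.units_eq_one_or (v i) with h | h <;> simp [X5c, h]

theorem X5c_norm (i : ZMod n) (v : ZMod n → ℤˣ) : ‖X5c i v‖ = 1 := by
  rcases Int.units_eq_one_or (v i) with h | h <;> simp [X5c, h]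

theorem X5_orth (i j : ZMod n) :
    ∑ v : ZMod n → ℤˣ, X5c i v * X5c j v = if i = j then (2 : ℂ) ^ n else 0 := by
  split_ifs with h
  · subst h
    simp only [X5c_sq, Finset.sum_const, nsmul_eq_mul, mul_one]
    rw [Finset.card_univ, Fintype.card_fun, ZMod.card]
    simp
  · set w : ZMod n → ℤˣ := Function.update 1 i (-1) with hw
    have h1 : ∑ v : ZMod n → ℤˣ, X5c i v * X5c j v
        = ∑ v : ZMod n → ℤˣ, X5c i (w * v) * X5c j (w * v) :=
      (Fintype.sum_equiv (Equiv.mulLeft w) _ _ (fun v => rfl)).symm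
    have h2 : X5c i w = -1 := by simp [X5c, hw]
    have h3 : X5c j w = 1 := by
      simp [X5c, hw, Function.update_of_ne (Ne.symm h)]
    simp only [X5c_mul, h2, h3] at h1
    have h4 : ∑ v : ZMod n → ℤˣ, X5c i v * X5c j v
        = -∑ v : ZMod n → ℤˣ, X5c i v * X5c j v := by
      nth_rw 1 [h1]
      rw [← Finset.sum_neg_distrib]
      refine Finset.sum_congr rfl fun v _ => ?_
      ring
    have h5 : (2 : ℂ) * ∑ v : ZMod n → ℤˣ, X5c i v * X5c j v = 0 := by linear_combination h4
    simpa using h5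

/-- `(1, inl v)` -/
def X5v (G : Type) [Group G] (v : ZMod n → ℤˣ) : G × Hn n := (1, SemidirectProduct.inl v)

/-- `(1, inr k)` -/
def X5k (n : ℕ) (G : Type) [Group G] (k : ℤ) : G × Hn n :=
  (1, SemidirectProduct.inr (Multiplicative.ofAdd k))

theorem X5v_mul (v w : ZMod n → ℤˣ) : X5v G v * X5v G w = X5v G (v * w) := by
  simp [X5v, Prod.mk_mul_mk]

theorem X5k_add (k l : ℤ) : X5k n G k * X5k n G l = X5k n G (k + l) := by
  simp [X5k, Prod.mk_mul_mk, ofAdd_add]

theorem X5k_zero : X5k n G 0 = 1 := by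
  simp [X5k]

theorem X5_comm (v : ZMod n → ℤˣ) (k : ℤ) :
    X5k n G k * X5v G v = X5v G (shiftV n k v) * X5k n G k := by
  simp only [X5k, X5v, Prod.mk_mul_mk, one_mul]
  refine Prod.ext rfl ?_
  have h : (SemidirectProduct.inl (shiftV n k v) : Hn n)
      = SemidirectProduct.inr (Multiplicative.ofAdd k) * SemidirectProduct.inl v
        * SemidirectProduct.inr (Multiplicative.ofAdd k)⁻¹ :=
    SemidirectProduct.inl_aut (φ := shiftHom n) (Multiplicative.ofAdd k) v
  show (SemidirectProduct.inr (Multiplicative.ofAdd k) * SemidirectProduct.inl v : Hn n)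
    = SemidirectProduct.inl (shiftV n k v) * SemidirectProduct.inr (Multiplicative.ofAdd k)
  rw [h, mul_assoc, ← map_mul, inv_mul_cancel, map_one, mul_one]

/-- the projections (up to a factor) -/
noncomputable def X5E (G : Type) [Group G] (i : ZMod n) : Module.End ℂ (G × Hn n → ℂ) :=
  ∑ v : ZMod n → ℤˣ, X5c i v • X5r (X5v G v)

theorem X5_vE (i : ZMod n) (w : ZMod n → ℤˣ) : X5r (X5v G w) * X5E G i = X5c i w • X5E G i := by
  unfold X5E
  rw [Finset.mul_sum, Finset.smul_sum]
  rw [← Equiv.sum_comp (Equiv.mulLeft w) (fun v => X5c i w • (X5c i v • X5r (X5v G v)))]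
  refine Finset.sum_congr rfl fun v _ => ?_
  rw [mul_smul_comm, X5r_mul, X5v_mul, Equiv.coe_mulLeft, X5c_mul, smul_smul, ← mul_assoc,
    X5c_sq, one_mul]

theorem X5_EE (i j : ZMod n) :
    X5E G i * X5E G j = (if i = j then (2 : ℂ) ^ n else 0) • X5E G j := by
  rw [← X5_orth, Finset.sum_smul]
  conv_lhs => rw [X5E, Finset.sum_mul]
  refine Finset.sum_congr rfl fun v _ => ?_
  rw [smul_mul_assoc, X5_vE, smul_smul]

theorem X5_Ek (i : ZMod n) (k : ℤ) :
    X5E G i * X5r (X5k n G k) = X5r (X5k n G k) * X5E G (i + (k : ZMod n)) := by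
  unfold X5E
  rw [Finset.mul_sum, Finset.sum_mul]
  rw [← Equiv.sum_comp (shiftV n k).toEquiv (fun v => X5c i v • X5r (X5v G v) * X5r (X5k n G k))]
  refine Finset.sum_congr rfl fun v _ => ?_
  rw [smul_mul_assoc, X5r_mul, mul_smul_comm, X5r_mul, X5_comm]
  rfl

/-- the operator of an element of `ℂG` -/
noncomputable def X5A (n : ℕ) {G : Type} [Group G] (a : G →₀ ℂ) :
    Module.End ℂ (G × Hn n → ℂ) :=
  Finsupp.linearCombination ℂ (fun g : G => X5r ((g, 1) : G × Hn n)) a

theorem X5A_comm (a : G →₀ ℂ) (t : Hn n) :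
    X5A n a * X5r ((1, t) : G × Hn n) = X5r ((1, t) : G × Hn n) * X5A n a := by
  unfold X5A
  rw [Finsupp.linearCombination_apply, Finsupp.sum, Finset.mul_sum, Finset.sum_mul]
  refine Finset.sum_congr rfl fun g _ => ?_
  rw [smul_mul_assoc, mul_smul_comm, X5r_mul, X5r_mul]
  simp [Prod.mk_mul_mk]

theorem X5A_E (a : G →₀ ℂ) (i : ZMod n) : X5A n a * X5E G i = X5E G i * X5A n a := by
  unfold X5E
  rw [Finset.mul_sum, Finset.sum_mul]
  refine Finset.sum_congr rfl fun v _ => ?_
  rw [smul_mul_assoc, mul_smul_comm, X5v, X5A_comm]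

theorem X5A_k (a : G →₀ ℂ) (k : ℤ) : X5A n a * X5r (X5k n G k) = X5r (X5k n G k) * X5A n a :=
  X5A_comm _ _

/-- the index difference -/
def X5d (i j : ZMod n) : ℤ := (j.val : ℤ) - i.val

theorem X5d_cast (i j : ZMod n) : i + ((X5d i j : ℤ) : ZMod n) = j := by
  simp [X5d]

/-- the operator of the element -/
noncomputable def X5B (A : GMat (ZMod n) (ZMod n) G) : Module.End ℂ (G × Hn n → ℂ) :=
  (2 : ℂ) ^ n • 1 - ∑ i, X5E G i
    + ∑ i, ∑ j, X5A n (A i j) * X5E G i * X5r (X5k n G (X5d i j))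

/-- the components of a function -/
noncomputable def X5y (G : Type) [Group G] (i : ZMod n) : Module.End ℂ (G × Hn n → ℂ) :=
  X5E G 0 * X5r (X5k n G i.val)

theorem X5y_eq (i : ZMod n) : X5y G i = X5r (X5k n G i.val) * X5E G i := by
  rw [X5y, X5_Ek]
  simp

theorem X5k_back (i : ZMod n) : X5r (X5k n G (-(i.val : ℤ))) * X5y G i = X5E G i := by
  rw [X5y_eq, ← mul_assoc, X5r_mul, X5k_add, neg_add_cancel, X5k_zero, X5r_one, one_mul]

theorem X5_pow_ne : ((2 : ℂ) ^ n) ≠ 0 := pow_ne_zero _ two_ne_zero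

/-- the equations satisfied by the kernel of the element -/
theorem X5_ker (A : GMat (ZMod n) (ZMod n) G) (f : G × Hn n → ℂ) :
    X5B A f = 0 ↔ ((2 : ℂ) ^ n • f = ∑ i, X5E G i f) ∧
      ∀ i, ∑ j, X5A n (A i j) (X5y G j f) = 0 := by
  have hEt : ∀ i j, X5E G i * X5r (X5k n G (X5d i j)) = X5r (X5k n G (X5d i j)) * X5E G j := by
    intro i j
    rw [X5_Ek, X5d_cast]
  have hsum : ∀ i, (∑ j, X5A n (A i j) (X5E G i (X5r (X5k n G (X5d i j)) f)))
      = X5r (X5k n G (-(i.val : ℤ))) (∑ j, X5A n (A i j) (X5y G j f)) := by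
    intro i
    rw [map_sum]
    refine Finset.sum_congr rfl fun j _ => ?_
    rw [← Module.End.mul_apply (X5E G i), hEt, ← Module.End.mul_apply,
      ← Module.End.mul_apply (X5r _) (X5A n _), ← X5A_k, ← Module.End.mul_apply, X5y_eq]
    congr 1
    rw [mul_assoc, ← mul_assoc (X5r (X5k n G (-(i.val : ℤ)))), X5r_mul, X5k_add]
    congr 4
    unfold X5d
    ring
  have hB : X5B A f = (2 : ℂ) ^ n • f - ∑ i, X5E G i f
      + ∑ i, ∑ j, X5A n (A i j) (X5E G i (X5r (X5k n G (X5d i j)) f)) := by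
    simp only [X5B, LinearMap.add_apply, LinearMap.sub_apply, LinearMap.smul_apply,
      LinearMap.sum_apply, Module.End.mul_apply, Module.End.one_apply]
  constructor
  · intro h
    have h2 : ∀ k, ∑ j, X5A n (A k j) (X5E G k (X5r (X5k n G (X5d k j)) f)) = 0 := by
      intro k
      have h3 := congrArg (X5E G k) h
      rw [hB, map_add, map_sub, map_smul, map_sum, map_sum, map_zero] at h3
      have h4 : ∑ i, X5E G k (X5E G i f) = (2 : ℂ) ^ n • X5E G k f := by
        rw [Finset.sum_eq_single k]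
        · rw [← Module.End.mul_apply, X5_EE, if_pos rfl, LinearMap.smul_apply]
        · intro b _ hb
          rw [← Module.End.mul_apply, X5_EE, if_neg (Ne.symm hb), zero_smul,
            LinearMap.zero_apply]
        · intro h; exact absurd (Finset.mem_univ _) h
      have h5 : ∑ i, X5E G k (∑ j, X5A n (A i j) (X5E G i (X5r (X5k n G (X5d i j)) f)))
          = (2 : ℂ) ^ n • ∑ j, X5A n (A k j) (X5E G k (X5r (X5k n G (X5d k j)) f)) := by
        have h6 : ∀ i, X5E G k (∑ j, X5A n (A i j) (X5E G i (X5r (X5k n G (X5d i j)) f)))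
            = (if k = i then (2 : ℂ) ^ n else 0) •
              ∑ j, X5A n (A i j) (X5E G i (X5r (X5k n G (X5d i j)) f)) := by
          intro i
          rw [map_sum, Finset.smul_sum]
          refine Finset.sum_congr rfl fun j _ => ?_
          rw [← Module.End.mul_apply (X5E G k), ← X5A_E, Module.End.mul_apply,
            ← Module.End.mul_apply (X5E G k), X5_EE, LinearMap.smul_apply, map_smul]
        rw [Finset.sum_congr rfl fun i _ => h6 i, Finset.sum_eq_single k]
        · rw [if_pos rfl]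
        · intro b _ hb
          rw [if_neg (Ne.symm hb), zero_smul]
        · intro h; exact absurd (Finset.mem_univ _) h
      rw [h4, h5, sub_self, zero_add] at h3
      exact (smul_eq_zero.1 h3).resolve_left X5_pow_ne
    refine ⟨?_, fun i => ?_⟩
    · rw [hB, Finset.sum_congr rfl fun i _ => h2 i, Finset.sum_const_zero, add_zero] at h
      exact sub_eq_zero.1 h
    · have h3 := congrArg (X5r (X5k n G (i.val : ℤ))) (hsum i)
      rw [h2 i, map_zero, ← Module.End.mul_apply, X5r_mul, X5k_add, add_neg_cancel, X5k_zero,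
        X5r_one, Module.End.one_apply] at h3
      exact h3.symm
  · rintro ⟨h1, h2⟩
    rw [hB, h1, sub_self, zero_add]
    refine Finset.sum_eq_zero fun i _ => ?_
    rw [hsum, h2, map_zero]

theorem X5_act {κ ι Γ : Type} [Group Γ] [Fintype ι] (A : GMat κ ι Γ) (x : ι × Γ → ℂ) (k : κ)
    (g : Γ) : act A x k g = ∑ i, X5P (A k i) (fun γ => x (i, γ)) g := by
  simp only [act, X5P_apply, Finsupp.linearCombination_apply, smul_eq_mul]

theorem X5P_single {Γ : Type} [Group Γ] (h : Γ) (c : ℂ) :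
    X5P (Finsupp.single h c) = c • X5r h := by
  rw [X5P, Finsupp.linearCombination_single]

theorem X5P_map (a : G →₀ ℂ) (t : Hn n) :
    X5P (a.mapDomain (fun g => ((g, t) : G × Hn n))) = X5A n a * X5r ((1, t) : G × Hn n) := by
  rw [X5P, Finsupp.linearCombination_mapDomain, X5A, Finsupp.linearCombination_apply,
    Finsupp.linearCombination_apply, Finsupp.sum, Finsupp.sum, Finset.sum_mul]
  refine Finset.sum_congr rfl fun g _ => ?_
  rw [smul_mul_assoc, X5r_mul]
  simp [Prod.mk_mul_mk]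

/-- the element -/
noncomputable def X5b (A : GMat (ZMod n) (ZMod n) G) : GMat Unit Unit (G × Hn n) := fun _ _ =>
  Finsupp.single 1 ((2 : ℂ) ^ n) - ∑ i, ∑ v : ZMod n → ℤˣ, Finsupp.single (X5v G v) (X5c i v)
    + ∑ i, ∑ j, ∑ v : ZMod n → ℤˣ, X5c i v • (A i j).mapDomain
      (fun g => ((g, SemidirectProduct.inl v
        * SemidirectProduct.inr (Multiplicative.ofAdd (X5d i j))) : G × Hn n))

theorem X5P_b (A : GMat (ZMod n) (ZMod n) G) : X5P (X5b A () ()) = X5B A := by
  have hE : ∀ i : ZMod n, (∑ v : ZMod n → ℤˣ, X5c i v • X5r (X5v G v)) = X5E G i := fun _ => rfl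
  simp only [X5b, X5B, map_add, map_sub, map_sum, map_smul, X5P_single, X5P_map, X5r_one, hE]
  congr 1
  refine Finset.sum_congr rfl fun i _ => Finset.sum_congr rfl fun j _ => ?_
  rw [← hE, Finset.mul_sum, Finset.sum_mul]
  refine Finset.sum_congr rfl fun v _ => ?_
  rw [mul_smul_comm, smul_mul_assoc, mul_assoc, X5r_mul]
  simp [X5v, X5k, Prod.mk_mul_mk]

theorem X5b_coef (A : GMat (ZMod n) (ZMod n) G) (hA : Coef ⊥ A) : Coef ⊥ (X5b A) := by
  intro k i h
  have hc : ∀ (i : ZMod n) (v : ZMod n → ℤˣ), X5c i v ∈ (⊥ : Subring ℂ) :=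
    fun i v => intCast_mem _ _
  simp only [X5b, Finsupp.add_apply, Finsupp.sub_apply, Finsupp.finsetSum_apply,
    Finsupp.smul_apply, smul_eq_mul]
  refine add_mem (sub_mem ?_ ?_) ?_
  · exact coef_single _ _ _ _ (pow_mem (by exact_mod_cast natCast_mem (⊥ : Subring ℂ) 2) n)
  · exact sum_mem fun i _ => sum_mem fun v _ => coef_single _ _ _ _ (hc i v)
  · refine sum_mem fun i _ => sum_mem fun j _ => sum_mem fun v _ => mul_mem (hc i v) ?_
    exact coef_mapDomain _ _ (fun a b hab => (Prod.mk.inj hab).1) _ (hA i j) _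

/-- the matrix of the components -/
noncomputable def X5T (n : ℕ) [NeZero n] (G : Type) [Group G] : GMat (ZMod n) Unit (G × Hn n) :=
  fun i _ => ∑ v : ZMod n → ℤˣ, Finsupp.single (X5v G v * X5k n G i.val) (X5c 0 v)

theorem X5P_T (i : ZMod n) : X5P (X5T n G i ()) = X5y G i := by
  rw [X5T, X5y, X5E, map_sum, Finset.sum_mul]
  refine Finset.sum_congr rfl fun v _ => ?_
  rw [X5P_single, smul_mul_assoc, X5r_mul]

/-- the matrix of the section -/
noncomputable def X5S (n : ℕ) [NeZero n] (G : Type) [Group G] : GMat Unit (ZMod n) (G × Hn n) :=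
  fun _ i => Finsupp.single (X5k n G (-(i.val : ℤ))) (((2 : ℂ) ^ n)⁻¹)

/-- the system for the image of the kernel -/
noncomputable def X5W (A : GMat (ZMod n) (ZMod n) G) :
    GMat ((ZMod n × Unit) ⊕ (ZMod n × (ZMod n → ℤˣ))) (ZMod n) (G × Hn n) :=
  fun k i => ext A (push (SemidirectProduct.inl : (ZMod n → ℤˣ) →* Hn n)
    (chi (X5c (0 : ZMod n)))) ((Equiv.refl _) k) ((Equiv.prodPUnit (ZMod n)).symm i)

theorem X5W_dk (A : GMat (ZMod n) (ZMod n) G) : dk (X5W A) = dk A / 2 ^ n := by
  have h := dk_reindex ((Equiv.prodPUnit (ZMod n)).symm) (Equiv.refl _)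
    (ext A (push (SemidirectProduct.inl : (ZMod n → ℤˣ) →* Hn n) (chi (X5c (0 : ZMod n)))))
  have h' : dk (X5W A) = dk (ext A (push (SemidirectProduct.inl : (ZMod n → ℤˣ) →* Hn n)
    (chi (X5c (0 : ZMod n))))) := h
  rw [h', dk_ext, dk_push _ SemidirectProduct.inl_injective,
    dk_chi (X5c (0 : ZMod n)) (X5c_mul 0) (X5c_norm 0), Fintype.card_fun, ZMod.card]
  simp [div_eq_mul_inv]

theorem X5W_inl (A : GMat (ZMod n) (ZMod n) G) (y : ZMod n × (G × Hn n) → ℂ) (k : ZMod n)
    (γ : G × Hn n) : act (X5W A) y (Sum.inl (k, ())) γ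
      = (∑ j, X5A n (A k j) (fun γ => y (j, γ))) γ := by
  classical
  rw [X5_act, Finset.sum_apply]
  refine Finset.sum_congr rfl fun j _ => ?_
  have : X5W A (Sum.inl (k, ())) j = (A k j).mapDomain (fun g => ((g, 1) : G × Hn n)) := by
    simp [X5W, ext]
  rw [this, X5P_map]
  have h1 : X5r ((1, 1) : G × Hn n) = 1 := X5r_one
  rw [h1, mul_one]

theorem X5W_inr (A : GMat (ZMod n) (ZMod n) G) (y : ZMod n × (G × Hn n) → ℂ) (i : ZMod n)
    (v : ZMod n → ℤˣ) (γ : G × Hn n) : act (X5W A) y (Sum.inr (i, v)) γ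
      = X5r (X5v G v) (fun γ => y (i, γ)) γ - X5c 0 v * y (i, γ) := by
  classical
  rw [X5_act, Finset.sum_eq_single i]
  · have : X5W A (Sum.inr (i, v)) i
        = Finsupp.single (X5v G v) 1 - Finsupp.single 1 (X5c 0 v) := by
      have hchi : chi (X5c (0 : ZMod n)) v ()
          = Finsupp.single v 1 + Finsupp.single 1 (-(X5c 0 v)) := by
        simp [chi, sub_eq_add_neg, Finsupp.single_neg]
      simp only [X5W, ext, Equiv.refl_apply, Sum.elim_inr, Equiv.prodPUnit_symm_apply, if_true,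
        push]
      rw [hchi]
      simp only [Finsupp.mapDomain_add, Finsupp.mapDomain_single, map_one]
      rw [Finsupp.single_neg, ← sub_eq_add_neg]
      rfl
    rw [this, map_sub, X5P_single, X5P_single, X5r_one, one_smul]
    simp
  · intro b _ hb
    have : X5W A (Sum.inr (i, v)) b = 0 := by
      simp [X5W, ext, Ne.symm hb]
    rw [this]
    simp
  · intro h; exact absurd (Finset.mem_univ _) h

theorem X5_mem_W (A : GMat (ZMod n) (ZMod n) G) (y : L2 (ZMod n × (G × Hn n))) :
    y ∈ kerA (X5W A) ↔ (∀ k, ∑ j, X5A n (A k j) (fun γ => y (j, γ)) = 0) ∧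
      ∀ i v, X5r (X5v G v) (fun γ => y (i, γ)) = X5c 0 v • (fun γ => y (i, γ)) := by
  rw [mem_kerA]
  constructor
  · intro h
    refine ⟨fun k => ?_, fun i v => ?_⟩
    · funext γ
      rw [← X5W_inl]
      exact h _ _
    · funext γ
      have := h (Sum.inr (i, v)) γ
      rw [X5W_inr] at this
      exact sub_eq_zero.1 this
  · rintro ⟨h1, h2⟩ (⟨k, u⟩ | ⟨i, v⟩) γ
    · rw [X5W_inl, h1]; rfl
    · rw [X5W_inr, h2]
      simp

theorem X5_dk (A : GMat (ZMod n) (ZMod n) G) : dk (X5b A) = dk A / 2 ^ n := by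
  classical
  obtain ⟨T, hT, hT'⟩ := exists_rho (X5T n G)
  obtain ⟨V, hV, hV'⟩ := exists_rho (X5S n G)
  have hTx : ∀ (x : L2 (Unit × (G × Hn n))) (i : ZMod n),
      (fun γ => T x (i, γ)) = X5y G i (fun γ => x ((), γ)) := by
    intro x i
    funext γ
    rw [hT', X5_act, Fintype.sum_unique]
    exact congrFun (congrArg (fun L : Module.End ℂ (G × Hn n → ℂ) => L (fun γ => x ((), γ)))
      (X5P_T i)) γ
  have hVx : ∀ (y : L2 (ZMod n × (G × Hn n))),
      (fun γ => V y ((), γ)) = ((2 : ℂ) ^ n)⁻¹ • ∑ i : ZMod n,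
        X5r (X5k n G (-(i.val : ℤ))) (fun γ => y (i, γ)) := by
    intro y
    funext γ
    rw [hV', X5_act, Finset.smul_sum, Finset.sum_apply]
    refine Finset.sum_congr rfl fun i _ => ?_
    rw [X5S, X5P_single]
    rfl
  have hmem : ∀ x : L2 (Unit × (G × Hn n)), x ∈ kerA (X5b A) ↔
      X5B A (fun γ => x ((), γ)) = 0 := by
    intro x
    rw [mem_kerA]
    constructor
    · intro h
      funext γ
      have := h () γ
      rw [X5_act, Fintype.sum_unique] at this
      rw [← X5P_b]
      exact this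
    · intro h k γ
      rw [X5_act, Fintype.sum_unique]
      have h1 : X5P (X5b A k default) = X5B A := X5P_b A
      rw [h1]
      have := congrFun h γ
      exact this
  have hEy : ∀ (y : L2 (ZMod n × (G × Hn n))), y ∈ kerA (X5W A) → ∀ (m i : ZMod n),
      X5E G m (fun γ => y (i, γ)) = (if m = 0 then (2 : ℂ) ^ n else 0) • (fun γ => y (i, γ)) := by
    intro y hy m i
    rw [← X5_orth m 0, X5E, LinearMap.sum_apply, Finset.sum_smul]
    refine Finset.sum_congr rfl fun v _ => ?_
    rw [LinearMap.smul_apply, ((X5_mem_W A y).1 hy).2 i v, smul_smul]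
  unfold dk
  rw [vdim_split (kerA_linv _) (kerA_closed _) T hT]
  have hbot : kerA (X5b A) ⊓ LinearMap.ker
      (T : L2 (Unit × (G × Hn n)) →ₗ[ℂ] L2 (ZMod n × (G × Hn n))) = ⊥ := by
    rw [eq_bot_iff]
    rintro x ⟨hx, hx0⟩
    rw [Submodule.mem_bot]
    have hx0' : T x = 0 := hx0
    have h1 := ((X5_ker A _).1 ((hmem x).1 hx)).1
    have h2 : ∀ i : ZMod n, X5E G i (fun γ => x ((), γ)) = 0 := by
      intro i
      rw [← X5k_back, Module.End.mul_apply, ← hTx, hx0']
      funext γ
      simp [X5r_apply]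
    rw [Finset.sum_congr rfl fun i _ => h2 i, Finset.sum_const_zero] at h1
    have h3 := (smul_eq_zero.1 h1).resolve_left X5_pow_ne
    refine lp.ext ?_
    funext p
    obtain ⟨u, γ⟩ := p
    exact congrFun h3 γ
  have hmap : (kerA (X5b A)).map
      (T : L2 (Unit × (G × Hn n)) →ₗ[ℂ] L2 (ZMod n × (G × Hn n))) = kerA (X5W A) := by
    ext y
    constructor
    · rintro ⟨x, hx, rfl⟩
      have h1 := (X5_ker A _).1 ((hmem x).1 hx)
      refine (X5_mem_W A _).2 ⟨fun k => ?_, fun i v => ?_⟩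
      · refine Eq.trans (Finset.sum_congr rfl fun j _ => ?_) (h1.2 k)
        exact congrArg (X5A n (A k j)) (hTx x j)
      · have h2 : (fun γ => ((T : L2 (Unit × (G × Hn n)) →ₗ[ℂ] L2 (ZMod n × (G × Hn n))) x)
            (i, γ)) = X5y G i (fun γ => x ((), γ)) := hTx x i
        rw [h2, X5y, ← Module.End.mul_apply, ← mul_assoc, X5_vE, smul_mul_assoc,
          LinearMap.smul_apply]
    · intro hy
      have hf : ∀ k : ZMod n, X5E G k (fun γ => V y ((), γ))
          = X5r (X5k n G (-(k.val : ℤ))) (fun γ => y (k, γ)) := by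
        intro k
        rw [hVx, map_smul, map_sum, Finset.sum_eq_single k]
        · rw [← Module.End.mul_apply, X5_Ek, Module.End.mul_apply, hEy y hy, if_pos (by simp),
            map_smul, smul_smul, inv_mul_cancel₀ X5_pow_ne, one_smul]
        · intro b _ hb
          rw [← Module.End.mul_apply, X5_Ek, Module.End.mul_apply, hEy y hy, if_neg, zero_smul,
            map_zero]
          intro h
          apply hb
          have : k - b = 0 := by simpa [sub_eq_add_neg] using h
          exact (sub_eq_zero.1 this).symm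
        · intro h; exact absurd (Finset.mem_univ _) h
      have hyv : ∀ k : ZMod n, X5y G k (fun γ => V y ((), γ)) = (fun γ => y (k, γ)) := by
        intro k
        rw [X5y_eq, Module.End.mul_apply, hf, ← Module.End.mul_apply, X5r_mul, X5k_add,
          add_neg_cancel, X5k_zero, X5r_one, Module.End.one_apply]
      refine ⟨V y, ?_, ?_⟩
      · refine (hmem _).2 ((X5_ker A _).2 ⟨?_, fun i => ?_⟩)
        · rw [Finset.sum_congr rfl fun i _ => hf i, hVx, smul_smul, mul_inv_cancel₀ X5_pow_ne,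
            one_smul]
        · rw [Finset.sum_congr rfl fun j _ => congrArg (X5A n (A i j)) (hyv j)]
          exact ((X5_mem_W A y).1 hy).1 i
      · show T (V y) = y
        refine lp.ext ?_
        funext p
        obtain ⟨i, γ⟩ := p
        exact congrFun ((hTx (V y) i).trans (hyv i)) γ
  rw [hbot, hmap, vdim_bot, zero_add]
  exact X5W_dk A

theorem exists_elem (n : ℕ) [NeZero n] {G : Type} [Group G] (A : GMat (ZMod n) (ZMod n) G)
    (hA : Coef ⊥ A) :
    ∃ B : GMat Unit Unit (G × Hn n), Coef ⊥ B ∧ dk B = dk A / 2 ^ n :=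
  ⟨X5b A, X5b_coef A hA, X5_dk A⟩

end main

end Pool.Agent.H80R2.BC
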