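import Pool.Agent.H80R2.BC.Gap

set_option autoImplicit false
set_option linter.unusedSectionVars false

/-! Translation to right multiplication kernels. -/

namespace Pool.Agent.H80R2.BC

open scoped ENNReal
open Module

section
variable {G : Type} [Group G]

/-- right multiplication matrix as a left acting matrix -/
noncomputable def flipM {m n : ℕ} (A : Matrix (Fin m) (Fin n) (G →₀ ℂ)) :
    GMat (Fin n) (Fin m) G := fun j i => (A i j).mapDomain (fun h => h⁻¹)

theorem act_flipM {m n : ℕ} (A : Matrix (Fin m) (Fin n) (G →₀ ℂ)) (x : Fin m × G → ℂ) (j : Fin n)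
    (g : G) : act (flipM A) x j g = ∑ i' : Fin m, (A i' j).sum (fun h c => x (i', g * h⁻¹) * c) := by
  unfold act flipM
  refine Finset.sum_congr rfl fun i _ => ?_
  rw [Finsupp.sum_mapDomain_index_inj inv_injective]
  exact Finset.sum_congr rfl fun h _ => mul_comm _ _

open Classical in
/-- the frozen form of the kernel dimension -/
noncomputable def kerDim' (G : Type) [Group G] {m n : ℕ}
    (A : Matrix (Fin m) (Fin n) (G →₀ ℂ)) : ℝ :=
  ∑ i : Fin m, (1 - (Metric.infDist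
    (lp.single 2 (i, (1 : G)) (1 : ℂ) : lp (fun _ : Fin m × G => ℂ) 2)
    {x : lp (fun _ : Fin m × G => ℂ) 2 | ∀ (j : Fin n) (g : G),
      ∑ i' : Fin m, (A i' j).sum (fun h c => x (i', g * h⁻¹) * c) = 0}) ^ 2)

theorem kerDim'_eq {m n : ℕ} (A : Matrix (Fin m) (Fin n) (G →₀ ℂ)) :
    kerDim' G A = dk (flipM A) := by
  unfold kerDim' dk vdim
  refine Finset.sum_congr rfl fun i _ => ?_
  have h1 : {x : lp (fun _ : Fin m × G => ℂ) 2 | ∀ (j : Fin n) (g : G),
      ∑ i' : Fin m, (A i' j).sum (fun h c => x (i', g * h⁻¹) * c) = 0} =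
      (kerA (flipM A) : Set (L2 (Fin m × G))) := by
    ext x
    constructor
    · intro h j g
      rw [act_flipM]
      exact h j g
    · intro h j g
      rw [← act_flipM]
      exact h j g
  rw [h1]
  congr 3
  unfold dl
  congr
  exact Subsingleton.elim _ _

/-- every left acting matrix comes from right multiplication -/
theorem flipM_surj {m n : ℕ} (B : GMat (Fin n) (Fin m) G) :
    flipM (fun i j => (B j i).mapDomain (fun h => h⁻¹)) = B := by
  funext j i
  unfold flipM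
  rw [← Finsupp.mapDomain_comp]
  have : ((fun h : G => h⁻¹) ∘ fun h => h⁻¹) = id := by
    funext h
    simp
  rw [this, Finsupp.mapDomain_id]

theorem lcm_pos (d : ℕ) (h1 : ∃ N : ℕ, ∀ H : Subgroup G, Finite H → Nat.card H ≤ N)
    (h3 : ∀ e : ℕ, (∀ H : Subgroup G, Finite H → Nat.card H ∣ e) → d ∣ e) : 0 < d := by
  obtain ⟨N, hN⟩ := h1
  have h := h3 N.factorial (fun H hH => Nat.dvd_factorial Nat.card_pos (hN H hH))
  rcases Nat.eq_zero_or_pos d with h0 | h0
  · rw [h0, zero_dvd_iff] at h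
    exact absurd h N.factorial_ne_zero
  · exact h0

theorem bdd_of_lcm {d : ℕ} (hd : 0 < d) (h : TorDiv G d) :
    ∃ N : ℕ, ∀ H : Subgroup G, Finite H → Nat.card H ≤ N :=
  ⟨d, fun H hH => Nat.le_of_dvd hd (h H hH)⟩

theorem coef_bot {κ ι : Type} (B : GMat κ ι G) (hB : Coef ⊥ B) (k : κ) (i : ι) :
    ∃ a : G →₀ ℤ, B k i = a.mapRange (fun c : ℤ => (c : ℂ)) Int.cast_zero := by
  classical
  choose f hf using fun h => Subring.mem_bot.mp (hB k i h)
  refine ⟨Finsupp.onFinset (B k i).support (fun h => if h ∈ (B k i).support then f h else 0) ?_, ?_⟩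
  · intro h hh
    by_contra hcon
    exact hh (if_neg hcon)
  · ext h
    rw [Finsupp.mapRange_apply, Finsupp.onFinset_apply]
    split_ifs with hh
    · exact (hf h).symm
    · rw [Int.cast_zero]
      exact Finsupp.notMem_support_iff.mp hh

end

/-- an element of the integral group ring as a matrix -/
noncomputable def elem' {G : Type} (a : G →₀ ℤ) : Matrix (Fin 1) (Fin 1) (G →₀ ℂ) :=
  fun _ _ => a.mapRange (fun c : ℤ => (c : ℂ)) Int.cast_zero

theorem final_elem (ε : ℝ) (hε : 0 < ε)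
    (hgap : ∀ (G : Type) [Group G] (d : ℕ),
      (∃ N : ℕ, ∀ H : Subgroup G, Finite H → Nat.card H ≤ N) →
      (∀ H : Subgroup G, Finite H → Nat.card H ∣ d) →
      (∀ e : ℕ, (∀ H : Subgroup G, Finite H → Nat.card H ∣ e) → d ∣ e) → ∀ a : G →₀ ℤ,
      ¬ (0 < (d : ℝ) * kerDim' G (elem' a) ∧ (d : ℝ) * kerDim' G (elem' a) < ε))
    (G : Type) [Group G] (d : ℕ)
    (h1 : ∃ N : ℕ, ∀ H : Subgroup G, Finite H → Nat.card H ≤ N)
    (h2 : ∀ H : Subgroup G, Finite H → Nat.card H ∣ d)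
    (h3 : ∀ e : ℕ, (∀ H : Subgroup G, Finite H → Nat.card H ∣ e) → d ∣ e)
    (m n : ℕ) (A : Matrix (Fin m) (Fin n) (G →₀ ℂ)) :
    ∃ z : ℤ, (d : ℝ) * kerDim' G A = z := by
  rw [kerDim'_eq]
  refine gap_at_top (fun _ _ => True) (fun _ _ _ _ _ _ => trivial) (fun _ _ _ _ => trivial) ⊥ ε hε
    (fun G _ _ d hd hd' t ht => gap_elem ε ?_ G d hd hd' t ht) G trivial d (lcm_pos d h1 h3) h2
    n m (flipM A) (fun _ _ _ => Subring.mem_top _)
  intro G _ d hd hd' b hb
  -- transfer to `Fin 1`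
  have hr : dk (fun (_ : Fin 1) (_ : Fin 1) => b () ()) = dk b :=
    dk_reindex (Equiv.ofUnique (Fin 1) Unit) (Equiv.ofUnique (Fin 1) Unit) b
  have hb' : Coef ⊥ (fun (_ : Fin 1) (_ : Fin 1) => (b () ()).mapDomain (fun h => h⁻¹) :
      GMat (Fin 1) (Fin 1) G) := fun _ _ _ => coef_mapDomain ⊥ _ inv_injective _ (hb _ _) _
  obtain ⟨a, ha⟩ := coef_bot _ hb' 0 0
  have hk : kerDim' G (elem' a) = dk b := by
    rw [kerDim'_eq, ← hr]
    have h5 : elem' a = (fun _ _ => (b () ()).mapDomain (fun h => h⁻¹)) := by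
      funext i j
      exact ha.symm
    rw [h5]
    exact congrArg dk (flipM_surj (fun (_ : Fin 1) (_ : Fin 1) => b () ()))
  have h := hgap G d (bdd_of_lcm hd hd'.1) hd'.1 hd'.2 a
  rw [hk] at h
  have hdR : (0 : ℝ) < d := by exact_mod_cast hd
  rcases (vdim_nonneg (kerA b)).eq_or_lt with h0 | h0
  · exact Or.inl h0.symm
  · right
    by_contra hlt
    exact h ⟨mul_pos hdR h0, not_le.mp hlt⟩

end Pool.Agent.H80R2.BC
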