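import Pool.Agent.H80R2.BC.Gap2

set_option autoImplicit false
set_option linter.unusedSectionVars false

/-! Final forms of the dichotomies. -/

namespace Pool.Agent.H80R2.BC

open scoped ENNReal
open Module

/-- the orders of the finite subgroups are bounded and `d` is their least common multiple -/
def IsLcmB (G : Type) [Group G] (d : ℕ) : Prop :=
  (∃ N : ℕ, ∀ H : Subgroup G, Finite H → Nat.card H ≤ N) ∧
  (∀ H : Subgroup G, Finite H → Nat.card H ∣ d) ∧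
  ∀ e : ℕ, (∀ H : Subgroup G, Finite H → Nat.card H ∣ e) → d ∣ e

theorem isLcmB_iff {G : Type} [Group G] {d : ℕ} : IsLcmB G d ↔ 0 < d ∧ IsLcm' G d :=
  ⟨fun h => ⟨lcm_pos d h.1 h.2.2, h.2⟩, fun h => ⟨bdd_of_lcm h.1 h.2.1, h.2⟩⟩

/-- transfer of single elements -/
theorem elem_transfer {G : Type} [Group G] (b : GMat Unit Unit G) (hb : Coef ⊥ b) :
    ∃ a : G →₀ ℤ, kerDim' G (elem' a) = dk b := by
  have hr : dk (fun (_ : Fin 1) (_ : Fin 1) => b () ()) = dk b :=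
    dk_reindex (Equiv.ofUnique (Fin 1) Unit) (Equiv.ofUnique (Fin 1) Unit) b
  have hb' : Coef ⊥ (fun (_ : Fin 1) (_ : Fin 1) => (b () ()).mapDomain (fun h => h⁻¹) :
      GMat (Fin 1) (Fin 1) G) := fun _ _ _ => coef_mapDomain ⊥ _ inv_injective _ (hb _ _) _
  obtain ⟨a, ha⟩ := coef_bot _ hb' 0 0
  refine ⟨a, ?_⟩
  rw [kerDim'_eq, ← hr]
  have h5 : elem' a = (fun _ _ => (b () ()).mapDomain (fun h => h⁻¹)) := by
    funext i j
    exact ha.symm
  rw [h5]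
  exact congrArg dk (flipM_surj (fun (_ : Fin 1) (_ : Fin 1) => b () ()))

theorem final_dich_elem (s t : ℝ) (hs : 0 ≤ s) (hst : s < t)
    (h : ∀ (G : Type) [Group G], Group.FG G → ∀ d, IsLcmB G d → ∀ a : G →₀ ℤ,
      ¬ (s < (d : ℝ) * kerDim' G (elem' a) ∧ (d : ℝ) * kerDim' G (elem' a) < t))
    (G : Type) [Group G] (d : ℕ) (hd : IsLcmB G d)
    (m n : ℕ) (A : Matrix (Fin m) (Fin n) (G →₀ ℂ)) :
    ∃ z : ℤ, (d : ℝ) * kerDim' G A = z := by
  rw [kerDim'_eq]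
  obtain ⟨hd1, hd2⟩ := isLcmB_iff.mp hd
  refine gap_at_top (fun _ _ => True) (fun _ _ _ _ _ _ => trivial) (fun _ _ _ _ => trivial) ⊥
    (t - s) (by linarith)
    (fun G _ _ d hd hd' t' ht' => gap_elem (t - s) (dich_elem s t hs ?_) G d hd hd' t' ht')
    G trivial d hd1 hd2.1 n m (flipM A) (fun _ _ _ => Subring.mem_top _)
  intro G _ hfg d hd hd' b hb
  obtain ⟨a, ha⟩ := elem_transfer b hb
  rw [← ha]
  exact h G hfg d (isLcmB_iff.mpr ⟨hd, hd'⟩) a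

theorem final_dich_class (C : (G : Type) → [Group G] → Prop)
    (hprod : ∀ (G H : Type) [Group G] [Group H], C G → C H → C (G × H))
    (hfree : ∀ (G : Type) [Group G] (m : ℕ), C G → C (Monoid.Coprod G (FreeGroup (Fin m))))
    (s t : ℝ) (hs : 0 ≤ s) (hst : s < t)
    (h : ∀ (G : Type) [Group G], C G → ∀ d, IsLcmB G d →
      ∀ (m n : ℕ) (A : Matrix (Fin m) (Fin n) (G →₀ ℂ)), (∀ i j g, ∃ c : ℤ, A i j g = c) →
      ¬ (s < (d : ℝ) * kerDim' G A ∧ (d : ℝ) * kerDim' G A < t))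
    (G : Type) [Group G] (hC : C G) (d : ℕ) (hd : IsLcmB G d)
    (m n : ℕ) (A : Matrix (Fin m) (Fin n) (G →₀ ℂ)) :
    ∃ z : ℤ, (d : ℝ) * kerDim' G A = z := by
  rw [kerDim'_eq]
  obtain ⟨hd1, hd2⟩ := isLcmB_iff.mp hd
  refine gap_at_top C hprod hfree ⊥ (t - s) (by linarith) (dich_mat C ⊥ s t hs ?_)
    G hC d hd1 hd2.1 n m (flipM A) (fun _ _ _ => Subring.mem_top _)
  intro G _ hC d hd hd' x hx
  obtain ⟨a, n, B, hB, rfl⟩ := hx
  let A' : Matrix (Fin n) (Fin a) (G →₀ ℂ) := fun i j => (B j i).mapDomain (fun h => h⁻¹)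
  have e : dk B = kerDim' G A' := by
    rw [kerDim'_eq]
    exact (congrArg dk (flipM_surj B)).symm
  rw [e]
  refine h G hC d (isLcmB_iff.mpr ⟨hd, hd'⟩) _ _ _ ?_
  intro i j g
  have := coef_mapDomain ⊥ (fun h : G => h⁻¹) inv_injective (B j i) (hB j i) g
  rw [Subring.mem_bot] at this
  obtain ⟨c, hc⟩ := this
  exact ⟨c, hc.symm⟩

end Pool.Agent.H80R2.BC
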