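import Mathlib

set_option autoImplicit false

/-!
# Discrete submonoids of the real numbers
-/

namespace Pool.Agent.H80R2.BC

theorem submonoid_neg (M : AddSubmonoid ℝ) (h1 : (1 : ℝ) ∈ M) (h2 : (-1 : ℝ) ∈ M) (ε : ℝ)
    (hε : 0 < ε) (hgap : ∀ x ∈ M, x ≤ 0 ∨ ε ≤ x) {x : ℝ} (hx : x ∈ M) : -x ∈ M := by
  have hint : ∀ j : ℤ, (j : ℝ) ∈ M := by
    intro j
    rcases Int.eq_nat_or_neg j with ⟨n, rfl | rfl⟩
    · have := M.nsmul_mem h1 n
      simpa using this
    · have := M.nsmul_mem h2 n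
      simpa using this
  obtain ⟨n, hn⟩ := exists_nat_gt (1 / ε)
  have hn0 : (0 : ℝ) < n := lt_trans (by positivity) hn
  have hn' : 0 < n := by exact_mod_cast hn0
  obtain ⟨j, k, hk0, -, hjk⟩ := Real.exists_int_int_abs_mul_sub_le x hn'
  have hlt : (1 : ℝ) / (n + 1) < ε := by
    rw [div_lt_iff₀ (by positivity)]
    rw [div_lt_iff₀ hε] at hn
    nlinarith
  obtain ⟨m, rfl⟩ : ∃ m : ℕ, k = m + 1 := ⟨(k - 1).toNat, by omega⟩
  have hkm : ((((m : ℤ) + 1 : ℤ) : ℝ)) = (m : ℝ) + 1 := by push_cast; rfl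
  rw [hkm] at hjk
  set y : ℝ := ((m : ℝ) + 1) * x - j with hy
  have hyM : y ∈ M := by
    have h3 := M.nsmul_mem hx (m + 1)
    have h4 := M.add_mem h3 (hint (-j))
    have h5 : (m + 1) • x + ((-j : ℤ) : ℝ) = y := by
      rw [hy, nsmul_eq_mul]
      push_cast
      ring
    rwa [h5] at h4
  have hyabs : |y| < ε := hjk.trans_lt hlt
  have hy0 : y = 0 := by
    rcases lt_trichotomy y 0 with h | h | h
    · exfalso
      have hs0 : 0 < -y := by linarith
      have hsε : -y < ε := by rwa [abs_of_neg h] at hyabs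
      set r : ℕ := ⌊1 / (-y)⌋₊ with hr
      have hr1 : (r : ℝ) ≤ 1 / (-y) := Nat.floor_le (by positivity)
      have hr2 : 1 / (-y) < r + 1 := Nat.lt_floor_add_one _
      rw [le_div_iff₀ hs0] at hr1
      rw [div_lt_iff₀ hs0] at hr2
      have hmem : ∀ t : ℕ, (t : ℝ) * y + 1 ∈ M := by
        intro t
        have h3 := M.add_mem (M.nsmul_mem hyM t) h1
        rwa [nsmul_eq_mul] at h3
      have h3 : (r : ℝ) * y + 1 = 0 := by
        rcases hgap _ (hmem r) with h4 | h4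
        · linarith
        · nlinarith
      have hr0 : r ≠ 0 := by
        intro h4
        rw [h4] at h3
        simp at h3
      obtain ⟨t, ht⟩ := Nat.exists_eq_succ_of_ne_zero hr0
      have h4 := hmem t
      have h5 : (t : ℝ) * y + 1 = -y := by
        rw [ht] at h3
        push_cast at h3
        linarith
      rw [h5] at h4
      rcases hgap _ h4 with h6 | h6
      · linarith
      · linarith
    · exact h
    · exfalso
      rw [abs_of_pos h] at hyabs
      rcases hgap _ hyM with h6 | h6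
      · linarith
      · linarith
  have h6 := M.add_mem (M.nsmul_mem hx m) (hint (-j))
  have h7 : m • x + ((-j : ℤ) : ℝ) = -x := by
    rw [hy0] at hy
    rw [nsmul_eq_mul]
    push_cast
    linarith
  rwa [h7] at h6

theorem submonoid_gap (M : AddSubmonoid ℝ) (h1 : (1 : ℝ) ∈ M) (h2 : (-1 : ℝ) ∈ M) (ε : ℝ)
    (hε : 0 < ε) (hgap : ∀ x ∈ M, x ≤ 0 ∨ ε ≤ x) :
    ∃ c : ℕ, 0 < c ∧ (1 / c : ℝ) ∈ M ∧ ∀ x ∈ M, ∃ z : ℤ, x = z / c := by
  let G : AddSubgroup ℝ :=
    { M with neg_mem' := fun {x} hx => submonoid_neg M h1 h2 ε hε hgap hx }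
  have hG : ∀ x, x ∈ G ↔ x ∈ M := fun x => Iff.rfl
  have hbot : G ≠ ⊥ := by
    intro h
    have h3 : (1 : ℝ) ∈ G := h1
    rw [h, AddSubgroup.mem_bot] at h3
    norm_num at h3
  have hd : Disjoint (G : Set ℝ) (Set.Ioo 0 ε) := by
    rw [Set.disjoint_left]
    intro x hx hx2
    rcases hgap x hx with h3 | h3
    · exact absurd hx2.1 (not_lt.2 h3)
    · exact absurd hx2.2 (not_lt.2 h3)
  obtain ⟨g, hg⟩ := AddSubgroup.exists_isLeast_pos hbot hε hd
  have hcyc := AddSubgroup.cyclic_of_min hg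
  have hg0 : 0 < g := hg.1.2
  have h3 : (1 : ℝ) ∈ G := h1
  rw [hcyc, AddSubgroup.mem_closure_singleton] at h3
  obtain ⟨z, hz⟩ := h3
  rw [zsmul_eq_mul] at hz
  have hz0 : 0 < z := by
    have : (0 : ℝ) < z := by
      by_contra hcon
      rw [not_lt] at hcon
      nlinarith
    exact_mod_cast this
  obtain ⟨c, rfl⟩ := Int.eq_ofNat_of_zero_le hz0.le
  have hc0 : 0 < c := by exact_mod_cast hz0
  have hcr : (0 : ℝ) < c := by exact_mod_cast hc0
  have hgc : g = 1 / c := by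
    rw [eq_div_iff hcr.ne', mul_comm]
    simpa using hz
  refine ⟨c, hc0, ?_, fun x hx => ?_⟩
  · rw [← hgc]
    exact (hG g).1 hg.1.1
  · have h4 : x ∈ G := hx
    rw [hcyc, AddSubgroup.mem_closure_singleton] at h4
    obtain ⟨w, hw⟩ := h4
    refine ⟨w, ?_⟩
    rw [← hw, hgc, zsmul_eq_mul]
    ring

end Pool.Agent.H80R2.BC
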