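import Pool.Agent.H80R2.BC.DefsX
import Pool.Agent.H80R2.BC.Act

set_option autoImplicit false

/-!
`ker (A* A) = ker A` (task X4).
-/

namespace Pool.Agent.H80R2.BC

open scoped ENNReal InnerProductSpace
open Module

section
variable {ι κ G : Type} [Group G] [Fintype ι] [Fintype κ]

omit [Fintype κ] in
theorem X4_act_eq (A : GMat κ ι G) (x : ι × G → ℂ) (k : κ) (g : G) :
    act A x k g = ∑ i, Finsupp.linearCombination ℂ (fun h => x (i, g * h)) (A k i) := by
  simp only [act, Finsupp.linearCombination_apply, smul_eq_mul]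

/-- the formal adjoint of a matrix with real coefficients -/
noncomputable def X4_star (A : GMat κ ι G) : GMat ι κ G :=
  fun i k => (A k i).mapDomain (fun h => h⁻¹)

omit [Fintype ι] in
theorem X4_star_act (A : GMat κ ι G) (y : κ × G → ℂ) (i : ι) (g : G) :
    act (X4_star A) y i g = ∑ k, (A k i).sum (fun h c => c * y (k, g * h⁻¹)) := by
  unfold act X4_star
  refine Finset.sum_congr rfl fun k _ => ?_
  rw [Finsupp.sum_mapDomain_index]
  · intro b; rw [zero_mul]
  · intro b m₁ m₂; rw [add_mul]

open Classical in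
theorem X4_T_single (A : GMat κ ι G) (T : L2 (ι × G) →L[ℂ] L2 (κ × G))
    (hT : ∀ x k g, T x (k, g) = act A x k g) (i : ι) (g0 : G) :
    T (lp.single 2 (i, g0) (1 : ℂ)) =
      ∑ k, (A k i).sum (fun h c => c • (lp.single 2 (k, g0 * h⁻¹) (1 : ℂ) : L2 (κ × G))) := by
  have hev : ∀ (p : κ × G) (s : Finset κ) (f : κ → L2 (κ × G)),
      (∑ k ∈ s, f k : L2 (κ × G)) p = ∑ k ∈ s, f k p := by
    intro p s f
    rw [lp.coeFn_sum, Finset.sum_apply]
  have hev2 : ∀ (p : κ × G) (s : Finset G) (f : G → L2 (κ × G)),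
      (∑ k ∈ s, f k : L2 (κ × G)) p = ∑ k ∈ s, f k p := by
    intro p s f
    rw [lp.coeFn_sum, Finset.sum_apply]
  apply lp.ext
  funext p
  obtain ⟨k', g'⟩ := p
  rw [hT, hev]
  have e1 : ∀ k, ((A k i).sum (fun h c => c • (lp.single 2 (k, g0 * h⁻¹) (1 : ℂ) : L2 (κ × G))) :
      L2 (κ × G)) (k', g') =
      if k = k' then (A k i).sum (fun h c => c * (if g' * h = g0 then 1 else 0)) else 0 := by
    intro k
    unfold Finsupp.sum
    rw [hev2]
    split_ifs with hk
    · refine Finset.sum_congr rfl fun h _ => ?_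
      rw [lp.coeFn_smul, Pi.smul_apply, smul_eq_mul]
      congr 1
      split_ifs with hg
      · have : ((k', g') : κ × G) = (k, g0 * h⁻¹) := by rw [hk, ← hg, mul_inv_cancel_right]
        rw [this]
        exact lp.single_apply_self _ _ _
      · apply lp.single_apply_ne
        intro hc
        apply hg
        have := congrArg Prod.snd hc
        simp only at this
        rw [this, inv_mul_cancel_right]
    · refine Finset.sum_eq_zero fun h _ => ?_
      rw [lp.coeFn_smul, Pi.smul_apply, smul_eq_mul]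
      rw [lp.single_apply_ne, mul_zero]
      intro hc
      exact hk (congrArg Prod.fst hc).symm
  simp only [e1]
  rw [Finset.sum_ite_eq' Finset.univ k', if_pos (Finset.mem_univ _)]
  unfold act
  rw [Finset.sum_eq_single i]
  · unfold Finsupp.sum
    refine Finset.sum_congr rfl fun h _ => ?_
    beta_reduce
    congr 1
    split_ifs with hg
    · rw [hg]
      exact lp.single_apply_self _ _ _
    · apply lp.single_apply_ne
      intro hc
      exact hg (congrArg Prod.snd hc)
  · intro j _ hj
    unfold Finsupp.sum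
    refine Finset.sum_eq_zero fun h _ => ?_
    beta_reduce
    have h0 : (lp.single 2 (i, g0) (1 : ℂ) : L2 (ι × G)) (j, g' * h) = 0 := by
      apply lp.single_apply_ne
      intro hc
      exact hj (congrArg Prod.fst hc)
    exact mul_eq_zero_of_right _ h0
  · intro hc
    exact absurd (Finset.mem_univ _) hc

theorem X4_bot {z : ℂ} (hz : z ∈ (⊥ : Subring ℂ)) : (starRingEnd ℂ) z = z := by
  rw [Subring.mem_bot] at hz
  obtain ⟨n, rfl⟩ := hz
  exact map_intCast _ n

theorem X4_adj (A : GMat κ ι G) (hA : Coef ⊥ A) (T : L2 (ι × G) →L[ℂ] L2 (κ × G))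
    (hT : ∀ x k g, T x (k, g) = act A x k g) (S : L2 (κ × G) →L[ℂ] L2 (ι × G))
    (hS : ∀ y i g, S y (i, g) = act (X4_star A) y i g) (y : L2 (κ × G)) :
    ContinuousLinearMap.adjoint T y = S y := by
  classical
  apply lp.ext
  funext p
  obtain ⟨i, g0⟩ := p
  have h1 : (ContinuousLinearMap.adjoint T y : L2 (ι × G)) (i, g0) =
      ⟪(lp.single 2 (i, g0) (1 : ℂ) : L2 (ι × G)), ContinuousLinearMap.adjoint T y⟫_ℂ := by
    rw [lp.inner_single_left]
    simp
  rw [h1, ContinuousLinearMap.adjoint_inner_right, X4_T_single A T hT, hS, X4_star_act,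
    sum_inner]
  refine Finset.sum_congr rfl fun k _ => ?_
  unfold Finsupp.sum
  rw [sum_inner]
  refine Finset.sum_congr rfl fun h _ => ?_
  rw [inner_smul_left, lp.inner_single_left, X4_bot (hA k i h)]
  simp

/-- the product of `A*` and `A` -/
noncomputable def X4_sq (A : GMat κ ι G) : GMat ι ι G := fun i j =>
  ∑ k, (X4_star A i k).sum (fun g c => (A k j).sum (fun h d => Finsupp.single (g * h) (c * d)))

theorem X4_sq_act (A : GMat κ ι G) (x : ι × G → ℂ) (i : ι) (g : G) :
    act (X4_sq A) x i g = act (X4_star A) (fun p => act A x p.1 p.2) i g := by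
  rw [X4_act_eq, X4_act_eq]
  unfold X4_sq
  simp only [map_sum]
  rw [Finset.sum_comm]
  refine Finset.sum_congr rfl fun k _ => ?_
  rw [Finsupp.linearCombination_apply]
  have e : ∀ j, Finsupp.linearCombination ℂ (fun h => x (j, g * h))
      ((X4_star A i k).sum (fun g c => (A k j).sum (fun h d => Finsupp.single (g * h) (c * d)))) =
      (X4_star A i k).sum (fun g' c => (A k j).sum (fun h d => c * d * x (j, g * (g' * h)))) := by
    intro j
    rw [map_finsuppSum]
    unfold Finsupp.sum
    refine Finset.sum_congr rfl fun g' _ => ?_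
    beta_reduce
    rw [map_sum]
    refine Finset.sum_congr rfl fun h _ => ?_
    rw [Finsupp.linearCombination_single, smul_eq_mul]
  simp only [e]
  unfold Finsupp.sum
  rw [Finset.sum_comm]
  refine Finset.sum_congr rfl fun g' _ => ?_
  beta_reduce
  rw [smul_eq_mul]
  unfold act Finsupp.sum
  rw [Finset.mul_sum]
  refine Finset.sum_congr rfl fun j _ => ?_
  rw [Finset.mul_sum]
  refine Finset.sum_congr rfl fun h _ => ?_
  beta_reduce
  rw [mul_assoc g g' h]
  ring

omit [Fintype ι] [Fintype κ] in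
theorem X4_coef_star {R : Subring ℂ} {A : GMat κ ι G} (hA : Coef R A) : Coef R (X4_star A) := by
  classical
  intro i k h
  unfold X4_star
  rw [Finsupp.mapDomain, Finsupp.sum_apply]
  unfold Finsupp.sum
  refine Subring.sum_mem _ fun g _ => ?_
  beta_reduce
  rw [Finsupp.single_apply]
  split_ifs
  · exact hA k i g
  · exact R.zero_mem

omit [Fintype ι] in
theorem X4_coef_sq {R : Subring ℂ} {A : GMat κ ι G} (hA : Coef R A) : Coef R (X4_sq A) := by
  classical
  intro i j h
  unfold X4_sq
  rw [Finsupp.finsetSum_apply]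
  refine Subring.sum_mem _ fun k _ => ?_
  unfold Finsupp.sum
  rw [Finsupp.finsetSum_apply]
  refine Subring.sum_mem _ fun g _ => ?_
  rw [Finsupp.finsetSum_apply]
  refine Subring.sum_mem _ fun g' _ => ?_
  rw [Finsupp.single_apply]
  split_ifs
  · exact R.mul_mem (X4_coef_star hA i k g) (hA k j g')
  · exact R.zero_mem

end

theorem exists_square {κ ι G : Type} [Group G] [Fintype κ] [Fintype ι] (A : GMat κ ι G)
    (hA : Coef ⊥ A) : ∃ B : GMat ι ι G, Coef ⊥ B ∧ kerA B = kerA A := by
  refine ⟨X4_sq A, X4_coef_sq hA, ?_⟩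
  obtain ⟨T, -, hT⟩ := exists_rho A
  obtain ⟨S, -, hS⟩ := exists_rho (X4_star A)
  apply le_antisymm
  · intro x hx
    have h1 : S (T x) = 0 := by
      apply lp.ext
      funext p
      obtain ⟨i, g⟩ := p
      rw [hS, lp.coeFn_zero, Pi.zero_apply]
      have h2 := hx i g
      rw [X4_sq_act] at h2
      rw [← h2]
      congr 1
      funext p
      exact hT x p.1 p.2
    have h3 : ⟪T x, T x⟫_ℂ = 0 := by
      rw [← ContinuousLinearMap.adjoint_inner_left, X4_adj A hA T hT S hS, h1, inner_zero_left]
    have h4 : T x = 0 := inner_self_eq_zero.mp h3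
    intro k g
    rw [← hT, h4, lp.coeFn_zero]
    rfl
  · intro x hx i g
    rw [X4_sq_act]
    have h1 : (fun p : κ × G => act A x p.1 p.2) = 0 := by
      funext p
      exact hx p.1 p.2
    rw [h1]
    exact act_zero _ _ _

end Pool.Agent.H80R2.BC
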