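import Pool.Agent.H80R2.BC.Step3
import Pool.Agent.H80R2.BC.DSum
import Pool.Agent.H80R2.BC.Chi
import Pool.Agent.H80R2.BC.Mon
import Pool.Agent.H80R2.BC.Star
import Pool.Agent.H80R2.BC.Elem

set_option autoImplicit false
set_option linter.unusedSectionVars false

/-! A gap for the kernel dimensions implies the strong Atiyah conjecture. -/

namespace Pool.Agent.H80R2.BC

open scoped ENNReal
open Module

/-- kernel dimensions of finite matrices over `R G` -/
def DimSet (R : Subring ℂ) (G : Type) [Group G] : Set ℝ :=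
  {t | ∃ (a n : ℕ) (A : GMat (Fin a) (Fin n) G), Coef R A ∧ dk A = t}

section
variable {R : Subring ℂ} {G : Type} [Group G]

theorem mem_dim {κ ι : Type} [Fintype κ] [Fintype ι] (A : GMat κ ι G) (hA : Coef R A) :
    dk A ∈ DimSet R G :=
  ⟨Fintype.card κ, Fintype.card ι,
    (fun k i => A ((Fintype.equivFin κ).symm k) ((Fintype.equivFin ι).symm i)),
    (fun _ _ _ => hA _ _ _), dk_reindex (Fintype.equivFin ι).symm (Fintype.equivFin κ).symm A⟩

theorem dim_nonneg {t : ℝ} (ht : t ∈ DimSet R G) : 0 ≤ t := by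
  obtain ⟨a, n, A, _, rfl⟩ := ht
  exact vdim_nonneg _

theorem dim_zero : (0 : ℝ) ∈ DimSet R G := by
  refine ⟨0, 0, fun _ _ => 0, fun k => k.elim0, ?_⟩
  simp [dk, vdim]

theorem dim_one : (1 : ℝ) ∈ DimSet R G := by
  have h : dk (fun (k : Fin 0) (_ : Unit) => (0 : G →₀ ℂ)) = 1 := by
    unfold dk
    have : kerA (fun (k : Fin 0) (_ : Unit) => (0 : G →₀ ℂ)) = ⊤ := by
      rw [eq_top_iff]
      intro x _ k
      exact k.elim0
    rw [this, vdim_top]
    simp
  rw [← h]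
  exact mem_dim _ (fun k => k.elim0)

theorem dim_add {s t : ℝ} (hs : s ∈ DimSet R G) (ht : t ∈ DimSet R G) : s + t ∈ DimSet R G := by
  obtain ⟨a, n, A, hA, rfl⟩ := hs
  obtain ⟨b, m, B, hB, rfl⟩ := ht
  rw [← dk_dsum]
  refine mem_dim _ ?_
  rintro (k | k) (i | i) h
  · exact hA _ _ _
  · exact R.zero_mem
  · exact R.zero_mem
  · exact hB _ _ _

theorem dim_mul {H : Type} [Group H] {s t : ℝ} (hs : s ∈ DimSet R G) (ht : t ∈ DimSet R H) :
    s * t ∈ DimSet R (G × H) := by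
  obtain ⟨a, n, A, hA, rfl⟩ := hs
  obtain ⟨b, m, B, hB, rfl⟩ := ht
  rw [← dk_ext]
  exact mem_dim _ (coef_ext R A B hA hB)

theorem dim_subgroup (H : Subgroup G) (hH : Finite H) : (1 / Nat.card H : ℝ) ∈ DimSet R G := by
  classical
  have := Fintype.ofFinite H
  have h := dk_chi (H := H) (fun _ => 1) (fun _ _ => by simp) (fun _ => by simp)
  rw [Nat.card_eq_fintype_card, ← h, ← dk_push H.subtype H.subtype_injective]
  refine mem_dim _ ?_
  intro k i g
  refine coef_mapDomain R _ H.subtype_injective _ (fun g' => ?_) _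
  rw [chi, Finsupp.sub_apply]
  exact R.sub_mem (coef_single R _ _ _ R.one_mem) (coef_single R _ _ _ R.one_mem)

theorem pt_bot {ι μ : Type} : (pt (⊥ : Submodule ℂ (μ → ℂ)) : Submodule ℂ (L2 ((ι × μ) × G))) = ⊥ := by
  rw [eq_bot_iff]
  intro x hx
  rw [Submodule.mem_bot]
  refine lp.ext ?_
  funext p
  obtain ⟨⟨i, j⟩, g⟩ := p
  have h := hx i g
  rw [Submodule.mem_bot] at h
  have := congrFun h j
  simpa using this

theorem pt_top {ι μ : Type} : (pt (⊤ : Submodule ℂ (μ → ℂ)) : Submodule ℂ (L2 ((ι × μ) × G))) = ⊤ := by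
  rw [eq_top_iff]
  intro x _ p g
  exact Submodule.mem_top

theorem unit_sub (Φ : Submodule ℂ (Unit → ℂ)) : Φ = ⊥ ∨ Φ = ⊤ := by
  by_cases h : Φ = ⊥
  · exact Or.inl h
  · right
    obtain ⟨v, hv, hv0⟩ := (Submodule.ne_bot_iff _).mp h
    rw [eq_top_iff]
    intro w _
    have h1 : v () ≠ 0 := fun h => hv0 (funext fun _ => h)
    have : w = (w () / v ()) • v := by
      funext x
      simp [div_mul_cancel₀ _ h1]
    rw [this]
    exact Φ.smul_mem _ hv

theorem dim_sub {t : ℝ} (ht : t ∈ DimSet R G) (j : ℕ) (hj : (j : ℝ) ≤ t) :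
    ∃ m : ℕ, t - j ∈ DimSet R (Monoid.Coprod G (FreeGroup (Fin m))) := by
  obtain ⟨a, n, A, hA, rfl⟩ := ht
  set A' : GMat (Fin a) (Fin n × Unit) G := fun k p => A k p.1 with hA'
  have h1 : dk A' = dk A := by
    have := dk_reindex (Equiv.prodPUnit (Fin n)) (Equiv.refl (Fin a)) A
    exact this
  have h2 : Fintype.card (Fin n × Fin j) = n * j := by simp
  set e : Fin n × Fin j ≃ Fin (n * j) := Fintype.equivFinOfCardEq h2
  set u : Fin n → Fin j → Monoid.Coprod G (FreeGroup (Fin (n * j))) := fun p q =>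
    (Monoid.Coprod.inr : FreeGroup (Fin (n * j)) →* Monoid.Coprod G (FreeGroup (Fin (n * j))))
        (FreeGroup.of (e (p, q)))
  have hu := generic_coprod G (n * j) e
  have ht := tree j Monoid.Coprod.inl (inl_inj G (n * j)) u hu A'
  have hge := tree_ge j Monoid.Coprod.inl (inl_inj G (n * j)) u A' ⊤
  refine ⟨n * j, ?_⟩
  have hmem : dk (Cut Monoid.Coprod.inl u A') ∈
      DimSet R (Monoid.Coprod G (FreeGroup (Fin (n * j)))) :=
    mem_dim _ (coef_Cut R _ (inl_inj G _) _ _ (fun k p h => hA _ _ _))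
  have hfin : (finrank ℂ (⊤ : Submodule ℂ (Unit → ℂ)) : ℝ) = 1 := by simp
  have hdk : vdim (kerA A' ⊓ pt (⊤ : Submodule ℂ (Unit → ℂ))) = dk A := by
    rw [pt_top, inf_top_eq]
    exact h1
  rcases unit_sub (vals (kerA (Cut Monoid.Coprod.inl u A'))) with h | h
  · rw [h, pt_bot, inf_bot_eq, vdim_bot, finrank_bot] at ht
    rw [hdk, hfin] at hge
    have h0 : dk (Cut Monoid.Coprod.inl u A') = dk A - j := by
      unfold dk at hge ⊢
      rw [ht] at hge ⊢
      unfold dk at hj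
      norm_num at hge ⊢
      linarith
    rw [← h0]
    exact hmem
  · rw [h, hdk, hfin, mul_one] at ht
    rw [← ht]
    exact hmem

end

/-- `d` is the least common multiple of the orders of the finite subgroups -/
def IsLcm' (G : Type) [Group G] (d : ℕ) : Prop :=
  TorDiv G d ∧ ∀ e, TorDiv G e → d ∣ e

theorem exists_lcm (G : Type) [Group G] (e : ℕ) (he : 0 < e) (h : TorDiv G e) :
    ∃ d, 0 < d ∧ IsLcm' G d := by
  classical
  have hex : ∃ d, 0 < d ∧ TorDiv G d := ⟨e, he, h⟩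
  refine ⟨Nat.find hex, (Nat.find_spec hex).1, (Nat.find_spec hex).2, ?_⟩
  intro f hf
  have h1 : TorDiv G (Nat.gcd (Nat.find hex) f) :=
    fun H hH => Nat.dvd_gcd ((Nat.find_spec hex).2 H hH) (hf H hH)
  have h2 : 0 < Nat.gcd (Nat.find hex) f := Nat.gcd_pos_of_pos_left _ (Nat.find_spec hex).1
  have h3 := Nat.find_min' hex ⟨h2, h1⟩
  have h4 : Nat.gcd (Nat.find hex) f = Nat.find hex :=
    le_antisymm (Nat.gcd_le_left _ (Nat.find_spec hex).1) h3
  rw [← h4]
  exact Nat.gcd_dvd_right _ _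

section
variable (C : (G : Type) → [Group G] → Prop)
    (hprod : ∀ (G H : Type) [Group G] [Group H], C G → C H → C (G × H))
    (hfree : ∀ (G : Type) [Group G] (m : ℕ), C G → C (Monoid.Coprod G (FreeGroup (Fin m))))

include hprod in
theorem exists_pow (R : Subring ℂ) (G : Type) [Group G] (hC : C G) (L : ℕ) (hL : TorDiv G L)
    (t : ℝ) (ht : t ∈ DimSet R G) (k : ℕ) :
    ∃ (H : Type) (_ : Group H), C H ∧ TorDiv H (L ^ (k + 1)) ∧ t ^ (k + 1) ∈ DimSet R H := by
  induction k with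
  | zero => exact ⟨G, _, hC, by simpa using hL, by simpa using ht⟩
  | succ k ih =>
    obtain ⟨H, _, h1, h2, h3⟩ := ih
    refine ⟨H × G, inferInstance, hprod _ _ h1 hC, ?_, ?_⟩
    · rw [pow_succ]
      exact torDiv_prod _ _ _ _ h2 hL
    · rw [pow_succ]
      exact dim_mul h3 ht

include hprod hfree

/-- **Gap theorem.** A gap for the normalised kernel dimensions over `R` implies the strong Atiyah
conjecture over `R`. -/
theorem gap_at (R : Subring ℂ) (ε : ℝ) (hε : 0 < ε)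
    (hgap : ∀ (G : Type) [Group G], C G → ∀ d, 0 < d → IsLcm' G d → ∀ t ∈ DimSet R G,
      t = 0 ∨ ε ≤ d * t) (G : Type) [Group G] (hC : C G) : AtR R G := by
  have gap2 : ∀ (G : Type) [Group G], C G → ∀ d, 0 < d → TorDiv G d → ∀ t ∈ DimSet R G,
      t = 0 ∨ ε ≤ d * t := by
    intro G _ hC d hd ht t htt
    obtain ⟨e, he, he'⟩ := exists_lcm G d hd ht
    rcases hgap G hC e he he' t htt with h | h
    · exact Or.inl h
    · right
      refine h.trans (mul_le_mul_of_nonneg_right ?_ (dim_nonneg htt))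
      exact_mod_cast Nat.le_of_dvd hd (he'.2 d ht)
  intro d hd ht
  obtain ⟨L, hL, hL'⟩ := exists_lcm G d hd ht
  suffices H : ∀ t ∈ DimSet R G, ∃ z : ℤ, (L : ℝ) * t = z by
    intro a n A hA
    obtain ⟨z, hz⟩ := H (dk A) ⟨a, n, A, hA, rfl⟩
    obtain ⟨q, hq⟩ := hL'.2 d ht
    refine ⟨q * z, ?_⟩
    rw [hq]
    push_cast
    rw [← hz]
    ring
  have hLR : (0 : ℝ) < L := by exact_mod_cast hL
  let M : AddSubmonoid ℝ :=
    { carrier := {x | ∃ t ∈ DimSet R G, ∃ j : ℕ, x = t - j}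
      zero_mem' := ⟨0, dim_zero, 0, by simp⟩
      add_mem' := by
        rintro x y ⟨s, hs, i, rfl⟩ ⟨t, ht, j, rfl⟩
        exact ⟨s + t, dim_add hs ht, i + j, by push_cast; ring⟩ }
  have hM : ∀ x, x ∈ M ↔ ∃ t ∈ DimSet R G, ∃ j : ℕ, x = t - j := fun x => Iff.rfl
  have hMD : ∀ x ∈ M, 0 ≤ x → ∃ m : ℕ, x ∈ DimSet R (Monoid.Coprod G (FreeGroup (Fin m))) := by
    intro x hx hx0
    obtain ⟨t, ht, j, rfl⟩ := (hM x).mp hx
    exact dim_sub ht j (by linarith)
  obtain ⟨c, hc, hc1, hcz⟩ := submonoid_gap M ((hM _).mpr ⟨1, dim_one, 0, by simp⟩)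
    ((hM _).mpr ⟨0, dim_zero, 1, by simp⟩) (ε / L) (div_pos hε hLR) (by
      intro x hx
      by_cases h0 : x ≤ 0
      · exact Or.inl h0
      · right
        rw [not_le] at h0
        obtain ⟨m, hm⟩ := hMD x hx h0.le
        rcases gap2 _ (hfree G m hC) L hL (torDiv_coprod G m L hL'.1) x hm with h | h
        · exact absurd h h0.ne'
        · rw [div_le_iff₀ hLR]
          linarith)
  have hcR : (0 : ℝ) < c := by exact_mod_cast hc
  have hLc : L ∣ c := by
    refine hL'.2 c fun H hH => ?_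
    obtain ⟨z, hz⟩ := hcz (1 / Nat.card H) ((hM _).mpr ⟨_, dim_subgroup H hH, 0, by simp⟩)
    have h1 : (0 : ℝ) < Nat.card H := by exact_mod_cast Nat.card_pos
    rw [div_eq_div_iff h1.ne' hcR.ne'] at hz
    have h2 : (c : ℤ) = z * Nat.card H := by exact_mod_cast (by linarith : (c : ℝ) = z * Nat.card H)
    exact_mod_cast (Dvd.intro_left z h2.symm : ((Nat.card H : ℕ) : ℤ) ∣ (c : ℤ))
  obtain ⟨q, hq⟩ := hLc
  have hqpos : 0 < q := by
    rcases Nat.eq_zero_or_pos q with h | h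
    · rw [h, mul_zero] at hq; omega
    · exact h
  have hq1 : q = 1 := by
    by_contra hne
    have hq2 : 2 ≤ q := by omega
    obtain ⟨m, hm⟩ := hMD _ hc1 (by positivity)
    have hbound : ∀ k : ℕ, ε ≤ (1 / 2 : ℝ) ^ (k + 1) := by
      intro k
      obtain ⟨H, _, h1, h2, h3⟩ := exists_pow C hprod R _ (hfree G m hC) L
        (torDiv_coprod G m L hL'.1) _ hm k
      rcases gap2 H h1 _ (pow_pos hL _) h2 _ h3 with h | h
      · exact absurd h (by positivity)
      · refine h.trans ?_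
        push_cast
        rw [← mul_pow]
        refine pow_le_pow_left₀ (by positivity) ?_ _
        rw [hq]
        push_cast
        rw [mul_one_div, div_le_div_iff₀ (by positivity) (by norm_num)]
        have : (2 : ℝ) ≤ q := by exact_mod_cast hq2
        nlinarith
    obtain ⟨k, hk⟩ := exists_pow_lt_of_lt_one hε (by norm_num : (1 / 2 : ℝ) < 1)
    have h1 := hbound k
    have h2 : (1 / 2 : ℝ) ^ (k + 1) ≤ (1 / 2 : ℝ) ^ k :=
      pow_le_pow_of_le_one (by norm_num) (by norm_num) (Nat.le_succ k)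
    linarith
  intro t ht
  obtain ⟨z, hz⟩ := hcz t ((hM _).mpr ⟨t, ht, 0, by simp⟩)
  refine ⟨z, ?_⟩
  rw [hz, hq, hq1, mul_one]
  field_simp

/-- gap over `R` implies the strong Atiyah conjecture over `ℂ` -/
theorem gap_at_top (R : Subring ℂ) (ε : ℝ) (hε : 0 < ε)
    (hgap : ∀ (G : Type) [Group G], C G → ∀ d, 0 < d → IsLcm' G d → ∀ t ∈ DimSet R G,
      t = 0 ∨ ε ≤ d * t) (G : Type) [Group G] (hC : C G) : AtR ⊤ G :=
  base_change C hprod hfree R (fun G _ h => gap_at C hprod hfree R ε hε hgap G h) G hC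

end

/-- a gap for single elements of integral group rings implies the gap for matrices -/
theorem gap_elem (ε : ℝ)
    (hgap : ∀ (G : Type) [Group G], ∀ d, 0 < d → IsLcm' G d → ∀ a : GMat Unit Unit G, Coef ⊥ a →
      dk a = 0 ∨ ε ≤ d * dk a) :
    ∀ (G : Type) [Group G], ∀ d, 0 < d → IsLcm' G d → ∀ t ∈ DimSet ⊥ G, t = 0 ∨ ε ≤ d * t := by
  intro G _ d hd hd' t ht
  obtain ⟨a, n, A, hA, rfl⟩ := ht
  obtain ⟨B, hB, hBA⟩ := exists_square A hA
  have hdk : dk A = dk B := by unfold dk; rw [hBA]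
  rcases Nat.eq_zero_or_pos n with rfl | hn
  · left
    simp [dk, vdim]
  have : NeZero n := ⟨hn.ne'⟩
  obtain ⟨b, hb, hb'⟩ := exists_elem n (fun k i => B ((ZMod.finEquiv n).symm k)
    ((ZMod.finEquiv n).symm i)) (fun _ _ _ => hB _ _ _)
  have h1 : dk (fun k i => B ((ZMod.finEquiv n).symm k) ((ZMod.finEquiv n).symm i) :
      GMat (ZMod n) (ZMod n) G) = dk B :=
    dk_reindex (ZMod.finEquiv n).symm.toEquiv (ZMod.finEquiv n).symm.toEquiv B
  rw [h1, ← hdk] at hb'
  have h2n : (0 : ℝ) < 2 ^ n := by positivity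
  have htor : TorDiv (G × Hn n) (d * 2 ^ n) := torDiv_prod _ _ _ _ hd'.1 (torDiv_Hn n)
  obtain ⟨e, he, he'⟩ := exists_lcm _ _ (by positivity) htor
  rcases hgap _ e he he' b hb with h | h
  · left
    rw [hb', div_eq_zero_iff] at h
    exact h.resolve_right h2n.ne'
  · right
    refine h.trans ?_
    have h3 : (e : ℝ) ≤ d * 2 ^ n := by
      exact_mod_cast Nat.le_of_dvd (by positivity) (he'.2 _ htor)
    calc (e : ℝ) * dk b ≤ (d * 2 ^ n) * dk b := mul_le_mul_of_nonneg_right h3 (vdim_nonneg _)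
      _ = d * dk A := by rw [hb']; field_simp

end Pool.Agent.H80R2.BC
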