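import Pool.Agent.H80R2.BC.Final
import Pool.Agent.H80R2.BC.Amp

set_option autoImplicit false
set_option linter.unusedSectionVars false

/-! Dichotomies: amplification, finitely generated groups. -/

namespace Pool.Agent.H80R2.BC

open scoped ENNReal
open Module

theorem lcm_prod {G H : Type} [Group G] [Group H] {d e : ℕ} (hG : IsLcm' G d)
    (hH : IsLcm' H e) : IsLcm' (G × H) (d * e) := by
  refine ⟨torDiv_prod _ _ _ _ hG.1 hH.1, fun f hf => ?_⟩
  rcases Nat.eq_zero_or_pos f with h0 | h0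
  · rw [h0]
    exact dvd_zero _
  have key : ∀ (A : Subgroup G) (B : Subgroup H), Finite A → Finite B →
      Nat.card A * Nat.card B ∣ f := by
    intro A B hA hB
    have h1 : Nat.card (A.prod B) = Nat.card A * Nat.card B := by
      rw [Nat.card_congr (Subgroup.prodEquiv A B).toEquiv, Nat.card_prod]
    rw [← h1]
    refine hf _ ?_
    exact Finite.of_equiv _ (Subgroup.prodEquiv A B).toEquiv.symm
  have key2 : ∀ B : Subgroup H, Finite B → d * Nat.card B ∣ f := by
    intro B hB
    have hBpos : 0 < Nat.card B := Nat.card_pos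
    have hBf : Nat.card B ∣ f := by
      have := key ⊥ B inferInstance hB
      simpa using this
    obtain ⟨c, hc⟩ := hBf
    have : d ∣ c := by
      refine hG.2 c fun A hA => ?_
      have h2 := key A B hA hB
      rw [hc, mul_comm (Nat.card B) c] at h2
      exact Nat.dvd_of_mul_dvd_mul_right hBpos h2
    rw [hc, mul_comm]
    exact mul_dvd_mul_left _ this
  rcases Nat.eq_zero_or_pos d with hd | hd
  · have := key2 ⊥ inferInstance
    rw [hd, zero_mul, zero_dvd_iff] at this
    omega
  have hdf : d ∣ f := by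
    have := key2 ⊥ inferInstance
    exact dvd_of_mul_right_dvd this
  obtain ⟨c, hc⟩ := hdf
  have : e ∣ c := by
    refine hH.2 c fun B hB => ?_
    have h2 := key2 B hB
    rw [hc] at h2
    exact Nat.dvd_of_mul_dvd_mul_left hd h2
  rw [hc]
  exact mul_dvd_mul_left _ this

theorem lcm_Hn (n : ℕ) [NeZero n] : IsLcm' (Hn n) (2 ^ n) := by
  refine ⟨torDiv_Hn n, fun f hf => ?_⟩
  have h1 : Nat.card ((SemidirectProduct.inl : (ZMod n → ℤˣ) →* Hn n).range) = 2 ^ n := by
    rw [← Nat.card_congr (MonoidHom.ofInjective (f := (SemidirectProduct.inl :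
      (ZMod n → ℤˣ) →* Hn n)) SemidirectProduct.inl_injective).toEquiv,
      Nat.card_eq_fintype_card, Fintype.card_fun, ZMod.card]
    rfl
  rw [← h1]
  refine hf _ ?_
  exact Finite.of_equiv _ (MonoidHom.ofInjective (f := (SemidirectProduct.inl :
      (ZMod n → ℤˣ) →* Hn n)) SemidirectProduct.inl_injective).toEquiv

theorem fg_Hn (n : ℕ) [NeZero n] : Group.FG (Hn n) := by
  rw [Group.fg_iff]
  refine ⟨Set.range (SemidirectProduct.inl : (ZMod n → ℤˣ) →* Hn n) ∪
    {SemidirectProduct.inr (Multiplicative.ofAdd 1)}, ?_,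
    (Set.finite_range _).union (Set.finite_singleton _)⟩
  rw [eq_top_iff]
  intro x _
  rw [← SemidirectProduct.inl_left_mul_inr_right x]
  refine Subgroup.mul_mem _ (Subgroup.subset_closure (Or.inl ⟨_, rfl⟩)) ?_
  have : (SemidirectProduct.inr x.right : Hn n) =
      (SemidirectProduct.inr (Multiplicative.ofAdd (1 : ℤ)) : Hn n) ^ (x.right.toAdd) := by
    rw [← map_zpow, ← ofAdd_zsmul, smul_eq_mul, mul_one, ofAdd_toAdd]
  rw [this]
  refine zpow_mem (Subgroup.subset_closure ?_) _
  right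
  exact Set.mem_singleton _

/-- from a square matrix to a single element -/
theorem exists_elem' {G : Type} [Group G] {ι : Type} [Fintype ι] [Nonempty ι] (A : GMat ι ι G)
    (hA : Coef ⊥ A) (d : ℕ) (hd : IsLcm' G d) (hfg : Group.FG G) :
    ∃ (G' : Type) (_ : Group G') (d' : ℕ) (b : GMat Unit Unit G'), Group.FG G' ∧ (0 < d → 0 < d') ∧
      IsLcm' G' d' ∧ Coef ⊥ b ∧ (d' : ℝ) * dk b = d * dk A := by
  classical
  have hn : NeZero (Fintype.card ι) := ⟨Fintype.card_ne_zero⟩
  set n := Fintype.card ι with hn'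
  let e : ZMod n ≃ ι := (ZMod.finEquiv n).symm.toEquiv.trans (Fintype.equivFin ι).symm
  obtain ⟨b, hb, hb'⟩ := exists_elem n (fun k i => A (e k) (e i)) (fun _ _ _ => hA _ _ _)
  rw [dk_reindex e e A] at hb'
  have := fg_Hn n
  refine ⟨G × Hn n, inferInstance, d * 2 ^ n, b, inferInstance, fun h => by positivity,
    lcm_prod hd (lcm_Hn n), hb, ?_⟩
  rw [hb']
  push_cast
  field_simp

/-- gap for finitely generated groups implies gap for all groups -/
theorem gap_fg (ε : ℝ)
    (hgap : ∀ (G : Type) [Group G], Group.FG G → ∀ d, 0 < d → IsLcm' G d →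
      ∀ a : GMat Unit Unit G, Coef ⊥ a → dk a = 0 ∨ ε ≤ d * dk a) :
    ∀ (G : Type) [Group G], ∀ d, 0 < d → IsLcm' G d → ∀ a : GMat Unit Unit G, Coef ⊥ a →
      dk a = 0 ∨ ε ≤ d * dk a := by
  classical
  intro G _ d hd hd' a ha
  let G0 : Subgroup G := Subgroup.closure ((a () ()).support : Set G)
  have hfg : Group.FG G0 := Group.closure_finset_fg _
  let a0 : GMat Unit Unit G0 := fun _ _ =>
    (a () ()).comapDomain G0.subtype (G0.subtype_injective.injOn)
  have hpush : push G0.subtype a0 = a := by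
    funext i j
    show ((a () ()).comapDomain G0.subtype _).mapDomain G0.subtype = a () ()
    refine Finsupp.mapDomain_comapDomain _ G0.subtype_injective _ ?_
    intro g hg
    exact ⟨⟨g, Subgroup.subset_closure hg⟩, rfl⟩
  have hdk : dk a0 = dk a := by
    rw [← hpush]
    exact (dk_push G0.subtype G0.subtype_injective a0).symm
  have ha0 : Coef ⊥ a0 := by
    intro i j h
    exact ha () () _
  have htor : TorDiv G0 d := by
    intro H hH
    have h1 : Nat.card (H.map G0.subtype) = Nat.card H :=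
      Nat.card_congr (H.equivMapOfInjective _ G0.subtype_injective).symm.toEquiv
    rw [← h1]
    refine hd'.1 _ ?_
    exact Finite.of_equiv _ (H.equivMapOfInjective _ G0.subtype_injective).toEquiv
  obtain ⟨e, he, he'⟩ := exists_lcm G0 d hd htor
  rcases hgap G0 hfg e he he' a0 ha0 with h | h
  · left
    rw [← hdk, h]
  · right
    rw [hdk] at h
    refine h.trans (mul_le_mul_of_nonneg_right ?_ (vdim_nonneg _))
    exact_mod_cast Nat.le_of_dvd hd (he'.2 d htor)

/-- multiples of a small positive number meet every interval -/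
theorem exists_mult (s t y : ℝ) (hs : 0 ≤ s) (hy : 0 < y) (hyt : y < t - s) :
    ∃ N : ℕ, 0 < N ∧ s < N * y ∧ N * y < t := by
  refine ⟨⌊s / y⌋₊ + 1, Nat.succ_pos _, ?_, ?_⟩
  · have := Nat.lt_floor_add_one (s / y)
    rw [div_lt_iff₀ hy] at this
    push_cast
    exact this
  · have := Nat.floor_le (div_nonneg hs hy.le)
    rw [le_div_iff₀ hy] at this
    push_cast
    linarith

/-- dichotomy for single elements, internal form -/
theorem dich_elem (s t : ℝ) (hs : 0 ≤ s)
    (h : ∀ (G : Type) [Group G], Group.FG G → ∀ d, 0 < d → IsLcm' G d →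
      ∀ a : GMat Unit Unit G, Coef ⊥ a → ¬ (s < d * dk a ∧ d * dk a < t)) :
    ∀ (G : Type) [Group G], ∀ d, 0 < d → IsLcm' G d → ∀ a : GMat Unit Unit G, Coef ⊥ a →
      dk a = 0 ∨ t - s ≤ d * dk a := by
  refine gap_fg (t - s) ?_
  intro G _ hfg d hd hd' a ha
  by_contra hcon
  rw [not_or, not_le] at hcon
  have hpos : 0 < dk a := lt_of_le_of_ne (vdim_nonneg _) (Ne.symm hcon.1)
  have hdR : (0 : ℝ) < d := by exact_mod_cast hd
  obtain ⟨N, hN, hN1, hN2⟩ := exists_mult s t (d * dk a) hs (mul_pos hdR hpos) hcon.2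
  have : NeZero N := ⟨hN.ne'⟩
  obtain ⟨G', _, d', b, h1, h2, h3, h4, h5⟩ := exists_elem' (amp (N := N) a)
    (coef_amp ⊥ N a ha) d hd' hfg
  rw [dk_amp] at h5
  refine h G' h1 d' (h2 hd) h3 b h4 ?_
  rw [h5]
  constructor
  · linarith
  · linarith

/-- dichotomy for matrices over a class of groups, internal form -/
theorem dich_mat (C : (G : Type) → [Group G] → Prop) (R : Subring ℂ) (s t : ℝ) (hs : 0 ≤ s)
    (h : ∀ (G : Type) [Group G], C G → ∀ d, 0 < d → IsLcm' G d →
      ∀ x ∈ DimSet R G, ¬ (s < d * x ∧ d * x < t)) :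
    ∀ (G : Type) [Group G], C G → ∀ d, 0 < d → IsLcm' G d → ∀ x ∈ DimSet R G,
      x = 0 ∨ t - s ≤ d * x := by
  intro G _ hC d hd hd' x hx
  by_contra hcon
  rw [not_or, not_le] at hcon
  have hpos : 0 < x := lt_of_le_of_ne (dim_nonneg hx) (Ne.symm hcon.1)
  have hdR : (0 : ℝ) < d := by exact_mod_cast hd
  obtain ⟨N, hN, hN1, hN2⟩ := exists_mult s t (d * x) hs (mul_pos hdR hpos) hcon.2
  obtain ⟨a, n, A, hA, rfl⟩ := hx
  refine h G hC d hd hd' _ (mem_dim (amp (N := N) A) (coef_amp R N A hA)) ?_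
  rw [dk_amp]
  constructor
  · linarith
  · linarith

end Pool.Agent.H80R2.BC
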