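import Pool.Agent.H80R2.BC.Base

set_option autoImplicit false
set_option linter.unusedSectionVars false

/-! Assembly of the base change theorem: the case `dim ker P1 < dim ker (P0 + z P1)`. -/

namespace Pool.Agent.H80R2.BC

open scoped ENNReal
open Module

section coef
variable {κ ι G : Type} [Group G]

theorem coef_single {G : Type} (R : Subring ℂ) (g h : G) (a : ℂ) (ha : a ∈ R) :
    (Finsupp.single g a : G →₀ ℂ) h ∈ R := by
  classical
  rw [Finsupp.single_apply]
  split_ifs
  · exact ha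
  · exact R.zero_mem

theorem coef_amp (R : Subring ℂ) (N : ℕ) (A : GMat κ ι G) (hA : Coef R A) :
    Coef R (amp (N := N) A) := by
  intro k i h
  unfold amp
  split_ifs
  · exact hA _ _ _
  · exact R.zero_mem

theorem coef_Tm (R : Subring ℂ) (P0 P1 : GMat κ ι G) (h0 : Coef R P0) (h1 : Coef R P1) (l : ℕ) :
    Coef R (Tm P0 P1 l) := by
  classical
  intro k i h
  unfold Tm
  rw [Finsupp.add_apply]
  refine R.add_mem ?_ ?_
  · split_ifs
    · exact h0 _ _ _
    · exact R.zero_mem
  · split_ifs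
    · exact h1 _ _ _
    · exact R.zero_mem

theorem coef_Cut {η μ G' : Type} [Group G'] (R : Subring ℂ) (inc : G →* G')
    (hinc : Function.Injective inc) (u : ι → η → G') (A : GMat κ (ι × μ) G) (hA : Coef R A) :
    Coef R (Cut inc u A) := by
  classical
  rintro (k | k) i h
  · simp only [Cut, stack, Sum.elim_inl, push]
    exact coef_mapDomain R _ hinc _ (hA k i) _
  · simp only [Cut, stack, Sum.elim_inr, Th]
    split_ifs
    · exact coef_single R _ _ _ R.one_mem
    · exact R.zero_mem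

theorem coef_pen (R : Subring ℂ) (P0 P1 : GMat κ ι G) (h0 : Coef R P0) (h1 : Coef R P1) (z : ℂ)
    (hz : z ∈ R) : Coef R (pen P0 P1 z) := by
  intro k i h
  simp only [pen, Finsupp.add_apply, Finsupp.smul_apply, smul_eq_mul]
  exact R.add_mem (h0 _ _ _) (R.mul_mem hz (h1 _ _ _))

/-- the Atiyah property for matrices with arbitrary finite index sets -/
theorem AtR.fin {κ ι G : Type} [Group G] [Fintype κ] [Fintype ι] {R : Subring ℂ} (h : AtR R G)
    {d : ℕ} (hd : 0 < d) (ht : TorDiv G d) (A : GMat κ ι G) (hA : Coef R A) :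
    ∃ z : ℤ, (d : ℝ) * dk A = z := by
  obtain ⟨z, hz⟩ := h d hd ht (Fintype.card κ) (Fintype.card ι)
    (fun k i => A ((Fintype.equivFin κ).symm k) ((Fintype.equivFin ι).symm i))
    (fun k i g => hA _ _ _)
  refine ⟨z, ?_⟩
  rw [← hz, dk_reindex (Fintype.equivFin ι).symm (Fintype.equivFin κ).symm A]

end coef

theorem inl_inj (G : Type) [Group G] (m : ℕ) :
    Function.Injective (Monoid.Coprod.inl : G →* Monoid.Coprod G (FreeGroup (Fin m))) :=
  Monoid.Coprod.inl_injective

/-- maximisation over `Ψ` for `N` copies of a pencil and `j` generic conditions -/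
theorem krylov_amp (C : (G : Type) → [Group G] → Prop)
    (hfree : ∀ (G : Type) [Group G] (m : ℕ), C G → C (Monoid.Coprod G (FreeGroup (Fin m))))
    (R : Subring ℂ) (hAt : ∀ (G : Type) [Group G], C G → AtR R G)
    (T : Sys) (hC : C T.G) (d : ℕ) (hd : 0 < d) (ht : TorDiv T.G d)
    (h0 : Coef R T.P0) (h1 : Coef R T.P1) (N j : ℕ) (hj : (N : ℝ) * dk T.P1 < j) :
    ∃ a : Psi, (∃ z : ℤ, (d : ℝ) * (N * del T.P0 T.P1 a - j * a.c) = z) ∧
      ∀ b : Psi, N * del T.P0 T.P1 b - j * b.c ≤ N * del T.P0 T.P1 a - j * a.c := by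
  have key := krylov (G' := Monoid.Coprod T.G (FreeGroup (Fin
      (Fintype.card ((T.ι × Fin N) × Fin j))))) j Monoid.Coprod.inl (inl_inj T.G _)
    (fun p q => (Monoid.Coprod.inr : FreeGroup _ →* Monoid.Coprod T.G (FreeGroup _))
        (FreeGroup.of (Fintype.equivFin ((T.ι × Fin N) × Fin j) (p, q))))
    (generic_coprod T.G _ _) (amp (N := N) T.P0) (amp (N := N) T.P1)
    (by rw [dk_amp]; exact hj) d hd (fun l => by
      refine AtR.fin (hAt _ (hfree _ _ hC)) hd (torDiv_coprod _ _ _ ht) _ ?_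
      exact coef_Cut R _ (inl_inj T.G _) _ _
        (coef_Tm R _ _ (coef_amp R N _ h0) (coef_amp R N _ h1) l))
  simpa only [del_amp] using key

theorem pencil_lt (C : (G : Type) → [Group G] → Prop)
    (hprod : ∀ (G H : Type) [Group G] [Group H], C G → C H → C (G × H))
    (hfree : ∀ (G : Type) [Group G] (m : ℕ), C G → C (Monoid.Coprod G (FreeGroup (Fin m))))
    (R : Subring ℂ) (hAt : ∀ (G : Type) [Group G], C G → AtR R G)
    (S : Sys) (hC : C S.G) (L : ℕ) (hL : 0 < L) (ht : TorDiv S.G L)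
    (h0 : Coef R S.P0) (h1 : Coef R S.P1) (z : ℂ)
    (hz : dk S.P1 < dk (pen S.P0 S.P1 z)) :
    ∃ n : ℤ, (L : ℝ) * dk (pen S.P0 S.P1 z) = n := by
  have hrel : ∀ k, 1 ≤ k → Rel C R L S (S.pw (k - 1)) k := by
    intro k hk
    have := rel_pw C hprod R L S hC ht h0 h1 (k - 1)
    rwa [Nat.sub_add_cancel hk] at this
  refine arith (fun a : Psi => a.c) (fun k a => del (S.pw (k - 1)).P0 (S.pw (k - 1)).P1 a) L hL
    (dk S.P1) (dk (pen S.P0 S.P1 z)) (vdim_nonneg _) hz (fun k a => vdim_nonneg _) ?_ ?_ ?_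
  · -- M
    intro k N j hk _ hj
    have r := hrel k hk
    have hd : 0 < L ^ k := pow_pos hL k
    have := krylov_amp C hfree R hAt (S.pw (k - 1)) r.cls (L ^ k) hd r.tor r.c0 r.c1 N j
      (by rw [r.dinf]; exact hj)
    simpa only [Nat.cast_pow] using this
  · -- F1
    intro k a hk
    have r := hrel k hk
    by_cases hg : geo z ∈ a.sp
    · right
      obtain ⟨b, hb, hb'⟩ := psi_remove (S.pw (k - 1)).P0 (S.pw (k - 1)).P1 a z hg
      exact ⟨b, hb, by rw [← r.dz]; exact hb'⟩
    · left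
      obtain ⟨b, hb, _, _, hb'⟩ := psi_add (S.pw (k - 1)).P0 (S.pw (k - 1)).P1 a z hg
      exact ⟨b, hb, by rw [← r.dz]; exact hb'⟩
  · -- F3
    intro k a s hk hs H
    have r := hrel k hk
    refine psi_chain S.P0 S.P1 a s ?_
    intro l hl f z' hf
    obtain ⟨b, hb, hbc⟩ := psi_ker a l f z' hf
    have h3 := xw_split (S.pw (k - 1)).P0 (S.pw (k - 1)).P1 a b l f hb
    rw [del_eq _ _ a l hl, del_eq _ _ b l (by omega)] at h3
    have h4 := H b hbc
    have h5 := r.fim a l f
    have h6 : s ^ k ≤ vdim (fimg f (XW S.P0 S.P1 a l)) ^ k := by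
      refine le_trans ?_ h5
      linarith
    exact le_of_pow_le_pow_left₀ (by omega) (vdim_nonneg _) h6

end Pool.Agent.H80R2.BC
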