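import Pool.Agent.H80R2.BC.Step1

set_option autoImplicit false
set_option linter.unusedSectionVars false

/-! Assembly of the base change theorem: all pencils. -/

namespace Pool.Agent.H80R2.BC

open scoped ENNReal
open Module

section
variable {ι κ G : Type} [Group G] [Fintype ι] [Fintype κ]

/-- spaces of dimension `r` with `del ≥ r κ` if the kernels have dimension `≥ κ` at all points of an
infinite set -/
theorem exists_psi_ge (P0 P1 : GMat κ ι G) (E : Set ℂ) (hE : E.Infinite) (c : ℝ)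
    (hc : ∀ z ∈ E, c ≤ dk (pen P0 P1 z)) (r : ℕ) :
    ∃ Ψ : Psi, Ψ.c = r ∧ r * c ≤ del P0 P1 Ψ := by
  induction r with
  | zero =>
    refine ⟨⟨⊥, inferInstance, ?_⟩, ?_, ?_⟩
    · intro ψ hψ
      rw [Submodule.mem_bot] at hψ ⊢
      rw [hψ, map_zero]
    · simp [Psi.c]
    · rw [Nat.cast_zero, zero_mul]
      exact vdim_nonneg _
  | succ r ih =>
    obtain ⟨Ψ, h1, h2⟩ := ih
    obtain ⟨z, hz, hz'⟩ := hE.exists_notMem_finset (psi_finite_geo Ψ).toFinset
    rw [Set.Finite.mem_toFinset, Set.mem_ofPred_eq] at hz'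
    obtain ⟨Ψ', h3, _, _, h4⟩ := psi_add P0 P1 Ψ z hz'
    refine ⟨Ψ', by rw [h3, h1], ?_⟩
    have := hc z hz
    push_cast
    linarith

theorem del_le (P0 P1 : GMat κ ι G) (Ψ : Psi) (z : ℂ) :
    del P0 P1 Ψ ≤ Fintype.card ι + Ψ.c * dk (pen P0 P1 z) :=
  (vdim_mono inf_le_left).trans (vdim_Tm_le P0 P1 z Ψ.c)

/-- lower semicontinuity: an infinite set of large kernels forces all kernels to be large -/
theorem le_dk_pen (P0 P1 : GMat κ ι G) (E : Set ℂ) (hE : E.Infinite) (c : ℝ)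
    (hc : ∀ z ∈ E, c ≤ dk (pen P0 P1 z)) (z : ℂ) : c ≤ dk (pen P0 P1 z) := by
  by_contra hlt
  rw [not_le] at hlt
  obtain ⟨r, hr⟩ := exists_nat_gt ((Fintype.card ι : ℝ) / (c - dk (pen P0 P1 z)))
  rw [div_lt_iff₀ (by linarith)] at hr
  obtain ⟨Ψ, h1, h2⟩ := exists_psi_ge P0 P1 E hE c hc r
  have h3 := del_le P0 P1 Ψ z
  rw [h1] at h3
  nlinarith

end

theorem subring_infinite (R : Subring ℂ) : (R : Set ℂ).Infinite := by
  refine Set.infinite_of_injective_forall_mem (f := fun n : ℕ => (n : ℂ)) Nat.cast_injective ?_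
  intro n
  exact natCast_mem R n

theorem pencil_any (C : (G : Type) → [Group G] → Prop)
    (hprod : ∀ (G H : Type) [Group G] [Group H], C G → C H → C (G × H))
    (hfree : ∀ (G : Type) [Group G] (m : ℕ), C G → C (Monoid.Coprod G (FreeGroup (Fin m))))
    (R : Subring ℂ) (hAt : ∀ (G : Type) [Group G], C G → AtR R G)
    {κ ι G : Type} [Group G] [Fintype κ] [Fintype ι] (hC : C G) (L : ℕ) (hL : 0 < L)
    (ht : TorDiv G L) (P0 P1 : GMat κ ι G) (h0 : Coef R P0) (h1 : Coef R P1) (z : ℂ) :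
    ∃ n : ℤ, (L : ℝ) * dk (pen P0 P1 z) = n := by
  classical
  -- the values at points of `R` are in `ℕ / L`
  have hnat : ∀ c ∈ R, ∃ n : ℕ, (L : ℝ) * dk (pen P0 P1 c) = n := by
    intro c hc
    obtain ⟨n, hn⟩ := AtR.fin (hAt G hC) hL ht (pen P0 P1 c) (coef_pen R P0 P1 h0 h1 c hc)
    have h2 : (0 : ℝ) ≤ n := by
      rw [← hn]
      exact mul_nonneg (Nat.cast_nonneg _) (vdim_nonneg _)
    have h3 : 0 ≤ n := by exact_mod_cast h2
    refine ⟨n.toNat, ?_⟩
    rw [hn]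
    have : ((n.toNat : ℤ) : ℝ) = (n : ℝ) := by rw [Int.toNat_of_nonneg h3]
    exact_mod_cast this.symm
  -- the minimum
  have hex : ∃ n : ℕ, ∃ c ∈ R, (L : ℝ) * dk (pen P0 P1 c) = n := by
    obtain ⟨n, hn⟩ := hnat 0 R.zero_mem
    exact ⟨n, 0, R.zero_mem, hn⟩
  obtain ⟨c0, hc0, hmin0⟩ := Nat.find_spec hex
  have hLR : (0 : ℝ) < L := by exact_mod_cast hL
  have hmin : ∀ c ∈ R, dk (pen P0 P1 c0) ≤ dk (pen P0 P1 c) := by
    intro c hc
    obtain ⟨n, hn⟩ := hnat c hc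
    have := Nat.find_min' hex ⟨c, hc, hn⟩
    have h2 : (L : ℝ) * dk (pen P0 P1 c0) ≤ (L : ℝ) * dk (pen P0 P1 c) := by
      rw [hmin0, hn]
      exact_mod_cast this
    exact le_of_mul_le_mul_left h2 hLR
  by_cases hz : z = c0
  · subst hz
    exact ⟨_, by rw [hmin0, Int.cast_natCast]⟩
  have hκw : dk (pen P0 P1 c0) ≤ dk (pen P0 P1 z) :=
    le_dk_pen P0 P1 R (subring_infinite R) _ hmin z
  rcases hκw.eq_or_lt with heq | hlt
  · exact ⟨_, by rw [← heq, hmin0, Int.cast_natCast]⟩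
  have hzc : z - c0 ≠ 0 := sub_ne_zero.mpr hz
  have hpen : (pen P1 (pen P0 P1 c0) (z - c0)⁻¹ : GMat κ ι G) =
      fun k i => (z - c0)⁻¹ • pen P0 P1 z k i := by
    funext k i
    ext g
    simp only [pen, Finsupp.add_apply, Finsupp.smul_apply, smul_eq_mul]
    field_simp
    ring
  have hdk : dk (pen P1 (pen P0 P1 c0) (z - c0)⁻¹ : GMat κ ι G) = dk (pen P0 P1 z) := by
    unfold dk
    rw [hpen, pen_smul_kernel _ _ (inv_ne_zero hzc)]
  have := pencil_lt C hprod hfree R hAt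
    { κ := κ, ι := ι, G := G, P0 := P1, P1 := pen P0 P1 c0 } hC L hL ht h1
    (coef_pen R P0 P1 h0 h1 c0 hc0) ((z - c0)⁻¹) (by
      show dk (pen P0 P1 c0) < dk (pen P1 (pen P0 P1 c0) (z - c0)⁻¹)
      rw [hdk]
      exact hlt)
  simp only [hdk] at this
  exact this

end Pool.Agent.H80R2.BC
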