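import Pool.Agent.H80R2.BC.Defs

set_option autoImplicit false

namespace Pool.Agent.H80R2.BC.Stubs

open scoped ENNReal
open Module

/-! ### A: dimension theory (file Dim.lean) -/
section A
variable {ι κ μ G : Type} [Group G] [Fintype ι] [Fintype κ] [Fintype μ]

theorem vdim_nonneg (K : Submodule ℂ (L2 (ι × G))) : 0 ≤ vdim K := sorry

theorem vdim_le_card (K : Submodule ℂ (L2 (ι × G))) : vdim K ≤ Fintype.card ι := sorry

theorem vdim_mono {K K' : Submodule ℂ (L2 (ι × G))} (h : K ≤ K') : vdim K ≤ vdim K' := sorry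

theorem vdim_closure (K : Submodule ℂ (L2 (ι × G))) : vdim K.topologicalClosure = vdim K := sorry

theorem vdim_top : vdim (⊤ : Submodule ℂ (L2 (ι × G))) = Fintype.card ι := sorry

theorem eq_bot_of_vdim {K : Submodule ℂ (L2 (ι × G))} (hK : LInv K) (h : vdim K ≤ 0) :
    K = ⊥ := sorry

theorem vdim_split {K : Submodule ℂ (L2 (ι × G))} (hK : LInv K)
    (hc : IsClosed (K : Set (L2 (ι × G)))) (T : L2 (ι × G) →L[ℂ] L2 (κ × G)) (hT : Equi T) :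
    vdim K = vdim (K ⊓ LinearMap.ker (T : L2 (ι × G) →ₗ[ℂ] L2 (κ × G)))
      + vdim (K.map (T : L2 (ι × G) →ₗ[ℂ] L2 (κ × G))) := sorry

theorem dense_of_vdim {K K' : Submodule ℂ (L2 (ι × G))} (hK : LInv K) (hK' : LInv K')
    (h : K ≤ K') (hd : vdim K' ≤ vdim K) : K' ≤ K.topologicalClosure := sorry

theorem vdim_pt (Φ : Submodule ℂ (μ → ℂ)) :
    vdim (pt Φ : Submodule ℂ (L2 ((ι × μ) × G))) = Fintype.card ι * finrank ℂ Φ := sorry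

end A

/-! ### C: operators of matrices over `ℂG` (file Act.lean) -/
section C
variable {ι κ μ ι' κ' G G' : Type} [Group G] [Group G'] [Fintype ι] [Fintype κ] [Fintype μ]
  [Fintype ι'] [Fintype κ']

theorem exists_rho (A : GMat κ ι G) : ∃ T : L2 (ι × G) →L[ℂ] L2 (κ × G), Equi T ∧
    ∀ x k g, T x (k, g) = act A x k g := sorry

theorem kerA_closed (A : GMat κ ι G) : IsClosed (kerA A : Set (L2 (ι × G))) := sorry

theorem kerA_linv (A : GMat κ ι G) : LInv (kerA A) := sorry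

theorem pt_closed (Φ : Submodule ℂ (μ → ℂ)) :
    IsClosed ((pt Φ : Submodule ℂ (L2 ((ι × μ) × G))) : Set (L2 ((ι × μ) × G))) := sorry

theorem pt_linv (Φ : Submodule ℂ (μ → ℂ)) : LInv (pt Φ : Submodule ℂ (L2 ((ι × μ) × G))) := sorry

/-- induction from a subgroup does not change dimensions -/
theorem vdim_ind (inc : G →* G') (hinc : Function.Injective inc) (A : GMat κ (ι × μ) G)
    (Φ : Submodule ℂ (μ → ℂ)) :
    vdim (kerA (push inc A) ⊓ pt Φ) = vdim (kerA A ⊓ pt Φ) := sorry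

theorem dk_push (inc : G →* G') (hinc : Function.Injective inc) (A : GMat κ ι G) :
    dk (push inc A) = dk A := sorry

theorem dk_reindex (e : ι' ≃ ι) (e' : κ' ≃ κ) (A : GMat κ ι G) :
    dk (fun k i => A (e' k) (e i) : GMat κ' ι' G) = dk A := sorry

theorem dk_amp (N : ℕ) (A : GMat κ ι G) : dk (amp (N := N) A) = N * dk A := sorry

theorem del_amp (N : ℕ) (P0 P1 : GMat κ ι G) (Ψ : Psi) :
    del (amp (N := N) P0) (amp (N := N) P1) Ψ = N * del P0 P1 Ψ := sorry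

end C

/-! ### B: external products (file Prod.lean) -/
section B
variable {ι κ ι' κ' G G' : Type} [Group G] [Group G'] [Fintype ι] [Fintype κ]
  [Fintype ι'] [Fintype κ']

theorem vdim_extK (V : Submodule ℂ (L2 (ι × G))) (V' : Submodule ℂ (L2 (ι' × G')))
    (hV : IsClosed (V : Set (L2 (ι × G)))) (hV' : IsClosed (V' : Set (L2 (ι' × G')))) :
    vdim (extK V V') = vdim V * vdim V' := sorry

theorem kerA_ext (A : GMat κ ι G) (A' : GMat κ' ι' G') :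
    kerA (ext A A') = extK (kerA A) (kerA A') := sorry

theorem dk_ext (A : GMat κ ι G) (A' : GMat κ' ι' G') : dk (ext A A') = dk A * dk A' := sorry

theorem dk_pen_ext (P0 P1 : GMat κ ι G) (P0' P1' : GMat κ' ι' G') (z : ℂ) :
    dk (pen (ext P0 P0') (ext P1 P1') z) = dk (pen P0 P1 z) * dk (pen P0' P1' z) := sorry

theorem fimg_ext_le (P0 P1 : GMat κ ι G) (P0' P1' : GMat κ' ι' G') (Ψ : Psi) (l : ℕ)
    (f : (Fin (l + 1) → ℂ) →ₗ[ℂ] ℂ) :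
    vdim (fimg f (XW (ext P0 P0') (ext P1 P1') Ψ l)) ≤
      vdim (fimg f (XW P0 P1 Ψ l)) * vdim (fimg f (XW P0' P1' Ψ l)) := sorry

end B

/-! ### D: groups (file Grp.lean) -/
section D

theorem generic_coprod (G : Type) [Group G] {ι η : Type} (m : ℕ) (e : ι × η ≃ Fin m) :
    Generic (Monoid.Coprod.inl : G →* Monoid.Coprod G (FreeGroup (Fin m)))
      (fun p q => (Monoid.Coprod.inr : FreeGroup (Fin m) →* Monoid.Coprod G (FreeGroup (Fin m)))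
        (FreeGroup.of (e (p, q)))) := sorry

theorem torDiv_coprod (G : Type) [Group G] (m d : ℕ) (h : TorDiv G d) :
    TorDiv (Monoid.Coprod G (FreeGroup (Fin m))) d := sorry

theorem torDiv_prod (G H : Type) [Group G] [Group H] (d e : ℕ) (h : TorDiv G d)
    (h' : TorDiv H e) : TorDiv (G × H) (d * e) := sorry

end D

/-! ### E: the tree lemma (file Tree.lean) -/
section E
variable {ι κ μ G G' : Type} [Group G] [Group G'] [Fintype ι] [Fintype κ] [Fintype μ]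

theorem tree (j : ℕ) (inc : G →* G') (hinc : Function.Injective inc) (u : ι → Fin j → G')
    (hu : Generic inc u) (A : GMat κ (ι × μ) G) :
    vdim (kerA (Cut inc u A)) =
      vdim (kerA A ⊓ pt (vals (kerA (Cut inc u A)))) - j * finrank ℂ (vals (kerA (Cut inc u A))) :=
  sorry

theorem tree_ge (j : ℕ) (inc : G →* G') (hinc : Function.Injective inc) (u : ι → Fin j → G')
    (A : GMat κ (ι × μ) G) (Φ : Submodule ℂ (μ → ℂ)) :
    vdim (kerA A ⊓ pt Φ) - j * finrank ℂ Φ ≤ vdim (kerA (Cut inc u A)) := sorry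

end E

/-! ### G: spaces `Ψ` of sequences (file PsiF.lean) -/
section G
variable {ι κ G : Type} [Group G] [Fintype ι] [Fintype κ]

/-- a sequence in `Ψ` vanishing on `0..l`, `l+1 ≥ dim Ψ`, is zero -/
theorem psi_inj (Ψ : Psi) (m : ℕ) (hm : Ψ.c ≤ m) (ψ : ℕ → ℂ) (h : ψ ∈ Ψ.sp)
    (h0 : res m ψ = 0) : ψ = 0 := sorry

theorem xw_extend (P0 P1 : GMat κ ι G) (Ψ : Psi) (l : ℕ) (hl : Ψ.c ≤ l) :
    ∀ x ∈ XW P0 P1 Ψ l, ∃ y ∈ XW P0 P1 Ψ (l + 1), ∀ p (i : Fin (l + 1)) g,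
      y ((p, i.castSucc), g) = x ((p, i), g) := sorry

theorem del_eq (P0 P1 : GMat κ ι G) (Ψ : Psi) (l : ℕ) (hl : Ψ.c ≤ l) :
    vdim (XW P0 P1 Ψ l) = del P0 P1 Ψ := sorry

theorem xw_split (P0 P1 : GMat κ ι G) (Ψ Ψ' : Psi) (l : ℕ) (f : (Fin (l + 1) → ℂ) →ₗ[ℂ] ℂ)
    (hΨ : ∀ ψ, ψ ∈ Ψ'.sp ↔ (ψ ∈ Ψ.sp ∧ f (res (l + 1) ψ) = 0)) :
    vdim (XW P0 P1 Ψ l) = vdim (XW P0 P1 Ψ' l) + vdim (fimg f (XW P0 P1 Ψ l)) := sorry

theorem fimg_le (P0 P1 : GMat κ ι G) (Ψ : Psi) (l : ℕ) (hl : Ψ.c ≤ l)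
    (f : (Fin (l + 1) → ℂ) →ₗ[ℂ] ℂ) (z : ℂ) (hf : Eig Ψ l f z) :
    fimg f (XW P0 P1 Ψ l) ≤ kerA (pen P0 P1 z) := sorry

theorem psi_add (P0 P1 : GMat κ ι G) (Ψ : Psi) (z : ℂ) (hz : geo z ∉ Ψ.sp) :
    ∃ Ψ' : Psi, Ψ'.c = Ψ.c + 1 ∧ Ψ.sp ≤ Ψ'.sp ∧ geo z ∈ Ψ'.sp ∧
      del P0 P1 Ψ + dk (pen P0 P1 z) ≤ del P0 P1 Ψ' := sorry

theorem psi_remove (P0 P1 : GMat κ ι G) (Ψ : Psi) (z : ℂ) (hz : geo z ∈ Ψ.sp) :
    ∃ Ψ' : Psi, Ψ'.c + 1 = Ψ.c ∧ del P0 P1 Ψ - dk (pen P0 P1 z) ≤ del P0 P1 Ψ' := sorry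

/-- the kernel of an eigenfunctional -/
theorem psi_ker (Ψ : Psi) (l : ℕ) (f : (Fin (l + 1) → ℂ) →ₗ[ℂ] ℂ) (z : ℂ) (hf : Eig Ψ l f z) :
    ∃ Ψ' : Psi, (∀ ψ, ψ ∈ Ψ'.sp ↔ (ψ ∈ Ψ.sp ∧ f (res (l + 1) ψ) = 0)) ∧ Ψ'.c + 1 = Ψ.c := sorry

theorem psi_finite_geo (Ψ : Psi) : {z : ℂ | geo z ∈ Ψ.sp}.Finite := sorry

theorem psi_chain (P0 P1 : GMat κ ι G) (Ψ : Psi) (s : ℝ)
    (h : ∀ l, Ψ.c ≤ l → ∀ f z, Eig Ψ l f z → s ≤ vdim (fimg f (XW P0 P1 Ψ l))) :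
    s * Ψ.c ≤ del P0 P1 Ψ := sorry

end G

/-! ### S: bounds for the solution spaces (file Sol.lean) -/
section S
variable {ι κ G : Type} [Group G] [Fintype ι] [Fintype κ]

theorem vdim_Tm_le_inf (P0 P1 : GMat κ ι G) (l : ℕ) :
    vdim (kerA (Tm P0 P1 l)) ≤ Fintype.card ι + l * dk P1 := sorry

theorem vdim_Tm_le (P0 P1 : GMat κ ι G) (z : ℂ) (l : ℕ) :
    vdim (kerA (Tm P0 P1 l)) ≤ Fintype.card ι + l * dk (pen P0 P1 z) := sorry

end S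

/-! ### F: Krylov stabilisation (file Krylov.lean) -/
section F
variable {ι κ G G' : Type} [Group G] [Group G'] [Fintype ι] [Fintype κ]

theorem krylov (j : ℕ) (inc : G →* G') (hinc : Function.Injective inc) (u : ι → Fin j → G')
    (hu : Generic inc u) (P0 P1 : GMat κ ι G) (hj : dk P1 < j) (L : ℕ) (hL : 0 < L)
    (hint : ∀ l, ∃ z : ℤ, (L : ℝ) * dk (Cut inc u (Tm P0 P1 l)) = z) :
    ∃ Ψ : Psi, (∃ z : ℤ, (L : ℝ) * (del P0 P1 Ψ - j * Ψ.c) = z) ∧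
      ∀ Ψ' : Psi, del P0 P1 Ψ' - j * Ψ'.c ≤ del P0 P1 Ψ - j * Ψ.c := sorry

end F

/-! ### I: the final optimisation and arithmetic (file Arith.lean) -/
section I

theorem arith {α : Type} (c : α → ℕ) (δ : ℕ → α → ℝ) (L : ℕ) (hL : 0 < L) (κ w : ℝ)
    (hκ : 0 ≤ κ) (hw : κ < w) (hδ : ∀ k a, 0 ≤ δ k a)
    (M : ∀ k N j : ℕ, 1 ≤ k → 1 ≤ N → (N : ℝ) * κ ^ k < j → ∃ a : α,
      (∃ z : ℤ, (L : ℝ) ^ k * (N * δ k a - j * c a) = z) ∧
      ∀ b : α, N * δ k b - j * c b ≤ N * δ k a - j * c a)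
    (F1 : ∀ k a, 1 ≤ k → (∃ b, c b = c a + 1 ∧ δ k a + w ^ k ≤ δ k b) ∨
      (∃ b, c b + 1 = c a ∧ δ k a - w ^ k ≤ δ k b))
    (F3 : ∀ k a (s : ℝ), 1 ≤ k → 0 ≤ s → (∀ b, c b + 1 = c a → δ k b ≤ δ k a - s ^ k) →
      s * c a ≤ δ 1 a) :
    ∃ z : ℤ, (L : ℝ) * w = z := sorry

end I

end Pool.Agent.H80R2.BC.Stubs
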