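import Pool.Agent.H80R2.BC.DefsX

set_option autoImplicit false

namespace Pool.Agent.H80R2.BC.StubsX

open scoped ENNReal
open Module

/-! ### X1 (file DSum.lean) -/
theorem dk_dsum {κ ι κ' ι' G : Type} [Group G] [Fintype κ] [Fintype ι] [Fintype κ'] [Fintype ι']
    (A : GMat κ ι G) (B : GMat κ' ι' G) : dk (dsum A B) = dk A + dk B := sorry

/-! ### X2 (file Chi.lean) -/
theorem dk_chi {H : Type} [Group H] [Fintype H] (χ : H → ℂ) (h1 : ∀ a b, χ (a * b) = χ a * χ b)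
    (h2 : ∀ a, ‖χ a‖ = 1) : dk (chi χ) = 1 / Fintype.card H := sorry

/-! ### X3 (file Mon.lean) -/
theorem submonoid_gap (M : AddSubmonoid ℝ) (h1 : (1 : ℝ) ∈ M) (h2 : (-1 : ℝ) ∈ M) (ε : ℝ)
    (hε : 0 < ε) (hgap : ∀ x ∈ M, x ≤ 0 ∨ ε ≤ x) :
    ∃ c : ℕ, 0 < c ∧ (1 / c : ℝ) ∈ M ∧ ∀ x ∈ M, ∃ z : ℤ, x = z / c := sorry

/-! ### X4 (file Star.lean) -/
theorem exists_square {κ ι G : Type} [Group G] [Fintype κ] [Fintype ι] (A : GMat κ ι G)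
    (hA : Coef ⊥ A) : ∃ B : GMat ι ι G, Coef ⊥ B ∧ kerA B = kerA A := sorry

/-! ### X5 (file Elem.lean) -/
theorem torDiv_Hn (n : ℕ) [NeZero n] : TorDiv (Hn n) (2 ^ n) := sorry

theorem exists_elem (n : ℕ) [NeZero n] {G : Type} [Group G] (A : GMat (ZMod n) (ZMod n) G)
    (hA : Coef ⊥ A) :
    ∃ B : GMat Unit Unit (G × Hn n), Coef ⊥ B ∧ dk B = dk A / 2 ^ n := sorry

end Pool.Agent.H80R2.BC.StubsX
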